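import Mathlib
set_option autoImplicit false
noncomputable section
open MeasureTheory

namespace FanRD

section abs
variable {I : Type*} [Fintype I] [DecidableEq I]

/-- `1` if `i` is the strict argmax and `j` the strict argmin of `y`, else `0`. -/
def ind (i j : I) (y : I → ℝ) : ℝ :=
  open Classical in
  if (∀ m, m ≠ i → y m < y i) ∧ (∀ m, m ≠ j → y j < y m) then 1 else 0

/-- values at the point `e` of the unit circle -/
def pt (w : I → ℂ) (B : I → ℝ) (e : ℂ) : I → ℝ := fun i => B i + (w i * e).re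

def LL (lam : I → I → ℝ) (y : I → ℝ) : ℝ := ∑ i, ∑ j, lam i j * ind i j y

def tau (i j : I) (w : I → ℂ) (B : I → ℝ) : ℝ :=
  ∫ θ in (0:ℝ)..(2 * Real.pi), ind i j (pt w B (Complex.exp (θ * Complex.I)))

def TT (lam : I → I → ℝ) (w : I → ℂ) (B : I → ℝ) : ℝ :=
  ∑ i, ∑ j, lam i j * tau i j w B

/-- top part of the jump when `i` passes above `m` (at a point where `y i = y m`) -/
def JT (lam : I → I → ℝ) (i m : I) (y : I → ℝ) : ℝ :=
  open Classical in
  if (∀ p, p ≠ i → p ≠ m → y p < y i) then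
    ∑ j, (if j ≠ i ∧ j ≠ m ∧ (∀ p, p ≠ j → y j < y p) then lam i j - lam m j else 0)
  else 0

/-- bottom part of the jump -/
def JB (lam : I → I → ℝ) (i m : I) (y : I → ℝ) : ℝ :=
  open Classical in
  if (∀ p, p ≠ i → p ≠ m → y i < y p) then
    ∑ k, (if k ≠ i ∧ k ≠ m ∧ (∀ p, p ≠ k → y p < y k) then lam k i - lam k m else 0)
  else 0

def JJ (lam : I → I → ℝ) (i m : I) (y : I → ℝ) : ℝ := JT lam i m y - JB lam i m y

/-- the two points of the unit circle with `(W * e).re = -b` (when `|b| < ‖W‖`) -/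
def cr (W : ℂ) (b : ℝ) (σ : ℝ) : ℂ :=
  (starRingEnd ℂ W) * ((-b : ℝ) + (σ * Real.sqrt (‖W‖ ^ 2 - b ^ 2) : ℝ) * Complex.I) / ((‖W‖ ^ 2 : ℝ) : ℂ)

def kap (lam : I → I → ℝ) (i m : I) (w : I → ℂ) (B : I → ℝ) : ℝ :=
  JJ lam i m (pt w B (cr (w i - w m) (B i - B m) 1)) +
  JJ lam i m (pt w B (cr (w i - w m) (B i - B m) (-1)))

/-- regular orbits: no tangency, and no two different pairs tie at the same time -/
def Reg (w : I → ℂ) (B : I → ℝ) : Prop :=
  (∀ i m, i ≠ m → |B i - B m| ≠ ‖w i - w m‖) ∧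
  (∀ i m p r, i ≠ m → p ≠ r → ¬ (i = p ∧ m = r) → ¬ (i = r ∧ m = p) →
    ∀ e : ℂ, ‖e‖ = 1 → ¬ (pt w B e i = pt w B e m ∧ pt w B e p = pt w B e r))

end abs

abbrev Co (l : ℕ) := ℂ × ℂ × (Fin l → ℝ) × ℝ
abbrev X (l : ℕ) := ℂ × ℂ × (Fin l → ℝ)
abbrev Fan (l : ℕ) := Fin (l + 5) → Co l

variable {l : ℕ}

def om (a : Co l) (x : X l) : ℂ := a.1 * x.1 + a.2.1 * x.2.1
def bb (a : Co l) (x : X l) : ℝ := ∑ k, a.2.2.1 k * x.2.2 k
def lin (a : Co l) (x : X l) : ℝ := (om a x).re + bb a x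
def ev (a : Co l) (x : X l) : ℝ := (om a x).re + bb a x + a.2.2.2

def WW (A : Fan l) (x : X l) : Fin (l + 5) → ℂ := fun i => om (A i) x
def BB (A : Fan l) (x : X l) : Fin (l + 5) → ℝ := fun i => bb (A i) x + (A i).2.2.2

def FReg (A : Fan l) (x : X l) : Prop := Reg (WW A x) (BB A x)

/-- nondegenerate fans -/
def ND (A : Fan l) : Prop := ∀ x : X l, (∀ i, lin (A i) x = lin (A 0) x) → x = 0

/-- `λ` is in the kernel of the fan `A` -/
def InK (A : Fan l) (lam : Fin (l + 5) → Fin (l + 5) → ℝ) : Prop :=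
  ∃ C : ℝ, ∀ x, FReg A x → TT lam (WW A x) (BB A x) = C

/-- `m` is in no affine dependency of the `b_i` with support of size at most 4 -/
def Typ (A : Fan l) (m : Fin (l + 5)) : Prop :=
  ∀ ν : Fin (l + 5) → ℝ, (∑ i, ν i = 0) → (∀ k, ∑ i, ν i * (A i).2.2.1 k = 0) →
    (Finset.univ.filter (fun i => ν i ≠ 0)).card ≤ 4 → ν m = 0

/-- same `C²`-part -/
def SA (A : Fan l) (i m : Fin (l + 5)) : Prop := (A i).1 = (A m).1 ∧ (A i).2.1 = (A m).2.1

/-- same `B`-part (gradient in `v` and constant) -/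
def SB (A : Fan l) (i m : Fin (l + 5)) : Prop := (A i).2.2 = (A m).2.2

/-- the class of `i` with respect to `m` -/
def cl (A : Fan l) (i m : Fin (l + 5)) : Finset (Fin (l + 5)) :=
  open Classical in
  Finset.univ.filter (fun s => SB A s i ∧ ∃ e : ℂ, ‖e‖ = 1 ∧
    (A s).1 - (A m).1 = e * ((A i).1 - (A m).1) ∧ (A s).2.1 - (A m).2.1 = e * ((A i).2.1 - (A m).2.1))

/-- rotation of `x` -/
def rot {l : ℕ} (e : ℂ) (x : X l) : X l := (e * x.1, e * x.2.1, x.2.2)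

/-- the off-diagonal pairs -/
abbrev Cell (l : ℕ) := {q : Fin (l + 5) × Fin (l + 5) // q.1 ≠ q.2}

/-- countable family of small balls -/
def cen (l : ℕ) (k : ℕ) : X l := TopologicalSpace.denseSeq (X l) (Nat.unpair k).1
def rad (k : ℕ) : ℝ := 1 / ((Nat.unpair k).2 + 1 : ℝ)
def ball' (l : ℕ) (k : ℕ) : Set (X l) := Metric.ball (cen l k) (rad k)

/-- normalisation -/
def ck (l : ℕ) (k : ℕ) : ℝ :=
  1 / ((1 + 4 * Real.pi * (volume (Metric.closedBall (0 : X l) 1)).toReal) * (2 + ‖cen l k‖) ^ (l + 6))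

def wk (l : ℕ) (k : ℕ) (A : Fan l) : Cell l → ℝ := fun q =>
  ck l k * ((∫ x in ball' l k, tau q.1.1 q.1.2 (WW A x) (BB A x)) -
    2 * Real.pi * (volume (ball' l k)).toReal / ((l + 5 : ℝ) * (l + 4)))

theorem TT_add' {I : Type*} [Fintype I] [DecidableEq I] (lam mu : I → I → ℝ) (w : I → ℂ) (B : I → ℝ) :
    TT (lam + mu) w B = TT lam w B + TT mu w B := by
  simp only [TT, Pi.add_apply, add_mul, Finset.sum_add_distrib]

theorem TT_smul' {I : Type*} [Fintype I] [DecidableEq I] (c : ℝ) (lam : I → I → ℝ) (w : I → ℂ) (B : I → ℝ) :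
    TT (c • lam) w B = c * TT lam w B := by
  simp only [TT, Pi.smul_apply, smul_eq_mul, Finset.mul_sum, mul_assoc]

/-- the kernel of a fan as a subspace (we also ask for a zero diagonal) -/
def KK (A : Fan l) : Submodule ℝ (Fin (l + 5) → Fin (l + 5) → ℝ) where
  carrier := {lam | (∀ i, lam i i = 0) ∧ InK A lam}
  add_mem' := by
    rintro a b ⟨ha, C, hC⟩ ⟨hb, D, hD⟩
    refine ⟨fun i => by simp [ha i, hb i], C + D, fun x hx => ?_⟩
    rw [TT_add', hC x hx, hD x hx]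
  zero_mem' := ⟨fun i => rfl, 0, fun x hx => by simp [TT]⟩
  smul_mem' := by
    rintro c a ⟨ha, C, hC⟩
    refine ⟨fun i => by simp [ha i], c * C, fun x hx => ?_⟩
    rw [TT_smul', hC x hx]

/-- opposite fan -/
def negF (A : Fan l) : Fan l := fun i => -A i

/-- translate of a fan by a common affine functional (does not change any cell) -/
def subF (A : Fan l) (f : Co l) : Fan l := fun i => A i - f

/-- normalisation by a common functional and a complex scale -/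
def nrm (γ : ℂ) (f : Co l) (A : Fan l) : Fan l := fun i =>
  (((A i).1 - f.1) / γ, ((A i).2.1 - f.2.1) / γ,
    (fun k => ((A i).2.2.1 k - f.2.2.1 k) / ‖γ‖), ((A i).2.2.2 - f.2.2.2) / ‖γ‖)

/-- linear parts pairwise distinct -/
def LD (A : Fan l) : Prop := ∀ i m : Fin (l + 5), i ≠ m →
  ((A i).1, (A i).2.1, (A i).2.2.1) ≠ ((A m).1, (A m).2.1, (A m).2.2.1)

/-- affine dependencies of the `b`-parts -/
def DD (A : Fan l) : Submodule ℝ (Fin (l + 5) → ℝ) where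
  carrier := {ν | (∑ i, ν i = 0) ∧ ∀ k, ∑ i, ν i * (A i).2.2.1 k = 0}
  add_mem' := by
    rintro a b ⟨ha, ha'⟩ ⟨hb, hb'⟩
    refine ⟨by simp [Finset.sum_add_distrib, ha, hb], fun k => ?_⟩
    simp [add_mul, Finset.sum_add_distrib, ha' k, hb' k]
  zero_mem' := by simp
  smul_mem' := by
    rintro c a ⟨ha, ha'⟩
    refine ⟨by simp [← Finset.mul_sum, ha], fun k => ?_⟩
    simp [mul_assoc, ← Finset.mul_sum, ha' k]

/-- phase relation: `A p = e * A q` on the `ℂ²`-part and equal `B`-part -/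
def Ph (A : Fan l) (p q : Fin (l + 5)) : Prop :=
  SB A p q ∧ ∃ e : ℂ, ‖e‖ = 1 ∧ (A p).1 = e * (A q).1 ∧ (A p).2.1 = e * (A q).2.1

/-- the degenerate situation: every element of `W` has zero `ℂ²`-part, the others come in classes
(fibres of `ρ`) with at least two elements, a class = a `Ph`-class -/
structure Deg (A : Fan l) (W : Finset (Fin (l + 5))) (ρ : Fin (l + 5) → Fin (l + 5)) : Prop where
  zero : ∀ m ∈ W, (A m).1 = 0 ∧ (A m).2.1 = 0
  nz : ∀ p, p ∉ W → ¬ ((A p).1 = 0 ∧ (A p).2.1 = 0)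
  fix : ∀ m ∈ W, ρ m = m
  maps : ∀ p, p ∉ W → ρ p ∉ W
  idem : ∀ p, ρ (ρ p) = ρ p
  cls : ∀ p q, p ∉ W → q ∉ W → (ρ p = ρ q ↔ Ph A p q)
  ns : ∀ p, p ∉ W → ∃ q, q ≠ p ∧ ρ q = ρ p

/-- `j` is the strict minimum along the whole orbit of `x` -/
def Bot (A : Fan l) (j : Fin (l + 5)) : Set (X l) :=
  {x | ∀ e : ℂ, ‖e‖ = 1 → ∀ i, i ≠ j → pt (WW A x) (BB A x) e j < pt (WW A x) (BB A x) e i}

/-- number of elements that are not representatives of their class -/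
def cN (ρ : Fin (l + 5) → Fin (l + 5)) : ℕ := (Finset.univ.filter (fun p => ρ p ≠ p)).card

/-- possible rows: vectors on the complement of `W` orthogonal to the shares `tau p j` on `Bot A j` -/
def Vt (A : Fan l) (W : Finset (Fin (l + 5))) (j : Fin (l + 5)) : Submodule ℝ (Fin (l + 5) → ℝ) where
  carrier := {r | (∀ m ∈ W, r m = 0) ∧
    ∀ x ∈ Bot A j, FReg A x → ∑ p, r p * tau p j (WW A x) (BB A x) = 0}
  add_mem' := by
    rintro a b ⟨ha, ha'⟩ ⟨hb, hb'⟩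
    refine ⟨fun m hm => by simp [ha m hm, hb m hm], fun x hx hr => ?_⟩
    simp [add_mul, Finset.sum_add_distrib, ha' x hx hr, hb' x hx hr]
  zero_mem' := by simp
  smul_mem' := by
    rintro c a ⟨ha, ha'⟩
    refine ⟨fun m hm => by simp [ha m hm], fun x hx hr => ?_⟩
    simp [mul_assoc, ← Finset.mul_sum, ha' x hx hr]

/-- non-rotational degenerate fans -/
def NR (A : Fan l) (W : Finset (Fin (l + 5))) (ρ : Fin (l + 5) → Fin (l + 5)) : Prop :=
  ∃ x y x' : Fin (l + 5), x ∉ W ∧ x' ∉ W ∧ x ≠ y ∧ ρ x = ρ y ∧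
    (¬ ∃ η : ℂ, (A x').1 = η * (A x).1 ∧ (A x').2.1 = η * (A x).2.1) ∧
    ∃ e : ℂ, ‖e‖ = 1 ∧ (A y).1 = e * (A x).1 ∧ (A y).2.1 = e * (A x).2.1 ∧
      ∀ x'', ρ x'' = ρ x' → ¬ ((A x'').1 = e * (A x').1 ∧ (A x'').2.1 = e * (A x').2.1)

/-- rotational degenerate fans: the rotation by `g` permutes the fan via `σ` -/
structure Rot (A : Fan l) (W : Finset (Fin (l + 5))) (ρ : Fin (l + 5) → Fin (l + 5)) (k : ℕ) (g : ℂ)
    (σ : Equiv.Perm (Fin (l + 5))) : Prop where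
  k2 : 2 ≤ k
  g1 : g ^ k = 1
  fixW : ∀ m ∈ W, σ m = m
  sA : ∀ p, p ∉ W → (A (σ p)).1 = g * (A p).1 ∧ (A (σ p)).2.1 = g * (A p).2.1
  sB : ∀ p, SB A (σ p) p
  rho : ∀ p, ρ (σ p) = ρ p
  ord : σ ^ k = 1
  free : ∀ p, p ∉ W → ∀ i, 0 < i → i < k → (σ ^ i) p ≠ p
  cyc : ∀ p q, p ∉ W → ρ p = ρ q → ∃ i, i < k ∧ q = (σ ^ i) p

/-- a component of the `ℂ²`-part -/
def cmp (a0 : Bool) (c : Co l) : ℂ := if a0 then c.1 else c.2.1

end FanRD
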