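import Mathlib
import Pool.Agent.FanRD.Defs
set_option autoImplicit false
set_option maxHeartbeats 4000000
noncomputable section
open MeasureTheory

namespace FanRD

variable {l : ℕ}


theorem AT_sel {ι : Type*} [Finite ι] {V : Type*} [AddCommGroup V] [Module ℝ V] (v : ι → V)
    (n : ℕ) (h : n ≤ Module.finrank ℝ (Submodule.span ℝ (Set.range v))) :
    ∃ f : Fin n → ι, LinearIndependent ℝ (v ∘ f) := by
  obtain ⟨κ, a, ha, hspan, hli⟩ := exists_linearIndependent' ℝ v
  have : Finite κ := Finite.of_injective a ha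
  have := Fintype.ofFinite κ
  rw [← hspan, finrank_span_eq_card hli] at h
  obtain ⟨g⟩ := Function.Embedding.nonempty_of_card_le (α := Fin n) (β := κ) (by simpa using h)
  exact ⟨a ∘ g, hli.comp g g.injective⟩

theorem AT_minor {ι C : Type*} [Finite ι] [Fintype C] (v : ι → (C → ℝ))
    (n : ℕ) (h : n ≤ Module.finrank ℝ (Submodule.span ℝ (Set.range v))) :
    ∃ (κ : Fin n → ι) (ρ : Fin n → C),
      (Matrix.of fun (i a : Fin n) => v (κ a) (ρ i)).det ≠ 0 := by
  obtain ⟨κ, hκ⟩ := AT_sel v n h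
  let B : Matrix (Fin n) C ℝ := Matrix.of fun a c => v (κ a) c
  have hB : B.rank = n := by
    have : LinearIndependent ℝ B.row := hκ
    rw [this.rank_matrix, Fintype.card_fin]
  have hBt : n ≤ Module.finrank ℝ (Submodule.span ℝ (Set.range B.col)) := by
    rw [← Matrix.rank_eq_finrank_span_cols, hB]
  obtain ⟨ρ, hρ⟩ := AT_sel B.col n hBt
  refine ⟨κ, ρ, ?_⟩
  have h2 : LinearIndependent ℝ (Matrix.of fun (i a : Fin n) => v (κ a) (ρ i)).row := hρ
  rw [Matrix.linearIndependent_rows_iff_isUnit] at h2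
  exact ((Matrix.isUnit_iff_isUnit_det _).1 h2).ne_zero

theorem AT_contDiffAt_det {X : Type*} [NormedAddCommGroup X] [NormedSpace ℝ X] {n : ℕ}
    (A : X → Matrix (Fin n) (Fin n) ℝ) (x : X) (h : ∀ i j, ContDiffAt ℝ 1 (fun y => A y i j) x) :
    ContDiffAt ℝ 1 (fun y => (A y).det) x := by
  simp only [Matrix.det_apply]
  refine ContDiffAt.sum fun σ _ => ?_
  refine ContDiffAt.const_smul _ ?_
  exact contDiffAt_prod fun i _ => h _ _

/-- solving by Cramer's rule -/
def AT_G {C : Type*} {K n : ℕ} (κ : Fin n → Fin K) (ρ : Fin n → C)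
    (q : (Fin K → C → ℝ) × (C → ℝ) × (Fin K → ℝ)) : Fin K → ℝ :=
  open Classical in fun k => if h : ∃ a, κ a = k then
     ((Matrix.of fun (i a : Fin n) => q.1 (κ a) (ρ i)).updateCol h.choose
        (fun i => q.2.1 (ρ i) - ∑ k' ∈ (Finset.univ.image κ)ᶜ, q.2.2 k' * q.1 k' (ρ i))).det /
        (Matrix.of fun (i a : Fin n) => q.1 (κ a) (ρ i)).det
    else q.2.2 k

theorem AT_G_contDiffAt {C : Type*} [Fintype C] {K n : ℕ} (κ : Fin n → Fin K) (ρ : Fin n → C)
    (q : (Fin K → C → ℝ) × (C → ℝ) × (Fin K → ℝ))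
    (hq : (Matrix.of fun (i a : Fin n) => q.1 (κ a) (ρ i)).det ≠ 0) :
    ContDiffAt ℝ 1 (AT_G κ ρ) q := by
  classical
  have e1 : ∀ (k : Fin K) (c : C), ContDiffAt ℝ 1
      (fun y : (Fin K → C → ℝ) × (C → ℝ) × (Fin K → ℝ) => y.1 k c) q := by
    intro k c
    fun_prop
  have e2 : ∀ (c : C), ContDiffAt ℝ 1
      (fun y : (Fin K → C → ℝ) × (C → ℝ) × (Fin K → ℝ) => y.2.1 c) q := by
    intro c
    fun_prop
  have e3 : ∀ (k : Fin K), ContDiffAt ℝ 1
      (fun y : (Fin K → C → ℝ) × (C → ℝ) × (Fin K → ℝ) => y.2.2 k) q := by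
    intro c
    fun_prop
  refine contDiffAt_pi.2 fun k => ?_
  by_cases h : ∃ a, κ a = k
  · simp only [AT_G, dif_pos h]
    refine ContDiffAt.div ?_ ?_ hq
    · refine AT_contDiffAt_det _ _ ?_
      intro i j
      by_cases hj : j = h.choose
      · simp only [Matrix.updateCol_apply, if_pos hj]
        exact (e2 _).sub (ContDiffAt.sum fun k' _ => (e3 k').mul (e1 _ _))
      · simp only [Matrix.updateCol_apply, if_neg hj, Matrix.of_apply]
        exact e1 _ _
    · refine AT_contDiffAt_det _ _ ?_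
      intro i j
      exact e1 _ _
  · simp only [AT_G, dif_neg h]
    exact e3 k

theorem AT_G_eq {C : Type*} {K n : ℕ} (κ : Fin n → Fin K) (ρ : Fin n → C)
    (hκ : Function.Injective κ) (W : Fin K → C → ℝ) (R : C → ℝ) (t s : Fin K → ℝ)
    (hdet : (Matrix.of fun (i a : Fin n) => W (κ a) (ρ i)).det ≠ 0)
    (hs : ∑ k, s k • W k = R) (ht : ∀ k ∈ (Finset.univ.image κ)ᶜ, t k = s k) :
    AT_G κ ρ (W, R, t) = s := by
  classical
  funext k
  by_cases h : ∃ a, κ a = k
  · simp only [AT_G, dif_pos h]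
    set a := h.choose with ha
    have hak : κ a = k := h.choose_spec
    rw [div_eq_iff hdet]
    set M : Matrix (Fin n) (Fin n) ℝ := Matrix.of fun (i a : Fin n) => W (κ a) (ρ i) with hM
    have hb : (fun i => R (ρ i) - ∑ k' ∈ (Finset.univ.image κ)ᶜ, t k' * W k' (ρ i)) =
        M.mulVec (s ∘ κ) := by
      funext i
      have h1 : R (ρ i) = ∑ k, s k * W k (ρ i) := by
        rw [← hs]
        simp
      have h2 : ∑ k' ∈ (Finset.univ.image κ)ᶜ, t k' * W k' (ρ i) =
          ∑ k' ∈ (Finset.univ.image κ)ᶜ, s k' * W k' (ρ i) :=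
        Finset.sum_congr rfl fun k' hk' => by rw [ht k' hk']
      have h3 : M.mulVec (s ∘ κ) i = ∑ k' ∈ Finset.univ.image κ, s k' * W k' (ρ i) := by
        rw [Finset.sum_image (fun x _ y _ hxy => hκ hxy)]
        simp only [Matrix.mulVec, dotProduct, hM, Matrix.of_apply, Function.comp_apply]
        exact Finset.sum_congr rfl fun x _ => mul_comm _ _
      rw [h1, h2, h3, ← Finset.sum_add_sum_compl (Finset.univ.image κ)]
      ring
    rw [hb, ← Matrix.cramer_apply, Matrix.cramer_eq_adjugate_mulVec, Matrix.mulVec_mulVec,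
      Matrix.adjugate_mul, Matrix.smul_mulVec, Matrix.one_mulVec, Pi.smul_apply, smul_eq_mul,
      Function.comp_apply, hak, mul_comm]
  · simp only [AT_G, dif_neg h]
    apply ht
    simp only [Finset.mem_compl, Finset.mem_image, Finset.mem_univ, true_and]
    exact h

theorem AT_one {E : Type*} [NormedAddCommGroup E] [NormedSpace ℝ E] [FiniteDimensional ℝ E]
    {C : Type*} [Fintype C] (K : ℕ) (w : Fin K → E → (C → ℝ)) (r : E → (C → ℝ)) (D : Set E)
    (hw : ∀ u ∈ D, ∃ L : NNReal, ∃ V ∈ nhds u, (∀ k, LipschitzOnWith L (w k) V) ∧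
      LipschitzOnWith L r V) (κ : Fin (Module.finrank ℝ E + 1) → Fin K)
    (ρ : Fin (Module.finrank ℝ E + 1) → C) :
    dimH {s : Fin K → ℝ | ∃ u ∈ D,
      (Matrix.of fun (i a : Fin (Module.finrank ℝ E + 1)) => w (κ a) u (ρ i)).det ≠ 0 ∧
      ∑ k, s k • w k u = r u} ≤ ((K - 1 : ℕ) : ENNReal) := by
  classical
  by_cases hinj : Function.Injective κ
  swap
  · have : {s : Fin K → ℝ | ∃ u ∈ D,
      (Matrix.of fun (i a : Fin (Module.finrank ℝ E + 1)) => w (κ a) u (ρ i)).det ≠ 0 ∧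
      ∑ k, s k • w k u = r u} = ∅ := by
      rw [Set.eq_empty_iff_forall_notMem]
      rintro s ⟨u, hu, hdet, _⟩
      apply hinj
      intro a b hab
      by_contra hne
      apply hdet
      apply Matrix.det_zero_of_column_eq hne
      intro i
      simp [hab]
    rw [this, dimH_empty]
    exact zero_le
  let P := E × (((Finset.univ.image κ)ᶜ : Finset (Fin K)) → ℝ)
  let H : P → (Fin K → C → ℝ) × (C → ℝ) × (Fin K → ℝ) := fun p =>
    (fun k => w k p.1, r p.1,
      fun k => if h : k ∈ ((Finset.univ.image κ)ᶜ : Finset (Fin K)) then p.2 ⟨k, h⟩ else 0)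
  let T : Set P := {p | p.1 ∈ D ∧
    (Matrix.of fun (i a : Fin (Module.finrank ℝ E + 1)) => w (κ a) p.1 (ρ i)).det ≠ 0}
  have hlip : ∀ p ∈ T, ∃ c : NNReal, ∃ t ∈ nhdsWithin p T, LipschitzOnWith c (AT_G κ ρ ∘ H) t := by
    rintro p ⟨hpD, hpdet⟩
    obtain ⟨L, V, hV, hwL, hrL⟩ := hw p.1 hpD
    have hH : LipschitzOnWith (max L 1) H (V ×ˢ Set.univ) := by
      rintro x ⟨hx, _⟩ y ⟨hy, _⟩
      have hxy1 : edist x.1 y.1 ≤ edist x y := le_max_left _ _
      have hxy2 : edist x.2 y.2 ≤ edist x y := le_max_right _ _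
      have hL1 : (L : ENNReal) ≤ ((max L 1 : NNReal) : ENNReal) := by
        exact_mod_cast le_max_left L 1
      have h11 : (1 : ENNReal) ≤ ((max L 1 : NNReal) : ENNReal) := by
        exact_mod_cast le_max_right L 1
      refine max_le ?_ (max_le ?_ ?_)
      · refine edist_pi_le_iff.2 fun k => ?_
        exact (hwL k hx hy).trans (mul_le_mul' hL1 hxy1)
      · exact (hrL hx hy).trans (mul_le_mul' hL1 hxy1)
      · refine edist_pi_le_iff.2 fun k => ?_
        by_cases h : k ∈ ((Finset.univ.image κ)ᶜ : Finset (Fin K))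
        · simp only [H, dif_pos h]
          calc edist (x.2 ⟨k, h⟩) (y.2 ⟨k, h⟩) ≤ edist x.2 y.2 := edist_le_pi_edist _ _ _
            _ ≤ edist x y := hxy2
            _ = 1 * edist x y := (one_mul _).symm
            _ ≤ _ := mul_le_mul' h11 le_rfl
        · simp only [H, dif_neg h, edist_self]
          exact zero_le
    have hVn : (V ×ˢ Set.univ : Set P) ∈ nhds p := by
      rw [show p = (p.1, p.2) from rfl]
      exact prod_mem_nhds hV Filter.univ_mem
    have hHc : ContinuousAt H p := hH.continuousOn.continuousAt hVn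
    obtain ⟨c, t, ht, hG⟩ := (AT_G_contDiffAt κ ρ (H p) hpdet).exists_lipschitzOnWith
    refine ⟨c * max L 1, (V ×ˢ Set.univ) ∩ H ⁻¹' t,
      mem_nhdsWithin_of_mem_nhds (Filter.inter_mem hVn (hHc ht)), ?_⟩
    exact hG.comp (hH.mono Set.inter_subset_left) (fun x hx => hx.2)
  have hsub : {s : Fin K → ℝ | ∃ u ∈ D,
      (Matrix.of fun (i a : Fin (Module.finrank ℝ E + 1)) => w (κ a) u (ρ i)).det ≠ 0 ∧
      ∑ k, s k • w k u = r u} ⊆ (AT_G κ ρ ∘ H) '' T := by
    rintro s ⟨u, hu, hdet, hs⟩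
    refine ⟨(u, fun k => s k), ⟨hu, hdet⟩, ?_⟩
    simp only [Function.comp_apply, H]
    apply AT_G_eq κ ρ hinj _ _ _ s hdet hs
    intro k hk
    rw [dif_pos hk]
  have hfin : Module.finrank ℝ P = K - 1 := by
    have h1 : Module.finrank ℝ P = Module.finrank ℝ E +
        Module.finrank ℝ (((Finset.univ.image κ)ᶜ : Finset (Fin K)) → ℝ) :=
      Module.finrank_prod
    rw [h1, Module.finrank_fintype_fun_eq_card, Fintype.card_coe, Finset.card_compl,
      Finset.card_image_of_injective _ hinj, Fintype.card_fin, Finset.card_univ, Fintype.card_fin]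
    have h2 : Module.finrank ℝ E + 1 ≤ K := by
      have := Fintype.card_le_of_injective κ hinj
      simpa using this
    omega
  calc _ ≤ dimH ((AT_G κ ρ ∘ H) '' T) := dimH_mono hsub
    _ ≤ dimH T := dimH_image_le_of_locally_lipschitzOn hlip
    _ ≤ dimH (Set.univ : Set P) := dimH_mono (Set.subset_univ _)
    _ = ((K - 1 : ℕ) : ENNReal) := by rw [Real.dimH_univ_eq_finrank, hfin]

/-- dimension estimate for a finite slice -/
theorem AT_slice {E : Type*} [NormedAddCommGroup E] [NormedSpace ℝ E] [FiniteDimensional ℝ E]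
    {C : Type*} [Fintype C] (K : ℕ) (w : Fin K → E → (C → ℝ)) (r : E → (C → ℝ)) (D : Set E)
    (hw : ∀ u ∈ D, ∃ L : NNReal, ∃ V ∈ nhds u, (∀ k, LipschitzOnWith L (w k) V) ∧
      LipschitzOnWith L r V)
    (hr : ∀ u ∈ D, Module.finrank ℝ E + 1 ≤
      Module.finrank ℝ (Submodule.span ℝ (Set.range (fun k => w k u)))) :
    dimH {s : Fin K → ℝ | ∃ u ∈ D, ∑ k, s k • w k u = r u} ≤ ((K - 1 : ℕ) : ENNReal) := by
  have hsub : {s : Fin K → ℝ | ∃ u ∈ D, ∑ k, s k • w k u = r u} ⊆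
      ⋃ (κρ : (Fin (Module.finrank ℝ E + 1) → Fin K) × (Fin (Module.finrank ℝ E + 1) → C)),
      {s : Fin K → ℝ | ∃ u ∈ D,
      (Matrix.of fun (i a : Fin (Module.finrank ℝ E + 1)) => w (κρ.1 a) u (κρ.2 i)).det ≠ 0 ∧
      ∑ k, s k • w k u = r u} := by
    rintro s ⟨u, hu, hs⟩
    obtain ⟨κ, ρ, hdet⟩ := AT_minor (fun k => w k u) _ (hr u hu)
    exact Set.mem_iUnion.2 ⟨(κ, ρ), u, hu, hdet, hs⟩
  calc _ ≤ _ := dimH_mono hsub
    _ = _ := dimH_iUnion _
    _ ≤ _ := iSup_le fun κρ => AT_one K w r D hw κρ.1 κρ.2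

end FanRD
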