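import Mathlib
import Pool.Agent.FanRD.Defs
import Pool.Agent.FanRD.AT1
set_option autoImplicit false
set_option maxHeartbeats 4000000
noncomputable section
open MeasureTheory

namespace FanRD

variable {l : ℕ}



theorem term_bound {C : Type*} [Fintype C] (t : Set.Icc (1:ℝ) 2) (k : ℕ) (v : C → ℝ) (hb : ‖v‖ ≤ 1) :
    ‖((t : ℝ) * (1/2) ^ k) • v‖ ≤ 2 * (1/2) ^ k := by
  have h1 := t.2.1
  have h2 := t.2.2
  rw [norm_smul, Real.norm_eq_abs, abs_of_nonneg (by positivity)]
  calc (t : ℝ) * (1/2) ^ k * ‖v‖ ≤ 2 * (1/2) ^ k * 1 := by gcongr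
    _ = 2 * (1/2) ^ k := mul_one _

theorem summable_bound : Summable (fun k : ℕ => 2 * (1/2:ℝ) ^ k) := summable_geometric_two.mul_left 2

theorem bad_closed {E : Type*} [NormedAddCommGroup E] [NormedSpace ℝ E] [FiniteDimensional ℝ E]
    {C : Type*} [Fintype C] (Cc : Set E) (hC : IsCompact Cc) (w : ℕ → E → (C → ℝ))
    (hb : ∀ k, ∀ u ∈ Cc, ‖w k u‖ ≤ 1) (hc : ∀ k, ContinuousOn (w k) Cc) :
    IsClosed {t : ℕ → Set.Icc (1:ℝ) 2 | ∃ u ∈ Cc, ∑' k, ((t k : ℝ) * (1/2) ^ k) • w k u = 0} := by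
  have hcs : CompactSpace Cc := isCompact_iff_compactSpace.mp hC
  have hcont : Continuous (fun q : (ℕ → Set.Icc (1:ℝ) 2) × Cc => ∑' k, ((q.1 k : ℝ) * (1/2) ^ k) • w k q.2) := by
    apply continuous_tsum (u := fun k => 2 * (1/2:ℝ) ^ k)
    · intro k
      have h0 : Continuous (fun u : Cc => w k u) := continuousOn_iff_continuous_domRestrict.mp (hc k)
      have h2 : Continuous (fun q : (ℕ → Set.Icc (1:ℝ) 2) × Cc => w k q.2) := h0.comp continuous_snd
      have h1 : Continuous (fun q : (ℕ → Set.Icc (1:ℝ) 2) × Cc => (q.1 k : ℝ) * (1/2:ℝ) ^ k) := by fun_prop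
      exact h1.smul h2
    · exact summable_bound
    · intro k q
      exact term_bound _ _ _ (hb k _ q.2.2)
  have hcl : IsClosed {q : (ℕ → Set.Icc (1:ℝ) 2) × Cc | ∑' k, ((q.1 k : ℝ) * (1/2) ^ k) • w k q.2 = 0} :=
    isClosed_eq hcont continuous_const
  have := isClosedMap_fst_of_compactSpace _ hcl
  convert this using 1
  ext t
  constructor
  · rintro ⟨u, hu, h⟩
    exact ⟨(t, ⟨u, hu⟩), h, rfl⟩
  · rintro ⟨⟨t', u⟩, h, rfl⟩
    exact ⟨u.1, u.2, h⟩

theorem bad_interior {E : Type*} [NormedAddCommGroup E] [NormedSpace ℝ E] [FiniteDimensional ℝ E]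
    {C : Type*} [Fintype C] (U : Set E) (hU : IsOpen U) (w : ℕ → E → (C → ℝ))
    (hb : ∀ k, ∀ u ∈ U, ‖w k u‖ ≤ 1)
    (hL : ∀ u ∈ U, ∃ L : NNReal, ∃ V ∈ nhds u, ∀ k, LipschitzOnWith L (w k) V)
    (i : Fin (Module.finrank ℝ E + 1) → ℕ) (Cc : Set E) (hCU : Cc ⊆ U)
    (hli : ∀ u ∈ Cc, LinearIndependent ℝ (fun j => w (i j) u))
    (O : Set (ℕ → Set.Icc (1:ℝ) 2)) (hO : IsOpen O) (t0 : ℕ → Set.Icc (1:ℝ) 2) (ht0 : t0 ∈ O)
    (hbad : ∀ t ∈ O, ∃ u ∈ Cc, ∑' k, ((t k : ℝ) * (1/2) ^ k) • w k u = 0) : False := by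
  obtain ⟨K, hK⟩ : ∃ K, ∀ j, i j < K := ⟨Finset.univ.sup i + 1, fun j => Nat.lt_succ_of_le (Finset.le_sup (Finset.mem_univ j))⟩
  have hK1 : 1 ≤ K := Nat.one_le_iff_ne_zero.mpr (fun h => by have := hK 0; omega)
  have h12 : (1:ℝ) ≤ 2 := by norm_num
  let Φ : (Fin K → ℝ) → (ℕ → Set.Icc (1:ℝ) 2) := fun s k => if h : k < K then Set.projIcc 1 2 h12 (s ⟨k, h⟩) else t0 k
  have hΦc : Continuous Φ := by
    apply continuous_pi
    intro k
    by_cases h : k < K
    · simp only [Φ, h, dif_pos]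
      exact continuous_projIcc.comp (continuous_apply _)
    · simp only [Φ, h, dif_neg, not_false_eq_true]
      exact continuous_const
  set W : Set (Fin K → ℝ) := Φ ⁻¹' O ∩ Set.pi Set.univ (fun _ => Set.Ioo (1:ℝ) 2) with hW
  have hWo : IsOpen W := (hO.preimage hΦc).inter (isOpen_set_pi Set.finite_univ (fun _ _ => isOpen_Ioo))
  have hWne : W.Nonempty := by
    let s0 : Fin K → ℝ := fun k => (t0 k : ℝ)
    have h1 : Φ s0 = t0 := by
      funext k
      by_cases h : k < K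
      · simp only [Φ, h, dif_pos, s0]
        exact Set.projIcc_val h12 (t0 k)
      · simp only [Φ, h, dif_neg, not_false_eq_true]
    have h2 : s0 ∈ closure (Set.pi Set.univ (fun _ : Fin K => Set.Ioo (1:ℝ) 2)) := by
      rw [closure_pi_set]
      intro k _
      rw [closure_Ioo (by norm_num)]
      exact (t0 k).2
    rw [mem_closure_iff] at h2
    exact h2 (Φ ⁻¹' O) (hO.preimage hΦc) (by show Φ s0 ∈ O; rw [h1]; exact ht0)
  have hdimW : dimH W = K := by
    have := Real.dimH_of_nonempty_interior (s := W) (by rw [hWo.interior_eq]; exact hWne)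
    rw [this]; simp
  have hslice := AT_slice K (fun (k : Fin K) u => ((1/2:ℝ) ^ (k:ℕ)) • w k u)
    (fun u => -∑' k, ((t0 (k + K) : ℝ) * (1/2) ^ (k + K)) • w (k + K) u) Cc
    (by
      intro u hu
      obtain ⟨L, V, hV, hVL⟩ := hL u (hCU hu)
      refine ⟨4 * L, V ∩ U, Filter.inter_mem hV (hU.mem_nhds (hCU hu)), ?_, ?_⟩
      · intro k
        apply LipschitzOnWith.of_dist_le_mul
        intro x hx y hy
        have h1 := (hVL k).dist_le_mul x hx.1 y hy.1
        rw [dist_eq_norm, ← smul_sub, norm_smul, Real.norm_eq_abs, abs_of_nonneg (by positivity), ← dist_eq_norm]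
        have h2 : ((1/2:ℝ)) ^ (k:ℕ) ≤ 1 := pow_le_one₀ (by norm_num) (by norm_num)
        have h3 : 0 ≤ (L : ℝ) * dist x y := by positivity
        push_cast
        calc (1/2:ℝ) ^ (k:ℕ) * dist (w k x) (w k y) ≤ 1 * (L * dist x y) := by gcongr
          _ ≤ 4 * L * dist x y := by linarith
      · apply LipschitzOnWith.of_dist_le_mul
        intro x hx y hy
        have hs : ∀ z ∈ U, Summable (fun k => ((t0 (k + K) : ℝ) * (1/2) ^ (k + K)) • w (k + K) z) := by
          intro z hz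
          apply Summable.of_norm_bounded ((summable_nat_add_iff K).mpr summable_bound)
          intro k
          exact term_bound _ _ _ (hb _ z hz)
        rw [dist_eq_norm, neg_sub_neg, ← (hs y hy.2).tsum_sub (hs x hx.2)]
        push_cast
        have hsum : HasSum (fun k : ℕ => (2 * (1/2:ℝ) ^ k) * (L * dist x y)) ((2 * 2) * (L * dist x y)) :=
          (hasSum_geometric_two.mul_left 2).mul_right _
        have h4 : ‖∑' k, (((t0 (k + K) : ℝ) * (1/2) ^ (k + K)) • w (k + K) y - ((t0 (k + K) : ℝ) * (1/2) ^ (k + K)) • w (k + K) x)‖ ≤ (2 * 2) * (L * dist x y) := by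
          apply tsum_of_norm_bounded hsum
          intro k
          rw [← smul_sub, norm_smul, Real.norm_eq_abs]
          have h5 := (t0 (k + K)).2.1
          have h6 := (t0 (k + K)).2.2
          rw [abs_of_nonneg (by positivity)]
          have h7 : (1/2:ℝ) ^ (k + K) ≤ (1/2:ℝ) ^ k := pow_le_pow_of_le_one (by norm_num) (by norm_num) (by omega)
          have h8 := (hVL (k + K)).dist_le_mul x hx.1 y hy.1
          rw [dist_comm, dist_eq_norm] at h8
          gcongr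
        refine h4.trans (le_of_eq ?_)
        ring)
    (by
      intro u hu
      have h1 := finrank_span_eq_card (hli u hu)
      rw [Fintype.card_fin] at h1
      rw [← h1]
      apply Submodule.finrank_mono
      rw [Submodule.span_le]
      rintro _ ⟨j, rfl⟩
      have h2 : ((1/2:ℝ) ^ (i j)) • w (i j) u ∈ Submodule.span ℝ (Set.range (fun k : Fin K => ((1/2:ℝ) ^ (k:ℕ)) • w k u)) :=
        Submodule.subset_span ⟨⟨i j, hK j⟩, rfl⟩
      have h3 := Submodule.smul_mem _ ((2:ℝ) ^ (i j)) h2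
      rw [smul_smul, ← mul_pow] at h3
      norm_num at h3
      simpa using h3)
  have hsub : W ⊆ {s : Fin K → ℝ | ∃ u ∈ Cc, ∑ k, s k • (fun (k : Fin K) u => ((1/2:ℝ) ^ (k:ℕ)) • w k u) k u
      = (fun u => -∑' k, ((t0 (k + K) : ℝ) * (1/2) ^ (k + K)) • w (k + K) u) u} := by
    rintro s ⟨hs1, hs2⟩
    obtain ⟨u, hu, hF⟩ := hbad _ hs1
    refine ⟨u, hu, ?_⟩
    have hsm : Summable (fun k => ((Φ s k : ℝ) * (1/2) ^ k) • w k u) := by
      apply Summable.of_norm_bounded summable_bound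
      intro k
      exact term_bound _ _ _ (hb _ u (hCU hu))
    rw [← hsm.sum_add_tsum_nat_add K, Finset.sum_range] at hF
    have e1 : ∀ k : Fin K, ((Φ s k : ℝ) * (1/2) ^ (k:ℕ)) • w k u = s k • ((1/2:ℝ) ^ (k:ℕ)) • w k u := by
      intro k
      have : Φ s k = Set.projIcc 1 2 h12 (s k) := by
        simp only [Φ, k.2, dif_pos]
      rw [this, Set.projIcc_of_mem h12 (Set.Ioo_subset_Icc_self (hs2 k (Set.mem_univ k))), smul_smul]
    have e2 : ∀ k, ((Φ s (k + K) : ℝ) * (1/2) ^ (k + K)) • w (k + K) u = ((t0 (k + K) : ℝ) * (1/2) ^ (k + K)) • w (k + K) u := by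
      intro k
      have : Φ s (k + K) = t0 (k + K) := by
        have : ¬ (k + K < K) := by omega
        simp only [Φ, this, dif_neg, not_false_eq_true]
      rw [this]
    simp only [e1, e2] at hF
    exact eq_neg_of_add_eq_zero_left hF
  have h1 := (dimH_mono hsub).trans hslice
  rw [hdimW] at h1
  have h2 : K ≤ K - 1 := by exact_mod_cast h1
  omega

/-- TARGET: generic weights have no zero -/
theorem AT {E : Type*} [NormedAddCommGroup E] [NormedSpace ℝ E] [FiniteDimensional ℝ E]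
    {C : Type*} [Fintype C] (U : Set E) (hU : IsOpen U) (w : ℕ → E → (C → ℝ))
    (hb : ∀ k, ∀ u ∈ U, ‖w k u‖ ≤ 1)
    (hL : ∀ u ∈ U, ∃ L : NNReal, ∃ V ∈ nhds u, ∀ k, LipschitzOnWith L (w k) V) :
    {t : ℕ → Set.Icc (1:ℝ) 2 | ∀ u ∈ U, Module.finrank ℝ E + 1 ≤
        Module.finrank ℝ (Submodule.span ℝ (Set.range (fun k => w k u))) →
      ∑' k, ((t k : ℝ) * (1/2) ^ k) • w k u ≠ 0} ∈ residual (ℕ → Set.Icc (1:ℝ) 2) := by
  have hcont : ∀ k, ContinuousOn (w k) U := by
    intro k u hu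
    obtain ⟨L, V, hV, hVL⟩ := hL u hu
    exact ((hVL k).continuousOn.continuousAt hV).continuousWithinAt
  have hDopen : ∀ i : Fin (Module.finrank ℝ E + 1) → ℕ,
      IsOpen (U ∩ {u | LinearIndependent ℝ (fun j => w (i j) u)}) := by
    intro i
    have h1 : ContinuousOn (fun u => fun j => w (i j) u) U := continuousOn_pi.mpr (fun j => hcont (i j))
    exact h1.isOpen_inter_preimage hU isOpen_setOfPred_linearIndependent
  choose F hFc hFs hFu hFm using fun i => (hDopen i).exists_iUnion_isClosed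
  have hres : ∀ q : (Fin (Module.finrank ℝ E + 1) → ℕ) × ℕ × ℕ,
      {t : ℕ → Set.Icc (1:ℝ) 2 | ∃ u ∈ F q.1 q.2.1 ∩ Metric.closedBall 0 (q.2.2 : ℝ), ∑' k, ((t k : ℝ) * (1/2) ^ k) • w k u = 0}ᶜ
        ∈ residual (ℕ → Set.Icc (1:ℝ) 2) := by
    rintro ⟨i, n, m⟩
    have hsubU : F i n ∩ Metric.closedBall 0 (m : ℝ) ⊆ U := fun u hu => (hFs i n hu.1).1
    have hcl := bad_closed (F i n ∩ Metric.closedBall 0 (m : ℝ))
      ((isCompact_closedBall (0:E) (m : ℝ)).inter_left (hFc i n)) w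
      (fun k u hu => hb k u (hsubU hu)) (fun k => (hcont k).mono hsubU)
    apply residual_of_dense_open hcl.isOpen_compl
    rw [← interior_eq_empty_iff_dense_compl]
    by_contra hne
    obtain ⟨t0, ht0⟩ := Set.nonempty_iff_ne_empty.mpr hne
    exact bad_interior U hU w hb hL i _ hsubU (fun u hu => (hFs i n hu.1).2) _ isOpen_interior t0 ht0
      (fun t ht => by
        have h1 := interior_subset (s := {t : ℕ → Set.Icc (1:ℝ) 2 | ∃ u ∈ F i n ∩ Metric.closedBall 0 (m : ℝ), ∑' k, ((t k : ℝ) * (1/2) ^ k) • w k u = 0}) ht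
        exact h1)
  have hall := (countable_iInter_mem (l := residual (ℕ → Set.Icc (1:ℝ) 2))).mpr hres
  refine Filter.mem_of_superset hall ?_
  intro t ht u hu hrank h0
  obtain ⟨f, hf1, hf2, hf3⟩ := Submodule.exists_fun_fin_finrank_span_eq ℝ (Set.range (fun k => w k u))
  have hex : ∀ j : Fin (Module.finrank ℝ E + 1), ∃ k, w k u = f (Fin.castLE hrank j) := fun j => hf1 _
  choose i hi using hex
  have hli : LinearIndependent ℝ (fun j => w (i j) u) := by
    have : (fun j => w (i j) u) = f ∘ (Fin.castLE hrank) := by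
      funext j; exact hi j
    rw [this]
    exact hf3.comp _ (Fin.castLE_injective hrank)
  have hmem : u ∈ U ∩ {u | LinearIndependent ℝ (fun j => w (i j) u)} := ⟨hu, hli⟩
  rw [← hFu i] at hmem
  obtain ⟨n, hn⟩ := Set.mem_iUnion.mp hmem
  obtain ⟨m, hm⟩ := exists_nat_ge ‖u‖
  rw [Set.mem_iInter] at ht
  exact ht (i, n, m) ⟨u, ⟨hn, by rw [mem_closedBall_zero_iff]; exact hm⟩, h0⟩


end FanRD
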