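import Mathlib
import Pool.Agent.FanRD.Defs
set_option autoImplicit false
set_option maxHeartbeats 4000000
noncomputable section
open MeasureTheory

namespace FanRD

variable {l : ℕ}



theorem W_ne {W : ℂ} {b : ℝ} (hb : |b| < ‖W‖) : W ≠ 0 := by
  intro h
  rw [h, norm_zero] at hb
  exact absurd hb (not_lt.2 (abs_nonneg b))

theorem W_mul_cr (W : ℂ) (b σ : ℝ) (hW : W ≠ 0) :
    W * cr W b σ = ((-b : ℝ) : ℂ) + ((σ * Real.sqrt (‖W‖ ^ 2 - b ^ 2) : ℝ) : ℂ) * Complex.I := by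
  unfold cr
  have h1 : W * (starRingEnd ℂ) W = ((‖W‖ ^ 2 : ℝ) : ℂ) := by
    rw [Complex.mul_conj, Complex.normSq_eq_norm_sq]
  have h2 : ((‖W‖ ^ 2 : ℝ) : ℂ) ≠ 0 := by
    have : ‖W‖ ≠ 0 := norm_ne_zero_iff.2 hW
    exact_mod_cast pow_ne_zero 2 this
  rw [← mul_div_assoc, ← mul_assoc, h1, mul_div_assoc, mul_comm, div_mul_cancel₀ _ h2]

theorem sq_s {W : ℂ} {b : ℝ} (hb : |b| < ‖W‖) :
    Real.sqrt (‖W‖ ^ 2 - b ^ 2) ^ 2 = ‖W‖ ^ 2 - b ^ 2 := by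
  apply Real.sq_sqrt
  have := abs_nonneg b
  have h : b ^ 2 = |b| ^ 2 := (sq_abs b).symm
  nlinarith

theorem cr_re (W : ℂ) (b σ : ℝ) (hb : |b| < ‖W‖) : (W * cr W b σ).re = -b := by
  rw [W_mul_cr W b σ (W_ne hb)]
  simp

theorem cr_im (W : ℂ) (b σ : ℝ) (hb : |b| < ‖W‖) :
    (W * cr W b σ).im = σ * Real.sqrt (‖W‖ ^ 2 - b ^ 2) := by
  rw [W_mul_cr W b σ (W_ne hb)]
  simp

theorem cr_norm (W : ℂ) (b σ : ℝ) (hσ : σ = 1 ∨ σ = -1) (hb : |b| < ‖W‖) : ‖cr W b σ‖ = 1 := by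
  have hσ2 : σ ^ 2 = 1 := by rcases hσ with h | h <;> rw [h] <;> norm_num
  have hW := W_ne hb
  have h1 : ‖W * cr W b σ‖ ^ 2 = ‖W‖ ^ 2 := by
    rw [← Complex.normSq_eq_norm_sq, Complex.normSq_apply, cr_re W b σ hb, cr_im W b σ hb]
    have := sq_s hb
    calc -b * -b + σ * Real.sqrt (‖W‖ ^ 2 - b ^ 2) * (σ * Real.sqrt (‖W‖ ^ 2 - b ^ 2)) =
        b ^ 2 + σ ^ 2 * Real.sqrt (‖W‖ ^ 2 - b ^ 2) ^ 2 := by ring
      _ = ‖W‖ ^ 2 := by rw [hσ2, this]; ring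
  rw [norm_mul, mul_pow] at h1
  have h2 : ‖W‖ ^ 2 ≠ 0 := pow_ne_zero 2 (norm_ne_zero_iff.2 hW)
  have h3 : ‖cr W b σ‖ ^ 2 = 1 := by
    apply mul_left_cancel₀ h2
    rw [h1, mul_one]
  have h4 : 0 ≤ ‖cr W b σ‖ := norm_nonneg _
  nlinarith

theorem cr_unique (W : ℂ) (b : ℝ) (hb : |b| < ‖W‖) (e : ℂ) (he : ‖e‖ = 1) (h : (W * e).re = -b) :
    e = cr W b 1 ∨ e = cr W b (-1) := by
  have hW := W_ne hb
  have h1 : ‖W * e‖ ^ 2 = ‖W‖ ^ 2 := by rw [norm_mul, he, mul_one]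
  rw [← Complex.normSq_eq_norm_sq, Complex.normSq_apply, h] at h1
  have h2 := sq_s hb
  set s := Real.sqrt (‖W‖ ^ 2 - b ^ 2) with hs
  have h3 : ((W * e).im - s) * ((W * e).im + s) = 0 := by nlinarith
  rcases mul_eq_zero.1 h3 with h4 | h4
  · left
    apply mul_left_cancel₀ hW
    apply Complex.ext
    · rw [h, cr_re W b 1 hb]
    · rw [cr_im W b 1 hb, ← hs]
      linarith
  · right
    apply mul_left_cancel₀ hW
    apply Complex.ext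
    · rw [h, cr_re W b (-1) hb]
    · rw [cr_im W b (-1) hb, ← hs]
      linarith

theorem cr_cont (W : ℂ) (b σ : ℝ) (hb : |b| < ‖W‖) :
    ContinuousAt (fun p : ℂ × ℝ => cr p.1 p.2 σ) (W, b) := by
  unfold cr
  apply ContinuousAt.div
  · apply Continuous.continuousAt
    have h1 : Continuous (fun p : ℂ × ℝ => Real.sqrt (‖p.1‖ ^ 2 - p.2 ^ 2)) := by fun_prop
    have h2 : Continuous (fun p : ℂ × ℝ => (starRingEnd ℂ) p.1) :=
      Complex.continuous_conj.comp continuous_fst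
    have h3 : Continuous (fun p : ℂ × ℝ => ((σ * Real.sqrt (‖p.1‖ ^ 2 - p.2 ^ 2) : ℝ) : ℂ)) :=
      Complex.continuous_ofReal.comp (continuous_const.mul h1)
    have h4 : Continuous (fun p : ℂ × ℝ => ((-p.2 : ℝ) : ℂ)) :=
      Complex.continuous_ofReal.comp continuous_snd.neg
    exact h2.mul (h4.add (h3.mul continuous_const))
  · apply Continuous.continuousAt
    have h1 : Continuous (fun p : ℂ × ℝ => ‖p.1‖ ^ 2) := by fun_prop
    exact Complex.continuous_ofReal.comp h1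
  · have : ‖W‖ ≠ 0 := norm_ne_zero_iff.2 (W_ne hb)
    show ((‖W‖ ^ 2 : ℝ) : ℂ) ≠ 0
    exact_mod_cast pow_ne_zero 2 this

theorem cr_neg (W : ℂ) (b σ : ℝ) : cr (-W) (-b) σ = cr W b (-σ) := by
  unfold cr
  rw [norm_neg, map_neg, neg_sq]
  push_cast
  ring

theorem cr_swap (W : ℂ) (b σ : ℝ) (c : ℂ) (hc : ‖c‖ = 1) : cr (c * W) b σ = (starRingEnd ℂ c) * cr W b σ := by
  unfold cr
  rw [norm_mul, hc, one_mul, map_mul]
  ring


end FanRD
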