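import Mathlib
import Pool.Agent.FanRD.Defs
set_option autoImplicit false
set_option maxHeartbeats 4000000
noncomputable section
open MeasureTheory

namespace FanRD

variable {l : ℕ}



section abs
variable {I : Type*} [Fintype I] [DecidableEq I]

theorem JJ_aux_JT (lam : I → I → ℝ) (i m : I) (y y' : I → ℝ)
    (h : ∀ p r, ¬ (p = i ∧ r = m) → ¬ (p = m ∧ r = i) → (y p < y r ↔ y' p < y' r)) :
    JT lam i m y = JT lam i m y' := by
  unfold JT
  have e1 : (∀ p, p ≠ i → p ≠ m → y p < y i) ↔ (∀ p, p ≠ i → p ≠ m → y' p < y' i) := by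
    refine forall_congr' (fun p => forall_congr' (fun hp => forall_congr' (fun hp' => ?_)))
    exact h p i (fun h => hp h.1) (fun h => hp' h.1)
  have e2 : ∀ j, (j ≠ i ∧ j ≠ m ∧ (∀ p, p ≠ j → y j < y p)) ↔
      (j ≠ i ∧ j ≠ m ∧ (∀ p, p ≠ j → y' j < y' p)) := by
    intro j
    refine and_congr_right (fun h1 => and_congr_right (fun h2 => forall_congr' (fun p =>
      forall_congr' (fun hp => ?_))))
    exact h j p (fun h => h1 h.1) (fun h => h2 h.1)
  by_cases hc : (∀ p, p ≠ i → p ≠ m → y p < y i)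
  · rw [if_pos hc, if_pos (e1.1 hc)]
    refine Finset.sum_congr rfl (fun j _ => ?_)
    by_cases hj : (j ≠ i ∧ j ≠ m ∧ (∀ p, p ≠ j → y j < y p))
    · rw [if_pos hj, if_pos ((e2 j).1 hj)]
    · rw [if_neg hj, if_neg (fun h => hj ((e2 j).2 h))]
  · rw [if_neg hc, if_neg (fun h => hc (e1.2 h))]

theorem JJ_aux_JB (lam : I → I → ℝ) (i m : I) (y y' : I → ℝ)
    (h : ∀ p r, ¬ (p = i ∧ r = m) → ¬ (p = m ∧ r = i) → (y p < y r ↔ y' p < y' r)) :
    JB lam i m y = JB lam i m y' := by
  unfold JB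
  have e1 : (∀ p, p ≠ i → p ≠ m → y i < y p) ↔ (∀ p, p ≠ i → p ≠ m → y' i < y' p) := by
    refine forall_congr' (fun p => forall_congr' (fun hp => forall_congr' (fun hp' => ?_)))
    exact h i p (fun h => hp' h.2) (fun h => hp h.2)
  have e2 : ∀ j, (j ≠ i ∧ j ≠ m ∧ (∀ p, p ≠ j → y p < y j)) ↔
      (j ≠ i ∧ j ≠ m ∧ (∀ p, p ≠ j → y' p < y' j)) := by
    intro j
    refine and_congr_right (fun h1 => and_congr_right (fun h2 => forall_congr' (fun p =>
      forall_congr' (fun hp => ?_))))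
    exact h p j (fun h => h2 h.2) (fun h => h1 h.2)
  by_cases hc : (∀ p, p ≠ i → p ≠ m → y i < y p)
  · rw [if_pos hc, if_pos (e1.1 hc)]
    refine Finset.sum_congr rfl (fun j _ => ?_)
    by_cases hj : (j ≠ i ∧ j ≠ m ∧ (∀ p, p ≠ j → y p < y j))
    · rw [if_pos hj, if_pos ((e2 j).1 hj)]
    · rw [if_neg hj, if_neg (fun h => hj ((e2 j).2 h))]
  · rw [if_neg hc, if_neg (fun h => hc (e1.2 h))]

theorem JJ_aux_ev (y : I → ℝ) (p r : I) (h : p = r ∨ y p ≠ y r) :
    ∀ᶠ y' in nhds y, (y' p < y' r ↔ y p < y r) := by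
  rcases h with rfl | h
  · exact Filter.Eventually.of_forall (fun y' => by simp)
  · have c1 : Continuous (fun y' : I → ℝ => y' p) := continuous_apply p
    have c2 : Continuous (fun y' : I → ℝ => y' r) := continuous_apply r
    rcases lt_or_gt_of_ne h with h1 | h1
    · filter_upwards [(isOpen_lt c1 c2).mem_nhds h1] with y' hy'
      exact ⟨fun _ => h1, fun _ => hy'⟩
    · filter_upwards [(isOpen_lt c2 c1).mem_nhds h1] with y' hy'
      exact ⟨fun h2 => absurd h2 (not_lt.2 (le_of_lt hy')), fun h2 => absurd h2 (not_lt.2 h1.le)⟩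

theorem JJ_locconst (lam : I → I → ℝ) (i m : I) (him : i ≠ m) (y : I → ℝ)
    (hd : ∀ p r, p ≠ r → ¬ (p = i ∧ r = m) → ¬ (p = m ∧ r = i) → y p ≠ y r) :
    ∀ᶠ y' in nhds y, JJ lam i m y' = JJ lam i m y := by
  have h : ∀ᶠ y' in nhds y, ∀ p r : I, ¬ (p = i ∧ r = m) → ¬ (p = m ∧ r = i) →
      (y' p < y' r ↔ y p < y r) := by
    rw [Filter.eventually_all]
    intro p
    rw [Filter.eventually_all]
    intro r
    by_cases h1 : ¬ (p = i ∧ r = m) ∧ ¬ (p = m ∧ r = i)
    · have h2 : p = r ∨ y p ≠ y r := by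
        by_cases hpr : p = r
        · exact Or.inl hpr
        · exact Or.inr (hd p r hpr h1.1 h1.2)
      filter_upwards [JJ_aux_ev y p r h2] with y' hy'
      exact fun _ _ => hy'
    · exact Filter.Eventually.of_forall (fun y' a b => absurd ⟨a, b⟩ h1)
  filter_upwards [h] with y' hy'
  unfold JJ
  rw [JJ_aux_JT lam i m y' y hy', JJ_aux_JB lam i m y' y hy']

/-- `LL` only depends on the order of the values -/
theorem LL_congr (lam : I → I → ℝ) (y y' : I → ℝ) (h : ∀ p r, y p < y r ↔ y' p < y' r) :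
    LL lam y = LL lam y' := by
  unfold LL
  refine Finset.sum_congr rfl (fun i _ => Finset.sum_congr rfl (fun j _ => ?_))
  congr 1
  unfold ind
  have e : ((∀ m, m ≠ i → y m < y i) ∧ (∀ m, m ≠ j → y j < y m)) ↔
      ((∀ m, m ≠ i → y' m < y' i) ∧ (∀ m, m ≠ j → y' j < y' m)) := by
    refine and_congr (forall_congr' (fun p => forall_congr' (fun hp => h _ _)))
      (forall_congr' (fun p => forall_congr' (fun hp => h _ _)))
  by_cases hc : ((∀ m, m ≠ i → y m < y i) ∧ (∀ m, m ≠ j → y j < y m))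
  · rw [if_pos hc, if_pos (e.1 hc)]
  · rw [if_neg hc, if_neg (fun h => hc (e.2 h))]

theorem LL_locconst (lam : I → I → ℝ) (y : I → ℝ) (hd : ∀ p r, p ≠ r → y p ≠ y r) :
    ∀ᶠ y' in nhds y, LL lam y' = LL lam y := by
  have h : ∀ᶠ y' in nhds y, ∀ p r : I, (y' p < y' r ↔ y p < y r) := by
    rw [Filter.eventually_all]
    intro p
    rw [Filter.eventually_all]
    intro r
    refine JJ_aux_ev y p r ?_
    by_cases hpr : p = r
    · exact Or.inl hpr
    · exact Or.inr (hd p r hpr)
  filter_upwards [h] with y' hy'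
  exact LL_congr lam y' y hy'

theorem LL_val (lam : I → I → ℝ) (y : I → ℝ) (t b : I) (ht : ∀ p, p ≠ t → y p < y t)
    (hb : ∀ p, p ≠ b → y b < y p) : LL lam y = lam t b := by
  unfold LL
  rw [Finset.sum_eq_single t, Finset.sum_eq_single b]
  · unfold ind
    rw [if_pos ⟨ht, hb⟩, mul_one]
  · intro j _ hj
    unfold ind
    rw [if_neg, mul_zero]
    rintro ⟨_, h2⟩
    exact absurd (h2 b hj.symm) (not_lt.2 (hb j hj).le)
  · intro h; exact absurd (Finset.mem_univ _) h
  · intro i _ hi
    refine Finset.sum_eq_zero (fun j _ => ?_)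
    unfold ind
    rw [if_neg, mul_zero]
    rintro ⟨h1, _⟩
    exact absurd (h1 t hi.symm) (not_lt.2 (ht i hi).le)
  · intro h; exact absurd (Finset.mem_univ _) h

/-- crossing a single wall -/
theorem LL_swap (hI : 3 ≤ Fintype.card I) (lam : I → I → ℝ) (i m : I) (him : i ≠ m) (y y' : I → ℝ)
    (hd : ∀ p r, p ≠ r → y p ≠ y r) (hd' : ∀ p r, p ≠ r → y' p ≠ y' r)
    (ho : ∀ p r, ¬ (p = i ∧ r = m) → ¬ (p = m ∧ r = i) → (y p < y r ↔ y' p < y' r))
    (h1 : y m < y i) (h2 : y' i < y' m) : LL lam y - LL lam y' = JJ lam i m y := by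
  -- a third element
  obtain ⟨c, hci, hcm⟩ : ∃ c, c ≠ i ∧ c ≠ m := by
    have hcard : ({i, m} : Finset I).card < (Finset.univ : Finset I).card := by
      rw [Finset.card_univ]
      have := Finset.card_le_two (a := i) (b := m)
      omega
    obtain ⟨c, _, hc⟩ := Finset.exists_mem_notMem_of_card_lt_card hcard
    simp only [Finset.mem_insert, Finset.mem_singleton, not_or] at hc
    exact ⟨c, hc.1, hc.2⟩
  have hlt : ∀ p r, p ≠ r → ¬ y p < y r → y r < y p := fun p r hpr h =>
    lt_of_le_of_ne (not_lt.1 h) (fun h' => hd p r hpr h'.symm)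
  -- nothing in between
  have hbet : ∀ p, p ≠ i → p ≠ m → ¬ (y m < y p ∧ y p < y i) := by
    rintro p hpi hpm ⟨ha, hb⟩
    have a1 : y' m < y' p := (ho m p (fun h => him h.1.symm) (fun h => hpi h.2)).1 ha
    have a2 : y' p < y' i := (ho p i (fun h => hpi h.1) (fun h => hpm h.1)).1 hb
    linarith
  obtain ⟨t, ht0⟩ : ∃ t, ∀ p, y p ≤ y t := by
    haveI : Nonempty I := ⟨i⟩
    exact Finite.exists_max y
  obtain ⟨b, hb0⟩ : ∃ b, ∀ p, y b ≤ y p := by
    haveI : Nonempty I := ⟨i⟩
    exact Finite.exists_min y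
  have ht : ∀ p, p ≠ t → y p < y t := fun p hp => lt_of_le_of_ne (ht0 p) (hd p t hp)
  have hb : ∀ p, p ≠ b → y b < y p := fun p hp => lt_of_le_of_ne (hb0 p) (hd b p hp.symm)
  have htm : t ≠ m := by
    rintro rfl
    exact absurd (ht i him) (not_lt.2 h1.le)
  have hbi : b ≠ i := by
    rintro rfl
    exact absurd (hb m him.symm) (not_lt.2 h1.le)
  rw [LL_val lam y t b ht hb]
  by_cases hti : t = i
  · subst hti
    have hbm : b ≠ m := by
      rintro rfl
      exact hbet c hci hcm ⟨hb c hcm, ht c hci⟩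
    have ht' : ∀ p, p ≠ m → y' p < y' m := by
      intro p hpm
      by_cases hpt : p = t
      · subst hpt; exact h2
      · refine (ho p m (fun h => hpt h.1) (fun h => hpm h.1)).1 ?_
        by_contra hcon
        exact hbet p hpt hpm ⟨hlt p m hpm hcon, ht p hpt⟩
    have hb' : ∀ p, p ≠ b → y' b < y' p := fun p hp =>
      (ho b p (fun h => hbi h.1) (fun h => hbm h.1)).1 (hb p hp)
    rw [LL_val lam y' m b ht' hb']
    unfold JJ
    have hJT : JT lam t m y = lam t b - lam m b := by
      unfold JT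
      rw [if_pos (fun p hp _ => ht p hp), Finset.sum_eq_single b]
      · rw [if_pos ⟨hbi, hbm, hb⟩]
      · intro j _ hj
        rw [if_neg]
        rintro ⟨_, _, h5⟩
        exact absurd (h5 b hj.symm) (not_lt.2 (hb j hj).le)
      · intro h; exact absurd (Finset.mem_univ _) h
    have hJB : JB lam t m y = 0 := by
      unfold JB
      rw [if_neg]
      intro h
      exact absurd (h c hci hcm) (not_lt.2 (ht c hci).le)
    rw [hJT, hJB, sub_zero]
  · by_cases hbm : b = m
    · subst hbm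
      have hb' : ∀ p, p ≠ i → y' i < y' p := by
        intro p hpi
        by_cases hpb : p = b
        · subst hpb; exact h2
        · refine (ho i p (fun h => hpb h.2) (fun h => him h.1)).1 ?_
          by_contra hcon
          exact hbet p hpi hpb ⟨hb p hpb, hlt i p hpi.symm hcon⟩
      have ht' : ∀ p, p ≠ t → y' p < y' t := fun p hp =>
        (ho p t (fun h => htm h.2) (fun h => hti h.2)).1 (ht p hp)
      rw [LL_val lam y' t i ht' hb']
      unfold JJ
      have hJB : JB lam i b y = lam t i - lam t b := by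
        unfold JB
        have hcond : ∀ p, p ≠ i → p ≠ b → y i < y p := by
          intro p hpi hpb
          by_contra hcon
          exact hbet p hpi hpb ⟨hb p hpb, hlt i p hpi.symm hcon⟩
        rw [if_pos hcond, Finset.sum_eq_single t]
        · rw [if_pos ⟨hti, htm, ht⟩]
        · intro j _ hj
          rw [if_neg]
          rintro ⟨_, _, h5⟩
          exact absurd (h5 t hj.symm) (not_lt.2 (ht j hj).le)
        · intro h; exact absurd (Finset.mem_univ _) h
      have hJT : JT lam i b y = 0 := by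
        unfold JT
        rw [if_neg]
        intro h
        exact absurd (h t hti htm) (not_lt.2 (ht0 i))
      rw [hJT, hJB]
      ring
    · have ht' : ∀ p, p ≠ t → y' p < y' t := fun p hp =>
        (ho p t (fun h => htm h.2) (fun h => hti h.2)).1 (ht p hp)
      have hb' : ∀ p, p ≠ b → y' b < y' p := fun p hp =>
        (ho b p (fun h => hbi h.1) (fun h => hbm h.1)).1 (hb p hp)
      rw [LL_val lam y' t b ht' hb', sub_self]
      unfold JJ
      have hJT : JT lam i m y = 0 := by
        unfold JT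
        rw [if_neg]
        intro h
        exact absurd (h t hti htm) (not_lt.2 (ht0 i))
      have hJB : JB lam i m y = 0 := by
        unfold JB
        rw [if_neg]
        intro h
        exact absurd (h b hbi hbm) (not_lt.2 (hb0 i))
      rw [hJT, hJB, sub_zero]

theorem JJ_antisymm (lam : I → I → ℝ) (i m : I) (y : I → ℝ) (h : y i = y m) :
    JJ lam m i y = - JJ lam i m y := by
  have hJT : JT lam m i y = - JT lam i m y := by
    unfold JT
    have e1 : (∀ p, p ≠ m → p ≠ i → y p < y m) ↔ (∀ p, p ≠ i → p ≠ m → y p < y i) := by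
      rw [h]
      exact ⟨fun h p h1 h2 => h p h2 h1, fun h p h1 h2 => h p h2 h1⟩
    by_cases hc : (∀ p, p ≠ i → p ≠ m → y p < y i)
    · rw [if_pos hc, if_pos (e1.2 hc), ← Finset.sum_neg_distrib]
      refine Finset.sum_congr rfl (fun j _ => ?_)
      by_cases hj : (j ≠ i ∧ j ≠ m ∧ (∀ p, p ≠ j → y j < y p))
      · rw [if_pos hj, if_pos ⟨hj.2.1, hj.1, hj.2.2⟩]; ring
      · rw [if_neg hj, if_neg (fun h => hj ⟨h.2.1, h.1, h.2.2⟩), neg_zero]
    · rw [if_neg hc, if_neg (fun h => hc (e1.1 h)), neg_zero]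
  have hJB : JB lam m i y = - JB lam i m y := by
    unfold JB
    have e1 : (∀ p, p ≠ m → p ≠ i → y m < y p) ↔ (∀ p, p ≠ i → p ≠ m → y i < y p) := by
      rw [h]
      exact ⟨fun h p h1 h2 => h p h2 h1, fun h p h1 h2 => h p h2 h1⟩
    by_cases hc : (∀ p, p ≠ i → p ≠ m → y i < y p)
    · rw [if_pos hc, if_pos (e1.2 hc), ← Finset.sum_neg_distrib]
      refine Finset.sum_congr rfl (fun j _ => ?_)
      by_cases hj : (j ≠ i ∧ j ≠ m ∧ (∀ p, p ≠ j → y p < y j))
      · rw [if_pos hj, if_pos ⟨hj.2.1, hj.1, hj.2.2⟩]; ring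
      · rw [if_neg hj, if_neg (fun h => hj ⟨h.2.1, h.1, h.2.2⟩), neg_zero]
    · rw [if_neg hc, if_neg (fun h => hc (e1.1 h)), neg_zero]
  unfold JJ
  rw [hJT, hJB]
  ring

/-- reversing all values and transposing `lam` -/
theorem JJ_reverse (lam : I → I → ℝ) (i m : I) (y : I → ℝ) :
    JJ (fun a b => lam b a) i m (fun p => - y p) = - JJ lam i m y := by
  have hJT : JT (fun a b => lam b a) i m (fun p => - y p) = JB lam i m y := by
    unfold JT JB
    have e1 : (∀ p, p ≠ i → p ≠ m → (fun p => - y p) p < (fun p => - y p) i) ↔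
        (∀ p, p ≠ i → p ≠ m → y i < y p) := by
      simp only [neg_lt_neg_iff]
    have e2 : ∀ j, (j ≠ i ∧ j ≠ m ∧ (∀ p, p ≠ j → (fun p => - y p) j < (fun p => - y p) p)) ↔
        (j ≠ i ∧ j ≠ m ∧ (∀ p, p ≠ j → y p < y j)) := by
      intro j; simp only [neg_lt_neg_iff]
    by_cases hc : (∀ p, p ≠ i → p ≠ m → y i < y p)
    · rw [if_pos hc, if_pos (e1.2 hc)]
      refine Finset.sum_congr rfl (fun j _ => ?_)
      by_cases hj : (j ≠ i ∧ j ≠ m ∧ (∀ p, p ≠ j → y p < y j))
      · rw [if_pos hj, if_pos ((e2 j).2 hj)]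
      · rw [if_neg hj, if_neg (fun h => hj ((e2 j).1 h))]
    · rw [if_neg hc, if_neg (fun h => hc (e1.1 h))]
  have hJB : JB (fun a b => lam b a) i m (fun p => - y p) = JT lam i m y := by
    unfold JT JB
    have e1 : (∀ p, p ≠ i → p ≠ m → (fun p => - y p) i < (fun p => - y p) p) ↔
        (∀ p, p ≠ i → p ≠ m → y p < y i) := by
      simp only [neg_lt_neg_iff]
    have e2 : ∀ j, (j ≠ i ∧ j ≠ m ∧ (∀ p, p ≠ j → (fun p => - y p) p < (fun p => - y p) j)) ↔
        (j ≠ i ∧ j ≠ m ∧ (∀ p, p ≠ j → y j < y p)) := by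
      intro j; simp only [neg_lt_neg_iff]
    by_cases hc : (∀ p, p ≠ i → p ≠ m → y p < y i)
    · rw [if_pos hc, if_pos (e1.2 hc)]
      refine Finset.sum_congr rfl (fun j _ => ?_)
      by_cases hj : (j ≠ i ∧ j ≠ m ∧ (∀ p, p ≠ j → y j < y p))
      · rw [if_pos hj, if_pos ((e2 j).2 hj)]
      · rw [if_neg hj, if_neg (fun h => hj ((e2 j).1 h))]
    · rw [if_neg hc, if_neg (fun h => hc (e1.1 h))]
  unfold JJ
  rw [hJT, hJB]
  ring

theorem ind_abs_le (i j : I) (y : I → ℝ) : |ind i j y| ≤ 1 := by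
  unfold ind
  split_ifs <;> simp

theorem LL_abs_le (lam : I → I → ℝ) (y : I → ℝ) : |LL lam y| ≤ ∑ i, ∑ j, |lam i j| := by
  unfold LL
  refine (Finset.abs_sum_le_sum_abs _ _).trans (Finset.sum_le_sum (fun i _ => ?_))
  refine (Finset.abs_sum_le_sum_abs _ _).trans (Finset.sum_le_sum (fun j _ => ?_))
  rw [abs_mul]
  exact mul_le_of_le_one_right (abs_nonneg _) (ind_abs_le i j y)

theorem ind_measurable_JJ (i j : I) : Measurable (ind (I := I) i j) := by
  unfold ind
  refine Measurable.ite ?_ measurable_const measurable_const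
  have : {y : I → ℝ | (∀ m, m ≠ i → y m < y i) ∧ (∀ m, m ≠ j → y j < y m)} =
      (⋂ m, ⋂ (_ : m ≠ i), {y : I → ℝ | y m < y i}) ∩
        (⋂ m, ⋂ (_ : m ≠ j), {y : I → ℝ | y j < y m}) := by
    ext y; simp
  rw [this]
  exact (MeasurableSet.iInter (fun m => MeasurableSet.iInter (fun _ =>
    measurableSet_lt (measurable_pi_apply m) (measurable_pi_apply i)))).inter
    (MeasurableSet.iInter (fun m => MeasurableSet.iInter (fun _ =>
    measurableSet_lt (measurable_pi_apply j) (measurable_pi_apply m))))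

theorem LL_measurable (lam : I → I → ℝ) : Measurable (LL lam) := by
  unfold LL
  exact Finset.measurable_fun_sum _ (fun i _ => Finset.measurable_fun_sum _ (fun j _ =>
    (ind_measurable_JJ i j).const_mul _))

theorem TT_eq (lam : I → I → ℝ) (w : I → ℂ) (B : I → ℝ) :
    TT lam w B = ∫ θ in (0:ℝ)..(2 * Real.pi), LL lam (pt w B (Complex.exp (θ * Complex.I))) := by
  have hpt : Measurable (fun θ : ℝ => pt w B (Complex.exp (θ * Complex.I))) := by
    unfold pt
    refine measurable_pi_lambda _ (fun i => ?_)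
    have : Continuous (fun θ : ℝ => B i + (w i * Complex.exp (θ * Complex.I)).re) := by
      fun_prop
    exact this.measurable
  have hint : ∀ i j : I, IntervalIntegrable
      (fun θ : ℝ => ind i j (pt w B (Complex.exp (θ * Complex.I)))) volume 0 (2 * Real.pi) := by
    intro i j
    rw [intervalIntegrable_iff]
    refine Measure.integrableOn_of_bounded (M := 1) ?_ ?_ ?_
    · rw [Set.uIoc_of_le (by positivity), Real.volume_Ioc]
      exact ENNReal.ofReal_ne_top
    · exact ((ind_measurable_JJ i j).comp hpt).aestronglyMeasurable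
    · exact Filter.Eventually.of_forall (fun θ => by
        rw [Real.norm_eq_abs]; exact ind_abs_le i j _)
  unfold TT LL tau
  rw [intervalIntegral.integral_finsetSum (fun i _ => ?_)]
  · refine Finset.sum_congr rfl (fun i _ => ?_)
    rw [intervalIntegral.integral_finsetSum (fun j _ => (hint i j).const_mul _)]
    refine Finset.sum_congr rfl (fun j _ => ?_)
    rw [intervalIntegral.integral_const_mul]
  · have := IntervalIntegrable.sum Finset.univ (fun j _ => (hint i j).const_mul (lam i j))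
    refine this.congr ?_
    intro x _
    simp
end abs


end FanRD
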