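import Mathlib
import Pool.Agent.FanRD.Defs
import Pool.Agent.FanRD.CR
import Pool.Agent.FanRD.JJ
set_option autoImplicit false
set_option maxHeartbeats 4000000
noncomputable section
open MeasureTheory

namespace FanRD

variable {l : ℕ}



section abs
variable {I : Type*} [Fintype I] [DecidableEq I]
end abs
theorem pt_cont_C2 {I : Type*} (i : I) :
    Continuous (fun z : ((I → ℂ) × (I → ℝ)) × ℂ => pt z.1.1 z.1.2 z.2 i) := by
  unfold pt
  have h1 : Continuous (fun z : ((I → ℂ) × (I → ℝ)) × ℂ => z.1.2 i) :=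
    (continuous_apply i).comp (continuous_snd.comp continuous_fst)
  have h2 : Continuous (fun z : ((I → ℂ) × (I → ℝ)) × ℂ => z.1.1 i) :=
    (continuous_apply i).comp (continuous_fst.comp continuous_fst)
  exact h1.add (Complex.continuous_re.comp (h2.mul continuous_snd))

theorem pt_cont' {I : Type*} :
    Continuous (fun z : ((I → ℂ) × (I → ℝ)) × ℂ => pt z.1.1 z.1.2 z.2) :=
  continuous_pi fun i => pt_cont_C2 i

/-- the trigonometric equation has countably many solutions -/
theorem zero_countable (W : ℂ) (b : ℝ) (h : |b| ≠ ‖W‖) :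
    {θ : ℝ | b + (W * Complex.exp (θ * Complex.I)).re = 0}.Countable := by
  by_cases hW : W = 0
  · subst hW
    have hb : b ≠ 0 := by
      rintro rfl
      simp at h
    have h1 : {θ : ℝ | b + ((0 : ℂ) * Complex.exp (θ * Complex.I)).re = 0} = ∅ := by
      ext θ
      simp [hb]
    rw [h1]
    exact Set.countable_empty
  · let P : Polynomial ℂ := Polynomial.C W * Polynomial.X ^ 2 + Polynomial.C (2 * (b : ℂ)) *
      Polynomial.X + Polynomial.C ((starRingEnd ℂ) W)
    have hP : P ≠ 0 := by
      intro h0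
      have h1 : P.coeff 2 = W := by
        simp [P, Polynomial.coeff_X, Polynomial.coeff_C]
      rw [h0, Polynomial.coeff_zero] at h1
      exact hW h1.symm
    have hfin : {z : ℂ | P.IsRoot z}.Finite := by
      apply (P.roots.toFinset.finite_toSet).subset
      intro z hz
      simpa [hP] using hz
    have hsub : {θ : ℝ | b + (W * Complex.exp (θ * Complex.I)).re = 0} ⊆
        ⋃ z ∈ {z : ℂ | P.IsRoot z}, {θ : ℝ | Complex.exp (θ * Complex.I) = z} := by
      intro θ hθ
      rw [Set.mem_iUnion₂]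
      refine ⟨Complex.exp (θ * Complex.I), ?_, rfl⟩
      set z := Complex.exp (θ * Complex.I) with hz
      have hθ' : b + (W * z).re = 0 := hθ
      have hn : z * (starRingEnd ℂ) z = 1 := by
        rw [Complex.mul_conj, Complex.normSq_eq_norm_sq, hz, Complex.norm_exp_ofReal_mul_I]
        simp
      have h2 : W * z + (starRingEnd ℂ) (W * z) = ((-2 * b : ℝ) : ℂ) := by
        rw [Complex.add_conj]
        congr 1
        linarith
      show P.eval z = 0
      simp only [P, Polynomial.eval_add, Polynomial.eval_mul, Polynomial.eval_C,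
        Polynomial.eval_pow, Polynomial.eval_X]
      rw [map_mul] at h2
      have h3 : z * (W * z + (starRingEnd ℂ) W * (starRingEnd ℂ) z) = z * ((-2 * b : ℝ) : ℂ) := by
        rw [h2]
      have h4 : z * (W * z + (starRingEnd ℂ) W * (starRingEnd ℂ) z)
          = W * z ^ 2 + (starRingEnd ℂ) W * (z * (starRingEnd ℂ) z) := by ring
      rw [h4, hn] at h3
      have h5 : W * z ^ 2 + 2 * (b : ℂ) * z + (starRingEnd ℂ) W
          = (W * z ^ 2 + (starRingEnd ℂ) W * 1) + 2 * (b : ℂ) * z := by ring
      rw [h5, h3]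
      push_cast
      ring
    refine (Set.Countable.biUnion hfin.countable ?_).mono hsub
    intro z _
    by_cases hne : ∃ θ0 : ℝ, Complex.exp (θ0 * Complex.I) = z
    · obtain ⟨θ0, hθ0⟩ := hne
      refine (Set.countable_range (fun n : ℤ => θ0 + n * (2 * Real.pi))).mono ?_
      intro θ hθ
      have h1 : Complex.exp (θ * Complex.I) = Complex.exp (θ0 * Complex.I) := by
        rw [hθ0]
        exact hθ
      obtain ⟨n, hn⟩ := Complex.exp_eq_exp_iff_exists_int.1 h1
      refine ⟨n, ?_⟩
      have h2 : ((θ : ℂ) - (θ0 + n * (2 * Real.pi))) * Complex.I = 0 := by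
        rw [sub_mul, hn]
        ring
      have h3 := (mul_eq_zero.1 h2).resolve_right Complex.I_ne_zero
      have h4 : (θ : ℂ) = ((θ0 + n * (2 * Real.pi) : ℝ) : ℂ) := by
        push_cast
        exact sub_eq_zero.1 h3
      exact (Complex.ofReal_injective h4).symm
    · have h1 : {θ : ℝ | Complex.exp (θ * Complex.I) = z} = ∅ := by
        ext θ
        simp only [Set.mem_setOf_eq, Set.mem_empty_iff_false, iff_false]
        intro h2
        exact hne ⟨θ, h2⟩
      rw [h1]
      exact Set.countable_empty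

section abs
variable {I : Type*} [Fintype I] [DecidableEq I]

/-- TARGET 1 -/
theorem reg_open (w : I → ℂ) (B : I → ℝ) (hreg : Reg w B) :
    ∀ᶠ p : (I → ℂ) × (I → ℝ) in nhds (w, B), Reg p.1 p.2 := by
  obtain ⟨h1, h2⟩ := hreg
  unfold Reg
  refine Filter.Eventually.and ?_ ?_
  · rw [Filter.eventually_all]
    intro i
    rw [Filter.eventually_all]
    intro m
    by_cases him : i = m
    · exact Filter.Eventually.of_forall fun p h => absurd him h
    · have hc1 : ContinuousAt (fun p : (I → ℂ) × (I → ℝ) => |p.2 i - p.2 m|) (w, B) := by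
        apply Continuous.continuousAt
        fun_prop
      have hc2 : ContinuousAt (fun p : (I → ℂ) × (I → ℝ) => ‖p.1 i - p.1 m‖) (w, B) := by
        apply Continuous.continuousAt
        fun_prop
      have h3 := (hc1.ne_iff_eventually_ne hc2).1 (h1 i m him)
      exact h3.mono fun p hp _ => hp
  · rw [Filter.eventually_all]
    intro i
    rw [Filter.eventually_all]
    intro m
    rw [Filter.eventually_all]
    intro p
    rw [Filter.eventually_all]
    intro r
    by_cases h : i ≠ m ∧ p ≠ r ∧ ¬ (i = p ∧ m = r) ∧ ¬ (i = r ∧ m = p)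
    · obtain ⟨k1, k2, k3, k4⟩ := h
      have h3 : ∀ᶠ x : (I → ℂ) × (I → ℝ) in nhds (w, B), ∀ e ∈ Metric.sphere (0 : ℂ) 1,
          ¬ (pt x.1 x.2 e i = pt x.1 x.2 e m ∧ pt x.1 x.2 e p = pt x.1 x.2 e r) := by
        apply (isCompact_sphere (0 : ℂ) 1).eventually_forall_of_forall_eventually
        intro e he
        have he' : ‖e‖ = 1 := by simpa using he
        have h4 := h2 i m p r k1 k2 k3 k4 e he'
        rcases not_and_or.1 h4 with h5 | h5
        · have h6 : ∀ᶠ z : ((I → ℂ) × (I → ℝ)) × ℂ in nhds ((w, B), e),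
              pt z.1.1 z.1.2 z.2 i ≠ pt z.1.1 z.1.2 z.2 m :=
            ((pt_cont_C2 i).continuousAt.ne_iff_eventually_ne (pt_cont_C2 m).continuousAt).1 h5
          filter_upwards [h6] with z hz h7
          exact hz h7.1
        · have h6 : ∀ᶠ z : ((I → ℂ) × (I → ℝ)) × ℂ in nhds ((w, B), e),
              pt z.1.1 z.1.2 z.2 p ≠ pt z.1.1 z.1.2 z.2 r :=
            ((pt_cont_C2 p).continuousAt.ne_iff_eventually_ne (pt_cont_C2 r).continuousAt).1 h5
          filter_upwards [h6] with z hz h7
          exact hz h7.2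
      filter_upwards [h3] with x hx _ _ _ _ e he
      exact hx e (by simpa using he)
    · refine Filter.Eventually.of_forall fun x a1 a2 a3 a4 => ?_
      exact absurd ⟨a1, a2, a3, a4⟩ h

theorem JJ_cr_const (lam : I → I → ℝ) (w : I → ℂ) (B : I → ℝ) (hreg : Reg w B) (i m : I)
    (him : i ≠ m) (h : |B i - B m| < ‖w i - w m‖) (σ : ℝ) (hσ : σ = 1 ∨ σ = -1) :
    ∀ᶠ p : (I → ℂ) × (I → ℝ) in nhds (w, B),
      JJ lam i m (pt p.1 p.2 (cr (p.1 i - p.1 m) (p.2 i - p.2 m) σ)) =
      JJ lam i m (pt w B (cr (w i - w m) (B i - B m) σ)) := by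
  have hc1 : ContinuousAt (fun p : (I → ℂ) × (I → ℝ) => cr (p.1 i - p.1 m) (p.2 i - p.2 m) σ)
      (w, B) := by
    have h1 := cr_cont (w i - w m) (B i - B m) σ h
    have h2 : ContinuousAt (fun p : (I → ℂ) × (I → ℝ) => (p.1 i - p.1 m, p.2 i - p.2 m))
        (w, B) := by
      apply Continuous.continuousAt
      fun_prop
    exact ContinuousAt.comp (f := fun p : (I → ℂ) × (I → ℝ) => (p.1 i - p.1 m, p.2 i - p.2 m))
      (g := fun p : ℂ × ℝ => cr p.1 p.2 σ) h1 h2
  have hc2 : ContinuousAt (fun p : (I → ℂ) × (I → ℝ) =>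
      pt p.1 p.2 (cr (p.1 i - p.1 m) (p.2 i - p.2 m) σ)) (w, B) := by
    have h3 : ContinuousAt (fun p : (I → ℂ) × (I → ℝ) =>
        (p, cr (p.1 i - p.1 m) (p.2 i - p.2 m) σ)) (w, B) := continuousAt_id.prodMk hc1
    exact ContinuousAt.comp (g := fun z : ((I → ℂ) × (I → ℝ)) × ℂ => pt z.1.1 z.1.2 z.2)
      pt_cont'.continuousAt h3
  refine hc2.eventually (JJ_locconst lam i m him _ ?_)
  intro p r hpr k1 k2 hcon
  have he : ‖cr (w i - w m) (B i - B m) σ‖ = 1 := cr_norm _ _ _ hσ h
  refine hreg.2 i m p r him hpr ?_ ?_ _ he ⟨?_, hcon⟩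
  · rintro ⟨rfl, rfl⟩
    exact k1 ⟨rfl, rfl⟩
  · rintro ⟨rfl, rfl⟩
    exact k2 ⟨rfl, rfl⟩
  · have h4 := cr_re (w i - w m) (B i - B m) σ h
    unfold pt
    rw [sub_mul, Complex.sub_re] at h4
    linarith

/-- TARGET 2 -/
theorem kap_const (lam : I → I → ℝ) (w : I → ℂ) (B : I → ℝ) (hreg : Reg w B) (i m : I) (him : i ≠ m)
    (h : |B i - B m| < ‖w i - w m‖) :
    ∀ᶠ p : (I → ℂ) × (I → ℝ) in nhds (w, B), kap lam i m p.1 p.2 = kap lam i m w B := by
  filter_upwards [JJ_cr_const lam w B hreg i m him h 1 (Or.inl rfl),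
    JJ_cr_const lam w B hreg i m him h (-1) (Or.inr rfl)] with p h1 h2
  unfold kap
  rw [h1, h2]

/-- TARGET 3 -/
theorem TT_cont (lam : I → I → ℝ) (w : I → ℂ) (B : I → ℝ) (hreg : Reg w B) :
    ContinuousAt (fun p : (I → ℂ) × (I → ℝ) => TT lam p.1 p.2) (w, B) := by
  simp only [TT_eq]
  apply intervalIntegral.continuousAt_of_dominated_interval
    (bound := fun _ => ∑ i, ∑ j, |lam i j|)
  · refine Filter.Eventually.of_forall fun p => ?_
    apply Measurable.aestronglyMeasurable
    refine (LL_measurable lam).comp ?_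
    apply Continuous.measurable
    have h1 : Continuous fun θ : ℝ => (p, Complex.exp (θ * Complex.I)) := by fun_prop
    exact pt_cont'.comp h1
  · refine Filter.Eventually.of_forall fun p => Filter.Eventually.of_forall fun θ _ => ?_
    exact LL_abs_le lam _
  · exact intervalIntegrable_const
  · have hnull : ∀ᵐ θ : ℝ, ∀ p r : I, p ≠ r →
        pt w B (Complex.exp (θ * Complex.I)) p ≠ pt w B (Complex.exp (θ * Complex.I)) r := by
      rw [MeasureTheory.ae_all_iff]
      intro p
      rw [MeasureTheory.ae_all_iff]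
      intro r
      by_cases hpr : p = r
      · exact Filter.Eventually.of_forall fun θ h => absurd hpr h
      · have h1 := (zero_countable (w p - w r) (B p - B r) (hreg.1 p r hpr)).measure_zero volume
        have h2 : ∀ᵐ θ : ℝ, ¬ ((B p - B r) + ((w p - w r) * Complex.exp (θ * Complex.I)).re = 0) :=
          MeasureTheory.measure_eq_zero_iff_ae_notMem.1 h1
        filter_upwards [h2] with θ hθ _ hcon
        apply hθ
        unfold pt at hcon
        rw [sub_mul, Complex.sub_re]
        linarith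
    filter_upwards [hnull] with θ hθ _
    have h1 := LL_locconst lam (pt w B (Complex.exp (θ * Complex.I))) hθ
    have h2 : ContinuousAt (fun p : (I → ℂ) × (I → ℝ) =>
        pt p.1 p.2 (Complex.exp (θ * Complex.I))) (w, B) := by
      have h3 : ContinuousAt (fun p : (I → ℂ) × (I → ℝ) => (p, Complex.exp (θ * Complex.I)))
          (w, B) := by
        apply Continuous.continuousAt
        fun_prop
      exact ContinuousAt.comp (g := fun z : ((I → ℂ) × (I → ℝ)) × ℂ => pt z.1.1 z.1.2 z.2)
        pt_cont'.continuousAt h3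
    have h4 := h2.eventually h1
    exact (continuousAt_const (y := LL lam (pt w B (Complex.exp (θ * Complex.I))))).congr
      (h4.mono fun p hp => hp.symm)
end abs


end FanRD
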