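import Mathlib
import Pool.Agent.FanRD.Defs
set_option autoImplicit false
set_option maxHeartbeats 4000000
noncomputable section
open MeasureTheory

namespace FanRD

variable {l : ℕ}


/-- coordinates map -/
def Fcoord (SBf : Finset (Fin (l + 5))) (Q : Finset (Fin (l + 5) × Bool)) :
    Fan l →ₗ[ℝ] ((SBf → (Fin l → ℝ) × ℝ) × (Q → ℂ)) where
  toFun B := (fun p => (B p.1).2.2, fun q => cmp q.1.2 (B q.1.1))
  map_add' := by
    intro A B
    apply Prod.ext
    · funext p; rfl
    · funext q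
      simp only [cmp, Pi.add_apply, Prod.fst_add, Prod.snd_add]
      split_ifs <;> rfl
  map_smul' := by
    intro c A
    apply Prod.ext
    · funext p; rfl
    · funext q
      simp only [cmp, Pi.smul_apply, Prod.smul_fst, Prod.smul_snd, RingHom.id_apply]
      split_ifs <;> rfl

theorem finrank_V_le (V : Submodule ℝ (Fan l)) (SBf : Finset (Fin (l + 5)))
    (Q : Finset (Fin (l + 5) × Bool))
    (h : ∀ B ∈ V, (∀ p ∈ SBf, (B p).2.2 = 0) → (∀ q ∈ Q, cmp q.2 (B q.1) = 0) → B = 0) :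
    Module.finrank ℝ V ≤ SBf.card * (l + 1) + 2 * Q.card := by
  have hinj : Function.Injective ((Fcoord SBf Q).comp V.subtype) := by
    rw [← LinearMap.ker_eq_bot, LinearMap.ker_eq_bot']
    intro B hB
    have h1 := congrArg Prod.fst hB
    have h2 := congrArg Prod.snd hB
    have h3 : (B : Fan l) = 0 := by
      apply h _ B.2
      · intro p hp; exact congrFun h1 ⟨p, hp⟩
      · intro q hq; exact congrFun h2 ⟨q, hq⟩
    exact Subtype.ext h3
  have h1 := LinearMap.finrank_le_finrank_of_injective hinj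
  refine h1.trans (le_of_eq ?_)
  rw [Module.finrank_prod, Module.finrank_pi_fintype, Module.finrank_pi_fintype]
  simp only [Module.finrank_prod, Module.finrank_fin_fun, Module.finrank_self,
    Complex.finrank_real_complex, Finset.sum_const, Finset.card_univ, Fintype.card_coe, smul_eq_mul]
  ring

/-- TARGET 1 -/
theorem chart_of_submodule (V : Submodule ℝ (Fan l)) (a : Fan l) (N : ℕ)
    (hN : Module.finrank ℝ V ≤ N) :
    ∃ φ : (Fin N → ℝ) → Fan l, ContDiff ℝ 1 φ ∧ ∀ A', A' - a ∈ V → ∃ u, φ u = A' := by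
  let b := Module.finBasis ℝ V
  let L : (Fin N → ℝ) →ₗ[ℝ] V :=
    b.equivFun.symm.toLinearMap.comp (LinearMap.funLeft ℝ ℝ (Fin.castLE hN))
  have hL : Function.Surjective L := by
    have h1 : Function.Surjective (LinearMap.funLeft ℝ ℝ (Fin.castLE hN)) :=
      LinearMap.funLeft_surjective_of_injective ℝ ℝ _ (Fin.castLE_injective hN)
    exact b.equivFun.symm.surjective.comp h1
  let M : (Fin N → ℝ) →L[ℝ] Fan l := LinearMap.toContinuousLinearMap (V.subtype.comp L)
  refine ⟨fun u => a + M u, contDiff_const.add M.contDiff, ?_⟩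
  intro A' hA'
  obtain ⟨u, hu⟩ := hL ⟨A' - a, hA'⟩
  refine ⟨u, ?_⟩
  have h2 : M u = A' - a := by
    change ((L u : V) : Fan l) = A' - a
    rw [hu]
  change a + M u = A'
  rw [h2]; abel

/-- TARGET 2 -/
theorem chart0 (p0 : Fin (l + 5)) (hp0 : p0 ≠ 0) (a0 : Bool) :
    ∃ φ : (Fin ((l + 5) * (l + 4) - 2) → ℝ) → Fan l, ContDiff ℝ 1 φ ∧
      ∀ A', A' 0 = 0 → cmp a0 (A' p0) = 1 → ∃ u, φ u = A' := by
  classical
  let V : Submodule ℝ (Fan l) :=
    { carrier := {B | B 0 = 0 ∧ cmp a0 (B p0) = 0}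
      add_mem' := by
        rintro A B ⟨h1, h2⟩ ⟨h3, h4⟩
        refine ⟨by simp [h1, h3], ?_⟩
        cases a0 <;> simp_all [cmp]
      zero_mem' := by
        refine ⟨rfl, ?_⟩
        cases a0 <;> simp [cmp]
      smul_mem' := by
        rintro c A ⟨h1, h2⟩
        refine ⟨by simp [h1], ?_⟩
        cases a0 <;> simp_all [cmp] }
  have hV : Module.finrank ℝ V ≤ (l + 5) * (l + 4) - 2 := by
    have h1 := finrank_V_le V (Finset.univ.erase 0)
      (((Finset.univ.erase 0) ×ˢ Finset.univ).erase (p0, a0)) ?_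
    · have hc1 : (Finset.univ.erase (0 : Fin (l + 5))).card = l + 4 := by
        rw [Finset.card_erase_of_mem (Finset.mem_univ _), Finset.card_univ, Fintype.card_fin]
        omega
      have hc2 : (((Finset.univ.erase (0 : Fin (l + 5))) ×ˢ (Finset.univ : Finset Bool)).erase
          (p0, a0)).card = 2 * (l + 4) - 1 := by
        rw [Finset.card_erase_of_mem, Finset.card_product, hc1, Finset.card_univ, Fintype.card_bool]
        · ring_nf
        · simp [hp0]
      rw [hc1, hc2] at h1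
      refine h1.trans ?_
      have h3 : 2 * (2 * (l + 4) - 1) = 4 * l + 14 := by omega
      have h4 : (l + 5) * (l + 4) = (l + 4) * (l + 1) + (4 * l + 14) + 2 := by ring
      rw [h3, h4]
      omega
    · rintro B ⟨hB1, hB2⟩ h1 h2
      have hz : ∀ p, B p = 0 := by
        intro p
        by_cases hp : p = 0
        · rw [hp, hB1]
        · have e1 := h1 p (by simp [hp])
          have e2 : ∀ c : Bool, cmp c (B p) = 0 := by
            intro c
            by_cases hc : (p, c) = (p0, a0)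
            · rw [Prod.mk.injEq] at hc
              rw [hc.1, hc.2]; exact hB2
            · exact h2 (p, c) (by simp [hp, hc])
          have e3 := e2 true
          have e4 := e2 false
          simp only [cmp, if_true] at e3
          simp only [cmp, Bool.false_eq_true, if_false] at e4
          exact Prod.ext e3 (Prod.ext e4 e1)
      funext p; exact hz p
  let e : Co l := if a0 then (1, 0, 0, 0) else (0, 1, 0, 0)
  have he : cmp a0 e = 1 := by
    cases a0 <;> simp [cmp, e]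
  obtain ⟨φ, hφ, hφ'⟩ := chart_of_submodule V (Pi.single p0 e) _ hV
  refine ⟨φ, hφ, ?_⟩
  intro A' h0 h1
  apply hφ'
  refine ⟨?_, ?_⟩
  · rw [Pi.sub_apply, h0, Pi.single_eq_of_ne (Ne.symm hp0), sub_zero]
  · rw [Pi.sub_apply, Pi.single_eq_same]
    have : cmp a0 (A' p0 - e) = cmp a0 (A' p0) - cmp a0 e := by
      simp only [cmp]; split_ifs <;> rfl
    rw [this, h1, he, sub_self]

theorem card_reps (ρ : Fin (l + 5) → Fin (l + 5)) (i0 : Fin (l + 5)) (hi0 : ρ i0 = i0) :
    (Finset.univ.filter (fun p => ρ p = p ∧ p ≠ i0)).card = l + 4 - cN ρ := by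
  classical
  have h1 : (Finset.univ.filter (fun p => ρ p = p)).card +
      (Finset.univ.filter (fun p => ¬ ρ p = p)).card = l + 5 := by
    rw [Finset.card_filter_add_card_filter_not, Finset.card_univ, Fintype.card_fin]
  have h2 : (Finset.univ.filter (fun p => ρ p = p ∧ p ≠ i0)) =
      (Finset.univ.filter (fun p => ρ p = p)).erase i0 := by
    ext p; simp [and_comm]
  rw [h2, Finset.card_erase_of_mem (by simp [hi0])]
  have h3 : cN ρ = (Finset.univ.filter (fun p => ¬ ρ p = p)).card := rfl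
  omega

/-- TARGET 3 -/
theorem chart2 (W : Finset (Fin (l + 5))) (ρ : Fin (l + 5) → Fin (l + 5)) (i0 : Fin (l + 5))
    (hi0 : ρ i0 = i0) (hid : ∀ p, ρ (ρ p) = ρ p) :
    ∃ φ : (Fin ((l + 4 - cN ρ) * (l + 1) + 4 * Wᶜ.card) → ℝ) → Fan l, ContDiff ℝ 1 φ ∧
      ∀ A', A' i0 = 0 → (∀ m ∈ W, (A' m).1 = 0 ∧ (A' m).2.1 = 0) → (∀ p, SB A' p (ρ p)) →
        ∃ u, φ u = A' := by
  classical
  let V : Submodule ℝ (Fan l) :=
    { carrier := {B | B i0 = 0 ∧ (∀ m ∈ W, (B m).1 = 0 ∧ (B m).2.1 = 0) ∧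
        ∀ p, (B p).2.2 = (B (ρ p)).2.2}
      add_mem' := by
        rintro A B ⟨h1, h2, h3⟩ ⟨h4, h5, h6⟩
        refine ⟨by simp [h1, h4], fun m hm => ?_, fun p => ?_⟩
        · simp [(h2 m hm).1, (h2 m hm).2, (h5 m hm).1, (h5 m hm).2]
        · simp only [Pi.add_apply, Prod.snd_add]
          rw [h3 p, h6 p]
      zero_mem' := ⟨rfl, fun m _ => ⟨rfl, rfl⟩, fun p => rfl⟩
      smul_mem' := by
        rintro c A ⟨h1, h2, h3⟩
        refine ⟨by simp [h1], fun m hm => ?_, fun p => ?_⟩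
        · simp [(h2 m hm).1, (h2 m hm).2]
        · simp only [Pi.smul_apply, Prod.smul_snd]
          rw [h3 p] }
  have hV : Module.finrank ℝ V ≤ (l + 4 - cN ρ) * (l + 1) + 4 * Wᶜ.card := by
    have h1 := finrank_V_le V (Finset.univ.filter (fun p => ρ p = p ∧ p ≠ i0))
      (Wᶜ ×ˢ Finset.univ) ?_
    · rw [card_reps ρ i0 hi0, Finset.card_product, Finset.card_univ, Fintype.card_bool] at h1
      refine h1.trans (le_of_eq ?_)
      ring
    · rintro B ⟨hB1, hB2, hB3⟩ h1 h2
      funext p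
      have e1 : (B p).2.2 = 0 := by
        rw [hB3 p]
        by_cases hp : ρ p = i0
        · rw [hp, hB1]; rfl
        · exact h1 (ρ p) (by simp [hid p, hp])
      by_cases hp : p ∈ W
      · exact Prod.ext (hB2 p hp).1 (Prod.ext (hB2 p hp).2 e1)
      · have e3 := h2 (p, true) (by simp [hp])
        have e4 := h2 (p, false) (by simp [hp])
        simp only [cmp, if_true] at e3
        simp only [cmp, Bool.false_eq_true, if_false] at e4
        exact Prod.ext e3 (Prod.ext e4 e1)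
  obtain ⟨φ, hφ, hφ'⟩ := chart_of_submodule V 0 _ hV
  refine ⟨φ, hφ, ?_⟩
  intro A' h0 h1 h2
  apply hφ'
  rw [sub_zero]
  exact ⟨h0, h1, h2⟩

/-- TARGET 4 -/
theorem chart4 (W : Finset (Fin (l + 5))) (ρ : Fin (l + 5) → Fin (l + 5)) (i0 p0 : Fin (l + 5))
    (hi0 : ρ i0 = i0) (hi0' : i0 ∈ W) (hid : ∀ p, ρ (ρ p) = ρ p) (hW : ∀ p, p ∉ W → ρ p ∉ W)
    (hp0 : ρ p0 = p0) (hp0' : p0 ∉ W) (a0 : Bool)
    (g : ℂ) (n : Fin (l + 5) → ℕ) :
    ∃ φ : (Fin ((l + 4 - cN ρ) * (l + 1) +
        (4 * (Finset.univ.filter (fun p => p ∉ W ∧ ρ p = p)).card - 2)) → ℝ) → Fan l,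
      ContDiff ℝ 1 φ ∧
      ∀ A', A' i0 = 0 → (∀ m ∈ W, (A' m).1 = 0 ∧ (A' m).2.1 = 0) → (∀ p, SB A' p (ρ p)) →
        (∀ p, p ∉ W → (A' p).1 = g ^ n p * (A' (ρ p)).1 ∧ (A' p).2.1 = g ^ n p * (A' (ρ p)).2.1) →
        cmp a0 (A' p0) = 1 → ∃ u, φ u = A' := by
  classical
  by_cases hg : g ^ n p0 = 1
  swap
  · refine ⟨fun _ => 0, contDiff_const, ?_⟩
    intro A' _ _ _ h3 h4
    exfalso
    obtain ⟨h5, h6⟩ := h3 p0 hp0'
    rw [hp0] at h5 h6
    apply hg
    cases a0
    · simp only [cmp, Bool.false_eq_true, if_false] at h4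
      rw [h4, mul_one] at h6; exact h6.symm
    · simp only [cmp, if_true] at h4
      rw [h4, mul_one] at h5; exact h5.symm
  let V : Submodule ℝ (Fan l) :=
    { carrier := {B | B i0 = 0 ∧ (∀ m ∈ W, (B m).1 = 0 ∧ (B m).2.1 = 0) ∧
        (∀ p, (B p).2.2 = (B (ρ p)).2.2) ∧
        (∀ p, p ∉ W → (B p).1 = g ^ n p * (B (ρ p)).1 ∧ (B p).2.1 = g ^ n p * (B (ρ p)).2.1) ∧
        cmp a0 (B p0) = 0}
      add_mem' := by
        rintro A B ⟨h1, h2, h3, h7, h8⟩ ⟨h4, h5, h6, h9, h10⟩
        refine ⟨by simp [h1, h4], fun m hm => ?_, fun p => ?_, fun p hp => ?_, ?_⟩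
        · simp [(h2 m hm).1, (h2 m hm).2, (h5 m hm).1, (h5 m hm).2]
        · simp only [Pi.add_apply, Prod.snd_add]
          rw [h3 p, h6 p]
        · simp only [Pi.add_apply, Prod.fst_add, Prod.snd_add]
          rw [(h7 p hp).1, (h7 p hp).2, (h9 p hp).1, (h9 p hp).2]
          constructor <;> ring
        · have e1 : cmp a0 ((A + B) p0) = cmp a0 (A p0) + cmp a0 (B p0) := by
            simp only [cmp, Pi.add_apply, Prod.fst_add, Prod.snd_add]; split_ifs <;> rfl
          rw [e1, h8, h10, add_zero]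
      zero_mem' := by
        refine ⟨rfl, fun m _ => ⟨rfl, rfl⟩, fun p => rfl, fun p _ => by simp, ?_⟩
        cases a0 <;> simp [cmp]
      smul_mem' := by
        rintro c A ⟨h1, h2, h3, h7, h8⟩
        refine ⟨by simp [h1], fun m hm => ?_, fun p => ?_, fun p hp => ?_, ?_⟩
        · simp [(h2 m hm).1, (h2 m hm).2]
        · simp only [Pi.smul_apply, Prod.smul_snd]
          rw [h3 p]
        · simp only [Pi.smul_apply, Prod.smul_fst, Prod.smul_snd]
          rw [(h7 p hp).1, (h7 p hp).2]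
          constructor <;> simp [mul_left_comm]
        · have e1 : cmp a0 ((c • A) p0) = c • cmp a0 (A p0) := by
            simp only [cmp, Pi.smul_apply, Prod.smul_fst, Prod.smul_snd]; split_ifs <;> rfl
          rw [e1, h8, smul_zero] }
  have hmemR : p0 ∈ Finset.univ.filter (fun p => p ∉ W ∧ ρ p = p) := by simp [hp0, hp0']
  have hV : Module.finrank ℝ V ≤ (l + 4 - cN ρ) * (l + 1) +
      (4 * (Finset.univ.filter (fun p => p ∉ W ∧ ρ p = p)).card - 2) := by
    have h1 := finrank_V_le V (Finset.univ.filter (fun p => ρ p = p ∧ p ≠ i0))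
      (((Finset.univ.filter (fun p => p ∉ W ∧ ρ p = p)) ×ˢ Finset.univ).erase (p0, a0)) ?_
    · rw [card_reps ρ i0 hi0, Finset.card_erase_of_mem, Finset.card_product, Finset.card_univ,
        Fintype.card_bool] at h1
      · refine h1.trans (le_of_eq ?_)
        have h2 : 0 < (Finset.univ.filter (fun p => p ∉ W ∧ ρ p = p)).card :=
          Finset.card_pos.mpr ⟨p0, hmemR⟩
        generalize (Finset.univ.filter (fun p => p ∉ W ∧ ρ p = p)).card = r at h2 ⊢
        have : 2 * (r * 2 - 1) = 4 * r - 2 := by omega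
        rw [this]
      · rw [Finset.mem_product]; exact ⟨hmemR, Finset.mem_univ _⟩
    · rintro B ⟨hB1, hB2, hB3, hB4, hB5⟩ h1 h2
      funext p
      have e1 : (B p).2.2 = 0 := by
        rw [hB3 p]
        by_cases hp : ρ p = i0
        · rw [hp, hB1]; rfl
        · exact h1 (ρ p) (by simp [hid p, hp])
      by_cases hp : p ∈ W
      · exact Prod.ext (hB2 p hp).1 (Prod.ext (hB2 p hp).2 e1)
      · have e2 : ∀ c : Bool, cmp c (B (ρ p)) = 0 := by
          intro c
          by_cases hc : (ρ p, c) = (p0, a0)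
          · rw [Prod.mk.injEq] at hc
            rw [hc.1, hc.2]; exact hB5
          · refine h2 (ρ p, c) ?_
            rw [Finset.mem_erase, Finset.mem_product]
            exact ⟨hc, by simp [hW p hp, hid p], Finset.mem_univ _⟩
        have e3 := e2 true
        have e4 := e2 false
        simp only [cmp, if_true] at e3
        simp only [cmp, Bool.false_eq_true, if_false] at e4
        obtain ⟨e5, e6⟩ := hB4 p hp
        rw [e3, mul_zero] at e5
        rw [e4, mul_zero] at e6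
        exact Prod.ext e5 (Prod.ext e6 e1)
  let a : Fan l := fun p => if ρ p = p0 ∧ p ∉ W then
    (if a0 then (g ^ n p, 0, 0, 0) else (0, g ^ n p, 0, 0)) else 0
  have ha0 : ∀ p, ρ p ≠ p0 → a p = 0 := by
    intro p hp; simp only [a]; rw [if_neg]; tauto
  have haW : ∀ p, p ∈ W → a p = 0 := by
    intro p hp; simp only [a]; rw [if_neg]; tauto
  have ha1 : ∀ p, ρ p = p0 → p ∉ W →
      a p = (if a0 then (g ^ n p, 0, 0, 0) else (0, g ^ n p, 0, 0)) := by
    intro p hp hp'; simp only [a]; rw [if_pos ⟨hp, hp'⟩]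
  have haB : ∀ p, (a p).2.2 = 0 := by
    intro p
    by_cases h : ρ p = p0 ∧ p ∉ W
    · rw [ha1 p h.1 h.2]; cases a0 <;> rfl
    · simp only [a]; rw [if_neg h]; rfl
  obtain ⟨φ, hφ, hφ'⟩ := chart_of_submodule V a _ hV
  refine ⟨φ, hφ, ?_⟩
  intro A' h0 h1 h2 h3 h4
  apply hφ'
  refine ⟨?_, fun m hm => ?_, fun p => ?_, fun p hp => ?_, ?_⟩
  · rw [Pi.sub_apply, h0, haW i0 hi0', sub_zero]
  · rw [Pi.sub_apply, haW m hm, sub_zero]; exact h1 m hm
  · simp only [Pi.sub_apply, Prod.snd_sub]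
    rw [haB p, haB (ρ p), sub_zero, sub_zero]
    exact h2 p
  · simp only [Pi.sub_apply, Prod.fst_sub, Prod.snd_sub]
    obtain ⟨h5, h6⟩ := h3 p hp
    by_cases hpp : ρ p = p0
    · rw [h5, h6, ha1 p hpp hp, hpp, ha1 p0 hp0 hp0', hg]
      cases a0 <;> simp [mul_sub]
    · rw [ha0 p hpp, ha0 (ρ p) (by rw [hid]; exact hpp)]
      simp only [Prod.fst_zero, Prod.snd_zero, sub_zero]
      exact ⟨h5, h6⟩
  · rw [Pi.sub_apply, ha1 p0 hp0 hp0', hg]
    have : ∀ c : Co l, cmp a0 (A' p0 - c) = cmp a0 (A' p0) - cmp a0 c := by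
      intro c; simp only [cmp]; split_ifs <;> rfl
    rw [this, h4]
    cases a0 <;> simp [cmp]


end FanRD
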