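import Mathlib
import Pool.Agent.FanRD.Defs
set_option autoImplicit false
set_option maxHeartbeats 4000000
noncomputable section
open MeasureTheory

namespace FanRD

variable {l : ℕ}


/-- the linear map whose kernel is the space of normalised fans -/
def chT (l : ℕ) (s i0 : Fin (l + 5)) : Fan l →ₗ[ℝ] Co l × (Fin l → ℝ) where
  toFun B := (B i0, (B s).2.2.1)
  map_add' := fun a b => rfl
  map_smul' := fun c a => rfl

theorem finrank_Co (l : ℕ) : Module.finrank ℝ (Co l) = l + 5 := by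
  simp only [Co, Module.finrank_prod, Complex.finrank_real_complex, Module.finrank_fin_fun,
    Module.finrank_self]
  omega

theorem chT_surj (s i0 : Fin (l + 5)) (hs : s ≠ i0) : Function.Surjective (chT l s i0) := by
  rintro ⟨c, b⟩
  refine ⟨fun i => if i = i0 then c else (0, 0, b, 0), ?_⟩
  show ((if i0 = i0 then c else (0, 0, b, 0) : Co l), (if s = i0 then c else (0, 0, b, 0) : Co l).2.2.1) = (c, b)
  rw [if_pos rfl, if_neg hs]

theorem finrank_ker_chT (s i0 : Fin (l + 5)) (hs : s ≠ i0) :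
    Module.finrank ℝ (LinearMap.ker (chT l s i0)) = (l + 5) * (l + 4) - l := by
  have h := LinearMap.finrank_range_add_finrank_ker (chT l s i0)
  rw [LinearMap.range_eq_top.2 (chT_surj s i0 hs), finrank_top, Module.finrank_prod, finrank_Co,
    Module.finrank_fin_fun] at h
  have h2 : Module.finrank ℝ (Fan l) = (l + 5) * (l + 5) := by
    rw [Module.finrank_pi_fintype]
    simp
    omega
  rw [h2] at h
  have h3 : (l + 5) * (l + 5) = (l + 5) * (l + 4) + (l + 5) := by ring
  omega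

/-- TARGET -/
theorem chart1 (s i0 : Fin (l + 5)) (hs : s ≠ i0) (q : Fin 3 → Fin (l + 5)) (hq : ∀ k, q k ≠ s) :
    ∃ φ : (Fin ((l + 5) * (l + 4) - l + 3) → ℝ) → Fan l, ContDiff ℝ 1 φ ∧
      ∀ A', A' i0 = 0 →
        (∃ x : Fin 3 → ℝ, ∀ k, (A' s).2.2.1 k = ∑ a, x a * (A' (q a)).2.2.1 k) → ∃ u, φ u = A' := by
  have hfr : Module.finrank ℝ (Fin ((l + 5) * (l + 4) - l + 3) → ℝ)
      = Module.finrank ℝ (LinearMap.ker (chT l s i0) × (Fin 3 → ℝ)) := by
    rw [Module.finrank_fin_fun, Module.finrank_prod, finrank_ker_chT s i0 hs,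
      Module.finrank_fin_fun]
  obtain ⟨L⟩ : Nonempty ((Fin ((l + 5) * (l + 4) - l + 3) → ℝ) ≃ₗ[ℝ]
      (LinearMap.ker (chT l s i0) × (Fin 3 → ℝ))) :=
    FiniteDimensional.nonempty_linearEquiv_of_finrank_eq hfr
  let LB : (Fin ((l + 5) * (l + 4) - l + 3) → ℝ) →ₗ[ℝ] Fan l :=
    (LinearMap.ker (chT l s i0)).subtype ∘ₗ LinearMap.fst ℝ _ _ ∘ₗ L.toLinearMap
  let Lx : (Fin ((l + 5) * (l + 4) - l + 3) → ℝ) →ₗ[ℝ] (Fin 3 → ℝ) :=
    LinearMap.snd ℝ _ _ ∘ₗ L.toLinearMap
  have cB : ContDiff ℝ 1 (fun u => LB u) := (LinearMap.toContinuousLinearMap LB).contDiff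
  have cx : ContDiff ℝ 1 (fun u => Lx u) := (LinearMap.toContinuousLinearMap Lx).contDiff
  have cBi : ∀ i, ContDiff ℝ 1 (fun u => LB u i) := fun i => contDiff_pi.1 cB i
  have cxa : ∀ a, ContDiff ℝ 1 (fun u => Lx u a) := fun a => contDiff_pi.1 cx a
  refine ⟨fun u i => LB u i + if i = s then
    ((0 : ℂ), (0 : ℂ), (fun k => ∑ a, Lx u a * (LB u (q a)).2.2.1 k), (0 : ℝ)) else 0, ?_, ?_⟩
  · refine contDiff_pi.2 fun i => ?_
    refine (cBi i).add ?_
    by_cases hi : i = s
    · simp only [hi, if_true]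
      refine contDiff_const.prodMk (contDiff_const.prodMk (ContDiff.prodMk ?_ contDiff_const))
      refine contDiff_pi.2 fun k => ?_
      refine ContDiff.sum fun a _ => (cxa a).mul ?_
      have h1 : ContDiff ℝ 1 (fun u => (LB u (q a)).2.2.1) :=
        contDiff_fst.comp (contDiff_snd.comp (contDiff_snd.comp (cBi (q a))))
      exact contDiff_pi.1 h1 k
    · simp only [hi, if_false]
      exact contDiff_const
  · rintro A' h0 ⟨x, hx⟩
    let B : Fan l := fun i => if i = s then ((A' s).1, (A' s).2.1, 0, (A' s).2.2.2) else A' i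
    have hBs : B s = ((A' s).1, (A' s).2.1, 0, (A' s).2.2.2) := if_pos rfl
    have hBi : ∀ i, i ≠ s → B i = A' i := fun i hi => if_neg hi
    have hB : B ∈ LinearMap.ker (chT l s i0) := by
      rw [LinearMap.mem_ker]
      show (B i0, (B s).2.2.1) = 0
      rw [hBs, hBi i0 hs.symm, h0]
      rfl
    refine ⟨L.symm (⟨B, hB⟩, x), ?_⟩
    have e1 : LB (L.symm (⟨B, hB⟩, x)) = B := by
      show ((L (L.symm (⟨B, hB⟩, x))).1 : Fan l) = B
      rw [LinearEquiv.apply_symm_apply]
    have e2 : Lx (L.symm (⟨B, hB⟩, x)) = x := by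
      show (L (L.symm (⟨B, hB⟩, x))).2 = x
      rw [LinearEquiv.apply_symm_apply]
    funext i
    simp only [e1, e2]
    by_cases hi : i = s
    · rw [if_pos hi, hi, hBs]
      refine Prod.ext (add_zero _) (Prod.ext (add_zero _) (Prod.ext ?_ (add_zero _)))
      show (0 : Fin l → ℝ) + (fun k => ∑ a, x a * (B (q a)).2.2.1 k) = (A' s).2.2.1
      rw [zero_add]
      funext k
      rw [hx k]
      refine Finset.sum_congr rfl fun a _ => ?_
      rw [hBi (q a) (hq a)]
    · rw [if_neg hi, add_zero, hBi i hi]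

/-- TARGET 2: a small dependency gives such a relation -/
theorem dep_rel (A : Fan l) (s : Fin (l + 5)) (hs : ¬ Typ A s) :
    ∃ q : Fin 3 → Fin (l + 5), (∀ k, q k ≠ s) ∧
      ∀ i0 : Fin (l + 5), ∃ x : Fin 3 → ℝ, ∀ k,
        (subF A (A i0) s).2.2.1 k = ∑ a, x a * (subF A (A i0) (q a)).2.2.1 k := by
  unfold Typ at hs
  push Not at hs
  obtain ⟨ν, hν0, hνb, hcard, hνs⟩ := hs
  let S : Finset (Fin (l + 5)) := (Finset.univ.filter (fun i => ν i ≠ 0)).erase s
  have hsum : ∀ h : Fin (l + 5) → ℝ, ∑ i, ν i * h i = ν s * h s + ∑ i ∈ S, ν i * h i := by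
    intro h
    have h1 : ∑ i, ν i * h i = ∑ i ∈ Finset.univ.filter (fun i => ν i ≠ 0), ν i * h i := by
      rw [Finset.sum_filter]
      refine Finset.sum_congr rfl fun i _ => ?_
      by_cases hi : ν i = 0
      · simp [hi]
      · simp [hi]
    rw [h1, ← Finset.add_sum_erase _ _ (Finset.mem_filter.2 ⟨Finset.mem_univ s, hνs⟩)]
  have hScard : S.card ≤ 3 := by
    have h1 : S.card = (Finset.univ.filter (fun i => ν i ≠ 0)).card - 1 :=
      Finset.card_erase_of_mem (Finset.mem_filter.2 ⟨Finset.mem_univ s, hνs⟩)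
    omega
  have hSne : S.Nonempty := by
    by_contra h
    rw [Finset.not_nonempty_iff_eq_empty] at h
    have h1 := hsum (fun _ => 1)
    rw [h] at h1
    simp [hν0] at h1
    exact hνs h1.symm
  obtain ⟨i1, hi1⟩ := hSne
  haveI : Nonempty S := ⟨⟨i1, hi1⟩⟩
  obtain ⟨f⟩ : Nonempty (S ↪ Fin 3) :=
    Function.Embedding.nonempty_of_card_le (by simpa using hScard)
  let g : Fin 3 → S := Function.invFun f
  have hgf : ∀ i, g (f i) = i := Function.leftInverse_invFun f.injective
  refine ⟨fun a => (g a : Fin (l + 5)), fun a => Finset.ne_of_mem_erase (g a).2, fun i0 => ?_⟩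
  refine ⟨fun a => if f (g a) = a then -(ν (g a)) / ν s else 0, fun k => ?_⟩
  have key : ∀ h : Fin (l + 5) → ℝ,
      ∑ a, (if f (g a) = a then -(ν (g a)) / ν s else 0) * h (g a)
        = -(∑ i ∈ S, ν i * h i) / ν s := by
    intro h
    have h1 : ∑ i : S, -(ν i) / ν s * h i
        = ∑ a, (if f (g a) = a then -(ν (g a)) / ν s else 0) * h (g a) := by
      refine Fintype.sum_of_injective f f.injective _ _ ?_ ?_
      · intro a ha
        rw [if_neg, zero_mul]
        intro h2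
        exact ha ⟨_, h2⟩
      · intro i
        simp only [hgf, if_true]
    rw [← h1]
    rw [Finset.sum_coe_sort S (fun i => -(ν i) / ν s * h i), ← Finset.sum_neg_distrib,
      Finset.sum_div]
    refine Finset.sum_congr rfl fun i _ => ?_
    ring
  show (A s).2.2.1 k - (A i0).2.2.1 k = ∑ a, (if f (g a) = a then -(ν (g a)) / ν s else 0)
    * ((A (g a)).2.2.1 k - (A i0).2.2.1 k)
  rw [key (fun i => (A i).2.2.1 k - (A i0).2.2.1 k)]
  have h1 := hsum (fun i => (A i).2.2.1 k - (A i0).2.2.1 k)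
  have h2 : ∑ i, ν i * ((A i).2.2.1 k - (A i0).2.2.1 k) = 0 := by
    simp only [mul_sub, Finset.sum_sub_distrib]
    rw [hνb k, ← Finset.sum_mul, hν0]
    ring
  rw [h2] at h1
  field_simp
  linarith

end FanRD
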