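import Mathlib
import Pool.Agent.FanRD.Defs
set_option autoImplicit false
set_option maxHeartbeats 4000000
noncomputable section
open MeasureTheory

namespace FanRD

variable {l : ℕ}


/-- TARGET 1 -/
theorem cl_deg (A : Fan l) (W : Finset (Fin (l + 5))) (ρ : Fin (l + 5) → Fin (l + 5))
    (h : Deg A W ρ) (i m : Fin (l + 5)) (hi : i ∉ W) (hm : m ∈ W) :
    cl A i m = Finset.univ.filter (fun s => ρ s = ρ i) := by
  obtain ⟨hm1, hm2⟩ := h.zero m hm
  ext s
  simp only [cl, Finset.mem_filter, Finset.mem_univ, true_and, hm1, hm2, sub_zero]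
  constructor
  · rintro ⟨hSB, e, he, h1, h2⟩
    have he0 : e ≠ 0 := by
      intro h0
      rw [h0, norm_zero] at he
      exact zero_ne_one he
    have hs : s ∉ W := by
      intro hs
      obtain ⟨hs1, hs2⟩ := h.zero s hs
      apply h.nz i hi
      rw [hs1] at h1
      rw [hs2] at h2
      constructor
      · rcases mul_eq_zero.1 h1.symm with h3 | h3
        · exact absurd h3 he0
        · exact h3
      · rcases mul_eq_zero.1 h2.symm with h3 | h3
        · exact absurd h3 he0
        · exact h3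
    exact (h.cls s i hs hi).2 ⟨hSB, e, he, h1, h2⟩
  · intro hr
    have hs : s ∉ W := by
      intro hs
      have h3 := h.maps i hi
      rw [← hr, h.fix s hs] at h3
      exact h3 hs
    exact (h.cls s i hs hi).1 hr

/-- TARGET 2 -/
theorem deg_exists (A : Fan l) (m0 : Fin (l + 5))
    (h0 : Typ A m0) (hSA : ∀ m, Typ A m → SA A m m0)
    (h2 : ∀ h, ¬ SA A h m0 → cl A h m0 ≠ {h}) :
    ∃ (W : Finset (Fin (l + 5))) (ρ : Fin (l + 5) → Fin (l + 5)), m0 ∈ W ∧
      (∀ m, Typ A m → m ∈ W) ∧ Deg (subF A (A m0)) W ρ := by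
  classical
  set A' : Fan l := subF A (A m0) with hA'
  have hA1 : ∀ i, (A' i).1 = (A i).1 - (A m0).1 := fun i => rfl
  have hA2 : ∀ i, (A' i).2.1 = (A i).2.1 - (A m0).2.1 := fun i => rfl
  have hA3 : ∀ i, (A' i).2.2 = (A i).2.2 - (A m0).2.2 := fun i => rfl
  have hSB : ∀ p q, SB A' p q ↔ SB A p q := by
    intro p q
    unfold SB
    rw [hA3, hA3]
    exact sub_left_inj
  have hrefl : ∀ p, Ph A' p p := fun p => ⟨rfl, 1, norm_one, by simp, by simp⟩
  have hsymm : ∀ p q, Ph A' p q → Ph A' q p := by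
    rintro p q ⟨h1, e, he, h3, h4⟩
    have he0 : e ≠ 0 := by
      intro h0
      rw [h0, norm_zero] at he
      exact zero_ne_one he
    refine ⟨h1.symm, e⁻¹, by rw [norm_inv, he, inv_one], ?_, ?_⟩
    · rw [h3]
      field_simp
    · rw [h4]
      field_simp
  have htrans : ∀ p q r, Ph A' p q → Ph A' q r → Ph A' p r := by
    rintro p q r ⟨h1, e, he, h3, h4⟩ ⟨h1', e', he', h3', h4'⟩
    refine ⟨h1.trans h1', e * e', by rw [norm_mul, he, he', one_mul], ?_, ?_⟩
    · rw [h3, h3', mul_assoc]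
    · rw [h4, h4', mul_assoc]
  let st : Setoid (Fin (l + 5)) := ⟨fun p q => Ph A' p q, hrefl, fun {p q} => hsymm p q,
    fun {p q r} => htrans p q r⟩
  set W : Finset (Fin (l + 5)) := Finset.univ.filter (fun h => SA A h m0) with hW
  have hmemW : ∀ p, p ∈ W ↔ ((A' p).1 = 0 ∧ (A' p).2.1 = 0) := by
    intro p
    rw [hW, Finset.mem_filter, hA1, hA2, sub_eq_zero, sub_eq_zero]
    simp [SA]
  have hPhW : ∀ p q, Ph A' p q → (p ∈ W → q ∈ W) := by
    rintro p q ⟨h1, e, he, h3, h4⟩ hp
    have he0 : e ≠ 0 := by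
      intro h0
      rw [h0, norm_zero] at he
      exact zero_ne_one he
    rw [hmemW] at hp ⊢
    rw [hp.1] at h3
    rw [hp.2] at h4
    constructor
    · rcases mul_eq_zero.1 h3.symm with h5 | h5
      · exact absurd h5 he0
      · exact h5
    · rcases mul_eq_zero.1 h4.symm with h5 | h5
      · exact absurd h5 he0
      · exact h5
  let ot : Fin (l + 5) → Fin (l + 5) := fun p => Quotient.out (Quotient.mk st p)
  have hot : ∀ p, Ph A' (ot p) p := fun p => Quotient.exact (Quotient.out_eq (Quotient.mk st p))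
  have hoteq : ∀ p q, Ph A' p q → ot p = ot q := by
    intro p q hpq
    have : Quotient.mk st p = Quotient.mk st q := Quotient.sound hpq
    show Quotient.out (Quotient.mk st p) = Quotient.out (Quotient.mk st q)
    rw [this]
  let ρ : Fin (l + 5) → Fin (l + 5) := fun p => if p ∈ W then p else ot p
  have hρ1 : ∀ p, p ∈ W → ρ p = p := fun p hp => if_pos hp
  have hρ2 : ∀ p, p ∉ W → ρ p = ot p := fun p hp => if_neg hp
  have hotW : ∀ p, p ∉ W → ot p ∉ W := fun p hp hc => hp (hPhW _ _ (hot p) hc)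
  refine ⟨W, ρ, ?_, ?_, ?_⟩
  · rw [hW, Finset.mem_filter]
    exact ⟨Finset.mem_univ _, rfl, rfl⟩
  · intro m hm
    rw [hW, Finset.mem_filter]
    exact ⟨Finset.mem_univ _, hSA m hm⟩
  · refine ⟨fun m hm => (hmemW m).1 hm, fun p hp hc => hp ((hmemW p).2 hc), hρ1, ?_, ?_, ?_, ?_⟩
    · intro p hp
      rw [hρ2 p hp]
      exact hotW p hp
    · intro p
      by_cases hp : p ∈ W
      · rw [hρ1 p hp, hρ1 p hp]
      · rw [hρ2 p hp, hρ2 _ (hotW p hp)]
        exact hoteq _ _ (hot p)
    · intro p q hp hq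
      rw [hρ2 p hp, hρ2 q hq]
      constructor
      · intro h1
        have h3 := hot p
        rw [h1] at h3
        exact htrans _ _ _ (hsymm _ _ h3) (hot q)
      · exact hoteq p q
    · intro p hp
      have hnSA : ¬ SA A p m0 := by
        intro hc
        apply hp
        rw [hW, Finset.mem_filter]
        exact ⟨Finset.mem_univ _, hc⟩
      have h3 := h2 p hnSA
      have hpcl : p ∈ cl A p m0 := by
        simp only [cl, Finset.mem_filter, Finset.mem_univ, true_and]
        exact ⟨rfl, 1, norm_one, by simp, by simp⟩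
      have h4 : ∃ q, q ∈ cl A p m0 ∧ q ≠ p := by
        by_contra hcon
        push Not at hcon
        apply h3
        ext q
        rw [Finset.mem_singleton]
        exact ⟨fun hq => hcon q hq, fun hq => hq ▸ hpcl⟩
      obtain ⟨q, hq, hqp⟩ := h4
      simp only [cl, Finset.mem_filter, Finset.mem_univ, true_and] at hq
      obtain ⟨hq1, e, he, hq2, hq3⟩ := hq
      have hPh : Ph A' q p := ⟨(hSB q p).2 hq1, e, he, hq2, hq3⟩
      have hqW : q ∉ W := fun hc => hp (hPhW _ _ hPh hc)
      refine ⟨q, hqp, ?_⟩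
      rw [hρ2 p hp, hρ2 q hqW]
      exact hoteq q p hPh


end FanRD
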