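import Mathlib
import Pool.Agent.FanRD.Defs
set_option autoImplicit false
set_option maxHeartbeats 4000000
noncomputable section
open MeasureTheory

namespace FanRD

variable {l : ℕ}



def linL (a : Co l) : X l →ₗ[ℝ] ℝ where
  toFun := lin a
  map_add' x y := by
    simp only [lin, om, bb, Prod.fst_add, Prod.snd_add, Pi.add_apply, mul_add, Finset.sum_add_distrib,
      Complex.add_re]
    ring
  map_smul' c x := by
    simp only [lin, om, bb, Prod.smul_fst, Prod.smul_snd, Pi.smul_apply, Complex.real_smul,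
      RingHom.id_apply, smul_eq_mul, Complex.add_re, Complex.mul_re, Complex.ofReal_re,
      Complex.ofReal_im, Complex.mul_im, mul_add, Finset.mul_sum]
    congr 1
    · ring
    · refine Finset.sum_congr rfl fun k _ => ?_
      ring

lemma linL_apply (a : Co l) (x : X l) : linL a x = lin a x := rfl

lemma ev_eq (a : Co l) (x : X l) : ev a x = linL a x + a.2.2.2 := rfl

def Lam (A : Fan l) : X l →ₗ[ℝ] (Fin (l + 4) → ℝ) :=
  LinearMap.pi (fun j => linL (A j.succ) - linL (A 0))

lemma Lam_apply (A : Fan l) (x : X l) (j : Fin (l + 4)) :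
    Lam A x j = linL (A j.succ) x - linL (A 0) x := rfl

lemma Lam_inj (A : Fan l) (hA : ND A) : Function.Injective (Lam A) := by
  rw [← LinearMap.ker_eq_bot, LinearMap.ker_eq_bot']
  intro x hx
  apply hA
  intro i
  rcases Fin.eq_zero_or_eq_succ i with h | ⟨j, h⟩
  · rw [h]
  · have := congrFun hx j
    rw [Lam_apply] at this
    simp only [Pi.zero_apply, linL_apply] at this
    rw [h]
    linarith

lemma finrank_X : Module.finrank ℝ (X l) = Module.finrank ℝ (Fin (l + 4) → ℝ) := by
  simp only [X, Module.finrank_prod, Complex.finrank_real_complex, Module.finrank_fin_fun]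
  omega

def RR (A : Fan l) (hA : ND A) : X l ≃ₗ[ℝ] (Fin (l + 4) → ℝ) :=
  LinearEquiv.ofBijective (Lam A)
    ⟨Lam_inj A hA, (LinearMap.injective_iff_surjective_of_finrank_eq_finrank finrank_X).1 (Lam_inj A hA)⟩

lemma Lam_RR (A : Fan l) (hA : ND A) (y : Fin (l + 4) → ℝ) : Lam A ((RR A hA).symm y) = y :=
  (RR A hA).apply_symm_apply y

theorem nd_inj (A : Fan l) (hA : ND A) (x x' : X l)
    (h : ∀ i, ev (A i) x - ev (A 0) x = ev (A i) x' - ev (A 0) x') : x = x' := by
  rw [← sub_eq_zero]
  apply hA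
  intro i
  have := h i
  simp only [ev_eq] at this
  rw [← linL_apply, ← linL_apply, map_sub, map_sub]
  linarith

/-- an affine right inverse of `x ↦ (ev (A i) x)_i` modulo constants -/
theorem nd_param (A : Fan l) (hA : ND A) :
    ∃ (x0 : X l) (L : (Fin (l + 5) → ℝ) →ₗ[ℝ] X l), ∀ y i,
      ev (A i) (x0 + L y) - ev (A 0) (x0 + L y) = y i - y 0 := by
  let D : (Fin (l + 5) → ℝ) →ₗ[ℝ] (Fin (l + 4) → ℝ) :=
    LinearMap.pi (fun j => (LinearMap.proj j.succ : (Fin (l + 5) → ℝ) →ₗ[ℝ] ℝ) -
      (LinearMap.proj (0 : Fin (l + 5)) : (Fin (l + 5) → ℝ) →ₗ[ℝ] ℝ))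
  have hD : ∀ y j, D y j = y j.succ - y 0 := fun y j => rfl
  let c : Fin (l + 5) → ℝ := fun i => (A i).2.2.2
  refine ⟨-((RR A hA).symm (D c)), (RR A hA).symm.toLinearMap ∘ₗ D, fun y i => ?_⟩
  rcases Fin.eq_zero_or_eq_succ i with h | ⟨j, h⟩
  · rw [h]; ring
  · have h1 := congrFun (Lam_RR A hA (D c)) j
    have h2 := congrFun (Lam_RR A hA (D y)) j
    rw [Lam_apply, hD] at h1 h2
    rw [h]
    simp only [ev_eq, map_add, map_neg, LinearMap.comp_apply, LinearEquiv.coe_coe]
    have h3 : c j.succ = (A j.succ).2.2.2 := rfl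
    have h4 : c 0 = (A 0).2.2.2 := rfl
    rw [← h3, ← h4]
    linarith

theorem nd_indep (A : Fan l) (hA : ND A) (ν : Fin (l + 5) → ℝ) (h0 : ∑ i, ν i = 0)
    (h1 : ∑ i, (ν i : ℂ) * (A i).1 = 0) (h2 : ∑ i, (ν i : ℂ) * (A i).2.1 = 0)
    (h3 : ∀ k, ∑ i, ν i * (A i).2.2.1 k = 0) : ν = 0 := by
  have key : ∀ x : X l, ∑ i, ν i * linL (A i) x = 0 := by
    intro x
    have e1 : ∑ i, ν i * (om (A i) x).re = 0 := by
      have : (∑ i, (ν i : ℂ) * om (A i) x) = 0 := by
        have e : ∀ i, (ν i : ℂ) * om (A i) x =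
            ((ν i : ℂ) * (A i).1) * x.1 + ((ν i : ℂ) * (A i).2.1) * x.2.1 := by
          intro i; simp only [om]; ring
        simp only [e]
        rw [Finset.sum_add_distrib, ← Finset.sum_mul, ← Finset.sum_mul, h1, h2]
        simp
      have h := congrArg Complex.re this
      rw [Complex.re_sum] at h
      simpa [Complex.re_ofReal_mul] using h
    have e2 : ∑ i, ν i * bb (A i) x = 0 := by
      simp only [bb, Finset.mul_sum]
      rw [Finset.sum_comm]
      apply Finset.sum_eq_zero
      intro k _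
      have e : ∀ i, ν i * ((A i).2.2.1 k * x.2.2 k) = (ν i * (A i).2.2.1 k) * x.2.2 k := by
        intro i; ring
      simp only [e]
      rw [← Finset.sum_mul, h3 k, zero_mul]
    simp only [linL_apply, lin, mul_add, Finset.sum_add_distrib]
    rw [e1, e2, add_zero]
  have key2 : ∀ f : Fin (l + 4) → ℝ, ∑ j, ν j.succ * f j = 0 := by
    intro f
    have h := key ((RR A hA).symm f)
    have h5 := Lam_RR A hA f
    rw [Fin.sum_univ_succ] at h h0
    have e : ∀ j : Fin (l + 4), ν j.succ * linL (A j.succ) ((RR A hA).symm f) =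
        ν j.succ * f j + ν j.succ * linL (A 0) ((RR A hA).symm f) := by
      intro j
      have := congrFun h5 j
      rw [Lam_apply] at this
      rw [← this]; ring
    simp only [e, Finset.sum_add_distrib, ← Finset.sum_mul] at h
    have : (ν 0 + ∑ j : Fin (l + 4), ν j.succ) * linL (A 0) ((RR A hA).symm f) = 0 := by
      rw [h0, zero_mul]
    linarith
  have key3 : ∀ j : Fin (l + 4), ν j.succ = 0 := by
    intro j
    have := key2 (Pi.single j 1)
    simpa [Pi.single_apply] using this
  funext i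
  rcases Fin.eq_zero_or_eq_succ i with h | ⟨j, h⟩
  · rw [Fin.sum_univ_succ] at h0
    simp only [key3, Finset.sum_const_zero, add_zero] at h0
    rw [h, h0]; rfl
  · rw [h, key3]; rfl

/-- any complex line in `ℂ²` misses at least two of the points -/
theorem nd_outside (A : Fan l) (hA : ND A) (i m j : Fin (l + 5)) (hS : ¬ SA A i m) :
    ∃ p, p ≠ j ∧ ¬ ∃ η : ℂ, (A p).1 - (A m).1 = η * ((A i).1 - (A m).1) ∧
      (A p).2.1 - (A m).2.1 = η * ((A i).2.1 - (A m).2.1) := by
  by_contra hcon
  push Not at hcon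
  apply hS
  set a := (A i).1 - (A m).1 with ha
  set b := (A i).2.1 - (A m).2.1 with hb
  set d := ((A j).1 - (A m).1) * b - ((A j).2.1 - (A m).2.1) * a with hd
  obtain ⟨c, hc0, hc⟩ : ∃ c : ℂ, c ≠ 0 ∧ (c * d).re = 0 := by
    by_cases h : d = 0
    · exact ⟨1, one_ne_zero, by simp [h]⟩
    · refine ⟨Complex.I * (starRingEnd ℂ) d, mul_ne_zero Complex.I_ne_zero (by simpa using h), ?_⟩
      have : Complex.I * (starRingEnd ℂ) d * d = Complex.I * ((Complex.normSq d : ℝ) : ℂ) := by
        rw [Complex.normSq_eq_conj_mul_self]; ring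
      rw [this]; simp
  let x : X l := (c * b, -(c * a), 0)
  have hx : ∀ p, lin (A p) x = lin (A m) x := by
    intro p
    have e : lin (A p) x - lin (A m) x =
        (c * (((A p).1 - (A m).1) * b - ((A p).2.1 - (A m).2.1) * a)).re := by
      simp only [lin, om, bb, x, Pi.zero_apply, mul_zero, Finset.sum_const_zero, add_zero]
      rw [← Complex.sub_re]
      congr 1
      ring
    rw [← sub_eq_zero, e]
    by_cases hp : p = j
    · rw [hp, ← hd, hc]
    · obtain ⟨η, h1, h2⟩ := hcon p hp
      rw [h1, h2]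
      have : c * (η * a * b - η * b * a) = 0 := by ring
      rw [this]; simp
  have hx0 : x = 0 := hA x (fun p => by rw [hx p, hx 0])
  have h1 : c * b = 0 := congrArg Prod.fst hx0
  have h2 : -(c * a) = 0 := congrArg (fun y : X l => y.2.1) hx0
  have h1' : b = 0 := by simpa [hc0] using h1
  have h2' : a = 0 := by simpa [hc0] using h2
  exact ⟨sub_eq_zero.1 h2', sub_eq_zero.1 h1'⟩

theorem nd_ne (A : Fan l) (hA : ND A) (i m : Fin (l + 5)) (him : i ≠ m) (hS : SA A i m) :
    (A i).2.2.1 ≠ (A m).2.2.1 := by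
  intro hb
  have h := nd_indep A hA (Pi.single i 1 - Pi.single m 1) ?_ ?_ ?_ ?_
  · have := congrFun h i
    simp [him] at this
  · simp [Finset.sum_sub_distrib]
  · have : ∀ x : Fin (l + 5), (((Pi.single i 1 - Pi.single m 1 : Fin (l + 5) → ℝ) x : ℝ) : ℂ) * (A x).1
        = (if x = i then (A x).1 else 0) - (if x = m then (A x).1 else 0) := by
      intro x
      simp only [Pi.sub_apply, Pi.single_apply]
      split_ifs <;> simp
    simp only [this, Finset.sum_sub_distrib, Finset.sum_ite_eq', Finset.mem_univ, if_true]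
    rw [hS.1, sub_self]
  · have : ∀ x : Fin (l + 5), (((Pi.single i 1 - Pi.single m 1 : Fin (l + 5) → ℝ) x : ℝ) : ℂ) * (A x).2.1
        = (if x = i then (A x).2.1 else 0) - (if x = m then (A x).2.1 else 0) := by
      intro x
      simp only [Pi.sub_apply, Pi.single_apply]
      split_ifs <;> simp
    simp only [this, Finset.sum_sub_distrib, Finset.sum_ite_eq', Finset.mem_univ, if_true]
    rw [hS.2, sub_self]
  · intro k
    have : ∀ x : Fin (l + 5), ((Pi.single i 1 - Pi.single m 1 : Fin (l + 5) → ℝ) x) * (A x).2.2.1 k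
        = (if x = i then (A x).2.2.1 k else 0) - (if x = m then (A x).2.2.1 k else 0) := by
      intro x
      simp only [Pi.sub_apply, Pi.single_apply]
      split_ifs <;> simp
    simp only [this, Finset.sum_sub_distrib, Finset.sum_ite_eq', Finset.mem_univ, if_true]
    rw [hb, sub_self]


end FanRD
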