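import Mathlib
import Pool.Agent.FanRD.Defs
import Pool.Agent.FanRD.CR
import Pool.Agent.FanRD.JJ
set_option autoImplicit false
set_option maxHeartbeats 4000000
noncomputable section
open MeasureTheory

namespace FanRD

variable {l : ℕ}


section abs
variable {I : Type*} [Fintype I] [DecidableEq I]
end abs
section abs
variable {I : Type*} [Fintype I] [DecidableEq I]

theorem pt_neg' (w : I → ℂ) (B : I → ℝ) (e : ℂ) : pt (-w) (-B) e = fun p => - pt w B e p := by
  funext p
  simp only [pt, Pi.neg_apply, neg_mul, Complex.neg_re]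
  ring

theorem ind_neg' (i j : I) (y : I → ℝ) : ind i j (fun p => - y p) = ind j i y := by
  unfold ind
  simp only [neg_lt_neg_iff]
  congr 1
  exact propext ⟨fun h => ⟨h.2, h.1⟩, fun h => ⟨h.2, h.1⟩⟩

theorem Reg_neg' (w : I → ℂ) (B : I → ℝ) (h : Reg w B) : Reg (-w) (-B) := by
  refine ⟨fun i m him => ?_, fun i m p r h1 h2 h3 h4 e he hh => ?_⟩
  · have := h.1 i m him
    intro hc
    apply this
    simp only [Pi.neg_apply] at hc
    rw [show -B i - -B m = -(B i - B m) by ring, abs_neg,
      show -w i - -w m = -(w i - w m) by ring, norm_neg] at hc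
    exact hc
  · rw [pt_neg'] at hh
    exact h.2 i m p r h1 h2 h3 h4 e he ⟨neg_injective hh.1, neg_injective hh.2⟩

theorem Reg_neg_iff (w : I → ℂ) (B : I → ℝ) : Reg (-w) (-B) ↔ Reg w B := by
  refine ⟨fun h => ?_, Reg_neg' w B⟩
  have := Reg_neg' _ _ h
  rwa [neg_neg, neg_neg] at this
end abs

/-- TARGET 12 -/
theorem WW_negF (A : Fan l) (x : X l) : WW (negF A) x = - WW A x := by
  funext i
  simp only [WW, negF, om, Pi.neg_apply, Prod.fst_neg, Prod.snd_neg]
  ring
/-- TARGET 13 -/
theorem BB_negF (A : Fan l) (x : X l) : BB (negF A) x = - BB A x := by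
  funext i
  simp only [BB, negF, bb, Pi.neg_apply, Prod.fst_neg, Prod.snd_neg, neg_mul, Finset.sum_neg_distrib]
  ring

theorem lin_negF (A : Fan l) (i : Fin (l + 5)) (x : X l) : lin (negF A i) x = - lin (A i) x := by
  simp only [lin, om, negF, bb, Pi.neg_apply, Prod.fst_neg, Prod.snd_neg, neg_mul,
    Finset.sum_neg_distrib, Complex.add_re, Complex.neg_re]
  ring

/-- TARGET 1 -/
theorem ND_negF (A : Fan l) (h : ND A) : ND (negF A) := by
  intro x hx
  apply h x
  intro i
  have := hx i
  rw [lin_negF, lin_negF] at this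
  exact neg_injective this
/-- TARGET 2 -/
theorem FReg_negF (A : Fan l) (x : X l) : FReg (negF A) x ↔ FReg A x := by
  unfold FReg
  rw [WW_negF, BB_negF]
  exact Reg_neg_iff _ _
/-- TARGET 3 -/
theorem tau_negF (A : Fan l) (i j : Fin (l + 5)) (x : X l) :
    tau i j (WW (negF A) x) (BB (negF A) x) = tau j i (WW A x) (BB A x) := by
  unfold tau
  simp_rw [WW_negF, BB_negF, pt_neg', ind_neg']
/-- TARGET 4 -/
theorem InK_negF (A : Fan l) (lam : Fin (l + 5) → Fin (l + 5) → ℝ) (h : InK A lam) :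
    InK (negF A) (fun i j => lam j i) := by
  obtain ⟨C, hC⟩ := h
  refine ⟨C, fun x hx => ?_⟩
  rw [← hC x ((FReg_negF A x).1 hx)]
  unfold TT
  rw [Finset.sum_comm]
  refine Finset.sum_congr rfl fun i _ => Finset.sum_congr rfl fun j _ => ?_
  rw [tau_negF]

theorem Typ_negF' (A : Fan l) (m : Fin (l + 5)) (h : Typ A m) : Typ (negF A) m := by
  intro ν h1 h2 h3
  refine h ν h1 (fun k => ?_) h3
  have := h2 k
  simp only [negF, Prod.fst_neg, Prod.snd_neg, Pi.neg_apply, mul_neg, Finset.sum_neg_distrib,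
    neg_eq_zero] at this
  exact this

theorem negF_negF (A : Fan l) : negF (negF A) = A := by
  funext i
  simp [negF]

/-- TARGET 5 -/
theorem Typ_negF (A : Fan l) (m : Fin (l + 5)) : Typ (negF A) m ↔ Typ A m := by
  refine ⟨fun h => ?_, Typ_negF' A m⟩
  have := Typ_negF' _ _ h
  rwa [negF_negF] at this
/-- TARGET 6 -/
theorem SA_negF (A : Fan l) (i m : Fin (l + 5)) : SA (negF A) i m ↔ SA A i m := by
  simp only [SA, negF, Prod.fst_neg, Prod.snd_neg, neg_inj]
/-- TARGET 7 -/
theorem SB_negF (A : Fan l) (i m : Fin (l + 5)) : SB (negF A) i m ↔ SB A i m := by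
  simp only [SB, negF, Prod.snd_neg, neg_inj]

theorem lin_iff (a b c d e : ℂ) : (-a - -b = e * (-c - -d)) ↔ (a - b = e * (c - d)) := by
  constructor
  · intro h; linear_combination -h
  · intro h; linear_combination -h

/-- TARGET 8 -/
theorem cl_negF (A : Fan l) (i m : Fin (l + 5)) : cl (negF A) i m = cl A i m := by
  classical
  unfold cl
  ext s
  simp only [Finset.mem_filter, SB_negF]
  simp only [negF, Prod.fst_neg, Prod.snd_neg, lin_iff]

theorem neg_iff' (a b e : ℂ) : (-a = e * -b) ↔ (a = e * b) := by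
  constructor
  · intro h; linear_combination -h
  · intro h; linear_combination -h

/-- TARGET 9 -/
theorem Ph_negF (A : Fan l) (i m : Fin (l + 5)) : Ph (negF A) i m ↔ Ph A i m := by
  unfold Ph
  rw [SB_negF]
  simp only [negF, Prod.fst_neg, Prod.snd_neg, neg_iff']
/-- TARGET 10 -/
theorem Deg_negF (A : Fan l) (W : Finset (Fin (l + 5))) (ρ : Fin (l + 5) → Fin (l + 5))
    (h : Deg A W ρ) : Deg (negF A) W ρ where
  zero := by
    intro m hm
    simpa only [negF, Prod.fst_neg, Prod.snd_neg, neg_eq_zero] using h.zero m hm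
  nz := by
    intro p hp
    simpa only [negF, Prod.fst_neg, Prod.snd_neg, neg_eq_zero] using h.nz p hp
  fix := h.fix
  maps := h.maps
  idem := h.idem
  cls := by
    intro p q hp hq
    rw [Ph_negF]
    exact h.cls p q hp hq
  ns := h.ns
/-- TARGET 11 -/
theorem kap_negF (A : Fan l) (lam : Fin (l + 5) → Fin (l + 5) → ℝ) (i m : Fin (l + 5)) (x : X l) :
    kap (fun a b => lam b a) i m (WW (negF A) x) (BB (negF A) x) = - kap lam i m (WW A x) (BB A x) := by
  unfold kap
  rw [WW_negF, BB_negF]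
  have e1 : (-WW A x) i - (-WW A x) m = -(WW A x i - WW A x m) := by
    simp only [Pi.neg_apply]; ring
  have e2 : (-BB A x) i - (-BB A x) m = -(BB A x i - BB A x m) := by
    simp only [Pi.neg_apply]; ring
  rw [e1, e2, cr_neg, cr_neg, pt_neg', pt_neg', JJ_reverse, JJ_reverse, neg_neg]
  ring

end FanRD
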