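import Mathlib
import Pool.Agent.FanRD.Defs
import Pool.Agent.FanRD.JJ
set_option autoImplicit false
set_option maxHeartbeats 4000000
noncomputable section
open MeasureTheory

namespace FanRD

variable {l : ℕ}



section abs
variable {I : Type*} [Fintype I] [DecidableEq I]

theorem ld_fin {ι : Type*} [Finite ι] (f : ι → ℝ) (hf : ∀ x, 0 < f x) : ∃ γ > 0, ∀ x, γ ≤ f x := by
  rcases isEmpty_or_nonempty ι with h | h
  · exact ⟨1, one_pos, fun x => (h.false x).elim⟩
  · obtain ⟨x, hx⟩ := Finite.exists_min f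
    exact ⟨f x, hf x, hx⟩

theorem ld_cont (w : I → ℂ) (B : I → ℝ) (i : I) : Continuous fun e : ℂ => pt w B e i := by
  unfold pt
  fun_prop

theorem ld_gap (w : I → ℂ) (B : I → ℝ) (hreg : Reg w B) : ∃ γ > 0,
    (∀ i m p r, i ≠ m → p ≠ r → ¬ (i = p ∧ m = r) → ¬ (i = r ∧ m = p) →
      ∀ e : ℂ, ‖e‖ = 1 → γ ≤ |pt w B e i - pt w B e m| + |pt w B e p - pt w B e r|) ∧
    (∀ i m, ‖w i - w m‖ < |B i - B m| → ∀ e : ℂ, ‖e‖ = 1 → γ ≤ |pt w B e i - pt w B e m|) := by
  have h1 : ∀ q : I × I × I × I, ∃ γ : ℝ, 0 < γ ∧ (q.1 ≠ q.2.1 → q.2.2.1 ≠ q.2.2.2 →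
      ¬ (q.1 = q.2.2.1 ∧ q.2.1 = q.2.2.2) → ¬ (q.1 = q.2.2.2 ∧ q.2.1 = q.2.2.1) →
      ∀ e : ℂ, ‖e‖ = 1 → γ ≤ |pt w B e q.1 - pt w B e q.2.1| +
        |pt w B e q.2.2.1 - pt w B e q.2.2.2|) := by
    rintro ⟨i, m, p, r⟩
    by_cases hc : i ≠ m ∧ p ≠ r ∧ ¬ (i = p ∧ m = r) ∧ ¬ (i = r ∧ m = p)
    · obtain ⟨c1, c2, c3, c4⟩ := hc
      have hne : (Metric.sphere (0 : ℂ) 1).Nonempty := ⟨1, by simp⟩
      have hcont : ContinuousOn (fun e : ℂ => |pt w B e i - pt w B e m| +
          |pt w B e p - pt w B e r|) (Metric.sphere (0 : ℂ) 1) :=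
        ((((ld_cont w B i).sub (ld_cont w B m)).abs).add
          (((ld_cont w B p).sub (ld_cont w B r)).abs)).continuousOn
      obtain ⟨e₀, he₀, hmin⟩ := (isCompact_sphere (0 : ℂ) 1).exists_isMinOn hne hcont
      refine ⟨|pt w B e₀ i - pt w B e₀ m| + |pt w B e₀ p - pt w B e₀ r|, ?_, ?_⟩
      · have hn := hreg.2 i m p r c1 c2 c3 c4 e₀ (by simpa using he₀)
        rcases eq_or_ne (pt w B e₀ i) (pt w B e₀ m) with h | h
        · have h' : pt w B e₀ p ≠ pt w B e₀ r := fun h'' => hn ⟨h, h''⟩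
          have := abs_pos.2 (sub_ne_zero.2 h')
          have := abs_nonneg (pt w B e₀ i - pt w B e₀ m)
          linarith
        · have := abs_pos.2 (sub_ne_zero.2 h)
          have := abs_nonneg (pt w B e₀ p - pt w B e₀ r)
          linarith
      · intro _ _ _ _ e he
        exact hmin (by simpa using he)
    · exact ⟨1, one_pos, fun a b c d => absurd ⟨a, b, c, d⟩ hc⟩
  have h2 : ∀ q : I × I, ∃ γ : ℝ, 0 < γ ∧ (‖w q.1 - w q.2‖ < |B q.1 - B q.2| →
      ∀ e : ℂ, ‖e‖ = 1 → γ ≤ |pt w B e q.1 - pt w B e q.2|) := by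
    rintro ⟨i, m⟩
    by_cases hc : ‖w i - w m‖ < |B i - B m|
    · refine ⟨|B i - B m| - ‖w i - w m‖, by linarith, fun _ e he => ?_⟩
      have e1 : pt w B e i - pt w B e m = (B i - B m) + ((w i - w m) * e).re := by
        unfold pt
        rw [sub_mul, Complex.sub_re]
        ring
      have e2 : |((w i - w m) * e).re| ≤ ‖w i - w m‖ := by
        refine (Complex.abs_re_le_norm _).trans ?_
        rw [norm_mul, he, mul_one]
      show |B i - B m| - ‖w i - w m‖ ≤ |pt w B e i - pt w B e m|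
      rw [e1]
      have e3 : |B i - B m| ≤ |(B i - B m) + ((w i - w m) * e).re| + |((w i - w m) * e).re| := by
        have := abs_sub_abs_le_abs_sub (B i - B m) (-((w i - w m) * e).re)
        rw [sub_neg_eq_add, abs_neg] at this
        linarith
      linarith
    · exact ⟨1, one_pos, fun a => absurd a hc⟩
  choose g1 hg1 hg1' using h1
  choose g2 hg2 hg2' using h2
  obtain ⟨γ1, hγ1, hγ1'⟩ := ld_fin g1 hg1
  obtain ⟨γ2, hγ2, hγ2'⟩ := ld_fin g2 hg2
  refine ⟨min γ1 γ2, lt_min hγ1 hγ2, ?_, ?_⟩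
  · intro i m p r c1 c2 c3 c4 e he
    exact (min_le_left _ _).trans ((hγ1' (i, m, p, r)).trans (hg1' (i, m, p, r) c1 c2 c3 c4 e he))
  · intro i m c e he
    exact (min_le_right _ _).trans ((hγ2' (i, m)).trans (hg2' (i, m) c e he))

theorem ld_JJ (lam : I → I → ℝ) (i m : I) (y : I → ℝ)
    (hT : (∀ p, p ≠ i → p ≠ m → y p < y i) ↔ (∀ p, p ≠ m → p ≠ i → y p < y m))
    (hB : (∀ p, p ≠ i → p ≠ m → y i < y p) ↔ (∀ p, p ≠ m → p ≠ i → y m < y p)) :
    JJ lam m i y = - JJ lam i m y := by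
  have e1 : JT lam m i y = - JT lam i m y := by
    unfold JT
    by_cases h : ∀ p, p ≠ i → p ≠ m → y p < y i
    · rw [if_pos h, if_pos (hT.1 h), ← Finset.sum_neg_distrib]
      refine Finset.sum_congr rfl fun j _ => ?_
      by_cases hj : j ≠ i ∧ j ≠ m ∧ (∀ p, p ≠ j → y j < y p)
      · rw [if_pos hj, if_pos ⟨hj.2.1, hj.1, hj.2.2⟩]; ring
      · rw [if_neg hj, if_neg fun h' => hj ⟨h'.2.1, h'.1, h'.2.2⟩]; ring
    · rw [if_neg h, if_neg fun h' => h (hT.2 h')]; ring
  have e2 : JB lam m i y = - JB lam i m y := by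
    unfold JB
    by_cases h : ∀ p, p ≠ i → p ≠ m → y i < y p
    · rw [if_pos h, if_pos (hB.1 h), ← Finset.sum_neg_distrib]
      refine Finset.sum_congr rfl fun j _ => ?_
      by_cases hj : j ≠ i ∧ j ≠ m ∧ (∀ p, p ≠ j → y p < y j)
      · rw [if_pos hj, if_pos ⟨hj.2.1, hj.1, hj.2.2⟩]; ring
      · rw [if_neg hj, if_neg fun h' => hj ⟨h'.2.1, h'.1, h'.2.2⟩]; ring
    · rw [if_neg h, if_neg fun h' => h (hB.2 h')]; ring
  unfold JJ
  rw [e1, e2]; ring

/-- TARGET -/
theorem LL_diff (hI : 3 ≤ Fintype.card I) (lam : I → I → ℝ) (w : I → ℂ) (B : I → ℝ) (hreg : Reg w B)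
    (β : I → ℝ) : ∃ δ > 0, ∀ h : ℝ, |h| < δ → ∀ e : ℂ, ‖e‖ = 1 →
      (∀ p r, p ≠ r → pt w B e p ≠ pt w B e r) →
      (∀ p r, p ≠ r → pt w (fun i => B i + h * β i) e p ≠ pt w (fun i => B i + h * β i) e r) →
      LL lam (pt w (fun i => B i + h * β i) e) - LL lam (pt w B e) =
        (1/2) * ∑ i, ∑ m, (if |B i - B m| < ‖w i - w m‖ then JJ lam i m (pt w B e) *
          ((if 0 < (B i - B m) + h * (β i - β m) + ((w i - w m) * e).re then 1 else 0) -
           (if 0 < (B i - B m) + 0 * (β i - β m) + ((w i - w m) * e).re then 1 else 0)) else 0) := by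
  classical
  obtain ⟨γ, hγ, hgap1, hgap2⟩ := ld_gap w B hreg
  set b : ℝ := ∑ p, |β p| with hb
  have hb0 : 0 ≤ b := Finset.sum_nonneg fun p _ => abs_nonneg _
  have hβ : ∀ p, |β p| ≤ b := fun p =>
    Finset.single_le_sum (f := fun p => |β p|) (fun p _ => abs_nonneg _) (Finset.mem_univ p)
  refine ⟨γ / (4 * b + 4), by positivity, ?_⟩
  intro h hh e he hd hd'
  set y := pt w B e with hy
  set y' := pt w (fun i => B i + h * β i) e with hy'
  have ey : ∀ i m, (B i - B m) + 0 * (β i - β m) + ((w i - w m) * e).re = y i - y m := by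
    intro i m
    rw [hy]; unfold pt
    rw [sub_mul, Complex.sub_re]; ring
  have ey' : ∀ i m, (B i - B m) + h * (β i - β m) + ((w i - w m) * e).re = y' i - y' m := by
    intro i m
    rw [hy']; unfold pt
    rw [sub_mul, Complex.sub_re]; ring
  have ediff : ∀ i m, y' i - y' m = (y i - y m) + h * (β i - β m) := by
    intro i m
    rw [← ey, ← ey']; ring
  simp only [ey, ey']
  have hsmall : ∀ i m, |h * (β i - β m)| < γ / 2 := by
    intro i m
    rw [abs_mul]
    have h1 : |β i - β m| ≤ 2 * b := by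
      have := abs_sub (β i) (β m)
      linarith [hβ i, hβ m]
    rw [lt_div_iff₀ (by positivity)] at hh
    have h2 : |h| * |β i - β m| ≤ |h| * (2 * b) := mul_le_mul_of_nonneg_left h1 (abs_nonneg _)
    nlinarith [abs_nonneg h]
  -- a pair which changes has small gap
  have hchg : ∀ i m, y m < y i → y' i < y' m → |y i - y m| < γ / 2 := by
    intro i m h1 h2
    have h3 := ediff i m
    have h4 := (abs_lt.1 (hsmall i m)).1
    rw [abs_lt]
    constructor <;> linarith
  by_cases hno : ∀ p r, y p < y r ↔ y' p < y' r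
  · rw [LL_congr lam y' y fun p r => (hno p r).symm, sub_self]
    symm
    rw [mul_eq_zero]
    right
    refine Finset.sum_eq_zero fun i _ => Finset.sum_eq_zero fun m _ => ?_
    have : (0 < y' i - y' m) ↔ (0 < y i - y m) := by
      rw [sub_pos, sub_pos]; exact (hno m i).symm
    simp only [this, sub_self, mul_zero, ite_self]
  · -- exactly one pair changes
    obtain ⟨i, m, h1, h2⟩ : ∃ i m, y m < y i ∧ y' i < y' m := by
      push Not at hno
      obtain ⟨p, r, hpr⟩ := hno
      rcases hpr with ⟨ha, hb'⟩ | ⟨ha, hb'⟩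
      · have hne : r ≠ p := by rintro rfl; exact lt_irrefl _ ha
        exact ⟨r, p, ha, lt_of_le_of_ne hb' (hd' _ _ hne)⟩
      · have hne : p ≠ r := by rintro rfl; exact lt_irrefl _ hb'
        exact ⟨p, r, lt_of_le_of_ne ha (hd _ _ hne.symm), hb'⟩
    have him : i ≠ m := by rintro rfl; exact lt_irrefl _ h1
    have hsm := hchg i m h1 h2
    have hBW : |B i - B m| < ‖w i - w m‖ := by
      rcases lt_trichotomy |B i - B m| ‖w i - w m‖ with hlt | heq | hgt
      · exact hlt
      · exact absurd heq (hreg.1 i m him)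
      · have := hgap2 i m hgt e he
        linarith
    have hBW' : |B m - B i| < ‖w m - w i‖ := by
      rwa [abs_sub_comm, norm_sub_rev]
    have ho : ∀ p r, ¬ (p = i ∧ r = m) → ¬ (p = m ∧ r = i) → (y p < y r ↔ y' p < y' r) := by
      intro p r c1 c2
      by_cases hpr : p = r
      · subst hpr; simp
      have hg := hgap1 i m p r him hpr (fun hx => c1 ⟨hx.1.symm, hx.2.symm⟩)
        (fun hx => c2 ⟨hx.2.symm, hx.1.symm⟩) e he
      constructor
      · intro hlt
        by_contra hnot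
        have hlt' : y' r < y' p := lt_of_le_of_ne (not_lt.1 hnot) (hd' _ _ (Ne.symm hpr))
        have := hchg r p hlt hlt'
        rw [abs_sub_comm] at this
        linarith
      · intro hlt
        by_contra hnot
        have hlt' : y r < y p := lt_of_le_of_ne (not_lt.1 hnot) (hd _ _ (Ne.symm hpr))
        have := hchg p r hlt' hlt
        linarith
    have hswap := LL_swap hI lam i m him y y' hd hd' ho h1 h2
    have hTi : (∀ p, p ≠ i → p ≠ m → y p < y i) ↔ (∀ p, p ≠ m → p ≠ i → y p < y m) := by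
      constructor
      · intro H p hpm hpi
        rw [ho p m (fun hx => hpi hx.1) (fun hx => hpm hx.1)]
        exact ((ho p i (fun hx => hpi hx.1) (fun hx => hpm hx.1)).1 (H p hpi hpm)).trans h2
      · intro H p hpi hpm
        exact (H p hpm hpi).trans h1
    have hBi : (∀ p, p ≠ i → p ≠ m → y i < y p) ↔ (∀ p, p ≠ m → p ≠ i → y m < y p) := by
      constructor
      · intro H p hpm hpi
        exact h1.trans (H p hpi hpm)
      · intro H p hpi hpm
        rw [ho i p (fun hx => hpm hx.2) (fun hx => hpi hx.2)]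
        exact h2.trans ((ho m p (fun hx => hpm hx.2) (fun hx => hpi hx.2)).1 (H p hpm hpi))
    have hJ := ld_JJ lam i m y hTi hBi
    have hterm : ∀ a c, (if |B a - B c| < ‖w a - w c‖ then JJ lam a c y *
          ((if 0 < y' a - y' c then 1 else 0) - (if 0 < y a - y c then 1 else 0)) else (0 : ℝ)) =
        (if a = i ∧ c = m then - JJ lam i m y else 0) +
        (if a = m ∧ c = i then - JJ lam i m y else 0) := by
      intro a c
      by_cases c1 : a = i ∧ c = m
      · obtain ⟨rfl, rfl⟩ := c1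
        have n1 : ¬ (0 < y' a - y' c) := by linarith
        have n2 : 0 < y a - y c := by linarith
        have n3 : ¬ (a = c ∧ c = a) := fun hx => him hx.1
        rw [if_pos hBW, if_neg n1, if_pos n2, if_pos ⟨rfl, rfl⟩, if_neg n3]
        ring
      · by_cases c2 : a = m ∧ c = i
        · obtain ⟨rfl, rfl⟩ := c2
          have n1 : 0 < y' a - y' c := by linarith
          have n2 : ¬ (0 < y a - y c) := by linarith
          rw [if_pos hBW', if_pos n1, if_neg n2, if_neg c1, if_pos ⟨rfl, rfl⟩, hJ]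
          ring
        · have hca := ho c a (fun hx => c2 ⟨hx.2, hx.1⟩) (fun hx => c1 ⟨hx.2, hx.1⟩)
          have : (0 < y' a - y' c) ↔ (0 < y a - y c) := by
            rw [sub_pos, sub_pos]; exact hca.symm
          simp only [this, sub_self, mul_zero, ite_self, if_neg c1, if_neg c2, add_zero]
    simp only [hterm]
    have hs : ∀ a₀ c₀ : I, ∑ a, ∑ c, (if a = a₀ ∧ c = c₀ then - JJ lam i m y else (0 : ℝ)) =
        - JJ lam i m y := by
      intro a₀ c₀
      rw [Finset.sum_eq_single a₀, Finset.sum_eq_single c₀]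
      · simp
      · intro c _ hc; simp [hc]
      · intro hx; exact absurd (Finset.mem_univ _) hx
      · intro a _ ha; simp [ha]
      · intro hx; exact absurd (Finset.mem_univ _) hx
    simp only [Finset.sum_add_distrib, hs]
    linarith
end abs


end FanRD
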