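import Mathlib
import Pool.Agent.FanRD.Defs
set_option autoImplicit false
set_option maxHeartbeats 4000000
noncomputable section
open MeasureTheory

namespace FanRD

variable {l : ℕ}



lemma ad_re (W : ℂ) (θ : ℝ) :
    (W * Complex.exp (θ * Complex.I)).re = ‖W‖ * Real.cos (θ + Complex.arg W) := by
  have h : W * Complex.exp (θ * Complex.I) =
      (‖W‖ : ℂ) * Complex.exp (((θ + Complex.arg W : ℝ) : ℂ) * Complex.I) := by
    conv_lhs => rw [← Complex.norm_mul_exp_arg_mul_I W]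
    rw [mul_assoc, ← Complex.exp_add]
    congr 2
    push_cast
    ring
  rw [h, Complex.re_ofReal_mul, Complex.exp_ofReal_mul_I_re]

lemma ad_conj (W : ℂ) :
    (starRingEnd ℂ) W = (‖W‖ : ℂ) * Complex.exp (((-Complex.arg W : ℝ) : ℂ) * Complex.I) := by
  conv_lhs => rw [← Complex.norm_mul_exp_arg_mul_I W]
  rw [map_mul, Complex.conj_ofReal, ← Complex.exp_conj, map_mul, Complex.conj_ofReal,
    Complex.conj_I]
  congr 2
  push_cast
  ring

lemma ad_sqrt {r b : ℝ} (hr : 0 < r) : Real.sqrt (1 - (-b / r) ^ 2) = Real.sqrt (r ^ 2 - b ^ 2) / r := by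
  have h : 1 - (-b / r) ^ 2 = (r ^ 2 - b ^ 2) / r ^ 2 := by
    field_simp
  rw [h, Real.sqrt_div' _ (by positivity), Real.sqrt_sq hr.le]

lemma ad_cr (W : ℂ) (b : ℝ) (hb : |b| < ‖W‖) (σ : ℝ) (hσ : σ = 1 ∨ σ = -1) :
    Complex.exp (((-Complex.arg W + σ * Real.arccos (-b / ‖W‖) : ℝ) : ℂ) * Complex.I) = cr W b σ := by
  have hr : 0 < ‖W‖ := lt_of_le_of_lt (abs_nonneg _) hb
  have hrC : ((‖W‖ : ℝ) : ℂ) ≠ 0 := by exact_mod_cast hr.ne'
  rw [abs_lt] at hb
  have h1 : -1 ≤ -b / ‖W‖ := by rw [le_div_iff₀ hr]; linarith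
  have h2 : -b / ‖W‖ ≤ 1 := by rw [div_le_iff₀ hr]; linarith
  have hcos : Real.cos (σ * Real.arccos (-b / ‖W‖)) = -b / ‖W‖ := by
    rcases hσ with rfl | rfl
    · rw [one_mul, Real.cos_arccos h1 h2]
    · rw [neg_one_mul, Real.cos_neg, Real.cos_arccos h1 h2]
  have hsin : Real.sin (σ * Real.arccos (-b / ‖W‖)) = σ * (Real.sqrt (‖W‖ ^ 2 - b ^ 2) / ‖W‖) := by
    rcases hσ with rfl | rfl
    · rw [one_mul, one_mul, Real.sin_arccos, ad_sqrt hr]
    · rw [neg_one_mul, neg_one_mul, Real.sin_neg, Real.sin_arccos, ad_sqrt hr]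
  have e1 : Complex.exp (((-Complex.arg W + σ * Real.arccos (-b / ‖W‖) : ℝ) : ℂ) * Complex.I) =
      Complex.exp (((-Complex.arg W : ℝ) : ℂ) * Complex.I) *
        ((Real.cos (σ * Real.arccos (-b / ‖W‖)) : ℝ) + (Real.sin (σ * Real.arccos (-b / ‖W‖)) : ℝ) * Complex.I) := by
    rw [Complex.ofReal_cos, Complex.ofReal_sin, ← Complex.exp_mul_I, ← Complex.exp_add]
    congr 1
    push_cast
    ring
  rw [e1, hcos, hsin]
  unfold cr
  rw [ad_conj]
  push_cast
  field_simp

lemma ad_cos_iff {c ψ : ℝ} (hc1 : -1 ≤ c) (hc2 : c ≤ 1) (hψ : |ψ| ≤ Real.pi) :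
    c < Real.cos ψ ↔ |ψ| < Real.arccos c := by
  rw [← Real.cos_abs ψ]
  have h1 : Real.arccos (Real.cos |ψ|) = |ψ| := Real.arccos_cos (abs_nonneg _) hψ
  have h2 := Real.strictAntiOn_arccos.lt_iff_gt (a := Real.cos |ψ|) (b := c)
    ⟨Real.neg_one_le_cos _, Real.cos_le_one _⟩ ⟨hc1, hc2⟩
  rw [h1] at h2
  exact h2.symm

/-- derivative of the `G`-weighted arc length of `{0 < b + h β + Re (W e)}` -/
theorem arc_deriv (G : ℂ → ℝ) (hm : Measurable G) (M : ℝ) (hM : ∀ e, |G e| ≤ M) (W : ℂ) (b β : ℝ)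
    (hb : |b| < ‖W‖) (G1 G2 : ℝ)
    (h1 : ∀ᶠ e in nhds (cr W b 1), G e = G1) (h2 : ∀ᶠ e in nhds (cr W b (-1)), G e = G2) :
    HasDerivAt (fun h : ℝ => ∫ θ in (0:ℝ)..(2 * Real.pi), G (Complex.exp (θ * Complex.I)) *
        (if 0 < b + h * β + (W * Complex.exp (θ * Complex.I)).re then 1 else 0))
      ((G1 + G2) * β / Real.sqrt (‖W‖ ^ 2 - b ^ 2)) 0 := by
  have hr : 0 < ‖W‖ := lt_of_le_of_lt (abs_nonneg _) hb
  have hb' := abs_lt.1 hb
  set r : ℝ := ‖W‖ with hrdef
  set φ : ℝ := Complex.arg W with hφ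
  set g : ℝ → ℝ := fun θ => G (Complex.exp (θ * Complex.I)) with hg
  have hgm : Measurable g := hm.comp (by fun_prop)
  have hgi : ∀ a b : ℝ, IntervalIntegrable g MeasureTheory.volume a b := by
    intro a b
    refine IntervalIntegrable.mono_fun' (g := fun _ => M) intervalIntegrable_const
      hgm.aestronglyMeasurable ?_
    exact Filter.Eventually.of_forall fun x => by
      show ‖g x‖ ≤ M
      rw [Real.norm_eq_abs]; exact hM _
  -- the angle
  set c : ℝ → ℝ := fun h => -(b + h * β) / r with hc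
  set α : ℝ → ℝ := fun h => Real.arccos (c h) with hα
  have hc0 : c 0 = -b / r := by simp [hc]
  have hc0a : -1 < c 0 := by rw [hc0, lt_div_iff₀ hr]; linarith
  have hc0b : c 0 < 1 := by rw [hc0, div_lt_iff₀ hr]; linarith
  have hccont : Continuous c := by
    simp only [hc]
    fun_prop
  have hcev : ∀ᶠ h in nhds (0 : ℝ), -1 < c h ∧ c h < 1 :=
    (hccont.continuousAt.eventually (lt_mem_nhds hc0a)).and
      (hccont.continuousAt.eventually (gt_mem_nhds hc0b))
  set P : ℝ → ℝ := fun x => ∫ t in (0:ℝ)..x, g t with hP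
  -- the formula
  have hform : ∀ h : ℝ, -1 < c h → c h < 1 →
      (∫ θ in (0:ℝ)..(2 * Real.pi), G (Complex.exp (θ * Complex.I)) *
        (if 0 < b + h * β + (W * Complex.exp (θ * Complex.I)).re then 1 else 0)) =
      P (-φ + α h) - P (-φ - α h) := by
    intro h hh1 hh2
    have hα0 : 0 ≤ α h := Real.arccos_nonneg _
    have hαπ : α h ≤ Real.pi := Real.arccos_le_pi _
    set F : ℝ → ℝ := fun θ => G (Complex.exp (θ * Complex.I)) *
        (if 0 < b + h * β + (W * Complex.exp (θ * Complex.I)).re then 1 else 0) with hF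
    have hper : Function.Periodic F (2 * Real.pi) := by
      intro θ
      have e : Complex.exp (((θ + 2 * Real.pi : ℝ) : ℂ) * Complex.I) = Complex.exp (θ * Complex.I) := by
        push_cast
        rw [add_mul, Complex.exp_add, Complex.exp_two_pi_mul_I, mul_one]
      simp only [hF]
      rw [e]
    have e1 : ∫ θ in (0:ℝ)..(2 * Real.pi), F θ = ∫ θ in (-φ - Real.pi)..(-φ + Real.pi), F θ := by
      have := hper.intervalIntegral_add_eq 0 (-φ - Real.pi)
      rw [zero_add] at this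
      rw [this]
      congr 1
      ring
    rw [e1]
    have hle : -φ - Real.pi ≤ -φ + Real.pi := by linarith [Real.pi_pos]
    have e2 : ∫ θ in (-φ - Real.pi)..(-φ + Real.pi), F θ =
        ∫ θ in (-φ - Real.pi)..(-φ + Real.pi), (Set.Ioo (-φ - α h) (-φ + α h)).indicator g θ := by
      apply intervalIntegral.integral_congr
      intro θ hθ
      rw [Set.uIcc_of_le hle] at hθ
      have hψ : |θ + φ| ≤ Real.pi := by
        rw [abs_le]; constructor <;> linarith [hθ.1, hθ.2]
      have h3 : (0 < b + h * β + (W * Complex.exp (θ * Complex.I)).re) ↔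
          θ ∈ Set.Ioo (-φ - α h) (-φ + α h) := by
        rw [ad_re]
        have h4 := ad_cos_iff hh1.le hh2.le hψ
        have h5 : (0 < b + h * β + ‖W‖ * Real.cos (θ + Complex.arg W)) ↔ c h < Real.cos (θ + φ) := by
          simp only [hc]
          rw [div_lt_iff₀ hr]
          constructor
          · intro h6
            rw [← hrdef, ← hφ] at h6
            linarith
          · intro h6
            rw [← hrdef, ← hφ]
            linarith
        rw [h5, h4, abs_lt, Set.mem_Ioo]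
        constructor
        · rintro ⟨h6, h7⟩
          constructor <;> linarith
        · rintro ⟨h6, h7⟩
          constructor <;> linarith
      simp only [hF]
      by_cases h6 : θ ∈ Set.Ioo (-φ - α h) (-φ + α h)
      · rw [Set.indicator_of_mem h6, if_pos (h3.2 h6), mul_one]
      · rw [Set.indicator_of_notMem h6, if_neg (fun h7 => h6 (h3.1 h7)), mul_zero]
    rw [e2, intervalIntegral.integral_of_le hle, MeasureTheory.setIntegral_indicator measurableSet_Ioo]
    have e3 : Set.Ioc (-φ - Real.pi) (-φ + Real.pi) ∩ Set.Ioo (-φ - α h) (-φ + α h) =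
        Set.Ioo (-φ - α h) (-φ + α h) := by
      apply Set.inter_eq_self_of_subset_right
      intro x hx
      exact ⟨by linarith [hx.1], by linarith [hx.2]⟩
    rw [e3, ← MeasureTheory.integral_Ioc_eq_integral_Ioo, ← intervalIntegral.integral_of_le (by linarith)]
    simp only [hP]
    rw [intervalIntegral.integral_interval_sub_left (hgi _ _) (hgi _ _)]
  -- derivatives
  have hcr : ∀ (σ : ℝ), (σ = 1 ∨ σ = -1) → ∀ (Gσ : ℝ), (∀ᶠ e in nhds (cr W b σ), G e = Gσ) →
      HasDerivAt P Gσ (-φ + σ * α 0) := by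
    intro σ hσ Gσ hGσ
    have e1 : Complex.exp (((-φ + σ * α 0 : ℝ) : ℂ) * Complex.I) = cr W b σ := by
      simp only [hα]
      rw [hc0]
      exact ad_cr W b hb σ hσ
    have hcont : Continuous (fun θ : ℝ => Complex.exp ((θ : ℂ) * Complex.I)) := by fun_prop
    have hev : ∀ᶠ θ : ℝ in nhds (-φ + σ * α 0), g θ = Gσ := by
      have h3 := hcont.tendsto (-φ + σ * α 0)
      rw [e1] at h3
      exact h3.eventually hGσ
    have hgc : ContinuousAt g (-φ + σ * α 0) :=
      (continuousAt_const (y := Gσ)).congr (hev.mono fun θ hθ => hθ.symm)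
    have hval : g (-φ + σ * α 0) = Gσ := hev.self_of_nhds
    have h4 := intervalIntegral.integral_hasDerivAt_right (hgi 0 (-φ + σ * α 0))
      (hgm.stronglyMeasurable.stronglyMeasurableAtFilter) hgc
    rw [hval] at h4
    exact h4
  have hα' : HasDerivAt α (β / Real.sqrt (r ^ 2 - b ^ 2)) 0 := by
    have h3 : HasDerivAt c (-β / r) 0 := by
      simp only [hc]
      have h4 : HasDerivAt (fun h : ℝ => -(b + h * β) / r) (-(1 * β) / r) 0 :=
        ((((hasDerivAt_id (0 : ℝ)).mul_const β).const_add b).neg).div_const r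
      simpa using h4
    have h5 := (Real.hasDerivAt_arccos hc0a.ne' hc0b.ne).comp 0 h3
    have e : -(1 / Real.sqrt (1 - c 0 ^ 2)) * (-β / r) = β / Real.sqrt (r ^ 2 - b ^ 2) := by
      rw [hc0, ad_sqrt hr]
      have hs : 0 < Real.sqrt (r ^ 2 - b ^ 2) := by
        apply Real.sqrt_pos.2
        nlinarith [hb'.1, hb'.2]
      field_simp
    rw [e] at h5
    exact h5
  have hd1 := hcr 1 (Or.inl rfl) G1 h1
  have hd2 := hcr (-1) (Or.inr rfl) G2 h2
  have hp1 : HasDerivAt (fun h => -φ + α h) (β / Real.sqrt (r ^ 2 - b ^ 2)) 0 := hα'.const_add _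
  have hp2 : HasDerivAt (fun h => -φ - α h) (-(β / Real.sqrt (r ^ 2 - b ^ 2))) 0 := hα'.const_sub _
  have hq1 : HasDerivAt (fun h => P (-φ + α h)) (G1 * (β / Real.sqrt (r ^ 2 - b ^ 2))) 0 := by
    rw [one_mul] at hd1
    exact HasDerivAt.comp (h₂ := P) (h := fun h => -φ + α h) 0 hd1 hp1
  have hq2 : HasDerivAt (fun h => P (-φ - α h)) (G2 * (-(β / Real.sqrt (r ^ 2 - b ^ 2)))) 0 := by
    rw [neg_one_mul, ← sub_eq_add_neg] at hd2
    exact HasDerivAt.comp (h₂ := P) (h := fun h => -φ - α h) 0 hd2 hp2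
  have hq := hq1.sub hq2
  have e5 : G1 * (β / Real.sqrt (r ^ 2 - b ^ 2)) - G2 * (-(β / Real.sqrt (r ^ 2 - b ^ 2))) =
      (G1 + G2) * β / Real.sqrt (r ^ 2 - b ^ 2) := by ring
  rw [e5] at hq
  refine hq.congr_of_eventuallyEq ?_
  filter_upwards [hcev] with h hh
  exact hform h hh.1 hh.2

end FanRD
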