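import Mathlib
import Pool.Agent.FanRD.Defs
import Pool.Agent.FanRD.CR
import Pool.Agent.FanRD.JJ
import Pool.Agent.FanRD.LLdiff
import Pool.Agent.FanRD.arc
set_option autoImplicit false
set_option maxHeartbeats 4000000
noncomputable section
open MeasureTheory

namespace FanRD

variable {l : ℕ}



section abs
variable {I : Type*} [Fintype I] [DecidableEq I]
end abs
section abs
variable {I : Type*} [Fintype I] [DecidableEq I]

/-- TARGET 1 -/
theorem JJ_bdd (lam : I → I → ℝ) : ∃ M : ℝ, ∀ i m y, |JJ lam i m y| ≤ M := by
  classical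
  set K : ℝ := ∑ i, ∑ j, |lam i j| with hK
  have hle : ∀ i j, |lam i j| ≤ K := by
    intro i j
    have h1 : |lam i j| ≤ ∑ j, |lam i j| :=
      Finset.single_le_sum (f := fun j => |lam i j|) (fun j _ => abs_nonneg _) (Finset.mem_univ j)
    have h2 : ∑ j, |lam i j| ≤ K :=
      Finset.single_le_sum (f := fun i => ∑ j, |lam i j|)
        (fun i _ => Finset.sum_nonneg fun j _ => abs_nonneg _) (Finset.mem_univ i)
    linarith
  have hK0 : 0 ≤ K := Finset.sum_nonneg fun i _ => Finset.sum_nonneg fun j _ => abs_nonneg _
  have hsum : ∀ (P : I → Prop) [DecidablePred P] (f : I → ℝ), (∀ j, |f j| ≤ 2 * K) →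
      |∑ j, (if P j then f j else 0)| ≤ Fintype.card I * (2 * K) := by
    intro P _ f hf
    calc |∑ j, (if P j then f j else 0)| ≤ ∑ j, |if P j then f j else 0| :=
          Finset.abs_sum_le_sum_abs _ _
      _ ≤ ∑ _j : I, (2 * K) := by
          refine Finset.sum_le_sum fun j _ => ?_
          split_ifs
          · exact hf j
          · simpa using hK0
      _ = Fintype.card I * (2 * K) := by simp
  have hc0 : 0 ≤ (Fintype.card I : ℝ) * (2 * K) := by positivity
  have hJT : ∀ i m y, |JT lam i m y| ≤ Fintype.card I * (2 * K) := by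
    intro i m y
    unfold JT
    split_ifs
    · refine hsum _ _ fun j => ?_
      have := abs_sub (lam i j) (lam m j)
      linarith [hle i j, hle m j]
    · simpa using hc0
  have hJB : ∀ i m y, |JB lam i m y| ≤ Fintype.card I * (2 * K) := by
    intro i m y
    unfold JB
    split_ifs
    · refine hsum _ _ fun k => ?_
      have := abs_sub (lam k i) (lam k m)
      linarith [hle k i, hle k m]
    · simpa using hc0
  refine ⟨Fintype.card I * (2 * K) + Fintype.card I * (2 * K), fun i m y => ?_⟩
  unfold JJ
  have := abs_sub (JT lam i m y) (JB lam i m y)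
  linarith [hJT i m y, hJB i m y]

/-- TARGET 2 -/
theorem JJ_measurable (lam : I → I → ℝ) (i m : I) : Measurable (JJ lam i m) := by
  classical
  have hlt : ∀ p q : I, MeasurableSet {y : I → ℝ | y p < y q} := fun p q =>
    measurableSet_lt (measurable_pi_apply p) (measurable_pi_apply q)
  have hJT : Measurable (JT lam i m) := by
    unfold JT
    refine Measurable.ite ?_ ?_ measurable_const
    · simp only [Set.ofPred_forall]
      exact MeasurableSet.iInter fun p => MeasurableSet.iInter fun _ => MeasurableSet.iInter fun _ =>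
        hlt p i
    · refine Finset.measurable_sum _ fun j _ => ?_
      refine Measurable.ite ?_ measurable_const measurable_const
      have hS : MeasurableSet {y : I → ℝ | ∀ p, p ≠ j → y j < y p} := by
        simp only [Set.ofPred_forall]
        exact MeasurableSet.iInter fun p => MeasurableSet.iInter fun _ => hlt j p
      exact MeasurableSet.inter (MeasurableSet.const _) (MeasurableSet.inter (MeasurableSet.const _) hS)
  have hJB : Measurable (JB lam i m) := by
    unfold JB
    refine Measurable.ite ?_ ?_ measurable_const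
    · simp only [Set.ofPred_forall]
      exact MeasurableSet.iInter fun p => MeasurableSet.iInter fun _ => MeasurableSet.iInter fun _ =>
        hlt i p
    · refine Finset.measurable_sum _ fun j _ => ?_
      refine Measurable.ite ?_ measurable_const measurable_const
      have hS : MeasurableSet {y : I → ℝ | ∀ p, p ≠ j → y p < y j} := by
        simp only [Set.ofPred_forall]
        exact MeasurableSet.iInter fun p => MeasurableSet.iInter fun _ => hlt p j
      exact MeasurableSet.inter (MeasurableSet.const _) (MeasurableSet.inter (MeasurableSet.const _) hS)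
  exact hJT.sub hJB

lemma ae_ne_aux (W : ℂ) (b : ℝ) (h : |b| ≠ ‖W‖) :
    ∀ᵐ θ : ℝ, b + (W * Complex.exp (θ * Complex.I)).re ≠ 0 := by
  have hcount : ∀ c : ℂ, {θ : ℝ | Complex.exp (θ * Complex.I) = c}.Countable := by
    intro c
    by_cases hne : ∃ θ0 : ℝ, Complex.exp (θ0 * Complex.I) = c
    · obtain ⟨θ0, h0⟩ := hne
      refine (Set.countable_range (fun n : ℤ => θ0 + n * (2 * Real.pi))).mono ?_
      intro θ hθ
      simp only [Set.mem_ofPred_eq] at hθ
      rw [← h0, Complex.exp_eq_exp_iff_exists_int] at hθ
      obtain ⟨n, hn⟩ := hθ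
      refine ⟨n, ?_⟩
      have h2 : (θ : ℂ) = θ0 + n * (2 * Real.pi) := by
        have : (θ : ℂ) * Complex.I = (θ0 + n * (2 * Real.pi)) * Complex.I := by
          rw [hn]; ring
        exact mul_right_cancel₀ Complex.I_ne_zero this
      have h3 : θ = θ0 + n * (2 * Real.pi) := by exact_mod_cast h2
      exact h3.symm
    · convert Set.countable_empty
      ext θ
      simp only [Set.mem_ofPred_eq, Set.mem_empty_iff_false, iff_false]
      exact fun hθ => hne ⟨θ, hθ⟩
  have hbad : {θ : ℝ | b + (W * Complex.exp (θ * Complex.I)).re = 0}.Countable := by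
    rcases lt_or_gt_of_ne h with hlt | hgt
    · refine ((hcount (cr W b 1)).union (hcount (cr W b (-1)))).mono ?_
      intro θ hθ
      simp only [Set.mem_ofPred_eq] at hθ
      have hn : ‖Complex.exp (θ * Complex.I)‖ = 1 := Complex.norm_exp_ofReal_mul_I θ
      exact cr_unique W b hlt _ hn (by linarith)
    · convert Set.countable_empty
      ext θ
      simp only [Set.mem_ofPred_eq, Set.mem_empty_iff_false, iff_false]
      intro hθ
      have h1 := Complex.abs_re_le_norm (W * Complex.exp (θ * Complex.I))
      rw [norm_mul, Complex.norm_exp_ofReal_mul_I, mul_one] at h1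
      have h2 : (W * Complex.exp (θ * Complex.I)).re = -b := by linarith
      rw [h2, abs_neg] at h1
      linarith
  have h0 := hbad.measure_zero (volume : Measure ℝ)
  rw [ae_iff]
  simpa using h0

lemma pt_cont_D2 (w : I → ℂ) (B : I → ℝ) : Continuous (pt w B) := by
  unfold pt
  refine continuous_pi fun i => ?_
  exact continuous_const.add (Complex.continuous_re.comp (continuous_const.mul continuous_id))

lemma pt_sub (w : I → ℂ) (B : I → ℝ) (e : ℂ) (i m : I) :
    pt w B e i - pt w B e m = (B i - B m) + ((w i - w m) * e).re := by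
  simp only [pt, sub_mul, Complex.sub_re]; ring

lemma cexp_cont : Continuous (fun θ : ℝ => Complex.exp (θ * Complex.I)) := by
  fun_prop

lemma ii_of_bdd (f : ℝ → ℝ) (hf : Measurable f) (M : ℝ) (hM : ∀ x, |f x| ≤ M) (a b : ℝ) :
    IntervalIntegrable f volume a b := by
  rw [intervalIntegrable_iff]
  refine Measure.integrableOn_of_bounded (M := M) ?_ hf.aestronglyMeasurable ?_
  · simp [Set.uIoc]
  · exact Filter.Eventually.of_forall fun x => by rw [Real.norm_eq_abs]; exact hM x

/-- TARGET 3 -/
theorem deriv_TT (hI : 3 ≤ Fintype.card I) (lam : I → I → ℝ) (w : I → ℂ) (B : I → ℝ) (hreg : Reg w B)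
    (β : I → ℝ) :
    HasDerivAt (fun h : ℝ => TT lam w (fun i => B i + h * β i))
      ((1/2) * ∑ i, ∑ m, (if |B i - B m| < ‖w i - w m‖ then
        kap lam i m w B * (β i - β m) / Real.sqrt (‖w i - w m‖ ^ 2 - (B i - B m) ^ 2) else 0)) 0 := by
  classical
  obtain ⟨M, hM⟩ := JJ_bdd lam
  -- the integrands
  let g : I → I → ℝ → ℝ → ℝ := fun i m h θ =>
    JJ lam i m (pt w B (Complex.exp (θ * Complex.I))) *
      (if 0 < (B i - B m) + h * (β i - β m) + ((w i - w m) * Complex.exp (θ * Complex.I)).re
        then 1 else 0)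
  have hgm : ∀ i m h, Measurable (g i m h) := by
    intro i m h
    refine Measurable.mul ((JJ_measurable lam i m).comp
      ((pt_cont_D2 w B).measurable.comp cexp_cont.measurable)) ?_
    refine Measurable.ite ?_ measurable_const measurable_const
    refine measurableSet_lt measurable_const ?_
    have : Continuous (fun θ : ℝ => (B i - B m) + h * (β i - β m) +
        ((w i - w m) * Complex.exp (θ * Complex.I)).re) := by fun_prop
    exact this.measurable
  have hgb : ∀ i m h θ, |g i m h θ| ≤ M := by
    intro i m h θ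
    have h0 : 0 ≤ M := (abs_nonneg _).trans (hM i m (pt w B 0))
    simp only [g]
    split_ifs
    · rw [mul_one]; exact hM i m _
    · simpa using h0
  have hgi : ∀ i m h, IntervalIntegrable (g i m h) volume 0 (2 * Real.pi) := fun i m h =>
    ii_of_bdd _ (hgm i m h) M (hgb i m h) _ _
  let A : I → I → ℝ → ℝ := fun i m h => ∫ θ in (0:ℝ)..(2 * Real.pi), g i m h θ
  -- derivative of each A
  have hA : ∀ i m, |B i - B m| < ‖w i - w m‖ →
      HasDerivAt (A i m) (kap lam i m w B * (β i - β m) /
        Real.sqrt (‖w i - w m‖ ^ 2 - (B i - B m) ^ 2)) 0 := by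
    intro i m him
    have hne : i ≠ m := by
      rintro rfl
      simp at him
    have hev : ∀ σ : ℝ, σ = 1 ∨ σ = -1 → ∀ᶠ e in nhds (cr (w i - w m) (B i - B m) σ),
        JJ lam i m (pt w B e) = JJ lam i m (pt w B (cr (w i - w m) (B i - B m) σ)) := by
      intro σ hσ
      refine (pt_cont_D2 w B).continuousAt.eventually (JJ_locconst lam i m hne _ ?_)
      intro p r hpr h1 h2 h3
      refine hreg.2 i m p r hne hpr (fun h => h1 ⟨h.1.symm, h.2.symm⟩)
        (fun h => h2 ⟨h.2.symm, h.1.symm⟩) _ (cr_norm _ _ σ hσ him) ⟨?_, h3⟩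
      rw [← sub_eq_zero, pt_sub, cr_re _ _ _ him]
      ring
    exact arc_deriv (fun e => JJ lam i m (pt w B e))
      ((JJ_measurable lam i m).comp (pt_cont_D2 w B).measurable) M (fun e => hM i m _)
      (w i - w m) (B i - B m) (β i - β m) him _ _ (hev 1 (Or.inl rfl)) (hev (-1) (Or.inr rfl))
  -- the model function
  have hF : HasDerivAt (fun h : ℝ => TT lam w B + (1/2) * ∑ i, ∑ m,
      (if |B i - B m| < ‖w i - w m‖ then A i m h - A i m 0 else 0))
      ((1/2) * ∑ i, ∑ m, (if |B i - B m| < ‖w i - w m‖ then
        kap lam i m w B * (β i - β m) / Real.sqrt (‖w i - w m‖ ^ 2 - (B i - B m) ^ 2) else 0)) 0 := by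
    refine HasDerivAt.const_add _ (HasDerivAt.const_mul _ ?_)
    refine HasDerivAt.fun_sum fun i _ => HasDerivAt.fun_sum fun m _ => ?_
    by_cases h : |B i - B m| < ‖w i - w m‖
    · simp only [h, if_true]
      exact (hA i m h).sub_const _
    · simp only [h, if_false]
      exact hasDerivAt_const _ _
  refine hF.congr_of_eventuallyEq ?_
  obtain ⟨δ, hδ, hLL⟩ := LL_diff hI lam w B hreg β
  have hev1 : ∀ᶠ h : ℝ in nhds 0, |h| < δ := by
    have : ∀ᶠ h : ℝ in nhds 0, h ∈ Metric.ball (0:ℝ) δ := Metric.ball_mem_nhds _ hδ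
    filter_upwards [this] with h hh
    simpa using hh
  have hev2 : ∀ᶠ h : ℝ in nhds 0, ∀ p r, p ≠ r →
      |(B p - B r) + h * (β p - β r)| ≠ ‖w p - w r‖ := by
    rw [Filter.eventually_all]
    intro p
    rw [Filter.eventually_all]
    intro r
    by_cases hpr : p = r
    · exact Filter.Eventually.of_forall fun h hne => absurd hpr hne
    · have hc : ContinuousAt (fun h : ℝ => |(B p - B r) + h * (β p - β r)|) 0 := by fun_prop
      have h0 : (fun h : ℝ => |(B p - B r) + h * (β p - β r)|) 0 ≠ ‖w p - w r‖ := by
        simpa using hreg.1 p r hpr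
      filter_upwards [hc.eventually_ne h0] with h hh _
      exact hh
  filter_upwards [hev1, hev2] with h hh1 hh2
  have hae : ∀ h : ℝ, (∀ p r, p ≠ r → |(B p - B r) + h * (β p - β r)| ≠ ‖w p - w r‖) →
      ∀ᵐ θ : ℝ, ∀ p r, p ≠ r →
        pt w (fun i => B i + h * β i) (Complex.exp (θ * Complex.I)) p ≠
        pt w (fun i => B i + h * β i) (Complex.exp (θ * Complex.I)) r := by
    intro h hh
    rw [ae_all_iff]
    intro p
    rw [ae_all_iff]
    intro r
    by_cases hpr : p = r
    · exact Filter.Eventually.of_forall fun h hne => absurd hpr hne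
    · filter_upwards [ae_ne_aux (w p - w r) ((B p - B r) + h * (β p - β r)) (hh p r hpr)] with θ hθ _
      rw [← sub_ne_zero, pt_sub]
      intro h0
      apply hθ
      rw [← h0]; ring
  have hae0 := hae 0 (fun p r hpr => by simpa using hreg.1 p r hpr)
  have haeh := hae h hh2
  have hLLi : ∀ B' : I → ℝ, IntervalIntegrable
      (fun θ : ℝ => LL lam (pt w B' (Complex.exp (θ * Complex.I)))) volume 0 (2 * Real.pi) := by
    intro B'
    refine ii_of_bdd _ ((LL_measurable lam).comp
      ((pt_cont_D2 w B').measurable.comp cexp_cont.measurable)) _ (fun θ => LL_abs_le lam _) _ _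
  have key : TT lam w (fun i => B i + h * β i) - TT lam w B =
      ∫ θ in (0:ℝ)..(2 * Real.pi), (1/2) * ∑ i, ∑ m, (if |B i - B m| < ‖w i - w m‖ then
        (g i m h θ - g i m 0 θ) else 0) := by
    rw [TT_eq, TT_eq, ← intervalIntegral.integral_sub (hLLi _) (hLLi _)]
    refine intervalIntegral.integral_congr_ae ?_
    filter_upwards [hae0, haeh] with θ h0 h1 _
    have hB : (fun i => B i + 0 * β i) = B := by funext i; ring
    rw [hB] at h0
    rw [hLL h hh1 _ (Complex.norm_exp_ofReal_mul_I θ) h0 h1]
    congr 1
    refine Finset.sum_congr rfl fun i _ => Finset.sum_congr rfl fun m _ => ?_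
    by_cases hc : |B i - B m| < ‖w i - w m‖
    · simp only [hc, if_true]
      exact mul_sub _ _ _
    · simp only [hc, if_false]
  have key2 : (∫ θ in (0:ℝ)..(2 * Real.pi), (1/2) * ∑ i, ∑ m, (if |B i - B m| < ‖w i - w m‖ then
        (g i m h θ - g i m 0 θ) else 0)) = (1/2) * ∑ i, ∑ m,
      (if |B i - B m| < ‖w i - w m‖ then A i m h - A i m 0 else 0) := by
    have hint : ∀ i m, IntervalIntegrable (fun θ => if |B i - B m| < ‖w i - w m‖ then
        (g i m h θ - g i m 0 θ) else 0) volume 0 (2 * Real.pi) := by
      intro i m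
      by_cases hc : |B i - B m| < ‖w i - w m‖
      · simp only [hc, if_true]
        exact (hgi i m h).sub (hgi i m 0)
      · simp only [hc, if_false]
        exact intervalIntegrable_const
    rw [intervalIntegral.integral_const_mul]
    congr 1
    rw [intervalIntegral.integral_finsetSum]
    · refine Finset.sum_congr rfl fun i _ => ?_
      rw [intervalIntegral.integral_finsetSum]
      · refine Finset.sum_congr rfl fun m _ => ?_
        by_cases hc : |B i - B m| < ‖w i - w m‖
        · simp only [hc, if_true]
          rw [intervalIntegral.integral_sub (hgi i m h) (hgi i m 0)]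
        · simp only [hc, if_false, intervalIntegral.integral_zero]
      · intro m _
        exact hint i m
    · intro i _
      have h1 := IntervalIntegrable.sum (Finset.univ : Finset I)
        (f := fun m θ => if |B i - B m| < ‖w i - w m‖ then
        (g i m h θ - g i m 0 θ) else 0) (fun m _ => hint i m)
      have h2 : (∑ m, fun θ => if |B i - B m| < ‖w i - w m‖ then
        (g i m h θ - g i m 0 θ) else 0) = fun θ => ∑ m, (if |B i - B m| < ‖w i - w m‖ then
        (g i m h θ - g i m 0 θ) else 0) := by
        funext θ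
        simp [Finset.sum_apply]
      rw [h2] at h1
      exact h1
  rw [key2] at key
  show TT lam w (fun i => B i + h * β i) = _
  linarith
end abs


end FanRD
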