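import Mathlib
import Pool.Agent.FanRD.Defs
set_option autoImplicit false
set_option maxHeartbeats 4000000
noncomputable section
open MeasureTheory

namespace FanRD

variable {l : ℕ}



/-- finitely many analytic functions, none identically zero, have a common nonzero point in every
nonempty open set -/
theorem exists_ne_zero {E : Type*} [NormedAddCommGroup E] [NormedSpace ℝ E] {K : Type*} [Finite K]
    (f : K → E → ℝ) (hf : ∀ k, AnalyticOnNhd ℝ (f k) Set.univ) (hne : ∀ k, ∃ x, f k x ≠ 0)
    (U : Set E) (hU : IsOpen U) (hUn : U.Nonempty) : ∃ x ∈ U, ∀ k, f k x ≠ 0 := by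
  classical
  have := Fintype.ofFinite K
  have key : ∀ s : Finset K, ∀ U : Set E, IsOpen U → U.Nonempty →
      ∃ x ∈ U, ∀ k ∈ s, f k x ≠ 0 := by
    intro s
    induction s using Finset.induction_on with
    | empty =>
      intro U _ hUn
      obtain ⟨x, hx⟩ := hUn
      exact ⟨x, hx, fun k hk => absurd hk (Finset.notMem_empty k)⟩
    | insert k s hk ih =>
      intro U hU hUn
      have hc : Continuous (f k) := by
        rw [← continuousOn_univ]
        exact (hf k).continuousOn
      have hV : IsOpen (U ∩ f k ⁻¹' {0}ᶜ) := hU.inter (isOpen_compl_singleton.preimage hc)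
      have hVn : (U ∩ f k ⁻¹' {0}ᶜ).Nonempty := by
        by_contra hcon
        rw [Set.not_nonempty_iff_eq_empty] at hcon
        obtain ⟨x0, hx0⟩ := hUn
        have hev : f k =ᶠ[nhds x0] 0 := by
          filter_upwards [hU.mem_nhds hx0] with y hy
          by_contra hne
          have : y ∈ U ∩ f k ⁻¹' {0}ᶜ := ⟨hy, hne⟩
          rw [hcon] at this
          exact this
        obtain ⟨y, hy⟩ := hne k
        exact hy ((hf k).eqOn_zero_of_preconnected_of_eventuallyEq_zero
          isPreconnected_univ (Set.mem_univ x0) hev (Set.mem_univ y))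
      obtain ⟨x, hx, hxs⟩ := ih _ hV hVn
      refine ⟨x, hx.1, fun k' hk' => ?_⟩
      rcases Finset.mem_insert.1 hk' with h | h
      · rw [h]
        exact hx.2
      · exact hxs k' h
  obtain ⟨x, hx, hxk⟩ := key Finset.univ U hU hUn
  exact ⟨x, hx, fun k => hxk k (Finset.mem_univ k)⟩


end FanRD
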