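import Mathlib
import Pool.Agent.FanRD.Defs
import Pool.Agent.FanRD.GN
set_option autoImplicit false
set_option maxHeartbeats 4000000
noncomputable section
open MeasureTheory

namespace FanRD

variable {l : ℕ}



theorem BB_contDiff_G (A : Fan l) (s : Fin (l + 5)) : ContDiff ℝ (⊤ : WithTop ℕ∞) (fun x : X l => BB A x s) := by
  unfold BB bb
  fun_prop

theorem WW_contDiff_G (A : Fan l) (s : Fin (l + 5)) : ContDiff ℝ (⊤ : WithTop ℕ∞) (fun x : X l => WW A x s) := by
  unfold WW om
  fun_prop

theorem lin_forms {p1 p2 q1 q2 : ℂ} {c : ℝ} (hq : ¬ (q1 = 0 ∧ q2 = 0))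
    (h : ∀ z1 z2 : ℂ, ‖p1 * z1 + p2 * z2‖ = c * ‖q1 * z1 + q2 * z2‖) :
    ∃ e : ℂ, ‖e‖ = c ∧ p1 = e * q1 ∧ p2 = e * q2 := by
  have h0 : p1 * q2 = p2 * q1 := by
    have := h q2 (-q1)
    have h2 : q1 * q2 + q2 * -q1 = 0 := by ring
    rw [h2, norm_zero, mul_zero, norm_eq_zero] at this
    linear_combination this
  have h1 := h 1 0
  have h2 := h 0 1
  simp only [mul_one, mul_zero, add_zero, zero_add] at h1 h2
  by_cases hq1 : q1 = 0
  · have hq2 : q2 ≠ 0 := fun h3 => hq ⟨hq1, h3⟩
    refine ⟨p2 / q2, ?_, ?_, ?_⟩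
    · rw [norm_div, h2]
      field_simp
    · rw [div_mul_eq_mul_div, eq_div_iff hq2, h0]
    · rw [div_mul_cancel₀ _ hq2]
  · refine ⟨p1 / q1, ?_, ?_, ?_⟩
    · rw [norm_div, h1]
      field_simp
    · rw [div_mul_cancel₀ _ hq1]
    · rw [div_mul_eq_mul_div, eq_div_iff hq1, h0]

theorem not_ident (A : Fan l) (i m : Fin (l + 5)) (him : i ≠ m) (hm : Typ A m)
    (hS : ¬ SA A i m) (s u : Fin (l + 5)) (hsu : s ≠ u) (hSs : ¬ SA A s u)
    (hid : ∀ x : X l, (BB A x s - BB A x u) ^ 2 * ‖WW A x i - WW A x m‖ ^ 2 =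
        (BB A x i - BB A x m) ^ 2 * ‖WW A x s - WW A x u‖ ^ 2) :
      (u = m ∧ s ∈ cl A i m) ∨ (s = m ∧ u ∈ cl A i m) := by
  classical
  -- abbreviations
  obtain ⟨Bd, hBd⟩ : ∃ Bd : Fin (l + 5) → Fin (l + 5) → (Fin l → ℝ) → ℝ, Bd = fun a b v =>
    (∑ k, (A a).2.2.1 k * v k + (A a).2.2.2) - (∑ k, (A b).2.2.1 k * v k + (A b).2.2.2) := ⟨_, rfl⟩
  obtain ⟨Om, hOm⟩ : ∃ Om : Fin (l + 5) → Fin (l + 5) → ℂ → ℂ → ℂ, Om = fun a b z1 z2 =>
    ((A a).1 - (A b).1) * z1 + ((A a).2.1 - (A b).2.1) * z2 := ⟨_, rfl⟩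
  have hsing : ∀ (a : Fin (l + 5)) (k : Fin l),
      ∑ j, (A a).2.2.1 j * (Pi.single k 1 : Fin l → ℝ) j = (A a).2.2.1 k := by
    intro a k
    simp [Pi.single_apply]
  have hid' : ∀ (z1 z2 : ℂ) (v : Fin l → ℝ), (Bd s u v) ^ 2 * ‖Om i m z1 z2‖ ^ 2 =
      (Bd i m v) ^ 2 * ‖Om s u z1 z2‖ ^ 2 := by
    intro z1 z2 v
    have := hid (z1, z2, v)
    simp only [BB, WW, bb, om] at this
    have e1 : ∀ a b : Fin (l + 5), (A a).1 * z1 + (A a).2.1 * z2 - ((A b).1 * z1 + (A b).2.1 * z2) = Om a b z1 z2 := by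
      intro a b
      rw [hOm]
      ring
    rw [e1, e1] at this
    rw [hBd]
    exact this
  -- b_i ≠ b_m
  have hbim : ∃ v0, Bd i m v0 ≠ 0 := by
    by_contra hc
    push Not at hc
    have h0 := hc 0
    have hb : ∀ k, (A i).2.2.1 k = (A m).2.2.1 k := by
      intro k
      have h1 := hc (Pi.single k 1)
      rw [hBd] at h0 h1
      simp only [hsing] at h1
      simp at h0
      linarith
    have h3 := hm (fun j => (if j = i then 1 else 0) - (if j = m then 1 else 0)) (by simp) (by
      intro k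
      simp [sub_mul, Finset.sum_sub_distrib, hb k]) (by
      refine (Finset.card_le_card (t := {i, m}) ?_).trans ((Finset.card_le_two).trans (by norm_num))
      intro j hj
      simp only [Finset.mem_filter, Finset.mem_univ, true_and] at hj
      simp only [Finset.mem_insert, Finset.mem_singleton]
      by_contra hcc
      push Not at hcc
      apply hj
      simp [hcc.1, hcc.2])
    simp [him.symm] at h3
  obtain ⟨v0, hv0⟩ := hbim
  obtain ⟨c, hc⟩ : ∃ c : ℝ, c = |Bd s u v0 / Bd i m v0| := ⟨_, rfl⟩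
  have hc0 : 0 ≤ c := by rw [hc]; positivity
  have hnorm : ∀ z1 z2 : ℂ, ‖Om s u z1 z2‖ = c * ‖Om i m z1 z2‖ := by
    intro z1 z2
    have h1 := hid' z1 z2 v0
    have h2 : ‖Om s u z1 z2‖ ^ 2 = (c * ‖Om i m z1 z2‖) ^ 2 := by
      rw [mul_pow, hc, sq_abs, div_pow]
      field_simp
      linarith
    exact (sq_eq_sq₀ (norm_nonneg _) (by positivity)).1 h2
  have hq : ¬ ((A i).1 - (A m).1 = 0 ∧ (A i).2.1 - (A m).2.1 = 0) := by
    intro h
    exact hS ⟨sub_eq_zero.1 h.1, sub_eq_zero.1 h.2⟩
  have hp : ¬ ((A s).1 - (A u).1 = 0 ∧ (A s).2.1 - (A u).2.1 = 0) := by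
    intro h
    exact hSs ⟨sub_eq_zero.1 h.1, sub_eq_zero.1 h.2⟩
  obtain ⟨e, he, he1, he2⟩ := lin_forms (p1 := (A s).1 - (A u).1) (p2 := (A s).2.1 - (A u).2.1) hq
    (c := c) (fun z1 z2 => by
      have := hnorm z1 z2
      rw [hOm] at this
      exact this)
  have hcpos : 0 < c := by
    rcases hc0.lt_or_eq with h | h
    · exact h
    · exfalso
      rw [← h, norm_eq_zero] at he
      rw [he, zero_mul] at he1 he2
      exact hp ⟨he1, he2⟩
  -- z with Om i m ≠ 0
  have hz : ∃ z1 z2, Om i m z1 z2 ≠ 0 := by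
    by_contra hcc
    push Not at hcc
    have h1 := hcc 1 0
    have h2 := hcc 0 1
    rw [hOm] at h1 h2
    simp only [mul_one, mul_zero, add_zero, zero_add] at h1 h2
    exact hq ⟨h1, h2⟩
  obtain ⟨z1, z2, hz⟩ := hz
  have hsq : ∀ v, (Bd s u v) ^ 2 = c ^ 2 * (Bd i m v) ^ 2 := by
    intro v
    have h1 := hid' z1 z2 v
    rw [hnorm] at h1
    have h2 : ‖Om i m z1 z2‖ ^ 2 ≠ 0 := by
      have := norm_pos_iff.2 hz
      positivity
    apply mul_right_cancel₀ h2
    rw [h1]
    ring
  -- one of the two affine functions vanishes identically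
  have hBdc : ∀ a b, ContDiff ℝ (⊤ : WithTop ℕ∞) (Bd a b) := by
    intro a b
    rw [hBd]
    fun_prop
  have hone : ∃ c' : ℝ, (c' = c ∨ c' = -c) ∧ ∀ v, Bd s u v = c' * Bd i m v := by
    by_contra hcc
    push Not at hcc
    have h1 := hcc c (Or.inl rfl)
    have h2 := hcc (-c) (Or.inr rfl)
    obtain ⟨x, -, hx⟩ := exists_ne_zero (E := Fin l → ℝ) (K := Bool)
      (fun b v => if b then Bd s u v - c * Bd i m v else Bd s u v - (-c) * Bd i m v)
      (by
        intro k
        rw [← contDiff_omega_iff_analyticOnNhd]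
        have e1 := hBdc s u
        have e2 := hBdc i m
        cases k
        · simp only [Bool.false_eq_true, if_false]
          exact e1.sub (contDiff_const.mul e2)
        · simp only [if_true]
          exact e1.sub (contDiff_const.mul e2))
      (by
        intro k
        cases k
        · obtain ⟨v, hv⟩ := h2
          refine ⟨v, ?_⟩
          simp only [Bool.false_eq_true, if_false]
          exact sub_ne_zero.2 hv
        · obtain ⟨v, hv⟩ := h1
          refine ⟨v, ?_⟩
          simp only [if_true]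
          exact sub_ne_zero.2 hv)
      Set.univ isOpen_univ ⟨0, trivial⟩
    have hx1 := hx true
    have hx2 := hx false
    simp only [if_true, Bool.false_eq_true, if_false] at hx1 hx2
    have h3 := hsq x
    have h4 : (Bd s u x - c * Bd i m x) * (Bd s u x - (-c) * Bd i m x) = 0 := by
      ring_nf
      rw [h3]
      ring
    rcases mul_eq_zero.1 h4 with h5 | h5
    · exact hx1 h5
    · exact hx2 h5
  obtain ⟨c', hc', hBB⟩ := hone
  have hcc0 : (A s).2.2.2 - (A u).2.2.2 = c' * ((A i).2.2.2 - (A m).2.2.2) := by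
    have h1 := hBB 0
    rw [hBd] at h1
    simpa using h1
  have hbb : ∀ k, (A s).2.2.1 k - (A u).2.2.1 k = c' * ((A i).2.2.1 k - (A m).2.2.1 k) := by
    intro k
    have h1 := hBB (Pi.single k 1)
    rw [hBd] at h1
    simp only [hsing] at h1
    linear_combination h1 - hcc0
  have hν := hm (fun j => ((if j = s then 1 else 0) - (if j = u then 1 else 0))
      - c' * ((if j = i then 1 else 0) - (if j = m then 1 else 0))) (by
      simp [Finset.sum_sub_distrib, ← Finset.mul_sum]) (by
      intro k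
      have h5 : ∀ a : Fin (l + 5), ∑ j, (if j = a then (1 : ℝ) else 0) * (A j).2.2.1 k = (A a).2.2.1 k := by
        intro a
        simp
      have h6 : ∑ j, (((if j = s then (1 : ℝ) else 0) - (if j = u then 1 else 0))
          - c' * ((if j = i then 1 else 0) - (if j = m then 1 else 0))) * (A j).2.2.1 k
          = (∑ j, (if j = s then (1 : ℝ) else 0) * (A j).2.2.1 k
            - ∑ j, (if j = u then (1 : ℝ) else 0) * (A j).2.2.1 k)
            - c' * (∑ j, (if j = i then (1 : ℝ) else 0) * (A j).2.2.1 k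
              - ∑ j, (if j = m then (1 : ℝ) else 0) * (A j).2.2.1 k) := by
        rw [← Finset.sum_sub_distrib, ← Finset.sum_sub_distrib, Finset.mul_sum,
          ← Finset.sum_sub_distrib]
        apply Finset.sum_congr rfl
        intro j _
        ring
      rw [h6, h5, h5, h5, h5, hbb k]
      ring) (by
      refine (Finset.card_le_card (t := {s, u, i, m}) ?_).trans (Finset.card_le_four)
      intro j hj
      simp only [Finset.mem_filter, Finset.mem_univ, true_and] at hj
      simp only [Finset.mem_insert, Finset.mem_singleton]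
      by_contra hcc
      push Not at hcc
      apply hj
      simp [hcc.1, hcc.2.1, hcc.2.2.1, hcc.2.2.2])
  simp only [if_true, him.symm, if_false] at hν
  by_cases hum : u = m
  · left
    refine ⟨hum, ?_⟩
    subst hum
    rw [if_neg hsu.symm, if_pos rfl] at hν
    have hc1 : c' = 1 := by linarith
    have hc2 : c = 1 := by
      rcases hc' with h | h
      · rw [← h, hc1]
      · exfalso
        linarith
    simp only [cl, Finset.mem_filter, Finset.mem_univ, true_and]
    refine ⟨?_, e, by rw [he, hc2], he1, he2⟩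
    unfold SB
    rw [hc1] at hbb hcc0
    refine Prod.ext ?_ ?_
    · funext k
      have := hbb k
      linarith
    · linarith
  · by_cases hsm : s = m
    · right
      refine ⟨hsm, ?_⟩
      subst hsm
      rw [if_pos rfl, if_neg hsu] at hν
      have hc1 : c' = -1 := by linarith
      have hc2 : c = 1 := by
        rcases hc' with h | h
        · exfalso
          linarith
        · linarith
      simp only [cl, Finset.mem_filter, Finset.mem_univ, true_and]
      refine ⟨?_, -e, by rw [norm_neg, he, hc2], ?_, ?_⟩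
      · unfold SB
        rw [hc1] at hbb hcc0
        refine Prod.ext ?_ ?_
        · funext k
          have := hbb k
          linarith
        · linarith
      · linear_combination -he1
      · linear_combination -he2
    · exfalso
      rw [if_neg (Ne.symm hsm), if_neg (Ne.symm hum)] at hν
      have : c' = 0 := by linarith
      rcases hc' with h | h <;> linarith

/-- TARGET: at generic points, equality of the ratios `B²/|ω|²` only happens inside the class -/
theorem gen_class (A : Fan l) (i m : Fin (l + 5)) (him : i ≠ m) (hm : Typ A m)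
    (hS : ¬ SA A i m) (U : Set (X l)) (hU : IsOpen U) (hne : U.Nonempty) :
    ∃ x ∈ U, ∀ s u, s ≠ u → ¬ SA A s u →
      (BB A x s - BB A x u) ^ 2 * ‖WW A x i - WW A x m‖ ^ 2 =
        (BB A x i - BB A x m) ^ 2 * ‖WW A x s - WW A x u‖ ^ 2 →
      (u = m ∧ s ∈ cl A i m) ∨ (s = m ∧ u ∈ cl A i m) := by
  classical
  obtain ⟨P, hP⟩ : ∃ P : Fin (l+5) × Fin (l+5) → Prop, P = fun k => k.1 ≠ k.2 ∧ ¬ SA A k.1 k.2 ∧
    ¬ ((k.2 = m ∧ k.1 ∈ cl A i m) ∨ (k.1 = m ∧ k.2 ∈ cl A i m)) := ⟨_, rfl⟩
  obtain ⟨x, hxU, hx⟩ := exists_ne_zero (E := X l) (K := Fin (l+5) × Fin (l+5))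
    (fun k x => if P k then (BB A x k.1 - BB A x k.2) ^ 2 * ‖WW A x i - WW A x m‖ ^ 2 -
        (BB A x i - BB A x m) ^ 2 * ‖WW A x k.1 - WW A x k.2‖ ^ 2 else 1)
    (by
      intro k
      rw [← contDiff_omega_iff_analyticOnNhd]
      by_cases hk : P k
      · simp only [hk, if_true]
        exact (((BB_contDiff_G A k.1).sub (BB_contDiff_G A k.2)).pow 2 |>.mul
          (((WW_contDiff_G A i).sub (WW_contDiff_G A m)).norm_sq ℝ)).sub
          ((((BB_contDiff_G A i).sub (BB_contDiff_G A m)).pow 2).mul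
          (((WW_contDiff_G A k.1).sub (WW_contDiff_G A k.2)).norm_sq ℝ))
      · simp only [hk, if_false]
        exact contDiff_const)
    (by
      intro k
      by_cases hk : P k
      · by_contra hcc
        push Not at hcc
        have hk' := hk
        rw [hP] at hk'
        obtain ⟨h1, h2, h3⟩ := hk'
        apply h3
        apply not_ident A i m him hm hS k.1 k.2 h1 h2
        intro x
        have := hcc x
        simp only [hk, if_true] at this
        linarith
      · exact ⟨0, by simp [hk]⟩) U hU hne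
  refine ⟨x, hxU, ?_⟩
  intro s u hsu hSs heq
  by_contra hcc
  have hk : P (s, u) := by
    rw [hP]
    exact ⟨hsu, hSs, hcc⟩
  have := hx (s, u)
  simp only [hk, if_true] at this
  apply this
  rw [heq]
  ring

end FanRD
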