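import Mathlib
import Pool.Agent.FanRD.Defs
set_option autoImplicit false
set_option maxHeartbeats 4000000
noncomputable section
open MeasureTheory

namespace FanRD

variable {l : ℕ}



theorem LI_poly {K : Type*} [Fintype K] (d x : K → ℝ) (h : ∀ n : ℕ, ∑ k, d k * x k ^ n = 0) (y : ℝ) :
    ∑ k ∈ Finset.univ.filter (fun k => x k = y), d k = 0 := by
  classical
  have hP : ∀ P : Polynomial ℝ, ∑ k, d k * P.eval (x k) = 0 := by
    intro P
    induction P using Polynomial.induction_on' with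
    | add p q hp hq =>
      simp only [Polynomial.eval_add, mul_add, Finset.sum_add_distrib, hp, hq, add_zero]
    | monomial n a =>
      simp only [Polynomial.eval_monomial]
      have : ∑ k, d k * (a * x k ^ n) = a * ∑ k, d k * x k ^ n := by
        rw [Finset.mul_sum]
        exact Finset.sum_congr rfl fun k _ => by ring
      rw [this, h n, mul_zero]
  have h1 := hP (∏ z ∈ (Finset.univ.image x).erase y, (Polynomial.X - Polynomial.C z))
  have h2 : ∀ k, x k ≠ y → (∏ z ∈ (Finset.univ.image x).erase y,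
      (Polynomial.X - Polynomial.C z)).eval (x k) = 0 := by
    intro k hk
    rw [Polynomial.eval_prod]
    refine Finset.prod_eq_zero (i := x k) ?_ (by simp)
    rw [Finset.mem_erase]
    exact ⟨hk, Finset.mem_image_of_mem x (Finset.mem_univ k)⟩
  have h3 : (∏ z ∈ (Finset.univ.image x).erase y,
      (Polynomial.X - Polynomial.C z)).eval y ≠ 0 := by
    rw [Polynomial.eval_prod, Finset.prod_ne_zero_iff]
    intro z hz
    rw [Finset.mem_erase] at hz
    simp only [Polynomial.eval_sub, Polynomial.eval_X, Polynomial.eval_C]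
    exact sub_ne_zero.2 hz.1.symm
  rw [← Finset.sum_filter_add_sum_filter_not Finset.univ (fun k => x k = y)] at h1
  have h4 : ∑ k ∈ Finset.univ.filter (fun k => ¬ x k = y), d k *
      (∏ z ∈ (Finset.univ.image x).erase y, (Polynomial.X - Polynomial.C z)).eval (x k) = 0 := by
    apply Finset.sum_eq_zero
    intro k hk
    rw [Finset.mem_filter] at hk
    rw [h2 k hk.2, mul_zero]
  have h5 : ∑ k ∈ Finset.univ.filter (fun k => x k = y), d k *
      (∏ z ∈ (Finset.univ.image x).erase y, (Polynomial.X - Polynomial.C z)).eval (x k) =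
      (∑ k ∈ Finset.univ.filter (fun k => x k = y), d k) *
      (∏ z ∈ (Finset.univ.image x).erase y, (Polynomial.X - Polynomial.C z)).eval y := by
    rw [Finset.sum_mul]
    apply Finset.sum_congr rfl
    intro k hk
    rw [Finset.mem_filter] at hk
    rw [hk.2]
  rw [h4, h5, add_zero] at h1
  exact (mul_eq_zero.1 h1).resolve_right h3

theorem LI_step {K : Type*} [Fintype K] (a ρ σ : K → ℝ) (hσ : ∀ k, σ k < ρ k)
    (h : ∀ᶠ u in nhds (1:ℝ), ∑ k, a k / Real.sqrt (ρ k * u - σ k) = 0) (n : ℕ) :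
    ∀ᶠ u in nhds (1:ℝ), ∑ k, a k * ρ k ^ n * (ρ k * u - σ k) ^ (-(1 / 2 : ℝ) - n) = 0 := by
  have hpos : ∀ᶠ u in nhds (1:ℝ), ∀ k, 0 < ρ k * u - σ k := by
    rw [Filter.eventually_all]
    intro k
    have hc : ContinuousAt (fun u : ℝ => ρ k * u - σ k) 1 := by fun_prop
    exact hc.eventually (lt_mem_nhds (by simp only [mul_one]; linarith [hσ k]))
  induction n with
  | zero =>
    filter_upwards [h, hpos] with u hu hp
    rw [← hu]
    refine Finset.sum_congr rfl fun k _ => ?_
    rw [pow_zero, mul_one, Nat.cast_zero, sub_zero, Real.rpow_neg (hp k).le, ← Real.sqrt_eq_rpow,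
      div_eq_mul_inv]
  | succ n ih =>
    have ih' : (fun u => ∑ k, a k * ρ k ^ n * (ρ k * u - σ k) ^ (-(1 / 2 : ℝ) - n)) =ᶠ[nhds 1] fun _ => 0 := ih
    have hd := ih'.deriv
    filter_upwards [hd, hpos] with u hu hp
    have h1 : HasDerivAt (fun u => ∑ k, a k * ρ k ^ n * (ρ k * u - σ k) ^ (-(1 / 2 : ℝ) - n))
        (∑ k, a k * ρ k ^ n * (ρ k * (-(1 / 2 : ℝ) - n) * (ρ k * u - σ k) ^ (-(1 / 2 : ℝ) - n - 1))) u := by
      apply HasDerivAt.fun_sum
      intro k _
      apply HasDerivAt.const_mul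
      have h2 : HasDerivAt (fun u => ρ k * u - σ k) (ρ k) u := by
        have := ((hasDerivAt_id u).const_mul (ρ k)).sub_const (σ k)
        simpa using this
      exact h2.rpow_const (Or.inl (hp k).ne')
    rw [h1.deriv] at hu
    simp only [deriv_const] at hu
    have h3 : ∑ k, a k * ρ k ^ n * (ρ k * (-(1 / 2 : ℝ) - n) * (ρ k * u - σ k) ^ (-(1 / 2 : ℝ) - n - 1)) =
        (-(1 / 2 : ℝ) - n) * ∑ k, a k * ρ k ^ (n + 1) * (ρ k * u - σ k) ^ (-(1 / 2 : ℝ) - ((n + 1 : ℕ) : ℝ)) := by
      rw [Finset.mul_sum]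
      refine Finset.sum_congr rfl fun k _ => ?_
      have e : -(1 / 2 : ℝ) - ((n + 1 : ℕ) : ℝ) = -(1 / 2 : ℝ) - n - 1 := by push_cast; ring
      rw [e]
      ring
    rw [h3] at hu
    refine (mul_eq_zero.1 hu).resolve_left ?_
    have : (0 : ℝ) ≤ n := Nat.cast_nonneg n
    linarith

/-- linear independence of the functions `u ↦ (ρ u - σ)^(-1/2)` for different ratios `σ/ρ` -/
theorem LI {K : Type*} [Fintype K] (a ρ σ : K → ℝ) (hρ : ∀ k, 0 < ρ k) (hσ : ∀ k, σ k < ρ k)
    (h : ∀ᶠ u in nhds (1:ℝ), ∑ k, a k / Real.sqrt (ρ k * u - σ k) = 0) (r : ℝ) :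
    ∑ k ∈ Finset.univ.filter (fun k => σ k = r * ρ k), a k / Real.sqrt (ρ k) = 0 := by
  have hd : ∀ k, 0 < ρ k - σ k := fun k => by linarith [hσ k]
  have h1 : ∀ n : ℕ, ∑ k, (a k / Real.sqrt (ρ k - σ k)) * (ρ k / (ρ k - σ k)) ^ n = 0 := by
    intro n
    have h2 := (LI_step a ρ σ hσ h n).self_of_nhds
    rw [← h2]
    refine Finset.sum_congr rfl fun k _ => ?_
    rw [mul_one, Real.rpow_sub (hd k), Real.rpow_natCast, Real.rpow_neg (hd k).le, ← Real.sqrt_eq_rpow,
      div_pow]
    ring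
  rcases (Finset.univ.filter (fun k => σ k = r * ρ k)).eq_empty_or_nonempty with he | ⟨k0, hk0⟩
  · rw [he, Finset.sum_empty]
  · rw [Finset.mem_filter] at hk0
    have hr : r < 1 := by
      have h3 := hσ k0
      rw [hk0.2] at h3
      have h4 := hρ k0
      by_contra hcon
      push Not at hcon
      nlinarith
    have hr' : 0 < 1 - r := by linarith
    have h3 := LI_poly (fun k => a k / Real.sqrt (ρ k - σ k)) (fun k => ρ k / (ρ k - σ k)) h1 (1 / (1 - r))
    have hf : Finset.univ.filter (fun k => ρ k / (ρ k - σ k) = 1 / (1 - r)) =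
        Finset.univ.filter (fun k => σ k = r * ρ k) := by
      ext k
      simp only [Finset.mem_filter, Finset.mem_univ, true_and]
      rw [div_eq_div_iff (hd k).ne' hr'.ne']
      constructor
      · intro h5; linarith
      · intro h5; rw [h5]; ring
    rw [hf] at h3
    have h4 : ∑ k ∈ Finset.univ.filter (fun k => σ k = r * ρ k), a k / Real.sqrt (ρ k - σ k) =
        (1 / Real.sqrt (1 - r)) * ∑ k ∈ Finset.univ.filter (fun k => σ k = r * ρ k), a k / Real.sqrt (ρ k) := by
      rw [Finset.mul_sum]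
      refine Finset.sum_congr rfl fun k hk => ?_
      rw [Finset.mem_filter] at hk
      have e : ρ k - σ k = (1 - r) * ρ k := by rw [hk.2]; ring
      rw [e, Real.sqrt_mul hr'.le]
      have := Real.sqrt_pos.2 hr'
      have := Real.sqrt_pos.2 (hρ k)
      field_simp
    rw [h4] at h3
    refine (mul_eq_zero.1 h3).resolve_left ?_
    have := Real.sqrt_pos.2 hr'
    positivity


end FanRD
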