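import Mathlib
import Pool.Agent.FanRD.Defs
import Pool.Agent.FanRD.C2
import Pool.Agent.FanRD.CR
import Pool.Agent.FanRD.D2
import Pool.Agent.FanRD.G
import Pool.Agent.FanRD.JJ
import Pool.Agent.FanRD.LI
set_option autoImplicit false
set_option maxHeartbeats 4000000
noncomputable section
open MeasureTheory

namespace FanRD

variable {l : ℕ}



section abs
variable {I : Type*} [Fintype I] [DecidableEq I]
end abs
theorem WW_cont (A : Fan l) : Continuous (WW A) := by
  unfold WW om; fun_prop

theorem BB_cont (A : Fan l) : Continuous (BB A) := by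
  unfold BB bb; fun_prop

theorem cl_BB {A : Fan l} {i m s : Fin (l + 5)} (hs : s ∈ cl A i m) (x : X l) :
    BB A x s = BB A x i := by
  classical
  unfold cl at hs
  rw [Finset.mem_filter] at hs
  have h : (A s).2.2 = (A i).2.2 := hs.2.1
  unfold BB bb
  simp only [h]

theorem cl_WW {A : Fan l} {i m s : Fin (l + 5)} (hs : s ∈ cl A i m) (x : X l) :
    ‖WW A x s - WW A x m‖ = ‖WW A x i - WW A x m‖ := by
  classical
  unfold cl at hs
  rw [Finset.mem_filter] at hs
  obtain ⟨_, _, e, he, h1, h2⟩ := hs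
  have : WW A x s - WW A x m = e * (WW A x i - WW A x m) := by
    unfold WW om
    linear_combination x.1 * h1 + x.2.1 * h2
  rw [this, norm_mul, he, one_mul]

theorem self_mem_cl (A : Fan l) (i m : Fin (l + 5)) : i ∈ cl A i m := by
  classical
  unfold cl
  rw [Finset.mem_filter]
  refine ⟨Finset.mem_univ _, rfl, 1, by simp, by simp, by simp⟩

theorem not_mem_cl {A : Fan l} {i m : Fin (l + 5)} (hS : ¬ SA A i m) : m ∉ cl A i m := by
  classical
  intro h
  unfold cl at h
  rw [Finset.mem_filter] at h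
  obtain ⟨_, _, e, he, h1, h2⟩ := h
  have he0 : e ≠ 0 := by
    intro h0; rw [h0] at he; simp at he
  rw [sub_self] at h1 h2
  have h1' := (mul_eq_zero.1 h1.symm).resolve_left he0
  have h2' := (mul_eq_zero.1 h2.symm).resolve_left he0
  exact hS ⟨sub_eq_zero.1 h1', sub_eq_zero.1 h2'⟩

theorem kap_swap {I : Type*} [Fintype I] [DecidableEq I] (lam : I → I → ℝ) (s m : I)
    (w : I → ℂ) (B : I → ℝ) (h : |B s - B m| < ‖w s - w m‖) :
    kap lam m s w B = - kap lam s m w B := by
  have hy : ∀ σ : ℝ, pt w B (cr (w s - w m) (B s - B m) σ) s =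
      pt w B (cr (w s - w m) (B s - B m) σ) m := by
    intro σ
    have := cr_re (w s - w m) (B s - B m) σ h
    rw [sub_mul, Complex.sub_re] at this
    unfold pt
    linarith
  have hc : ∀ σ : ℝ, cr (w m - w s) (B m - B s) σ = cr (w s - w m) (B s - B m) (-σ) := by
    intro σ
    rw [← neg_sub (w s), ← neg_sub (B s), cr_neg]
  unfold kap
  rw [hc, hc, neg_neg, JJ_antisymm lam s m _ (hy _), JJ_antisymm lam s m _ (hy _)]
  ring

/-- direction of change of `B` -/
def bet (A : Fan l) (v : Fin l → ℝ) : Fin (l + 5) → ℝ := fun q => ∑ k, (A q).2.2.1 k * v k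

theorem deriv_zero (A : Fan l) (lam : Fin (l + 5) → Fin (l + 5) → ℝ) (hK : InK A lam)
    (x : X l) (hx : FReg A x) (v : Fin l → ℝ) :
    ∑ i, ∑ m, (if |BB A x i - BB A x m| < ‖WW A x i - WW A x m‖ then
        kap lam i m (WW A x) (BB A x) * (bet A v i - bet A v m) /
          Real.sqrt (‖WW A x i - WW A x m‖ ^ 2 - (BB A x i - BB A x m) ^ 2) else 0) = 0 := by
  obtain ⟨C, hC⟩ := hK
  have h1 := deriv_TT (by simp) lam (WW A x) (BB A x) hx (bet A v)
  let xh : ℝ → X l := fun h => (x.1, x.2.1, x.2.2 + h • v)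
  have hxh : Continuous xh := by
    show Continuous fun h : ℝ => ((x.1, x.2.1, x.2.2 + h • v) : X l)
    fun_prop
  have hW : ∀ h, WW A (xh h) = WW A x := fun h => rfl
  have hB : ∀ h, BB A (xh h) = fun i => BB A x i + h * bet A v i := by
    intro h
    funext i
    show ∑ k, (A i).2.2.1 k * (x.2.2 + h • v) k + (A i).2.2.2 =
      (∑ k, (A i).2.2.1 k * x.2.2 k + (A i).2.2.2) + h * ∑ k, (A i).2.2.1 k * v k
    simp only [Pi.add_apply, Pi.smul_apply, smul_eq_mul, mul_add, Finset.sum_add_distrib]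
    rw [Finset.mul_sum]
    have : ∑ k, (A i).2.2.1 k * (h * v k) = ∑ k, h * ((A i).2.2.1 k * v k) :=
      Finset.sum_congr rfl fun k _ => by ring
    rw [this]; ring
  have hx0 : xh 0 = x := by
    show ((x.1, x.2.1, x.2.2 + (0 : ℝ) • v) : X l) = x
    simp
  have hev : ∀ᶠ h in nhds (0 : ℝ), TT lam (WW A x) (fun i => BB A x i + h * bet A v i) = C := by
    have h2 : Filter.Tendsto (fun h => (WW A (xh h), BB A (xh h))) (nhds 0)
        (nhds (WW A x, BB A x)) := by
      have := (((WW_cont A).comp hxh).prodMk ((BB_cont A).comp hxh)).tendsto (0 : ℝ)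
      simpa only [Function.comp, hx0] using this
    filter_upwards [h2.eventually (reg_open _ _ hx)] with h hh
    have h3 := hC (xh h) hh
    rwa [hW, hB] at h3
  have h2 : HasDerivAt (fun h : ℝ => TT lam (WW A x) (fun i => BB A x i + h * bet A v i)) 0 0 :=
    (hasDerivAt_const (0 : ℝ) C).congr_of_eventuallyEq hev
  have h3 := h1.unique h2
  linarith

theorem bet_ne (A : Fan l) (i m : Fin (l + 5)) (him : i ≠ m) (hm : Typ A m) :
    bet A (fun k => (A i).2.2.1 k - (A m).2.2.1 k) i -
      bet A (fun k => (A i).2.2.1 k - (A m).2.2.1 k) m ≠ 0 := by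
  classical
  intro h
  have h1 : ∑ k, ((A i).2.2.1 k - (A m).2.2.1 k) ^ 2 = 0 := by
    unfold bet at h
    rw [← Finset.sum_sub_distrib] at h
    rw [← h]
    exact Finset.sum_congr rfl fun k _ => by ring
  have h2 : ∀ k, (A i).2.2.1 k = (A m).2.2.1 k := by
    intro k
    have := (Finset.sum_eq_zero_iff_of_nonneg (fun k _ => sq_nonneg _)).1 h1 k (Finset.mem_univ k)
    exact sub_eq_zero.1 (pow_eq_zero_iff (two_ne_zero) |>.1 this)
  have h3 := hm (fun q => (if q = i then 1 else 0) - (if q = m then 1 else 0)) (by simp)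
    (by intro k; simp [sub_mul, h2 k]) (by
      refine le_trans (Finset.card_le_card (t := {i, m}) ?_) (le_trans (Finset.card_le_two) (by norm_num))
      intro q hq
      rw [Finset.mem_filter] at hq
      by_contra hc
      simp only [Finset.mem_insert, Finset.mem_singleton, not_or] at hc
      apply hq.2
      simp [hc.1, hc.2])
  simp [him.symm] at h3

/-- scaled point -/
def xu (y : X l) (u : ℝ) : X l := (((√u : ℝ) : ℂ) * y.1, ((√u : ℝ) : ℂ) * y.2.1, y.2.2)

theorem xu_cont (y : X l) : Continuous (xu y) := by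
  unfold xu; fun_prop

theorem xu_one (y : X l) : xu y 1 = y := by
  unfold xu; simp

theorem xu_WW (A : Fan l) (y : X l) (u : ℝ) (q : Fin (l + 5)) :
    WW A (xu y u) q = ((√u : ℝ) : ℂ) * WW A y q := by
  unfold WW om xu; ring

theorem xu_BB (A : Fan l) (y : X l) (u : ℝ) : BB A (xu y u) = BB A y := rfl

theorem xu_norm (A : Fan l) (y : X l) (u : ℝ) (hu : 0 ≤ u) (s r : Fin (l + 5)) :
    ‖WW A (xu y u) s - WW A (xu y u) r‖ ^ 2 = ‖WW A y s - WW A y r‖ ^ 2 * u := by
  rw [xu_WW, xu_WW, ← mul_sub, norm_mul, mul_pow, Complex.norm_real, Real.norm_eq_abs, sq_abs,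
    Real.sq_sqrt hu]
  ring

theorem tend_xu (A : Fan l) (y : X l) :
    Filter.Tendsto (fun u => (WW A (xu y u), BB A (xu y u))) (nhds 1)
      (nhds (WW A y, BB A y)) := by
  have := (((WW_cont A).comp (xu_cont y)).prodMk ((BB_cont A).comp (xu_cont y))).tendsto (1 : ℝ)
  simpa only [Function.comp, xu_one] using this

theorem pair_ev (A : Fan l) (lam : Fin (l + 5) → Fin (l + 5) → ℝ) (y : X l) (hy : FReg A y)
    (s r : Fin (l + 5)) : ∀ᶠ u in nhds (1 : ℝ),
    ((|BB A (xu y u) s - BB A (xu y u) r| < ‖WW A (xu y u) s - WW A (xu y u) r‖) ↔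
      (|BB A y s - BB A y r| < ‖WW A y s - WW A y r‖)) ∧
    ((|BB A y s - BB A y r| < ‖WW A y s - WW A y r‖) →
      kap lam s r (WW A (xu y u)) (BB A (xu y u)) = kap lam s r (WW A y) (BB A y)) := by
  rcases eq_or_ne s r with rfl | hsr
  · exact Filter.Eventually.of_forall fun u => by simp
  have hc : Continuous fun u => ‖WW A (xu y u) s - WW A (xu y u) r‖ := by
    have h1 := (continuous_apply s).comp ((WW_cont A).comp (xu_cont y))
    have h2 := (continuous_apply r).comp ((WW_cont A).comp (xu_cont y))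
    exact (h1.sub h2).norm
  rcases lt_or_gt_of_ne (hy.1 s r hsr) with h | h
  · have e1 : ∀ᶠ u in nhds (1 : ℝ), |BB A y s - BB A y r| <
        ‖WW A (xu y u) s - WW A (xu y u) r‖ := by
      refine hc.continuousAt.eventually_const_lt ?_
      show |BB A y s - BB A y r| < ‖WW A (xu y 1) s - WW A (xu y 1) r‖
      rw [xu_one]; exact h
    have e2 := (tend_xu A y).eventually (kap_const lam _ _ hy s r hsr h)
    filter_upwards [e1, e2] with u h1 h2
    exact ⟨⟨fun _ => h, fun _ => h1⟩, fun _ => h2⟩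
  · have e1 : ∀ᶠ u in nhds (1 : ℝ), ‖WW A (xu y u) s - WW A (xu y u) r‖ <
        |BB A y s - BB A y r| := by
      refine hc.continuousAt.eventually_lt_const ?_
      show ‖WW A (xu y 1) s - WW A (xu y 1) r‖ < |BB A y s - BB A y r|
      rw [xu_one]; exact h
    filter_upwards [e1] with u h1
    exact ⟨⟨fun h2 => absurd h2 (not_lt.2 h1.le), fun h2 => absurd h2 (not_lt.2 h.le)⟩,
      fun h2 => absurd h2 (not_lt.2 h.le)⟩

theorem li_use (A : Fan l) (lam : Fin (l + 5) → Fin (l + 5) → ℝ) (hK : InK A lam)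
    (y : X l) (hy : FReg A y) (v : Fin l → ℝ) (r : ℝ) :
    open Classical in
    ∑ k : Fin (l + 5) × Fin (l + 5),
      (if |BB A y k.1 - BB A y k.2| < ‖WW A y k.1 - WW A y k.2‖ ∧
        (BB A y k.1 - BB A y k.2) ^ 2 = r * ‖WW A y k.1 - WW A y k.2‖ ^ 2 then
        kap lam k.1 k.2 (WW A y) (BB A y) * (bet A v k.1 - bet A v k.2) /
          ‖WW A y k.1 - WW A y k.2‖ else 0) = 0 := by
  classical
  set P : Fin (l + 5) × Fin (l + 5) → Prop :=
    fun k => |BB A y k.1 - BB A y k.2| < ‖WW A y k.1 - WW A y k.2‖ with hP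
  have hLI := LI (K := Fin (l + 5) × Fin (l + 5))
    (fun k => if P k then kap lam k.1 k.2 (WW A y) (BB A y) * (bet A v k.1 - bet A v k.2) else 0)
    (fun k => if P k then ‖WW A y k.1 - WW A y k.2‖ ^ 2 else 1)
    (fun k => if P k then (BB A y k.1 - BB A y k.2) ^ 2 else 0)
    (by
      intro k
      show 0 < (if P k then ‖WW A y k.1 - WW A y k.2‖ ^ 2 else 1)
      split_ifs with h
      · have : 0 < ‖WW A y k.1 - WW A y k.2‖ := lt_of_le_of_lt (abs_nonneg _) h
        positivity
      · exact one_pos)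
    (by
      intro k
      show (if P k then (BB A y k.1 - BB A y k.2) ^ 2 else 0) <
        (if P k then ‖WW A y k.1 - WW A y k.2‖ ^ 2 else 1)
      split_ifs with h
      · rw [← sq_abs (BB A y k.1 - BB A y k.2)]
        exact pow_lt_pow_left₀ h (abs_nonneg _) two_ne_zero
      · exact one_pos)
    (by
      have e1 : ∀ᶠ u in nhds (1 : ℝ), FReg A (xu y u) :=
        (tend_xu A y).eventually (reg_open _ _ hy)
      have e2 : ∀ᶠ u in nhds (1 : ℝ), ∀ k : Fin (l + 5) × Fin (l + 5),
        ((|BB A (xu y u) k.1 - BB A (xu y u) k.2| < ‖WW A (xu y u) k.1 - WW A (xu y u) k.2‖) ↔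
          (|BB A y k.1 - BB A y k.2| < ‖WW A y k.1 - WW A y k.2‖)) ∧
        ((|BB A y k.1 - BB A y k.2| < ‖WW A y k.1 - WW A y k.2‖) →
          kap lam k.1 k.2 (WW A (xu y u)) (BB A (xu y u)) = kap lam k.1 k.2 (WW A y) (BB A y)) := by
        rw [Filter.eventually_all]
        intro k
        exact pair_ev A lam y hy k.1 k.2
      have e3 : ∀ᶠ u in nhds (1 : ℝ), (0 : ℝ) < u := lt_mem_nhds one_pos
      filter_upwards [e1, e2, e3] with u h1 h2 h3
      have hd := deriv_zero A lam hK (xu y u) h1 v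
      rw [← Fintype.sum_prod_type'] at hd
      refine (Finset.sum_congr rfl fun k _ => ?_).trans hd
      by_cases hk : P k
      · rw [if_pos hk, if_pos hk, if_pos hk, if_pos ((h2 k).1.2 hk), (h2 k).2 hk,
          xu_norm A y u h3.le, xu_BB]
      · rw [if_neg hk, if_neg hk, if_neg hk, if_neg (fun h => hk ((h2 k).1.1 h))]
        simp) r
  rw [Finset.sum_filter] at hLI
  refine (Finset.sum_congr rfl fun k _ => ?_).trans hLI
  by_cases hk : P k
  · have hk' : |BB A y k.1 - BB A y k.2| < ‖WW A y k.1 - WW A y k.2‖ := hk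
    simp only [hk, hk', if_true, true_and]
    rw [Real.sqrt_sq (norm_nonneg _)]
  · have hk' : ¬ (|BB A y k.1 - BB A y k.2| < ‖WW A y k.1 - WW A y k.2‖) := hk
    simp [hk, hk']

/-- TARGET: pair balance -/
theorem pair_balance (A : Fan l) (lam : Fin (l + 5) → Fin (l + 5) → ℝ) (hK : InK A lam)
    (i m : Fin (l + 5)) (him : i ≠ m) (hm : Typ A m) (hS : ¬ SA A i m) (x : X l) (hx : FReg A x)
    (hlt : |BB A x i - BB A x m| < ‖WW A x i - WW A x m‖) :
    ∑ s ∈ cl A i m, kap lam s m (WW A x) (BB A x) = 0 := by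
  classical
  have hmcl := not_mem_cl hS
  have hne : ∀ s ∈ cl A i m, s ≠ m := fun s hs h => hmcl (h ▸ hs)
  -- the open set
  have ht : Filter.Tendsto (fun z => (WW A z, BB A z)) (nhds x) (nhds (WW A x, BB A x)) :=
    ((WW_cont A).prodMk (BB_cont A)).tendsto x
  have hev : ∀ᶠ z in nhds x, FReg A z ∧ |BB A z i - BB A z m| < ‖WW A z i - WW A z m‖ ∧
      ∀ s ∈ cl A i m, kap lam s m (WW A z) (BB A z) = kap lam s m (WW A x) (BB A x) := by
    refine (ht.eventually (reg_open _ _ hx)).and (Filter.Eventually.and ?_ ?_)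
    · have hc1 : Continuous fun z => |BB A z i - BB A z m| :=
        (((continuous_apply i).comp (BB_cont A)).sub ((continuous_apply m).comp (BB_cont A))).abs
      have hc2 : Continuous fun z => ‖WW A z i - WW A z m‖ :=
        (((continuous_apply i).comp (WW_cont A)).sub ((continuous_apply m).comp (WW_cont A))).norm
      exact (isOpen_lt hc1 hc2).mem_nhds hlt
    · rw [Filter.eventually_all_finset]
      intro s hs
      refine ht.eventually (kap_const lam _ _ hx s m (hne s hs) ?_)
      rw [cl_BB hs, cl_WW hs]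
      exact hlt
  obtain ⟨U, hU, hUo, hxU⟩ := eventually_nhds_iff.1 hev
  obtain ⟨y, hyU, hratio⟩ := gen_class A i m him hm hS U hUo ⟨x, hxU⟩
  obtain ⟨hy, hylt, hykap⟩ := hU y hyU
  rw [← Finset.sum_congr rfl hykap]
  set v : Fin l → ℝ := fun k => (A i).2.2.1 k - (A m).2.2.1 k with hv
  have hbet : bet A v i - bet A v m ≠ 0 := bet_ne A i m him hm
  have hN : 0 < ‖WW A y i - WW A y m‖ := lt_of_le_of_lt (abs_nonneg _) hylt
  have hmain := li_use A lam hK y hy v
    ((BB A y i - BB A y m) ^ 2 / ‖WW A y i - WW A y m‖ ^ 2)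
  have hbs : ∀ s ∈ cl A i m, bet A v s = bet A v i := by
    intro s hs
    unfold cl at hs
    rw [Finset.mem_filter] at hs
    have h : (A s).2.2 = (A i).2.2 := hs.2.1
    unfold bet
    rw [h]
  set T : Fin (l + 5) → ℝ := fun s => kap lam s m (WW A y) (BB A y) *
    (bet A v i - bet A v m) / ‖WW A y i - WW A y m‖ with hT
  have hterm : ∀ s r : Fin (l + 5),
      (if |BB A y s - BB A y r| < ‖WW A y s - WW A y r‖ ∧
        (BB A y s - BB A y r) ^ 2 = (BB A y i - BB A y m) ^ 2 / ‖WW A y i - WW A y m‖ ^ 2 *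
          ‖WW A y s - WW A y r‖ ^ 2 then
        kap lam s r (WW A y) (BB A y) * (bet A v s - bet A v r) /
          ‖WW A y s - WW A y r‖ else 0) =
      (if r = m then (if s ∈ cl A i m then T s else 0) else 0) +
      (if s = m then (if r ∈ cl A i m then T r else 0) else 0) := by
    intro s r
    by_cases h1 : r = m ∧ s ∈ cl A i m
    · obtain ⟨rfl, hs⟩ := h1
      rw [if_pos rfl, if_pos hs, if_neg (hne s hs), add_zero, if_pos]
      · rw [hbs s hs, cl_WW hs]
      · rw [cl_BB hs, cl_WW hs]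
        refine ⟨hylt, ?_⟩
        field_simp
    by_cases h2 : s = m ∧ r ∈ cl A i m
    · obtain ⟨rfl, hr⟩ := h2
      rw [if_neg (hne r hr), if_pos rfl, if_pos hr, zero_add, if_pos]
      · rw [kap_swap lam r s (WW A y) (BB A y) (by rw [cl_BB hr, cl_WW hr]; exact hylt), hbs r hr,
          norm_sub_rev, cl_WW hr]
        rw [hT]
        simp only
        ring
      · rw [norm_sub_rev (WW A y s), abs_sub_comm, cl_BB hr, cl_WW hr]
        refine ⟨hylt, ?_⟩
        field_simp
        ring
    · rw [if_neg]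
      · have e1 : (if r = m then (if s ∈ cl A i m then T s else 0) else 0) = 0 := by
          split_ifs with ha hb
          · exact absurd ⟨ha, hb⟩ h1
          · rfl
          · rfl
        have e2 : (if s = m then (if r ∈ cl A i m then T r else 0) else 0) = 0 := by
          split_ifs with ha hb
          · exact absurd ⟨ha, hb⟩ h2
          · rfl
          · rfl
        rw [e1, e2, add_zero]
      · rintro ⟨ha, hb⟩
        have hsr : s ≠ r := by
          rintro rfl
          simp at ha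
        have hSA : ¬ SA A s r := by
          intro hsa
          have : WW A y s = WW A y r := by
            unfold WW om
            rw [hsa.1, hsa.2]
          rw [this, sub_self, norm_zero] at ha
          exact absurd ha (not_lt.2 (abs_nonneg _))
        have hc := hratio s r hsr hSA (by
          rw [hb]
          field_simp)
        rcases hc with ⟨hc1, hc2⟩ | ⟨hc1, hc2⟩
        · exact h1 ⟨hc1, hc2⟩
        · exact h2 ⟨hc1, hc2⟩
  rw [Fintype.sum_prod_type] at hmain
  simp only [hterm] at hmain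
  simp only [Finset.sum_add_distrib] at hmain
  have s1 : ∑ s, ∑ r, (if r = m then (if s ∈ cl A i m then T s else 0) else 0) =
      ∑ s ∈ cl A i m, T s := by
    simp
  have s2 : ∑ s, ∑ r, (if s = m then (if r ∈ cl A i m then T r else 0) else 0) =
      ∑ s ∈ cl A i m, T s := by
    rw [Finset.sum_comm]
    simp
  rw [s1, s2] at hmain
  have s3 : ∑ s ∈ cl A i m, T s = (∑ s ∈ cl A i m, kap lam s m (WW A y) (BB A y)) *
      ((bet A v i - bet A v m) / ‖WW A y i - WW A y m‖) := by
    rw [Finset.sum_mul]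
    exact Finset.sum_congr rfl fun s _ => by rw [hT]; ring
  rw [s3] at hmain
  have h0 : (bet A v i - bet A v m) / ‖WW A y i - WW A y m‖ ≠ 0 := div_ne_zero hbet hN.ne'
  have h4 : (∑ s ∈ cl A i m, kap lam s m (WW A y) (BB A y)) *
      ((bet A v i - bet A v m) / ‖WW A y i - WW A y m‖) = 0 := by linarith
  exact (mul_eq_zero.1 h4).resolve_right h0

end FanRD
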