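import Mathlib
import Pool.Agent.FanRD.Defs
import Pool.Agent.FanRD.ND
set_option autoImplicit false
set_option maxHeartbeats 4000000
noncomputable section
open MeasureTheory

namespace FanRD

variable {l : ℕ}



/-- affine function on the `v` part -/
def q5bv (a : Co l) (v : Fin l → ℝ) : ℝ := ∑ k, a.2.2.1 k * v k + a.2.2.2

theorem q5_dual {a1 a2 c1 c2 : ℂ} (ha : ¬ (a1 = 0 ∧ a2 = 0))
    (hc : ¬ ∃ η : ℂ, c1 = η * a1 ∧ c2 = η * a2) : a1 * c2 - a2 * c1 ≠ 0 := by
  intro hD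
  apply hc
  by_cases h1 : a1 = 0
  · have h2 : a2 ≠ 0 := fun h => ha ⟨h1, h⟩
    rw [h1] at hD
    have h3 : c1 = 0 := by
      have : a2 * c1 = 0 := by linear_combination -hD
      exact (mul_eq_zero.1 this).resolve_left h2
    exact ⟨c2 / a2, by rw [h3, h1]; ring, by field_simp⟩
  · refine ⟨c1 / a1, by field_simp, ?_⟩
    field_simp
    linear_combination hD

/-- the test points -/
theorem q5_points (A : Fan l) (i m p : Fin (l + 5)) (hS : ¬ SA A i m)
    (hp : ¬ ∃ η : ℂ, (A p).1 - (A m).1 = η * ((A i).1 - (A m).1) ∧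
      (A p).2.1 - (A m).2.1 = η * ((A i).2.1 - (A m).2.1)) :
    ∃ (ξ1 ξ2 η1 η2 : ℂ), ∀ (v : Fin l → ℝ) (h h0 : ℝ), ∃ x : X l, x.2.2 = v ∧
      ev (A i) x = ev (A m) x ∧ ev (A p) x = ev (A m) x ∧
      WW A x i - WW A x m = (((q5bv (A m) v - q5bv (A i) v : ℝ) : ℂ) + h * Complex.I) ∧
      (∀ s u : Fin (l + 5), WW A x s - WW A x u =
        (((A s).1 - (A u).1) * ξ1 + ((A s).2.1 - (A u).2.1) * ξ2) *
          (((q5bv (A m) v - q5bv (A i) v : ℝ) : ℂ) + h * Complex.I) +
        (((A s).1 - (A u).1) * η1 + ((A s).2.1 - (A u).2.1) * η2) *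
          (((q5bv (A m) v - q5bv (A p) v : ℝ) : ℂ) + h0 * Complex.I)) ∧
      (∀ s u : Fin (l + 5),
        (((A s).1 - (A u).1) * η1 + ((A s).2.1 - (A u).2.1) * η2) = 0 →
        (A s).1 - (A u).1 = (((A s).1 - (A u).1) * ξ1 + ((A s).2.1 - (A u).2.1) * ξ2) *
          ((A i).1 - (A m).1) ∧
        (A s).2.1 - (A u).2.1 = (((A s).1 - (A u).1) * ξ1 + ((A s).2.1 - (A u).2.1) * ξ2) *
          ((A i).2.1 - (A m).2.1)) := by
  have ha : ¬ ((A i).1 - (A m).1 = 0 ∧ (A i).2.1 - (A m).2.1 = 0) := fun h =>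
    hS ⟨sub_eq_zero.1 h.1, sub_eq_zero.1 h.2⟩
  have hD := q5_dual ha hp
  set a1 := (A i).1 - (A m).1 with ha1
  set a2 := (A i).2.1 - (A m).2.1 with ha2
  set c1 := (A p).1 - (A m).1 with hc1
  set c2 := (A p).2.1 - (A m).2.1 with hc2
  set D := a1 * c2 - a2 * c1 with hDd
  refine ⟨c2 / D, -c1 / D, -a2 / D, a1 / D, fun v h h0 => ?_⟩
  set ω : ℂ := (((q5bv (A m) v - q5bv (A i) v : ℝ) : ℂ) + h * Complex.I) with hω
  set ω0 : ℂ := (((q5bv (A m) v - q5bv (A p) v : ℝ) : ℂ) + h0 * Complex.I) with hω0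
  set x : X l := (ω * (c2 / D) + ω0 * (-a2 / D), ω * (-c1 / D) + ω0 * (a1 / D), v) with hx
  have hW : ∀ s u : Fin (l + 5), WW A x s - WW A x u =
      (((A s).1 - (A u).1) * (c2 / D) + ((A s).2.1 - (A u).2.1) * (-c1 / D)) * ω +
      (((A s).1 - (A u).1) * (-a2 / D) + ((A s).2.1 - (A u).2.1) * (a1 / D)) * ω0 := by
    intro s u
    simp only [WW, om, hx]
    ring
  have hWi : WW A x i - WW A x m = ω := by
    rw [hW, ← ha1, ← ha2]
    have e1 : a1 * (c2 / D) + a2 * (-c1 / D) = 1 := by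
      have e3 : a1 * (c2 / D) + a2 * (-c1 / D) = (a1 * c2 - a2 * c1) / D := by ring
      rw [e3, ← hDd, div_self hD]
    have e2 : a1 * (-a2 / D) + a2 * (a1 / D) = 0 := by ring
    rw [e1, e2]
    ring
  have hWp : WW A x p - WW A x m = ω0 := by
    rw [hW, ← hc1, ← hc2]
    have e1 : c1 * (c2 / D) + c2 * (-c1 / D) = 0 := by ring
    have e2 : c1 * (-a2 / D) + c2 * (a1 / D) = 1 := by
      have e3 : c1 * (-a2 / D) + c2 * (a1 / D) = (a1 * c2 - a2 * c1) / D := by ring
      rw [e3, ← hDd, div_self hD]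
    rw [e1, e2]
    ring
  have hev : ∀ j, ev (A j) x = (WW A x j).re + q5bv (A j) v := by
    intro j
    simp only [ev, WW, bb, q5bv, hx]
    ring
  refine ⟨x, rfl, ?_, ?_, hWi, hW, ?_⟩
  · rw [hev, hev]
    have := congrArg Complex.re hWi
    rw [Complex.sub_re, hω] at this
    simp at this
    linarith
  · rw [hev, hev]
    have := congrArg Complex.re hWp
    rw [Complex.sub_re, hω0] at this
    simp at this
    linarith
  · intro s u h1
    set d1 := (A s).1 - (A u).1 with hd1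
    set d2 := (A s).2.1 - (A u).2.1 with hd2
    have h2 : -d1 * a2 + d2 * a1 = 0 := by
      have h3 : d1 * (-a2 / D) + d2 * (a1 / D) = (-d1 * a2 + d2 * a1) / D := by ring
      rw [h3] at h1
      exact (div_eq_zero_iff.1 h1).resolve_right hD
    constructor
    · have h4 : (d1 * (c2 / D) + d2 * (-c1 / D)) * a1 = (d1 * c2 * a1 - d2 * c1 * a1) / D := by ring
      rw [h4, eq_div_iff hD, hDd]
      linear_combination c1 * h2
    · have h4 : (d1 * (c2 / D) + d2 * (-c1 / D)) * a2 = (d1 * c2 * a2 - d2 * c1 * a2) / D := by ring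
      rw [h4, eq_div_iff hD, hDd]
      linear_combination c2 * h2

/-- TARGET: at the mirror time of the pair `(i,m)` no other pair ties identically on the
codimension 2 space where `i, m, p` tie -/
theorem Q_ne (A : Fan l) (hA : ND A) (i m p : Fin (l + 5)) (him : i ≠ m)
    (hS : ¬ SA A i m) (hB : ¬ SB A i m)
    (hp : ¬ ∃ η : ℂ, (A p).1 - (A m).1 = η * ((A i).1 - (A m).1) ∧
      (A p).2.1 - (A m).2.1 = η * ((A i).2.1 - (A m).2.1))
    (s u : Fin (l + 5)) (hsu : s ≠ u) (hne : ¬ (s = i ∧ u = m)) (hne' : ¬ (s = m ∧ u = i)) :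
    ∃ x : X l, ev (A i) x = ev (A m) x ∧ ev (A p) x = ev (A m) x ∧
      ‖WW A x i - WW A x m‖ ^ 2 * (BB A x s - BB A x u) +
        ((WW A x s - WW A x u) * (starRingEnd ℂ (WW A x i - WW A x m)) ^ 2).re ≠ 0 := by
  obtain ⟨ξ1, ξ2, η1, η2, hpt⟩ := q5_points A i m p hS hp
  by_contra hcon
  push Not at hcon
  set κ : ℂ := ((A s).1 - (A u).1) * ξ1 + ((A s).2.1 - (A u).2.1) * ξ2 with hκ
  set μ : ℂ := ((A s).1 - (A u).1) * η1 + ((A s).2.1 - (A u).2.1) * η2 with hμ
  -- the polynomial identity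
  have hQ : ∀ (v : Fin l → ℝ) (h h0 : ℝ),
      ((q5bv (A m) v - q5bv (A i) v) ^ 2 + h ^ 2) * (q5bv (A s) v - q5bv (A u) v) +
      ((κ * (((q5bv (A m) v - q5bv (A i) v : ℝ) : ℂ) + h * Complex.I) +
        μ * (((q5bv (A m) v - q5bv (A p) v : ℝ) : ℂ) + h0 * Complex.I)) *
        (((q5bv (A m) v - q5bv (A i) v : ℝ) : ℂ) - h * Complex.I) ^ 2).re = 0 := by
    intro v h h0
    obtain ⟨x, hxv, h1, h2, h3, h4, -⟩ := hpt v h h0
    have h5 := hcon x h1 h2
    rw [h4 s u, h3] at h5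
    have e1 : ‖(((q5bv (A m) v - q5bv (A i) v : ℝ) : ℂ) + h * Complex.I)‖ ^ 2 =
        (q5bv (A m) v - q5bv (A i) v) ^ 2 + h ^ 2 := by
      rw [← Complex.normSq_eq_norm_sq, Complex.normSq_add_mul_I]
    have e2 : BB A x s - BB A x u = q5bv (A s) v - q5bv (A u) v := by
      simp only [BB, bb, q5bv, hxv]
    have e3 : (starRingEnd ℂ) (((q5bv (A m) v - q5bv (A i) v : ℝ) : ℂ) + h * Complex.I) =
        ((q5bv (A m) v - q5bv (A i) v : ℝ) : ℂ) - h * Complex.I := by
      rw [map_add, map_mul, Complex.conj_ofReal, Complex.conj_ofReal, Complex.conj_I]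
      ring
    rw [e1, e2, e3] at h5
    exact h5
  -- a vector with nonzero `b` part
  obtain ⟨v0, hv0⟩ : ∃ v : Fin l → ℝ, q5bv (A m) v - q5bv (A i) v ≠ 0 := by
    by_contra hc
    push Not at hc
    apply hB
    have h0 := hc 0
    simp only [q5bv, Pi.zero_apply, mul_zero, Finset.sum_const_zero, zero_add] at h0
    refine Prod.ext ?_ (by linarith)
    funext k
    have h1 := hc (Pi.single k 1)
    simp only [q5bv, Pi.single_apply, mul_ite, mul_one, mul_zero, Finset.sum_ite_eq',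
      Finset.mem_univ, if_true] at h1
    linarith
  have hμ0 : μ = 0 := by
    have e : ∀ h : ℝ, -μ.im * ((q5bv (A m) v0 - q5bv (A i) v0) ^ 2 - h ^ 2) +
        2 * (q5bv (A m) v0 - q5bv (A i) v0) * h * μ.re = 0 := by
      intro h
      have h1 := hQ v0 h 1
      have h2 := hQ v0 h 0
      simp only [pow_two, Complex.mul_re, Complex.mul_im, Complex.add_re, Complex.add_im,
        Complex.sub_re, Complex.sub_im, Complex.ofReal_re, Complex.ofReal_im, Complex.I_re,
        Complex.I_im] at h1 h2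
      linear_combination h1 - h2
    have h0 := e 0
    have h1 := e 1
    have him0 : μ.im = 0 := by
      have : μ.im * (q5bv (A m) v0 - q5bv (A i) v0) ^ 2 = 0 := by linear_combination -h0
      exact (mul_eq_zero.1 this).resolve_right (pow_ne_zero 2 hv0)
    have hre0 : μ.re = 0 := by
      rw [him0] at h1
      have : μ.re * (q5bv (A m) v0 - q5bv (A i) v0) = 0 := by linear_combination h1 / 2
      exact (mul_eq_zero.1 this).resolve_right hv0
    exact Complex.ext hre0 him0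
  -- the second step
  have hk : ∀ (v : Fin l → ℝ) (h : ℝ), h ≠ 0 → (q5bv (A s) v - q5bv (A u) v) +
      (κ.re * (q5bv (A m) v - q5bv (A i) v) + κ.im * h) = 0 := by
    intro v h hh
    have h1 := hQ v h 0
    rw [hμ0] at h1
    have hpos : 0 < (q5bv (A m) v - q5bv (A i) v) ^ 2 + h ^ 2 := by positivity
    have h2 : ((q5bv (A m) v - q5bv (A i) v) ^ 2 + h ^ 2) * ((q5bv (A s) v - q5bv (A u) v) +
      (κ.re * (q5bv (A m) v - q5bv (A i) v) + κ.im * h)) = 0 := by
      simp only [pow_two, Complex.mul_re, Complex.mul_im, Complex.add_re, Complex.add_im,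
        Complex.sub_re, Complex.sub_im, Complex.ofReal_re, Complex.ofReal_im, Complex.I_re,
        Complex.I_im, Complex.zero_re, Complex.zero_im] at h1
      linear_combination h1
    exact (mul_eq_zero.1 h2).resolve_left hpos.ne'
  have hκim : κ.im = 0 := by
    have h1 := hk v0 1 one_ne_zero
    have h2 := hk v0 2 two_ne_zero
    linear_combination h2 - h1
  have hκ2 : ∀ v, q5bv (A s) v - q5bv (A u) v = κ.re * (q5bv (A i) v - q5bv (A m) v) := by
    intro v
    have h1 := hk v 1 one_ne_zero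
    rw [hκim] at h1
    linear_combination h1
  have hκc : ((κ.re : ℝ) : ℂ) = κ := Complex.ext rfl (by simp [hκim])
  obtain ⟨x0, -, -, -, -, -, h6⟩ := hpt 0 0 0
  obtain ⟨h7, h8⟩ := h6 s u hμ0
  rw [← hκ, ← hκc] at h7 h8
  -- the dependency
  obtain ⟨ν, hν⟩ : ∃ ν : Fin (l + 5) → ℝ, ν = fun j => (if j = s then (1 : ℝ) else 0) -
      (if j = u then 1 else 0) - κ.re * ((if j = i then 1 else 0) - (if j = m then 1 else 0)) :=
    ⟨_, rfl⟩
  have hsumR : ∀ g : Fin (l + 5) → ℝ, ∑ j, ν j * g j = (g s - g u) - κ.re * (g i - g m) := by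
    intro g
    rw [hν]
    simp only [sub_mul, mul_sub, Finset.sum_sub_distrib, ite_mul, one_mul, zero_mul, mul_ite,
      mul_one, mul_zero, Finset.sum_ite_eq', Finset.mem_univ, if_true]
  have hsumC : ∀ g : Fin (l + 5) → ℂ, ∑ j, (ν j : ℂ) * g j =
      (g s - g u) - (κ.re : ℂ) * (g i - g m) := by
    intro g
    rw [hν]
    push_cast
    simp only [apply_ite Complex.ofReal, Complex.ofReal_one, Complex.ofReal_zero, sub_mul, mul_sub, Finset.sum_sub_distrib, ite_mul, one_mul, zero_mul, mul_ite,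
      mul_one, mul_zero, Finset.sum_ite_eq', Finset.mem_univ, if_true]
  have hν0 : ν = 0 := by
    refine nd_indep A hA ν ?_ ?_ ?_ ?_
    · have := hsumR (fun _ => 1)
      simpa using this
    · rw [hsumC (fun j => (A j).1), h7]
      ring
    · rw [hsumC (fun j => (A j).2.1), h8]
      ring
    · intro k
      rw [hsumR (fun j => (A j).2.2.1 k)]
      have h0 := hκ2 0
      have h1 := hκ2 (Pi.single k 1)
      simp only [q5bv, Pi.zero_apply, mul_zero, Finset.sum_const_zero, zero_add] at h0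
      simp only [q5bv, Pi.single_apply, mul_ite, mul_one, mul_zero, Finset.sum_ite_eq',
        Finset.mem_univ, if_true] at h1
      linear_combination h1 - h0
  have hs0 := congrFun hν0 s
  have hu0 := congrFun hν0 u
  rw [hν] at hs0 hu0
  simp only [if_true, if_neg hsu, if_neg hsu.symm, Pi.zero_apply] at hs0 hu0
  by_cases hsi : s = i
  · have hum : u ≠ m := fun h => hne ⟨hsi, h⟩
    have hui : u ≠ i := fun h => hsu (hsi.trans h.symm)
    simp [hum, hui] at hu0
  · by_cases hsm : s = m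
    · have hui : u ≠ i := fun h => hne' ⟨hsm, h⟩
      have hum : u ≠ m := fun h => hsu (hsm.trans h.symm)
      simp [hum, hui] at hu0
    · simp [hsi, hsm] at hs0

/-- TARGET 2 -/
theorem Im_ne (A : Fan l) (hA : ND A) (i m p : Fin (l + 5))
    (hS : ¬ SA A i m)
    (hp : ¬ ∃ η : ℂ, (A p).1 - (A m).1 = η * ((A i).1 - (A m).1) ∧
      (A p).2.1 - (A m).2.1 = η * ((A i).2.1 - (A m).2.1)) :
    ∃ x : X l, ev (A i) x = ev (A m) x ∧ ev (A p) x = ev (A m) x ∧ (WW A x i - WW A x m).im ≠ 0 := by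
  obtain ⟨ξ1, ξ2, η1, η2, hpt⟩ := q5_points A i m p hS hp
  obtain ⟨x, -, h1, h2, h3, -, -⟩ := hpt 0 1 0
  refine ⟨x, h1, h2, ?_⟩
  rw [h3]
  simp

end FanRD
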