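import Mathlib
import Pool.Agent.FanRD.Defs
import Pool.Agent.FanRD.GN
import Pool.Agent.FanRD.ND
import Pool.Agent.FanRD.Q
set_option autoImplicit false
set_option maxHeartbeats 4000000
noncomputable section
open MeasureTheory

namespace FanRD

variable {l : ℕ}



/-- identify the coordinates `m`, `p` with `i` -/
def piL (i m p : Fin (l + 5)) : (Fin (l + 5) → ℝ) →ₗ[ℝ] (Fin (l + 5) → ℝ) where
  toFun y := fun q => if q = m ∨ q = p then y i else y q
  map_add' y z := by
    funext q
    by_cases h : q = m ∨ q = p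
    · simp [h]
    · simp [h]
  map_smul' c y := by
    funext q
    by_cases h : q = m ∨ q = p
    · simp [h]
    · simp [h]

theorem piL_apply (i m p : Fin (l + 5)) (y : Fin (l + 5) → ℝ) (q : Fin (l + 5)) :
    piL i m p y q = if q = m ∨ q = p then y i else y q := rfl

theorem WW_contDiff_base (A : Fan l) {E : Type*} [NormedAddCommGroup E] [NormedSpace ℝ E] (g : E → X l)
    (hg : ContDiff ℝ ⊤ g) (s : Fin (l + 5)) : ContDiff ℝ ⊤ (fun y => WW A (g y) s) := by
  unfold WW om
  have h1 : ContDiff ℝ ⊤ (fun y => (g y).1) := hg.fst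
  have h2 : ContDiff ℝ ⊤ (fun y => (g y).2.1) := hg.snd.fst
  exact (contDiff_const.mul h1).add (contDiff_const.mul h2)

theorem BB_contDiff_base (A : Fan l) {E : Type*} [NormedAddCommGroup E] [NormedSpace ℝ E] (g : E → X l)
    (hg : ContDiff ℝ ⊤ g) (s : Fin (l + 5)) : ContDiff ℝ ⊤ (fun y => BB A (g y) s) := by
  unfold BB bb
  have h1 : ContDiff ℝ ⊤ (fun y => (g y).2.2) := hg.snd.snd
  have h2 : ∀ k, ContDiff ℝ ⊤ (fun y => (g y).2.2 k) := fun k => (contDiff_pi.1 h1) k
  exact (ContDiff.sum (fun k _ => contDiff_const.mul (h2 k))).add contDiff_const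

/-- TARGET: a generic point of the face where i, m, p tie at the top and j is at the bottom -/
theorem exists_base (A : Fan l) (hA : ND A) (i m p j : Fin (l + 5)) (him : i ≠ m) (hpi : p ≠ i)
    (hpm : p ≠ m) (hji : j ≠ i) (hjm : j ≠ m) (hjp : j ≠ p)
    (hS : ¬ SA A i m) (hB : ¬ SB A i m)
    (hp : ¬ ∃ η : ℂ, (A p).1 - (A m).1 = η * ((A i).1 - (A m).1) ∧
      (A p).2.1 - (A m).2.1 = η * ((A i).2.1 - (A m).2.1)) :
    ∃ x : X l, ev (A i) x = ev (A m) x ∧ ev (A p) x = ev (A m) x ∧
      (∀ q, q ≠ i → q ≠ m → q ≠ p → ev (A q) x < ev (A m) x) ∧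
      (∀ q, q ≠ j → ev (A j) x < ev (A q) x) ∧
      (WW A x i - WW A x m).im ≠ 0 ∧
      ∀ s u, s ≠ u → ¬ (s = i ∧ u = m) → ¬ (s = m ∧ u = i) →
        pt (WW A x) (BB A x) (starRingEnd ℂ (WW A x i - WW A x m) / (WW A x i - WW A x m)) s ≠
        pt (WW A x) (BB A x) (starRingEnd ℂ (WW A x i - WW A x m) / (WW A x i - WW A x m)) u := by
  classical
  obtain ⟨x0, L, hL⟩ := nd_param A hA
  let M : (Fin (l + 5) → ℝ) →L[ℝ] X l := (L ∘ₗ piL i m p).toContinuousLinearMap
  let g : (Fin (l + 5) → ℝ) → X l := fun y => x0 + M y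
  have hgc : ContDiff ℝ ⊤ g := contDiff_const.add M.contDiff
  have hgv : ∀ y, g y = x0 + L (piL i m p y) := fun y => rfl
  have hdiff : ∀ y q r, ev (A q) (g y) - ev (A r) (g y) = piL i m p y q - piL i m p y r := by
    intro y q r
    have h1 := hL (piL i m p y) q
    have h2 := hL (piL i m p y) r
    rw [← hgv] at h1 h2
    linarith
  have hwit : ∀ x : X l, ev (A i) x = ev (A m) x → ev (A p) x = ev (A m) x → ∃ y, g y = x := by
    intro x h1 h2
    refine ⟨fun q => ev (A q) x - ev (A 0) x, ?_⟩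
    apply nd_inj A hA
    intro q
    rw [hdiff]
    have hpi' : ∀ q, piL i m p (fun q => ev (A q) x - ev (A 0) x) q = ev (A q) x - ev (A 0) x := by
      intro q
      rw [piL_apply]
      split_ifs with h
      · rcases h with rfl | rfl
        · rw [h1]
        · rw [h1, h2]
      · rfl
    rw [hpi', hpi']
    ring
  -- the functions
  let P : Fin (l + 5) × Fin (l + 5) → Prop := fun z => z.1 ≠ z.2 ∧ ¬ (z.1 = i ∧ z.2 = m) ∧ ¬ (z.1 = m ∧ z.2 = i)
  let Q : Fin (l + 5) → Fin (l + 5) → X l → ℝ := fun s u x =>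
    ‖WW A x i - WW A x m‖ ^ 2 * (BB A x s - BB A x u) +
        ((WW A x s - WW A x u) * (starRingEnd ℂ (WW A x i - WW A x m)) ^ 2).re
  let f : Option (Fin (l + 5) × Fin (l + 5)) → (Fin (l + 5) → ℝ) → ℝ := fun k y =>
    match k with
    | none => (WW A (g y) i - WW A (g y) m).im
    | some z => if P z then Q z.1 z.2 (g y) else 1
  let U : Set (Fin (l + 5) → ℝ) := {y | (∀ q, q ≠ i → q ≠ m → q ≠ p → y q < y i) ∧ ∀ q, q ≠ j → y j < y q}
  have hW : ∀ s, ContDiff ℝ ⊤ (fun y => WW A (g y) s) := WW_contDiff_base A g hgc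
  have hBB : ∀ s, ContDiff ℝ ⊤ (fun y => BB A (g y) s) := BB_contDiff_base A g hgc
  have hom : ContDiff ℝ ⊤ (fun y => WW A (g y) i - WW A (g y) m) := (hW i).sub (hW m)
  have hf : ∀ k, AnalyticOnNhd ℝ (f k) Set.univ := by
    intro k
    apply ContDiff.analyticOnNhd
    rcases k with _ | z
    · exact Complex.imCLM.contDiff.comp hom
    · by_cases hz : P z
      · have e : f (some z) = fun y => Q z.1 z.2 (g y) := by
          funext y
          exact if_pos hz
        rw [e]
        show ContDiff ℝ ⊤ (fun y => ‖WW A (g y) i - WW A (g y) m‖ ^ 2 * (BB A (g y) z.1 - BB A (g y) z.2) +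
          ((WW A (g y) z.1 - WW A (g y) z.2) * (starRingEnd ℂ (WW A (g y) i - WW A (g y) m)) ^ 2).re)
        refine ContDiff.add (ContDiff.mul (hom.norm_sq ℝ) ((hBB _).sub (hBB _))) ?_
        have h1 : ContDiff ℝ ⊤ (fun y => starRingEnd ℂ (WW A (g y) i - WW A (g y) m)) :=
          Complex.conjCLE.contDiff.comp hom
        exact Complex.reCLM.contDiff.comp (((hW _).sub (hW _)).mul (h1.pow 2))
      · have e : f (some z) = fun y => 1 := by
          funext y
          exact if_neg hz
        rw [e]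
        exact contDiff_const
  have hne : ∀ k, ∃ x, f k x ≠ 0 := by
    intro k
    rcases k with _ | z
    · obtain ⟨x, h1, h2, h3⟩ := Im_ne A hA i m p hS hp
      obtain ⟨y, hy⟩ := hwit x h1 h2
      refine ⟨y, ?_⟩
      show (WW A (g y) i - WW A (g y) m).im ≠ 0
      rw [hy]; exact h3
    · by_cases hz : P z
      · obtain ⟨x, h1, h2, h3⟩ := Q_ne A hA i m p him hS hB hp z.1 z.2 hz.1 hz.2.1 hz.2.2
        obtain ⟨y, hy⟩ := hwit x h1 h2
        refine ⟨y, ?_⟩
        have e : f (some z) y = Q z.1 z.2 (g y) := if_pos hz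
        rw [e, hy]; exact h3
      · refine ⟨0, ?_⟩
        have e : f (some z) 0 = 1 := if_neg hz
        rw [e]; exact one_ne_zero
  have hU : IsOpen U := by
    have h1 : IsOpen {y : Fin (l + 5) → ℝ | ∀ q, q ≠ i → q ≠ m → q ≠ p → y q < y i} := by
      simp only [Set.ofPred_forall]
      refine isOpen_iInter_of_finite fun q => isOpen_iInter_of_finite fun _ => isOpen_iInter_of_finite fun _ =>
        isOpen_iInter_of_finite fun _ => ?_
      exact isOpen_lt (continuous_apply q) (continuous_apply i)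
    have h2 : IsOpen {y : Fin (l + 5) → ℝ | ∀ q, q ≠ j → y j < y q} := by
      simp only [Set.ofPred_forall]
      refine isOpen_iInter_of_finite fun q => isOpen_iInter_of_finite fun _ => ?_
      exact isOpen_lt (continuous_apply j) (continuous_apply q)
    exact h1.inter h2
  have hUn : U.Nonempty := by
    refine ⟨fun q => if q = i then 1 else if q = j then -1 else 0, ?_, ?_⟩
    · intro q h1 h2 h3
      show (if q = i then (1:ℝ) else if q = j then -1 else 0) < (if i = i then 1 else if i = j then -1 else 0)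
      rw [if_neg h1, if_pos rfl]
      split_ifs <;> norm_num
    · intro q hq
      show (if j = i then (1:ℝ) else if j = j then -1 else 0) < (if q = i then 1 else if q = j then -1 else 0)
      rw [if_neg hji, if_pos rfl, if_neg hq]
      split_ifs <;> norm_num
  obtain ⟨y, ⟨hy1, hy2⟩, hyf⟩ := exists_ne_zero f hf hne U hU hUn
  have pi_i : piL i m p y i = y i := by
    rw [piL_apply]; split_ifs <;> rfl
  have pi_m : piL i m p y m = y i := by
    rw [piL_apply, if_pos (Or.inl rfl)]
  have pi_p : piL i m p y p = y i := by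
    rw [piL_apply, if_pos (Or.inr rfl)]
  have pi_j : piL i m p y j = y j := by
    rw [piL_apply, if_neg]
    rintro (h | h)
    · exact hjm h
    · exact hjp h
  have him' : (WW A (g y) i - WW A (g y) m).im ≠ 0 := hyf none
  refine ⟨g y, ?_, ?_, ?_, ?_, him', ?_⟩
  · have := hdiff y i m
    rw [pi_i, pi_m] at this; linarith
  · have := hdiff y p m
    rw [pi_p, pi_m] at this; linarith
  · intro q h1 h2 h3
    have := hdiff y q m
    rw [pi_m, piL_apply, if_neg (by rintro (h | h); exacts [h2 h, h3 h])] at this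
    have := hy1 q h1 h2 h3
    linarith
  · intro q hq
    have h1 := hdiff y q j
    have h2 : y j < piL i m p y q := by
      rw [piL_apply]
      split_ifs with h
      · exact hy2 i (Ne.symm hji)
      · exact hy2 q hq
    rw [pi_j] at h1
    linarith
  · intro s u hsu h1 h2 heq
    have hP : P (s, u) := ⟨hsu, h1, h2⟩
    have hQ : Q s u (g y) ≠ 0 := by
      have h3 := hyf (some (s, u))
      have e : f (some (s, u)) y = Q s u (g y) := if_pos hP
      rwa [e] at h3
    apply hQ
    have hom0 : WW A (g y) i - WW A (g y) m ≠ 0 := by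
      intro h0
      rw [h0] at him'
      exact him' rfl
    show ‖WW A (g y) i - WW A (g y) m‖ ^ 2 * (BB A (g y) s - BB A (g y) u) +
        ((WW A (g y) s - WW A (g y) u) * (starRingEnd ℂ (WW A (g y) i - WW A (g y) m)) ^ 2).re = 0
    unfold pt at heq
    set ω := WW A (g y) i - WW A (g y) m with hω
    have e1 : (starRingEnd ℂ ω) ^ 2 = ((‖ω‖ ^ 2 : ℝ) : ℂ) * (starRingEnd ℂ ω / ω) := by
      have : ((‖ω‖ ^ 2 : ℝ) : ℂ) = ω * starRingEnd ℂ ω := by
        rw [Complex.mul_conj, Complex.normSq_eq_norm_sq]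
      rw [this]
      field_simp
    rw [e1]
    have e2 : ((WW A (g y) s - WW A (g y) u) * (((‖ω‖ ^ 2 : ℝ) : ℂ) * (starRingEnd ℂ ω / ω))).re =
        ‖ω‖ ^ 2 * ((WW A (g y) s * (starRingEnd ℂ ω / ω)).re - (WW A (g y) u * (starRingEnd ℂ ω / ω)).re) := by
      rw [show (WW A (g y) s - WW A (g y) u) * (((‖ω‖ ^ 2 : ℝ) : ℂ) * (starRingEnd ℂ ω / ω)) =
        ((‖ω‖ ^ 2 : ℝ) : ℂ) * (WW A (g y) s * (starRingEnd ℂ ω / ω) - WW A (g y) u * (starRingEnd ℂ ω / ω)) by ring,
        Complex.re_ofReal_mul, Complex.sub_re]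
    rw [e2, ← mul_add]
    rw [show BB A (g y) s - BB A (g y) u + ((WW A (g y) s * (starRingEnd ℂ ω / ω)).re -
      (WW A (g y) u * (starRingEnd ℂ ω / ω)).re) = 0 by linarith, mul_zero]

end FanRD
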