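import Mathlib
import Pool.Agent.FanRD.Defs
import Pool.Agent.FanRD.GN
import Pool.Agent.FanRD.ND
set_option autoImplicit false
set_option maxHeartbeats 4000000
noncomputable section
open MeasureTheory

namespace FanRD

variable {l : ℕ}



theorem ex_z (a b : ℂ) (h : ¬ (a = 0 ∧ b = 0)) : ∃ z1 z2 : ℂ, a * z1 + b * z2 = 1 := by
  by_cases ha : a = 0
  · have hb : b ≠ 0 := fun hb => h ⟨ha, hb⟩
    exact ⟨0, 1 / b, by rw [mul_zero, zero_add, mul_one_div_cancel hb]⟩
  · exact ⟨1 / a, 0, by rw [mul_zero, add_zero, mul_one_div_cancel ha]⟩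

theorem ex_rho (u1 u2 v1 v2 : ℂ) (h : ¬ (u1 = 0 ∧ u2 = 0))
    (H : ∀ z1 z2 : ℂ, (u1 * z1 + u2 * z2).re * (v1 * z1 + v2 * z2).im -
      (u1 * z1 + u2 * z2).im * (v1 * z1 + v2 * z2).re = 0) :
    ∃ ρ : ℝ, v1 = ρ * u1 ∧ v2 = ρ * u2 := by
  obtain ⟨z1, z2, hz⟩ := ex_z u1 u2 h
  have key : ∀ y1 y2 : ℂ, u1 * y1 + u2 * y2 = 0 → v1 * y1 + v2 * y2 = 0 := by
    intro y1 y2 hy
    have h0 := H z1 z2
    have h1 := H (z1 + y1) (z2 + y2)
    have h2 := H (z1 + Complex.I * y1) (z2 + Complex.I * y2)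
    have e1 : u1 * (z1 + y1) + u2 * (z2 + y2) = 1 := by linear_combination hz + hy
    have e2 : u1 * (z1 + Complex.I * y1) + u2 * (z2 + Complex.I * y2) = 1 := by
      linear_combination hz + Complex.I * hy
    have e3 : v1 * (z1 + y1) + v2 * (z2 + y2) = (v1 * z1 + v2 * z2) + (v1 * y1 + v2 * y2) := by
      ring
    have e4 : v1 * (z1 + Complex.I * y1) + v2 * (z2 + Complex.I * y2) =
        (v1 * z1 + v2 * z2) + Complex.I * (v1 * y1 + v2 * y2) := by
      ring
    rw [hz] at h0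
    rw [e1, e3] at h1
    rw [e2, e4] at h2
    simp only [Complex.one_re, Complex.one_im, one_mul, zero_mul, sub_zero, Complex.add_im] at h0 h1 h2
    rw [Complex.I_mul_im] at h2
    apply Complex.ext
    · rw [Complex.zero_re]
      linarith
    · rw [Complex.zero_im, Complex.add_im]
      linarith
  have him : (v1 * z1 + v2 * z2).im = 0 := by
    have h0 := H z1 z2
    rw [hz] at h0
    simpa using h0
  have hre : ((v1 * z1 + v2 * z2).re : ℂ) = v1 * z1 + v2 * z2 := by
    apply Complex.ext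
    · simp
    · rw [him, Complex.ofReal_im]
  refine ⟨(v1 * z1 + v2 * z2).re, ?_, ?_⟩
  · rw [hre]
    have := key (1 - u1 * z1) (0 - u1 * z2) (by linear_combination -u1 * hz)
    linear_combination this
  · rw [hre]
    have := key (0 - u2 * z1) (1 - u2 * z2) (by linear_combination -u2 * hz)
    linear_combination this

theorem an_lin (f : X l → ℝ) (hf : IsLinearMap ℝ f) : AnalyticOnNhd ℝ f Set.univ := by
  have := (LinearMap.toContinuousLinearMap (hf.mk' f)).analyticOnNhd (Set.univ)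
  exact this

theorem an_re (A : Fan l) (i : Fin (l + 5)) :
    AnalyticOnNhd ℝ (fun x : X l => (WW A x i).re) Set.univ := by
  apply an_lin
  refine ⟨fun x y => ?_, fun c x => ?_⟩
  · simp only [WW, om, Prod.fst_add, Prod.snd_add, mul_add, Complex.add_re]
    ring
  · simp only [WW, om, Prod.smul_fst, Prod.smul_snd, mul_smul_comm, Complex.add_re,
      Complex.smul_re, smul_eq_mul]
    ring

theorem an_im (A : Fan l) (i : Fin (l + 5)) :
    AnalyticOnNhd ℝ (fun x : X l => (WW A x i).im) Set.univ := by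
  apply an_lin
  refine ⟨fun x y => ?_, fun c x => ?_⟩
  · simp only [WW, om, Prod.fst_add, Prod.snd_add, mul_add, Complex.add_im]
    ring
  · simp only [WW, om, Prod.smul_fst, Prod.smul_snd, mul_smul_comm, Complex.add_im,
      Complex.smul_im, smul_eq_mul]
    ring

theorem an_BB (A : Fan l) (i : Fin (l + 5)) :
    AnalyticOnNhd ℝ (fun x : X l => BB A x i) Set.univ := by
  apply AnalyticOnNhd.add
  · apply an_lin
    refine ⟨fun x y => ?_, fun c x => ?_⟩
    · simp only [bb, Prod.snd_add, Pi.add_apply, mul_add, Finset.sum_add_distrib]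
    · simp only [bb, Prod.smul_snd, Pi.smul_apply, smul_eq_mul, Finset.mul_sum]
      refine Finset.sum_congr rfl fun k _ => ?_
      ring
  · exact analyticOnNhd_const

/-- first polynomial -/
def F1 (A : Fan l) (i m : Fin (l + 5)) (x : X l) : ℝ :=
  ((WW A x i).re - (WW A x m).re) ^ 2 + ((WW A x i).im - (WW A x m).im) ^ 2 -
    (BB A x i - BB A x m) ^ 2

/-- the second polynomial -/
def PP (A : Fan l) (i m p r : Fin (l + 5)) (x : X l) : ℝ :=
  ((BB A x p - BB A x r) * ((WW A x i).re - (WW A x m).re) -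
    (BB A x i - BB A x m) * ((WW A x p).re - (WW A x r).re)) ^ 2 +
  ((BB A x p - BB A x r) * ((WW A x i).im - (WW A x m).im) -
    (BB A x i - BB A x m) * ((WW A x p).im - (WW A x r).im)) ^ 2 -
  (((WW A x i).re - (WW A x m).re) * ((WW A x p).im - (WW A x r).im) -
    ((WW A x i).im - (WW A x m).im) * ((WW A x p).re - (WW A x r).re)) ^ 2

theorem an_F1 (A : Fan l) (i m : Fin (l + 5)) : AnalyticOnNhd ℝ (F1 A i m) Set.univ :=
  ((((an_re A i).sub (an_re A m)).pow 2).add (((an_im A i).sub (an_im A m)).pow 2)).sub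
    (((an_BB A i).sub (an_BB A m)).pow 2)

theorem an_PP (A : Fan l) (i m p r : Fin (l + 5)) : AnalyticOnNhd ℝ (PP A i m p r) Set.univ :=
  (((((an_BB A p).sub (an_BB A r)).mul ((an_re A i).sub (an_re A m))).sub
    (((an_BB A i).sub (an_BB A m)).mul ((an_re A p).sub (an_re A r)))).pow 2).add
  (((((an_BB A p).sub (an_BB A r)).mul ((an_im A i).sub (an_im A m))).sub
    (((an_BB A i).sub (an_BB A m)).mul ((an_im A p).sub (an_im A r)))).pow 2)|>.sub
  (((((an_re A i).sub (an_re A m)).mul ((an_im A p).sub (an_im A r))).sub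
    (((an_im A i).sub (an_im A m)).mul ((an_re A p).sub (an_re A r)))).pow 2)

theorem ex_v (A : Fan l) (hA : ND A) (ν : Fin (l + 5) → ℝ) (h0 : ∑ i, ν i = 0)
    (h1 : ∑ i, (ν i : ℂ) * (A i).1 = 0) (h2 : ∑ i, (ν i : ℂ) * (A i).2.1 = 0) (hν : ν ≠ 0) :
    ∃ v : Fin l → ℝ, ∀ z1 z2 : ℂ, ∑ i, ν i * BB A (z1, z2, v) i ≠ 0 := by
  classical
  by_contra hcon
  push Not at hcon
  have hcon' : ∀ v : Fin l → ℝ, ∑ i, ν i * (∑ k, (A i).2.2.1 k * v k + (A i).2.2.2) = 0 := by
    intro v
    obtain ⟨z1, z2, h⟩ := hcon v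
    exact h
  apply hν
  apply nd_indep A hA ν h0 h1 h2
  intro k
  have e0 := hcon' 0
  have e1 := hcon' (Pi.single k 1)
  simp only [Pi.zero_apply, mul_zero, Finset.sum_const_zero, zero_add] at e0
  simp only [Pi.single_apply, mul_ite, mul_one, mul_zero, Finset.sum_ite_eq', Finset.mem_univ,
    if_true, mul_add, Finset.sum_add_distrib] at e1
  linarith

theorem F1_ne (A : Fan l) (hA : ND A) (i m : Fin (l + 5)) (him : i ≠ m) :
    ∃ x, F1 A i m x ≠ 0 := by
  classical
  by_cases hS : SA A i m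
  · obtain ⟨v, hv⟩ := ex_v A hA (fun j => (if j = i then 1 else 0) - (if j = m then 1 else 0))
      (by simp) (by
        simp only [Complex.ofReal_sub, sub_mul, Finset.sum_sub_distrib]
        simp only [apply_ite Complex.ofReal, Complex.ofReal_one, Complex.ofReal_zero, ite_mul,
          one_mul, zero_mul, Finset.sum_ite_eq', Finset.mem_univ, if_true]
        rw [hS.1, sub_self]) (by
        simp only [Complex.ofReal_sub, sub_mul, Finset.sum_sub_distrib]
        simp only [apply_ite Complex.ofReal, Complex.ofReal_one, Complex.ofReal_zero, ite_mul,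
          one_mul, zero_mul, Finset.sum_ite_eq', Finset.mem_univ, if_true]
        rw [hS.2, sub_self]) (by
        intro h
        have := congrFun h i
        simp [him] at this)
    refine ⟨(0, 0, v), ?_⟩
    have h := hv 0 0
    simp only [sub_mul, Finset.sum_sub_distrib, ite_mul, one_mul, zero_mul, Finset.sum_ite_eq',
      Finset.mem_univ, if_true] at h
    have e : F1 A i m (0, 0, v) = -(BB A (0, 0, v) i - BB A (0, 0, v) m) ^ 2 := by
      simp [F1, WW, om]
    rw [e]
    exact neg_ne_zero.2 (pow_ne_zero _ h)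
  · obtain ⟨z1, z2, hz⟩ := ex_z ((A i).1 - (A m).1) ((A i).2.1 - (A m).2.1) (by
      rintro ⟨h1, h2⟩
      exact hS ⟨sub_eq_zero.1 h1, sub_eq_zero.1 h2⟩)
    have e : ∀ s : ℝ, F1 A i m ((s : ℂ) * z1, (s : ℂ) * z2, 0) =
        s ^ 2 - ((A i).2.2.2 - (A m).2.2.2) ^ 2 := by
      intro s
      have h1 : WW A ((s : ℂ) * z1, (s : ℂ) * z2, 0) i -
          WW A ((s : ℂ) * z1, (s : ℂ) * z2, 0) m = s := by
        simp only [WW, om]
        linear_combination (s : ℂ) * hz
      have hr := congrArg Complex.re h1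
      have hi := congrArg Complex.im h1
      rw [Complex.sub_re, Complex.ofReal_re] at hr
      rw [Complex.sub_im, Complex.ofReal_im] at hi
      simp only [F1]
      rw [hr, hi]
      simp [BB, bb]
    by_contra hcon
    push Not at hcon
    have h1 := hcon (((1 : ℝ) : ℂ) * z1, ((1 : ℝ) : ℂ) * z2, 0)
    have h2 := hcon (((2 : ℝ) : ℂ) * z1, ((2 : ℝ) : ℂ) * z2, 0)
    rw [e] at h1 h2
    linarith

theorem PP_ne (A : Fan l) (hA : ND A) (i m p r : Fin (l + 5)) (him : i ≠ m) (hpr : p ≠ r)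
    (h1 : ¬ (i = p ∧ m = r)) (h2 : ¬ (i = r ∧ m = p)) (hS : ¬ SA A i m) :
    ∃ x, PP A i m p r x ≠ 0 := by
  classical
  have hdim : ∀ (j k : Fin (l + 5)) (z1 z2 : ℂ) (v : Fin l → ℝ),
      WW A (z1, z2, v) j - WW A (z1, z2, v) k =
      ((A j).1 - (A k).1) * z1 + ((A j).2.1 - (A k).2.1) * z2 := by
    intro j k z1 z2 v
    simp only [WW, om]
    ring
  have hu : ¬ ((A i).1 - (A m).1 = 0 ∧ (A i).2.1 - (A m).2.1 = 0) := by
    rintro ⟨h1, h2⟩
    exact hS ⟨sub_eq_zero.1 h1, sub_eq_zero.1 h2⟩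
  have hPP : ∀ (z1 z2 : ℂ) (v : Fin l → ℝ) (a a' : ℂ),
      ((A i).1 - (A m).1) * z1 + ((A i).2.1 - (A m).2.1) * z2 = a →
      ((A p).1 - (A r).1) * z1 + ((A p).2.1 - (A r).2.1) * z2 = a' →
      PP A i m p r (z1, z2, v) =
      ((BB A (z1, z2, v) p - BB A (z1, z2, v) r) * a.re -
        (BB A (z1, z2, v) i - BB A (z1, z2, v) m) * a'.re) ^ 2 +
      ((BB A (z1, z2, v) p - BB A (z1, z2, v) r) * a.im -
        (BB A (z1, z2, v) i - BB A (z1, z2, v) m) * a'.im) ^ 2 -
      (a.re * a'.im - a.im * a'.re) ^ 2 := by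
    intro z1 z2 v a a' ha ha'
    have e1 := (hdim i m z1 z2 v).trans ha
    have e2 := (hdim p r z1 z2 v).trans ha'
    have r1 := congrArg Complex.re e1
    have i1 := congrArg Complex.im e1
    have r2 := congrArg Complex.re e2
    have i2 := congrArg Complex.im e2
    rw [Complex.sub_re] at r1 r2
    rw [Complex.sub_im] at i1 i2
    simp only [PP]
    rw [r1, i1, r2, i2]
  by_cases hD : ∀ z1 z2 : ℂ,
      (((A i).1 - (A m).1) * z1 + ((A i).2.1 - (A m).2.1) * z2).re *
      (((A p).1 - (A r).1) * z1 + ((A p).2.1 - (A r).2.1) * z2).im -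
      (((A i).1 - (A m).1) * z1 + ((A i).2.1 - (A m).2.1) * z2).im *
      (((A p).1 - (A r).1) * z1 + ((A p).2.1 - (A r).2.1) * z2).re = 0
  · obtain ⟨ρ, hρ1, hρ2⟩ := ex_rho _ _ _ _ hu hD
    obtain ⟨z1, z2, hz⟩ := ex_z _ _ hu
    have hsum : ∀ g : Fin (l + 5) → ℝ,
        ∑ j, (((if j = p then (1 : ℝ) else 0) - (if j = r then 1 else 0)) -
          ρ * ((if j = i then 1 else 0) - (if j = m then 1 else 0))) * g j =
        (g p - g r) - ρ * (g i - g m) := by
      intro g
      simp only [sub_mul, Finset.sum_sub_distrib, ite_mul, one_mul, zero_mul, Finset.sum_ite_eq',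
        Finset.mem_univ, if_true, mul_assoc, ← Finset.mul_sum]
    have hsumC : ∀ g : Fin (l + 5) → ℂ,
        ∑ j, (((((if j = p then (1 : ℝ) else 0) - (if j = r then 1 else 0)) -
          ρ * ((if j = i then 1 else 0) - (if j = m then 1 else 0))) : ℝ) : ℂ) * g j =
        (g p - g r) - ρ * (g i - g m) := by
      intro g
      simp only [Complex.ofReal_sub, Complex.ofReal_mul, apply_ite Complex.ofReal,
        Complex.ofReal_one, Complex.ofReal_zero, sub_mul, Finset.sum_sub_distrib, ite_mul,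
        one_mul, zero_mul, Finset.sum_ite_eq', Finset.mem_univ, if_true, mul_assoc,
        ← Finset.mul_sum]
    obtain ⟨v, hv⟩ := ex_v A hA (fun j => ((if j = p then (1 : ℝ) else 0) -
      (if j = r then 1 else 0)) - ρ * ((if j = i then 1 else 0) - (if j = m then 1 else 0)))
      (by
        have := hsum (fun _ => 1)
        simp only [mul_one] at this
        rw [this]
        ring) (by
        rw [hsumC, hρ1]
        ring) (by
        rw [hsumC, hρ2]
        ring) (by
        intro h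
        have hp := congrFun h p
        have hr := congrFun h r
        simp only [if_true, hpr, hpr.symm, if_false, Pi.zero_apply] at hp hr
        by_cases hpi : p = i
        · have hpm : ¬ p = m := fun h' => him (hpi.symm.trans h')
          simp only [hpi, hpm, if_true, him, if_false] at hp
          have hρ : ρ = 1 := by linarith
          by_cases hri : r = i
          · exact hpr (hpi.trans hri.symm)
          · by_cases hrm : r = m
            · exact h1 ⟨hpi.symm, hrm.symm⟩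
            · simp only [hri, hrm, if_false] at hr
              linarith
        · by_cases hpm : p = m
          · simp only [hpi, hpm, if_true, him.symm, if_false] at hp
            by_cases hri : r = i
            · exact h2 ⟨hri.symm, hpm.symm⟩
            · by_cases hrm : r = m
              · exact hpr (hpm.trans hrm.symm)
              · simp only [hri, hrm, if_false] at hr
                linarith
          · simp only [hpi, hpm, if_false] at hp
            linarith)
    refine ⟨(z1, z2, v), ?_⟩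
    have hz' : ((A p).1 - (A r).1) * z1 + ((A p).2.1 - (A r).2.1) * z2 = ρ := by
      rw [hρ1, hρ2]
      linear_combination (ρ : ℂ) * hz
    rw [hPP z1 z2 v 1 ρ hz hz']
    have hv' := hv z1 z2
    rw [hsum] at hv'
    simp only [Complex.one_re, Complex.one_im, Complex.ofReal_re, Complex.ofReal_im, mul_zero,
      mul_one, sub_self, zero_mul]
    have e : (BB A (z1, z2, v) p - BB A (z1, z2, v) r -
        (BB A (z1, z2, v) i - BB A (z1, z2, v) m) * ρ) ^ 2 + 0 ^ 2 - 0 ^ 2 =
        (BB A (z1, z2, v) p - BB A (z1, z2, v) r -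
        ρ * (BB A (z1, z2, v) i - BB A (z1, z2, v) m)) ^ 2 := by ring
    rw [e]
    exact pow_ne_zero _ hv'
  · push Not at hD
    obtain ⟨z1, z2, hz⟩ := hD
    set a := ((A i).1 - (A m).1) * z1 + ((A i).2.1 - (A m).2.1) * z2 with ha
    set a' := ((A p).1 - (A r).1) * z1 + ((A p).2.1 - (A r).2.1) * z2 with ha'
    have e : ∀ s : ℝ, PP A i m p r ((s : ℂ) * z1, (s : ℂ) * z2, 0) =
        s ^ 2 * ((((A p).2.2.2 - (A r).2.2.2) * a.re - ((A i).2.2.2 - (A m).2.2.2) * a'.re) ^ 2 +
        (((A p).2.2.2 - (A r).2.2.2) * a.im - ((A i).2.2.2 - (A m).2.2.2) * a'.im) ^ 2) -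
        s ^ 4 * (a.re * a'.im - a.im * a'.re) ^ 2 := by
      intro s
      rw [hPP _ _ _ ((s : ℂ) * a) ((s : ℂ) * a') (by rw [ha]; ring) (by rw [ha']; ring)]
      have hBB : ∀ j, BB A ((s : ℂ) * z1, (s : ℂ) * z2, 0) j = (A j).2.2.2 := by
        intro j
        simp [BB, bb]
      simp only [hBB, Complex.re_ofReal_mul, Complex.im_ofReal_mul]
      ring
    by_contra hcon
    push Not at hcon
    have k1 := hcon (((1 : ℝ) : ℂ) * z1, ((1 : ℝ) : ℂ) * z2, 0)
    have k2 := hcon (((2 : ℝ) : ℂ) * z1, ((2 : ℝ) : ℂ) * z2, 0)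
    rw [e] at k1 k2
    have hpos : 0 < (a.re * a'.im - a.im * a'.re) ^ 2 := by positivity
    linarith

/-- TARGET: regular points are dense -/
theorem reg_dense (A : Fan l) (hA : ND A) (U : Set (X l)) (hU : IsOpen U) (hne : U.Nonempty) :
    ∃ x ∈ U, FReg A x := by
  classical
  let I := Fin (l + 5)
  let f : (I × I) ⊕ (I × I × I × I) → X l → ℝ := fun k => match k with
    | Sum.inl q => if q.1 = q.2 then (fun _ => 1) else F1 A q.1 q.2
    | Sum.inr q => if q.1 ≠ q.2.1 ∧ q.2.2.1 ≠ q.2.2.2 ∧ ¬ (q.1 = q.2.2.1 ∧ q.2.1 = q.2.2.2) ∧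
        ¬ (q.1 = q.2.2.2 ∧ q.2.1 = q.2.2.1) ∧ ¬ SA A q.1 q.2.1 then
        PP A q.1 q.2.1 q.2.2.1 q.2.2.2 else (fun _ => 1)
  obtain ⟨x, hxU, hx⟩ := exists_ne_zero f (by
    rintro (q | q)
    · show AnalyticOnNhd ℝ (if q.1 = q.2 then (fun _ => 1) else F1 A q.1 q.2) Set.univ
      split_ifs
      · exact analyticOnNhd_const
      · exact an_F1 _ _ _
    · show AnalyticOnNhd ℝ (if q.1 ≠ q.2.1 ∧ q.2.2.1 ≠ q.2.2.2 ∧
        ¬ (q.1 = q.2.2.1 ∧ q.2.1 = q.2.2.2) ∧
        ¬ (q.1 = q.2.2.2 ∧ q.2.1 = q.2.2.1) ∧ ¬ SA A q.1 q.2.1 then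
        PP A q.1 q.2.1 q.2.2.1 q.2.2.2 else (fun _ => 1)) Set.univ
      split_ifs
      · exact an_PP _ _ _ _ _
      · exact analyticOnNhd_const) (by
    rintro (q | q)
    · show ∃ x, (if q.1 = q.2 then (fun _ => (1 : ℝ)) else F1 A q.1 q.2) x ≠ 0
      split_ifs with h
      · exact ⟨0, one_ne_zero⟩
      · exact F1_ne A hA _ _ h
    · show ∃ x, (if q.1 ≠ q.2.1 ∧ q.2.2.1 ≠ q.2.2.2 ∧
        ¬ (q.1 = q.2.2.1 ∧ q.2.1 = q.2.2.2) ∧
        ¬ (q.1 = q.2.2.2 ∧ q.2.1 = q.2.2.1) ∧ ¬ SA A q.1 q.2.1 then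
        PP A q.1 q.2.1 q.2.2.1 q.2.2.2 else (fun _ => (1 : ℝ))) x ≠ 0
      split_ifs with h
      · exact PP_ne A hA _ _ _ _ h.1 h.2.1 h.2.2.1 h.2.2.2.1 h.2.2.2.2
      · exact ⟨0, one_ne_zero⟩) U hU hne
  refine ⟨x, hxU, ?_⟩
  have hfirst : ∀ i m, i ≠ m → |BB A x i - BB A x m| ≠ ‖WW A x i - WW A x m‖ := by
    intro i m him h
    have h1 := hx (Sum.inl (i, m))
    have h2 : F1 A i m x ≠ 0 := by
      have h3 : f (Sum.inl (i, m)) x = F1 A i m x := by
        show (if i = m then (fun _ => (1 : ℝ)) else F1 A i m) x = F1 A i m x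
        rw [if_neg him]
      rwa [h3] at h1
    apply h2
    have h4 : ‖WW A x i - WW A x m‖ ^ 2 = ((WW A x i).re - (WW A x m).re) ^ 2 +
        ((WW A x i).im - (WW A x m).im) ^ 2 := by
      rw [Complex.sq_norm, Complex.normSq_apply, Complex.sub_re, Complex.sub_im]
      ring
    have h5 : (BB A x i - BB A x m) ^ 2 = ‖WW A x i - WW A x m‖ ^ 2 := by
      rw [← h, sq_abs]
    simp only [F1]
    rw [h5, h4]
    ring
  refine ⟨hfirst, ?_⟩
  intro i m p r him hpr hq1 hq2 e he ⟨ht1, ht2⟩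
  have hSA : ∀ i m, i ≠ m → pt (WW A x) (BB A x) e i = pt (WW A x) (BB A x) e m →
      ¬ SA A i m := by
    intro i m him ht hS
    have hw : WW A x i = WW A x m := by
      simp only [WW, om]
      rw [hS.1, hS.2]
    simp only [pt] at ht
    rw [hw] at ht
    apply hfirst i m him
    rw [hw, sub_self, norm_zero, abs_eq_zero]
    linarith
  have h1 := hx (Sum.inr (i, m, p, r))
  have h3 : f (Sum.inr (i, m, p, r)) x = PP A i m p r x := by
    show (if i ≠ m ∧ p ≠ r ∧ ¬ (i = p ∧ m = r) ∧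
        ¬ (i = r ∧ m = p) ∧ ¬ SA A i m then
        PP A i m p r else (fun _ => (1 : ℝ))) x = PP A i m p r x
    rw [if_pos ⟨him, hpr, hq1, hq2, hSA i m him ht1⟩]
  rw [h3] at h1
  apply h1
  simp only [pt, Complex.mul_re] at ht1 ht2
  have hee : e.re ^ 2 + e.im ^ 2 = 1 := by
    have : ‖e‖ ^ 2 = 1 := by rw [he]; norm_num
    rw [Complex.sq_norm, Complex.normSq_apply] at this
    linarith
  have b1 : BB A x i - BB A x m = -(((WW A x i).re - (WW A x m).re) * e.re -
      ((WW A x i).im - (WW A x m).im) * e.im) := by linarith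
  have b2 : BB A x p - BB A x r = -(((WW A x p).re - (WW A x r).re) * e.re -
      ((WW A x p).im - (WW A x r).im) * e.im) := by linarith
  simp only [PP]
  rw [b1, b2]
  linear_combination ((((WW A x i).re - (WW A x m).re) * ((WW A x p).im - (WW A x r).im) -
    ((WW A x i).im - (WW A x m).im) * ((WW A x p).re - (WW A x r).re)) ^ 2) * hee


end FanRD
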