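import Mathlib
import Pool.Agent.FanRD.Defs
import Pool.Agent.FanRD.CR
import Pool.Agent.FanRD.JJ
import Pool.Agent.FanRD.ND
import Pool.Agent.FanRD.dense
set_option autoImplicit false
set_option maxHeartbeats 4000000
noncomputable section
open MeasureTheory

namespace FanRD

variable {l : ℕ}



section abs
variable {I : Type*} [Fintype I] [DecidableEq I]
end abs
section rowaux
variable {I : Type*} [Fintype I] [DecidableEq I]

theorem row_JJ1 (lam : I → I → ℝ) (i m j : I) (y : I → ℝ) (hji : j ≠ i) (hjm : j ≠ m)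
    (h3 : ∀ q, q ≠ i → q ≠ m → y q < y i) (h4 : ∀ q, q ≠ j → y j < y q) :
    JJ lam i m y = lam i j - lam m j := by
  have hT : JT lam i m y = lam i j - lam m j := by
    unfold JT
    rw [if_pos h3, Finset.sum_eq_single j]
    · rw [if_pos ⟨hji, hjm, h4⟩]
    · intro j' _ hj'
      rw [if_neg]
      rintro ⟨_, _, h⟩
      exact absurd (h j (Ne.symm hj')) (not_lt.2 (h4 j' hj').le)
    · intro h
      exact absurd (Finset.mem_univ _) h
  have hB : JB lam i m y = 0 := by
    unfold JB
    rw [if_neg]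
    intro h
    exact absurd (h j hji hjm) (not_lt.2 (h4 i (Ne.symm hji)).le)
  rw [JJ, hT, hB, sub_zero]

theorem row_JJ2 (lam : I → I → ℝ) (i m p j : I) (y : I → ℝ) (hpi : p ≠ i) (hpm : p ≠ m)
    (hji : j ≠ i) (hjm : j ≠ m)
    (h3 : y i < y p) (h4 : ∀ q, q ≠ j → y j < y q) :
    JJ lam i m y = 0 := by
  have hT : JT lam i m y = 0 := by
    unfold JT
    rw [if_neg]
    intro h
    exact absurd (h p hpi hpm) (not_lt.2 h3.le)
  have hB : JB lam i m y = 0 := by
    unfold JB
    rw [if_neg]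
    intro h
    exact absurd (h j hji hjm) (not_lt.2 (h4 i (Ne.symm hji)).le)
  rw [JJ, hT, hB, sub_zero]

end rowaux

/-- TARGET -/
theorem row_of_base (A : Fan l) (hA : ND A) (lam : Fin (l + 5) → Fin (l + 5) → ℝ)
    (i m p j : Fin (l + 5)) (him : i ≠ m) (hpi : p ≠ i)
    (hpm : p ≠ m) (hji : j ≠ i) (hjm : j ≠ m) (hjp : j ≠ p)
    (hbal : ∀ x, FReg A x → |BB A x i - BB A x m| < ‖WW A x i - WW A x m‖ →
      kap lam i m (WW A x) (BB A x) = 0)
    (x : X l) (h1 : ev (A i) x = ev (A m) x) (h2 : ev (A p) x = ev (A m) x)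
    (h3 : ∀ q, q ≠ i → q ≠ m → q ≠ p → ev (A q) x < ev (A m) x)
    (h4 : ∀ q, q ≠ j → ev (A j) x < ev (A q) x)
    (h5 : (WW A x i - WW A x m).im ≠ 0)
    (h6 : ∀ s u, s ≠ u → ¬ (s = i ∧ u = m) → ¬ (s = m ∧ u = i) →
        pt (WW A x) (BB A x) (starRingEnd ℂ (WW A x i - WW A x m) / (WW A x i - WW A x m)) s ≠
        pt (WW A x) (BB A x) (starRingEnd ℂ (WW A x i - WW A x m) / (WW A x i - WW A x m)) u) :
    lam i j = lam m j := by
  classical
  have cW : ∀ q, Continuous (fun x' : X l => WW A x' q) := by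
    intro q
    unfold WW om
    fun_prop
  have cB : ∀ q, Continuous (fun x' : X l => BB A x' q) := by
    intro q
    unfold BB bb
    fun_prop
  have hpt1 : ∀ (x' : X l) q, pt (WW A x') (BB A x') 1 q = ev (A q) x' := by
    intro x' q
    simp only [pt, WW, BB, ev, mul_one]
    ring
  have hcross : ∀ x' : X l, ev (A i) x' = ev (A m) x' →
      ((WW A x' i - WW A x' m) * 1).re = -(BB A x' i - BB A x' m) := by
    intro x' h
    rw [← hpt1, ← hpt1] at h
    simp only [pt, mul_one] at h
    rw [mul_one, Complex.sub_re]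
    linarith
  have hb : |BB A x i - BB A x m| < ‖WW A x i - WW A x m‖ := by
    have h := hcross x h1
    rw [mul_one] at h
    have e : BB A x i - BB A x m = -(WW A x i - WW A x m).re := by linarith
    rw [e, abs_neg]
    exact Complex.abs_re_lt_norm.2 h5
  have hW0 : WW A x i - WW A x m ≠ 0 := by
    intro h
    rw [h] at h5
    exact h5 rfl
  have hes1 : ‖starRingEnd ℂ (WW A x i - WW A x m) / (WW A x i - WW A x m)‖ = 1 := by
    rw [norm_div, Complex.norm_conj, div_self (norm_ne_zero_iff.2 hW0)]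
  have hes2 : ((WW A x i - WW A x m) *
      (starRingEnd ℂ (WW A x i - WW A x m) / (WW A x i - WW A x m))).re =
      -(BB A x i - BB A x m) := by
    rw [mul_div_cancel₀ _ hW0, Complex.conj_re]
    have h := hcross x h1
    rwa [mul_one] at h
  have hne : (1 : ℂ) ≠ starRingEnd ℂ (WW A x i - WW A x m) / (WW A x i - WW A x m) := by
    intro h
    rw [eq_div_iff hW0, one_mul] at h
    exact h5 (Complex.conj_eq_iff_im.1 h.symm)
  obtain ⟨σ, hσ, hs1, hs2⟩ : ∃ σ : ℝ, (σ = 1 ∨ σ = -1) ∧
      cr (WW A x i - WW A x m) (BB A x i - BB A x m) σ = 1 ∧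
      cr (WW A x i - WW A x m) (BB A x i - BB A x m) (-σ) =
        starRingEnd ℂ (WW A x i - WW A x m) / (WW A x i - WW A x m) := by
    rcases cr_unique _ _ hb 1 norm_one (hcross x h1) with ha | ha
    · rcases cr_unique _ _ hb _ hes1 hes2 with hc | hc
      · exact absurd (ha.trans hc.symm) hne
      · exact ⟨1, Or.inl rfl, ha.symm, hc.symm⟩
    · rcases cr_unique _ _ hb _ hes1 hes2 with hc | hc
      · exact ⟨-1, Or.inr rfl, ha.symm, by rw [neg_neg]; exact hc.symm⟩
      · exact absurd (ha.trans hc.symm) hne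
  -- the vectors at the two crossing points
  obtain ⟨y, hy⟩ : ∃ y : ℝ → X l → Fin (l + 5) → ℝ, ∀ s x', y s x' =
      pt (WW A x') (BB A x') (cr (WW A x' i - WW A x' m) (BB A x' i - BB A x' m) s) :=
    ⟨fun s x' => _, fun s x' => rfl⟩
  have hkap : ∀ x', kap lam i m (WW A x') (BB A x') =
      JJ lam i m (y σ x') + JJ lam i m (y (-σ) x') := by
    intro x'
    rw [hy, hy]
    rcases hσ with h | h
    · rw [h]; rfl
    · rw [h, neg_neg]; unfold kap; exact add_comm _ _
  have ccr : ∀ s x', |BB A x' i - BB A x' m| < ‖WW A x' i - WW A x' m‖ →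
      ContinuousAt (fun x' : X l => cr (WW A x' i - WW A x' m) (BB A x' i - BB A x' m) s) x' := by
    intro s x' h
    have h1 := cr_cont _ _ s h
    have h2 : ContinuousAt (fun x' : X l => ((WW A x' i - WW A x' m, BB A x' i - BB A x' m) : ℂ × ℝ))
        x' := (((cW i).sub (cW m)).prodMk ((cB i).sub (cB m))).continuousAt
    exact ContinuousAt.comp (f := fun x' : X l =>
      ((WW A x' i - WW A x' m, BB A x' i - BB A x' m) : ℂ × ℝ)) h1 h2
  have cy : ∀ s x', |BB A x' i - BB A x' m| < ‖WW A x' i - WW A x' m‖ →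
      ContinuousAt (y s) x' := by
    intro s x' h
    have e : y s = fun x' => pt (WW A x') (BB A x')
        (cr (WW A x' i - WW A x' m) (BB A x' i - BB A x' m) s) := funext (hy s)
    rw [e]
    refine continuousAt_pi.2 (fun q => ?_)
    simp only [pt]
    exact (cB q).continuousAt.add
      (Complex.continuous_re.continuousAt.comp ((cW q).continuousAt.mul (ccr s x' h)))
  have hyx : ∀ q, y σ x q = ev (A q) x := by
    intro q
    rw [hy, hs1]
    exact hpt1 x q
  -- the neighbourhood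
  have n1 : ∀ᶠ x' in nhds x, |BB A x' i - BB A x' m| < ‖WW A x' i - WW A x' m‖ :=
    (isOpen_lt ((cB i).sub (cB m)).abs ((cW i).sub (cW m)).norm).mem_nhds hb
  have n2 : ∀ᶠ x' in nhds x, JJ lam i m (y (-σ) x') = JJ lam i m (y (-σ) x) := by
    refine (cy (-σ) x hb).eventually (JJ_locconst lam i m him (y (-σ) x) ?_)
    intro s u hsu ha hc
    rw [hy, hs2]
    exact h6 s u hsu ha hc
  have n3 : ∀ᶠ x' in nhds x, ∀ q, q ≠ i → q ≠ m → q ≠ p → y σ x' q < y σ x' i := by
    rw [Filter.eventually_all]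
    intro q
    by_cases hq : q ≠ i ∧ q ≠ m ∧ q ≠ p
    · have hlt : y σ x q < y σ x i := by
        rw [hyx, hyx, h1]
        exact h3 q hq.1 hq.2.1 hq.2.2
      have := ((continuous_apply q).continuousAt.comp (cy σ x hb)).eventually_lt
        ((continuous_apply i).continuousAt.comp (cy σ x hb)) hlt
      filter_upwards [this] with x' hx' _ _ _
      exact hx'
    · exact Filter.Eventually.of_forall (fun x' ha hc hd => absurd ⟨ha, hc, hd⟩ hq)
  have n4 : ∀ᶠ x' in nhds x, ∀ q, q ≠ j → y σ x' j < y σ x' q := by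
    rw [Filter.eventually_all]
    intro q
    by_cases hq : q ≠ j
    · have hlt : y σ x j < y σ x q := by
        rw [hyx, hyx]
        exact h4 q hq
      have := ((continuous_apply j).continuousAt.comp (cy σ x hb)).eventually_lt
        ((continuous_apply q).continuousAt.comp (cy σ x hb)) hlt
      filter_upwards [this] with x' hx' _
      exact hx'
    · exact Filter.Eventually.of_forall (fun x' ha => absurd ha hq)
  have n5 : ∀ᶠ x' in nhds x,
      cr (WW A x' i - WW A x' m) (BB A x' i - BB A x' m) (-σ) ≠ 1 := by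
    refine (ccr (-σ) x hb).eventually_ne ?_
    rw [hs2]
    exact hne.symm
  obtain ⟨N, hN, hNo, hxN⟩ := eventually_nhds_iff.1 (n1.and (n2.and (n3.and (n4.and n5))))
  -- the direction
  obtain ⟨x0, L, hL⟩ := nd_param A hA
  obtain ⟨ξ, hξ⟩ : ∃ ξ : X l, ∀ (t : ℝ) q, ev (A q) (x + t • ξ) - ev (A 0) (x + t • ξ) =
      ev (A q) x - ev (A 0) x + t * ((if q = p then 1 else 0) - (if 0 = p then 1 else 0)) := by
    refine ⟨L (Pi.single p 1), ?_⟩
    have hlin : ∀ (a : Co l) (u v : X l), ev a (u + v) = ev a u + lin a v := by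
      intro a u v
      simp only [ev, lin, om, bb, Prod.fst_add, Prod.snd_add, Pi.add_apply, mul_add,
        Finset.sum_add_distrib, Complex.add_re]
      ring
    have hlin2 : ∀ (a : Co l) (t : ℝ) (v : X l), lin a (t • v) = t * lin a v := by
      intro a t v
      simp only [lin, om, bb, Prod.smul_fst, Prod.smul_snd, Pi.smul_apply, smul_eq_mul,
        mul_smul_comm, Complex.add_re, Complex.real_smul, Complex.re_ofReal_mul, Finset.mul_sum,
        mul_add]
      congr 1
      · rw [mul_left_comm, Complex.re_ofReal_mul, mul_left_comm a.2.1, Complex.re_ofReal_mul]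
      · refine Finset.sum_congr rfl (fun k _ => ?_)
        ring
    intro t q
    have e1 := hL (Pi.single p 1) q
    have e0 := hL 0 q
    rw [map_zero, add_zero] at e0
    rw [hlin, hlin] at e1
    rw [hlin, hlin, hlin2, hlin2]
    simp only [Pi.single_apply, Pi.zero_apply, sub_self] at e1 e0
    have e2 : lin (A q) (L (Pi.single p 1)) - lin (A 0) (L (Pi.single p 1)) =
        (if q = p then (1 : ℝ) else 0) - (if 0 = p then 1 else 0) := by
      linarith
    rw [← e2]
    ring
  have hξ' : ∀ (t : ℝ) q r, ev (A q) (x + t • ξ) - ev (A r) (x + t • ξ) =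
      ev (A q) x - ev (A r) x + t * ((if q = p then 1 else 0) - (if r = p then 1 else 0)) := by
    intro t q r
    have e1 := hξ t q
    have e2 := hξ t r
    linarith
  have hNt : ∀ᶠ t in nhds (0 : ℝ), x + t • ξ ∈ N := by
    have hc : Continuous (fun t : ℝ => x + t • ξ) := by fun_prop
    refine hc.continuousAt.eventually (hNo.mem_nhds ?_)
    simpa using hxN
  have hyt : ∀ t : ℝ, x + t • ξ ∈ N → y σ (x + t • ξ) p - y σ (x + t • ξ) i = t := by
    intro t ht
    obtain ⟨m1, -, -, -, m5⟩ := hN _ ht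
    have e1 : ev (A i) (x + t • ξ) = ev (A m) (x + t • ξ) := by
      have := hξ' t i m
      rw [if_neg (Ne.symm hpi), if_neg (Ne.symm hpm), h1] at this
      linarith
    have e2 : cr (WW A (x + t • ξ) i - WW A (x + t • ξ) m) (BB A (x + t • ξ) i - BB A (x + t • ξ) m) σ
        = 1 := by
      rcases cr_unique _ _ m1 1 norm_one (hcross _ e1) with ha | ha
      · rcases hσ with h | h
        · rw [h]; exact ha.symm
        · rw [h, neg_neg] at m5
          exact absurd ha.symm m5
      · rcases hσ with h | h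
        · rw [h] at m5
          exact absurd ha.symm m5
        · rw [h]; exact ha.symm
    rw [hy, e2, hpt1, hpt1, hξ' t p i, if_pos rfl, if_neg (Ne.symm hpi), h1, h2]
    ring
  have cyN : ContinuousOn (y σ) N := fun x' hx' => (cy σ x' (hN _ hx').1).continuousWithinAt
  -- the two sides
  have key : ∀ t : ℝ, x + t • ξ ∈ N → ∀ S : Set ℝ, IsOpen S → t ∈ S →
      ∃ x' ∈ N, FReg A x' ∧ y σ x' p - y σ x' i ∈ S := by
    intro t ht S hS htS
    have c1 : ContinuousOn (fun x' => y σ x' p - y σ x' i) N :=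
      ((continuous_apply p).comp_continuousOn cyN).sub ((continuous_apply i).comp_continuousOn cyN)
    obtain ⟨x', hx', hr⟩ := reg_dense A hA (N ∩ (fun x' => y σ x' p - y σ x' i) ⁻¹' S)
      (c1.isOpen_inter_preimage hNo hS) ⟨x + t • ξ, ht, by
        show y σ (x + t • ξ) p - y σ (x + t • ξ) i ∈ S
        rw [hyt t ht]; exact htS⟩
    exact ⟨x', hx'.1, hr, hx'.2⟩
  obtain ⟨t1, ht1, ht1'⟩ := ((hNt.filter_mono (nhdsWithin_le_nhds (s := Set.Ioi (0 : ℝ)))).and
    self_mem_nhdsWithin).exists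
  obtain ⟨t2, ht2, ht2'⟩ := ((hNt.filter_mono (nhdsWithin_le_nhds (s := Set.Iio (0 : ℝ)))).and
    self_mem_nhdsWithin).exists
  obtain ⟨xp, hxp, hrp, hSp⟩ := key t1 ht1 (Set.Ioi 0) isOpen_Ioi ht1'
  obtain ⟨xm, hxm, hrm, hSm⟩ := key t2 ht2 (Set.Iio 0) isOpen_Iio ht2'
  obtain ⟨p1, p2, p3, p4, -⟩ := hN _ hxp
  obtain ⟨q1, q2, q3, q4, -⟩ := hN _ hxm
  have kp := hbal xp hrp p1
  have km := hbal xm hrm q1
  rw [hkap, p2] at kp
  rw [hkap, q2] at km
  rw [row_JJ2 lam i m p j (y σ xp) hpi hpm hji hjm (sub_pos.1 hSp) p4, zero_add] at kp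
  rw [kp, add_zero, row_JJ1 lam i m j (y σ xm) hji hjm (fun q hq1 hq2 => by
    by_cases hqp : q = p
    · rw [hqp]; exact sub_neg.1 hSm
    · exact q3 q hq1 hq2 hqp) q4] at km
  linarith


end FanRD
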