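import Mathlib
import Pool.Agent.FanRD.Defs
import Pool.Agent.FanRD.ND
import Pool.Agent.FanRD.NEG
import Pool.Agent.FanRD.PB
import Pool.Agent.FanRD.base
import Pool.Agent.FanRD.row
set_option autoImplicit false
set_option maxHeartbeats 4000000
noncomputable section
open MeasureTheory

namespace FanRD

variable {l : ℕ}


/-- TARGET 1 -/
theorem edge_row (A : Fan l) (hA : ND A) (lam : Fin (l + 5) → Fin (l + 5) → ℝ)
    (i m : Fin (l + 5)) (hS : ¬ SA A i m) (hB : ¬ SB A i m)
    (hbal : ∀ x, FReg A x → |BB A x i - BB A x m| < ‖WW A x i - WW A x m‖ →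
      kap lam i m (WW A x) (BB A x) = 0)
    (j : Fin (l + 5)) (hji : j ≠ i) (hjm : j ≠ m) : lam i j = lam m j := by
  have him : i ≠ m := by
    rintro rfl
    exact hS ⟨rfl, rfl⟩
  obtain ⟨p, hpj, hp⟩ := nd_outside A hA i m j hS
  have hpi : p ≠ i := by
    rintro rfl
    exact hp ⟨1, by ring, by ring⟩
  have hpm : p ≠ m := by
    rintro rfl
    exact hp ⟨0, by ring, by ring⟩
  obtain ⟨x, h1, h2, h3, h4, h5, h6⟩ :=
    exists_base A hA i m p j him hpi hpm hji hjm hpj.symm hS hB hp
  exact row_of_base A hA lam i m p j him hpi hpm hji hjm hpj.symm hbal x h1 h2 h3 h4 h5 h6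

/-- TARGET 2 -/
theorem edge_both (A : Fan l) (hA : ND A) (lam : Fin (l + 5) → Fin (l + 5) → ℝ)
    (i m : Fin (l + 5)) (hS : ¬ SA A i m) (hB : ¬ SB A i m)
    (hbal : ∀ x, FReg A x → |BB A x i - BB A x m| < ‖WW A x i - WW A x m‖ →
      kap lam i m (WW A x) (BB A x) = 0)
    (j : Fin (l + 5)) (hji : j ≠ i) (hjm : j ≠ m) : lam i j = lam m j ∧ lam j i = lam j m := by
  refine ⟨edge_row A hA lam i m hS hB hbal j hji hjm, ?_⟩
  refine edge_row (negF A) (ND_negF A hA) (fun a b => lam b a) i m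
    (by rwa [SA_negF]) (by rwa [SB_negF]) ?_ j hji hjm
  intro x hx hlt
  rw [kap_negF, hbal x ((FReg_negF A x).1 hx) ?_, neg_zero]
  rw [WW_negF, BB_negF] at hlt
  simp only [Pi.neg_apply] at hlt
  have e1 : -BB A x i - -BB A x m = -(BB A x i - BB A x m) := by ring
  have e2 : -WW A x i - -WW A x m = -(WW A x i - WW A x m) := by ring
  rw [e1, e2, abs_neg, norm_neg] at hlt
  exact hlt

/-- TARGET 3 -/
theorem typ_notSB (A : Fan l) (i m : Fin (l + 5)) (hm : Typ A m) (him : i ≠ m) : ¬ SB A i m := by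
  intro hB
  unfold SB at hB
  have h := hm (Pi.single i 1 - Pi.single m 1) ?_ ?_ ?_
  · simp [Pi.single_apply, him.symm] at h
  · simp [Finset.sum_sub_distrib]
  · intro k
    simp only [Pi.sub_apply, sub_mul, Finset.sum_sub_distrib, Pi.single_apply, ite_mul, one_mul,
      zero_mul, Finset.sum_ite_eq', Finset.mem_univ, if_true]
    rw [hB]
    ring
  · have hsub : (Finset.univ.filter
        (fun s => (Pi.single i (1:ℝ) - Pi.single m 1 : Fin (l + 5) → ℝ) s ≠ 0)) ⊆ {i, m} := by
      intro s hs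
      rw [Finset.mem_filter] at hs
      rw [Finset.mem_insert, Finset.mem_singleton]
      by_contra hcon
      push Not at hcon
      apply hs.2
      simp [Pi.single_apply, hcon.1, hcon.2]
    calc _ ≤ ({i, m} : Finset (Fin (l + 5))).card := Finset.card_le_card hsub
      _ ≤ 2 := Finset.card_le_two
      _ ≤ 4 := by norm_num

/-- TARGET 4 -/
theorem cl_typ (A : Fan l) (i m : Fin (l + 5)) (hi : Typ A i) : cl A i m = {i} := by
  classical
  ext s
  unfold cl
  rw [Finset.mem_filter, Finset.mem_singleton]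
  constructor
  · rintro ⟨_, hs, _⟩
    by_contra hne
    exact typ_notSB A s i hi hne hs
  · rintro rfl
    exact ⟨Finset.mem_univ _, rfl, 1, norm_one, by ring, by ring⟩

/-- TARGET 5 -/
theorem edge (A : Fan l) (hA : ND A) (lam : Fin (l + 5) → Fin (l + 5) → ℝ) (hK : InK A lam)
    (i m : Fin (l + 5)) (hm : Typ A m) (hS : ¬ SA A i m) (hcl : cl A i m = {i})
    (j : Fin (l + 5)) (hji : j ≠ i) (hjm : j ≠ m) : lam i j = lam m j ∧ lam j i = lam j m := by
  have him : i ≠ m := by
    rintro rfl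
    exact hS ⟨rfl, rfl⟩
  refine edge_both A hA lam i m hS (typ_notSB A i m hm him) ?_ j hji hjm
  intro x hx hlt
  have h := pair_balance A lam hK i m him hm hS x hx hlt
  rw [hcl, Finset.sum_singleton] at h
  exact h

end FanRD
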