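import Mathlib
import Pool.Agent.FanRD.Defs
import Pool.Agent.FanRD.CR
import Pool.Agent.FanRD.DEGX
import Pool.Agent.FanRD.EDGE
import Pool.Agent.FanRD.GN
import Pool.Agent.FanRD.JJ
import Pool.Agent.FanRD.ND
import Pool.Agent.FanRD.PB
import Pool.Agent.FanRD.dense
set_option autoImplicit false
set_option maxHeartbeats 4000000
noncomputable section
open MeasureTheory

namespace FanRD

variable {l : ℕ}


section abs
variable {I : Type*} [Fintype I] [DecidableEq I]

end abs

section abs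
variable {I : Type*} [Fintype I] [DecidableEq I]

theorem JJ_val (lam : I → I → ℝ) (y : I → ℝ) (s m0 j : I) (W : Finset I) (hs : s ∉ W)
    (hj : j ∈ W) (hjm : j ≠ m0)
    (hz : ∀ s q, s ∉ W → q ∉ W → lam s q = 0) (hm : ∀ q, q ∉ W → lam m0 q = 0)
    (hm0 : m0 ∈ W)
    (hy : y s = y m0) (hyj : ∀ m ∈ W, m ≠ j → y j < y m) :
    ∃ t : ℝ, (t = 0 ∨ t = 1) ∧ JJ lam s m0 y = t * (lam s j - lam m0 j) ∧
      ((∀ q, q ≠ s → q ≠ m0 → y q < y s) → (∀ q, q ≠ j → y j < y q) → t = 1) := by
  have hjs : j ≠ s := fun h => hs (h ▸ hj)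
  have hJB : JB lam s m0 y = 0 := by
    unfold JB
    rw [if_neg]
    intro hc
    have h1 := hc j hjs hjm
    have h2 := hyj m0 hm0 hjm.symm
    rw [hy] at h1
    exact absurd h1 (not_lt.2 h2.le)
  unfold JJ
  rw [hJB, sub_zero]
  by_cases c1 : ∀ q, q ≠ s → q ≠ m0 → y q < y s
  · by_cases c2 : ∀ q, q ≠ j → y j < y q
    · refine ⟨1, Or.inr rfl, ?_, fun _ _ => rfl⟩
      unfold JT
      rw [if_pos c1, one_mul, Finset.sum_eq_single j]
      · rw [if_pos ⟨hjs, hjm, c2⟩]
      · intro k _ hk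
        rw [if_neg]
        rintro ⟨_, _, h3⟩
        exact absurd (h3 j hk.symm) (not_lt.2 (c2 k hk).le)
      · intro h3
        exact absurd (Finset.mem_univ _) h3
    · refine ⟨0, Or.inl rfl, ?_, fun _ h => absurd h c2⟩
      unfold JT
      rw [if_pos c1, zero_mul]
      apply Finset.sum_eq_zero
      intro k _
      split_ifs with h3
      · obtain ⟨_, _, h4⟩ := h3
        by_cases hkW : k ∈ W
        · by_cases hkj : k = j
          · rw [hkj] at h4
            exact absurd h4 c2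
          · exact absurd (h4 j (Ne.symm hkj)) (not_lt.2 (hyj k hkW hkj).le)
        · rw [hz s k hs hkW, hm k hkW, sub_zero]
      · rfl
  · refine ⟨0, Or.inl rfl, ?_, fun h _ => absurd h c1⟩
    unfold JT
    rw [if_neg c1, zero_mul]

end abs

theorem om_add (a : Co l) (x y : X l) : om a (x + y) = om a x + om a y := by
  simp only [om, Prod.fst_add, Prod.snd_add]
  ring

theorem om_smul (a : Co l) (t : ℝ) (x : X l) : om a (t • x) = t * om a x := by
  simp only [om, Prod.smul_fst, Prod.smul_snd, Complex.real_smul]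
  ring

theorem lin_sub (a : Co l) (x y : X l) : lin a (x - y) = ev a x - ev a y := by
  simp only [lin, ev, om, bb, Prod.fst_sub, Prod.snd_sub, Pi.sub_apply, mul_sub,
    Finset.sum_sub_distrib, Complex.add_re, Complex.sub_re]
  ring

theorem ev_pt (A : Fan l) (x : X l) (i : Fin (l + 5)) :
    ev (A i) x = pt (WW A x) (BB A x) 1 i := by
  simp only [ev, pt, WW, BB, mul_one]
  ring

theorem base_pt (A : Fan l) (hA : ND A) (m0 j p : Fin (l + 5)) (hT : Typ A m0)
    (hw0 : (A m0).1 = 0 ∧ (A m0).2.1 = 0) (hp : ¬ ((A p).1 = 0 ∧ (A p).2.1 = 0))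
    (hjm : j ≠ m0) (hjp : j ≠ p) :
    ∃ x0 : X l, ev (A p) x0 = ev (A m0) x0 ∧
      (∀ q, q ≠ p → q ≠ m0 → ev (A q) x0 < ev (A m0) x0) ∧
      (∀ q, q ≠ j → ev (A j) x0 < ev (A q) x0) ∧ (WW A x0 p).im ≠ 0 := by
  obtain ⟨x1, L, hL⟩ := nd_param A hA
  by_contra hcon
  push Not at hcon
  have hpm : p ≠ m0 := by
    rintro rfl
    exact hp hw0
  set y0 : Fin (l + 5) → ℝ := fun i => if i = p ∨ i = m0 then 1 else if i = j then -1 else 0
    with hy0
  have hyp : y0 p = 1 := by simp [hy0]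
  have hym : y0 m0 = 1 := by simp [hy0]
  have hyj : y0 j = -1 := by simp [hy0, hjm, hjp]
  have hyle : ∀ q, q ≠ p → q ≠ m0 → y0 q ≤ 0 := by
    intro q h1 h2
    simp only [hy0, h1, h2, or_self, if_false]
    split_ifs <;> norm_num
  have hyge : ∀ q, q ≠ j → 0 ≤ y0 q := by
    intro q h1
    simp only [hy0, h1, if_false]
    split_ifs <;> norm_num
  have gg : ∀ y : Fin (l + 5) → ℝ, y p = y m0 → (∀ q, |y q - y0 q| ≤ 1 / 4) →
      (WW A (x1 + L y) p).im = 0 := by
    intro y hy hq
    apply hcon (x1 + L y)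
    · have h1 := hL y p
      have h2 := hL y m0
      linarith
    · intro q h1 h2
      have h3 := hL y q
      have h4 := hL y m0
      have h5 := hq q
      have h6 := hq m0
      have h7 := hyle q h1 h2
      rw [abs_le] at h5 h6
      linarith [h5.1, h5.2, h6.1, h6.2]
    · intro q h1
      have h3 := hL y q
      have h4 := hL y j
      have h5 := hq q
      have h6 := hq j
      have h7 := hyge q h1
      rw [abs_le] at h5 h6
      linarith [h5.1, h5.2, h6.1, h6.2]
  have gall : ∀ y : Fin (l + 5) → ℝ, y p = y m0 → (WW A (x1 + L y) p).im = 0 := by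
    intro y hy
    have g0 := gg y0 (by rw [hyp, hym]) (fun q => by rw [sub_self, abs_zero]; norm_num)
    set M := ∑ q, |y q - y0 q| with hM
    have hM0 : 0 ≤ M := Finset.sum_nonneg (fun q _ => abs_nonneg _)
    have hMq : ∀ q, |y q - y0 q| ≤ M := fun q =>
      Finset.single_le_sum (f := fun q => |y q - y0 q|) (fun q _ => abs_nonneg _)
        (Finset.mem_univ q)
    set t : ℝ := 1 / (4 * (M + 1)) with ht
    have ht0 : 0 < t := by positivity
    have g1 := gg (y0 + t • (y - y0)) ?_ ?_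
    · have e1 : x1 + L (y0 + t • (y - y0)) = (1 - t) • (x1 + L y0) + t • (x1 + L y) := by
        rw [map_add, map_smul, map_sub]
        module
      rw [e1] at g1
      simp only [WW] at g0 g1 ⊢
      rw [om_add, om_smul, om_smul, Complex.add_im, Complex.im_ofReal_mul,
        Complex.im_ofReal_mul, g0, mul_zero, zero_add] at g1
      rcases mul_eq_zero.1 g1 with h | h
      · exact absurd h ht0.ne'
      · exact h
    · simp only [Pi.add_apply, Pi.smul_apply, Pi.sub_apply, smul_eq_mul]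
      rw [hyp, hym, hy]
    · intro q
      simp only [Pi.add_apply, Pi.smul_apply, Pi.sub_apply, smul_eq_mul, add_sub_cancel_left]
      rw [abs_mul, abs_of_pos ht0]
      calc t * |y q - y0 q| ≤ t * M := mul_le_mul_of_nonneg_left (hMq q) ht0.le
        _ ≤ 1 / 4 := by
          rw [ht, div_mul_eq_mul_div, one_mul, div_le_div_iff₀ (by positivity) (by norm_num)]
          linarith
  -- the special point
  obtain ⟨z1, z2, hz⟩ : ∃ z1 z2 : ℂ, (A p).1 * z1 + (A p).2.1 * z2 = Complex.I := by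
    by_cases h1 : (A p).1 = 0
    · have h2 : (A p).2.1 ≠ 0 := fun h2 => hp ⟨h1, h2⟩
      refine ⟨0, Complex.I / (A p).2.1, ?_⟩
      rw [mul_zero, zero_add, mul_div_cancel₀ _ h2]
    · refine ⟨Complex.I / (A p).1, 0, ?_⟩
      rw [mul_zero, add_zero, mul_div_cancel₀ _ h1]
  obtain ⟨k0, hk0⟩ : ∃ k0, (A p).2.2.1 k0 - (A m0).2.2.1 k0 ≠ 0 := by
    by_contra hk
    push Not at hk
    have h1 := hT (fun i => (if i = p then 1 else 0) - (if i = m0 then 1 else 0)) ?_ ?_ ?_
    · simp only [if_true, if_neg hpm.symm] at h1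
      norm_num at h1
    · rw [Finset.sum_sub_distrib]
      simp
    · intro k
      simp only [sub_mul, ite_mul, one_mul, zero_mul, Finset.sum_sub_distrib,
        Finset.sum_ite_eq', Finset.mem_univ, if_true]
      exact hk k
    · calc (Finset.univ.filter (fun i => ((if i = p then (1:ℝ) else 0) -
          (if i = m0 then 1 else 0)) ≠ 0)).card ≤ ({p, m0} : Finset (Fin (l + 5))).card := by
            apply Finset.card_le_card
            intro i hi
            rw [Finset.mem_filter] at hi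
            rw [Finset.mem_insert, Finset.mem_singleton]
            by_contra hc
            push Not at hc
            apply hi.2
            rw [if_neg hc.1, if_neg hc.2, sub_zero]
        _ ≤ 2 := Finset.card_le_two
        _ ≤ 4 := by norm_num
  set v : Fin l → ℝ := Pi.single k0 (((A m0).2.2.2 - (A p).2.2.2) /
    ((A p).2.2.1 k0 - (A m0).2.2.1 k0)) with hv
  set x : X l := (z1, z2, v) with hx
  have hbb : ∀ a : Co l, bb a x = a.2.2.1 k0 * (((A m0).2.2.2 - (A p).2.2.2) /
    ((A p).2.2.1 k0 - (A m0).2.2.1 k0)) := by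
    intro a
    unfold bb
    rw [Finset.sum_eq_single k0]
    · rw [hx, hv]
      simp only [Pi.single_eq_same]
    · intro k _ hk
      rw [hx, hv]
      simp only [Pi.single_eq_of_ne hk, mul_zero]
    · intro h3
      exact absurd (Finset.mem_univ _) h3
  have hevx : ev (A p) x = ev (A m0) x := by
    unfold ev
    rw [hbb, hbb]
    have e1 : om (A p) x = Complex.I := hz
    have e2 : om (A m0) x = 0 := by
      unfold om
      rw [hw0.1, hw0.2, zero_mul, zero_mul, add_zero]
    rw [e1, e2, Complex.I_re, Complex.zero_re]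
    field_simp
    ring
  have hxx : x1 + L (fun i => ev (A i) x - ev (A 0) x) = x := by
    rw [← sub_eq_zero]
    apply hA
    intro i
    rw [lin_sub, lin_sub]
    have := hL (fun i => ev (A i) x - ev (A 0) x) i
    linarith
  have := gall (fun i => ev (A i) x - ev (A 0) x) (by rw [hevx])
  rw [hxx] at this
  have e1 : WW A x p = Complex.I := hz
  rw [e1, Complex.I_im] at this
  exact one_ne_zero this

theorem cr_comp {E : Type*} [TopologicalSpace E] (f : E → ℂ) (g : E → ℝ) (x0 : E)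
    (hf : ContinuousAt f x0) (hg : ContinuousAt g x0) (σ : ℝ) (hlt : |g x0| < ‖f x0‖) :
    ContinuousAt (fun x => cr (f x) (g x) σ) x0 := by
  have h1 : ContinuousAt (fun x => (f x, g x)) x0 := hf.prodMk hg
  have h2 := cr_cont (f x0) (g x0) σ hlt
  exact ContinuousAt.comp (g := fun p : ℂ × ℝ => cr p.1 p.2 σ) (f := fun x => (f x, g x)) h2 h1

theorem cont_WW (A : Fan l) (i : Fin (l + 5)) : Continuous (fun x : X l => WW A x i) := by
  unfold WW om
  fun_prop

theorem cont_BB_CLR (A : Fan l) (i : Fin (l + 5)) : Continuous (fun x : X l => BB A x i) := by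
  unfold BB bb
  fun_prop

/-- TARGET: relation between the entries of the `j`-column over one class -/
theorem class_rel (A : Fan l) (hA : ND A) (W : Finset (Fin (l + 5)))
    (ρ : Fin (l + 5) → Fin (l + 5)) (h : Deg A W ρ)
    (lam : Fin (l + 5) → Fin (l + 5) → ℝ) (hK : InK A lam)
    (m0 j p : Fin (l + 5)) (hm0 : m0 ∈ W) (hT : Typ A m0) (hj : j ∈ W) (hjm : j ≠ m0) (hp : p ∉ W)
    (hz : ∀ s q, s ∉ W → q ∉ W → lam s q = 0) (hm : ∀ q, q ∉ W → lam m0 q = 0)
    (hnr : ∀ s, ρ s = ρ p → s ≠ p → lam s j = 0) :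
    ∃ β : ℝ, 0 < β ∧ lam p j = β * lam m0 j := by
  have hw0 := h.zero m0 hm0
  have hjp : j ≠ p := fun hh => hp (hh ▸ hj)
  have hpm : p ≠ m0 := fun hh => hp (hh ▸ hm0)
  obtain ⟨x0, e1, e2, e3, e4⟩ := base_pt A hA m0 j p hT hw0 (h.nz p hp) hjm hjp
  have hWz : ∀ m ∈ W, ∀ x : X l, WW A x m = 0 := by
    intro m hmW x
    have := h.zero m hmW
    unfold WW om
    rw [this.1, this.2, zero_mul, zero_mul, add_zero]
  -- the curve of crossing points
  have hb0 : |BB A x0 p - BB A x0 m0| < ‖WW A x0 p - WW A x0 m0‖ := by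
    rw [hWz m0 hm0 x0, sub_zero]
    have h1 : BB A x0 p - BB A x0 m0 = -(WW A x0 p).re := by
      rw [ev_pt, ev_pt] at e1
      simp only [pt, mul_one] at e1
      rw [hWz m0 hm0 x0, Complex.zero_re] at e1
      linarith
    rw [h1, abs_neg]
    exact Complex.abs_re_lt_norm.2 e4
  have hone : ((WW A x0 p - WW A x0 m0) * 1).re = -(BB A x0 p - BB A x0 m0) := by
    rw [ev_pt, ev_pt] at e1
    simp only [pt] at e1
    rw [sub_mul, Complex.sub_re]
    linarith
  obtain ⟨σ0, hσ0, hcr0⟩ : ∃ σ0 : ℝ, (σ0 = 1 ∨ σ0 = -1) ∧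
      cr (WW A x0 p - WW A x0 m0) (BB A x0 p - BB A x0 m0) σ0 = 1 := by
    rcases cr_unique _ _ hb0 1 norm_one hone with h1 | h1
    · exact ⟨1, Or.inl rfl, h1.symm⟩
    · exact ⟨-1, Or.inr rfl, h1.symm⟩
  have hcw : Continuous (fun x : X l => WW A x p - WW A x m0) := (cont_WW A p).sub (cont_WW A m0)
  have hcb : Continuous (fun x : X l => BB A x p - BB A x m0) := (cont_BB_CLR A p).sub (cont_BB_CLR A m0)
  have hce : ContinuousAt (fun x : X l =>
      cr (WW A x p - WW A x m0) (BB A x p - BB A x m0) σ0) x0 := by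
    exact cr_comp (fun x : X l => WW A x p - WW A x m0) (fun x : X l => BB A x p - BB A x m0) x0
      hcw.continuousAt hcb.continuousAt σ0 hb0
  have hcy : ∀ q, ContinuousAt (fun x : X l => pt (WW A x) (BB A x)
      (cr (WW A x p - WW A x m0) (BB A x p - BB A x m0) σ0) q) x0 := by
    intro q
    have h1 : ContinuousAt (fun x : X l => WW A x q *
        cr (WW A x p - WW A x m0) (BB A x p - BB A x m0) σ0) x0 :=
      (cont_WW A q).continuousAt.mul hce
    have h2 : ContinuousAt (fun x : X l => (WW A x q *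
        cr (WW A x p - WW A x m0) (BB A x p - BB A x m0) σ0).re) x0 :=
      Filter.Tendsto.comp (Complex.continuous_re.tendsto _) h1
    exact (cont_BB_CLR A q).continuousAt.add h2
  have hy0 : ∀ q, pt (WW A x0) (BB A x0)
      (cr (WW A x0 p - WW A x0 m0) (BB A x0 p - BB A x0 m0) σ0) q = ev (A q) x0 := by
    intro q
    rw [hcr0, ev_pt]
  have n1 : ∀ᶠ x in nhds x0, |BB A x p - BB A x m0| < ‖WW A x p - WW A x m0‖ :=
    (hcb.abs.continuousAt).eventually_lt hcw.norm.continuousAt hb0
  have n2 : ∀ᶠ x in nhds x0, ∀ q, q ≠ p → q ≠ m0 → pt (WW A x) (BB A x)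
      (cr (WW A x p - WW A x m0) (BB A x p - BB A x m0) σ0) q < pt (WW A x) (BB A x)
      (cr (WW A x p - WW A x m0) (BB A x p - BB A x m0) σ0) m0 := by
    rw [Filter.eventually_all]
    intro q
    by_cases hq1 : q = p
    · exact Filter.Eventually.of_forall (fun x h1 => absurd hq1 h1)
    by_cases hq2 : q = m0
    · exact Filter.Eventually.of_forall (fun x _ h1 => absurd hq2 h1)
    filter_upwards [(hcy q).eventually_lt (hcy m0) (by rw [hy0, hy0]; exact e2 q hq1 hq2)]
      with x hx _ _ using hx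
  have n3 : ∀ᶠ x in nhds x0, ∀ q, q ≠ j → pt (WW A x) (BB A x)
      (cr (WW A x p - WW A x m0) (BB A x p - BB A x m0) σ0) j < pt (WW A x) (BB A x)
      (cr (WW A x p - WW A x m0) (BB A x p - BB A x m0) σ0) q := by
    rw [Filter.eventually_all]
    intro q
    by_cases hq1 : q = j
    · exact Filter.Eventually.of_forall (fun x h1 => absurd hq1 h1)
    filter_upwards [(hcy j).eventually_lt (hcy q) (by rw [hy0, hy0]; exact e3 q hq1)]
      with x hx _ using hx
  obtain ⟨U, hU, hUo, hUx⟩ := mem_nhds_iff.1 (n1.and (n2.and n3))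
  obtain ⟨x, hxU, hxR⟩ := reg_dense A hA U hUo ⟨x0, hUx⟩
  obtain ⟨hx1, hx2, hx3⟩ := hU hxU
  -- values of the elements of `W`
  have hval : ∀ m ∈ W, ∀ e, pt (WW A x) (BB A x) e m = BB A x m := by
    intro m hmW e
    simp only [pt]
    rw [hWz m hmW x, zero_mul, Complex.zero_re, add_zero]
  have hBj : ∀ m ∈ W, m ≠ j → BB A x j < BB A x m := by
    intro m hmW hmj
    have := hx3 m hmj
    rwa [hval m hmW, hval j hj] at this
  have hbal := pair_balance A lam hK p m0 hpm hT (by
    rintro ⟨h1, h2⟩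
    apply h.nz p hp
    rw [h1, h2]
    exact hw0) x hxR hx1
  rw [cl_deg A W ρ h p m0 hp hm0] at hbal
  have hcl : ∀ s, ρ s = ρ p → s ∉ W := by
    intro s hs hsW
    have := h.maps p hp
    rw [← hs, h.fix s hsW] at this
    exact this hsW
  have htie : ∀ s, ρ s = ρ p → ∀ σ : ℝ, (σ = 1 ∨ σ = -1) →
      pt (WW A x) (BB A x) (cr (WW A x s - WW A x m0) (BB A x s - BB A x m0) σ) s =
      pt (WW A x) (BB A x) (cr (WW A x s - WW A x m0) (BB A x s - BB A x m0) σ) m0 := by
    intro s hs σ hσ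
    obtain ⟨hSB, e, he, ha, hb⟩ := (h.cls s p (hcl s hs) hp).1 hs
    have hBB : BB A x s = BB A x p := by
      unfold BB bb
      rw [hSB]
    have hWWs : WW A x s = e * WW A x p := by
      unfold WW om
      rw [ha, hb]
      ring
    have hlt : |BB A x s - BB A x m0| < ‖WW A x s - WW A x m0‖ := by
      rw [hWz m0 hm0 x, sub_zero] at hx1 ⊢
      rw [hBB, hWWs, norm_mul, he, one_mul]
      exact hx1
    have := cr_re (WW A x s - WW A x m0) (BB A x s - BB A x m0) σ hlt
    rw [sub_mul, Complex.sub_re] at this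
    simp only [pt]
    linarith
  have hJ : ∀ s, ρ s = ρ p → ∀ σ : ℝ, (σ = 1 ∨ σ = -1) → ∃ t : ℝ, (t = 0 ∨ t = 1) ∧
      JJ lam s m0 (pt (WW A x) (BB A x) (cr (WW A x s - WW A x m0) (BB A x s - BB A x m0) σ)) =
        t * (lam s j - lam m0 j) ∧ (s = p → σ = σ0 → t = 1) := by
    intro s hs σ hσ
    obtain ⟨t, ht, hJt, ht1⟩ := JJ_val lam
      (pt (WW A x) (BB A x) (cr (WW A x s - WW A x m0) (BB A x s - BB A x m0) σ)) s m0 j W
      (hcl s hs) hj hjm hz hm hm0 (htie s hs σ hσ) (by
        intro m hmW hmj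
        rw [hval m hmW, hval j hj]
        exact hBj m hmW hmj)
    refine ⟨t, ht, hJt, fun h1 h2 => ht1 ?_ ?_⟩
    · subst h1
      subst h2
      intro q hq1 hq2
      rw [htie s hs σ hσ]
      exact hx2 q hq1 hq2
    · subst h1
      subst h2
      exact hx3
  have hkap : ∀ s, ρ s = ρ p → ∃ t : ℝ, 0 ≤ t ∧
      kap lam s m0 (WW A x) (BB A x) = t * (lam s j - lam m0 j) ∧ (s = p → 0 < t) := by
    intro s hs
    obtain ⟨t1, h1, h2, h3⟩ := hJ s hs 1 (Or.inl rfl)
    obtain ⟨t2, h4, h5, h6⟩ := hJ s hs (-1) (Or.inr rfl)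
    have p1 : 0 ≤ t1 := by rcases h1 with h1 | h1 <;> rw [h1] <;> norm_num
    have p2 : 0 ≤ t2 := by rcases h4 with h1 | h1 <;> rw [h1] <;> norm_num
    refine ⟨t1 + t2, add_nonneg p1 p2, ?_, fun hsp => ?_⟩
    · unfold kap
      rw [h2, h5]
      ring
    · rcases hσ0 with h7 | h7
      · have := h3 hsp h7.symm
        linarith
      · have := h6 hsp h7.symm
        linarith
  choose! t ht0 htk htp using hkap
  have hp' : p ∈ Finset.univ.filter (fun s => ρ s = ρ p) := by
    rw [Finset.mem_filter]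
    exact ⟨Finset.mem_univ _, rfl⟩
  rw [← Finset.add_sum_erase _ _ hp', htk p rfl] at hbal
  have hrest : ∑ s ∈ (Finset.univ.filter (fun s => ρ s = ρ p)).erase p,
      kap lam s m0 (WW A x) (BB A x) =
      -(∑ s ∈ (Finset.univ.filter (fun s => ρ s = ρ p)).erase p, t s) * lam m0 j := by
    rw [neg_mul, Finset.sum_mul, ← Finset.sum_neg_distrib]
    apply Finset.sum_congr rfl
    intro s hs
    rw [Finset.mem_erase, Finset.mem_filter] at hs
    rw [htk s hs.2.2, hnr s hs.2.2 hs.1]
    ring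
  rw [hrest] at hbal
  set n2' := ∑ s ∈ (Finset.univ.filter (fun s => ρ s = ρ p)).erase p, t s with hn2
  have hn0 : 0 ≤ n2' := Finset.sum_nonneg (fun s hs => by
    rw [Finset.mem_erase, Finset.mem_filter] at hs
    exact ht0 s hs.2.2)
  have htp' := htp p rfl rfl
  refine ⟨1 + n2' / t p, by positivity, ?_⟩
  field_simp
  linarith

end FanRD
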