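import Mathlib
import Pool.Agent.FanRD.Defs
set_option autoImplicit false
set_option maxHeartbeats 4000000
noncomputable section
open MeasureTheory

namespace FanRD

variable {l : ℕ}



theorem slab_pos {E : Type*} [NormedAddCommGroup E] [NormedSpace ℝ E] [FiniteDimensional ℝ E]
    [MeasurableSpace E] [BorelSpace E] (μ : Measure E) [μ.IsAddHaarMeasure]
    (φ : E →L[ℝ] ℝ) (c0 : ℝ) (ξ : E) (hξ : ‖ξ‖ ≤ 1) (κ : ℝ) (hκ : 0 < κ) (hφ : φ ξ = κ)
    (R : ℝ) (hR : 0 ≤ R) (δ : ℝ) (hδ : 0 < δ) :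
    μ {x | ‖x‖ ≤ R ∧ |φ x + c0| ≤ δ} ≤
      ENNReal.ofReal (3 * δ / κ) * μ (Metric.closedBall 0 (R + 1)) := by
  set S : Set E := {x | ‖x‖ ≤ R ∧ |φ x + c0| ≤ δ} with hS
  set s : ℝ := 3 * δ / κ with hs
  have hs0 : 0 < s := by positivity
  have hsκ : s * κ = 3 * δ := by rw [hs]; field_simp
  have hSm : MeasurableSet S := by
    apply IsClosed.measurableSet
    have c1 : IsClosed {x : E | ‖x‖ ≤ R} := isClosed_le continuous_norm continuous_const
    have c2 : IsClosed {x : E | |φ x + c0| ≤ δ} :=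
      isClosed_le ((φ.continuous.add continuous_const).abs) continuous_const
    exact c1.inter c2
  rcases le_or_gt 1 s with h1 | h1
  · have hsub : S ⊆ Metric.closedBall 0 (R + 1) := by
      intro x hx
      rw [mem_closedBall_zero_iff]
      linarith [hx.1]
    calc μ S ≤ μ (Metric.closedBall 0 (R + 1)) := measure_mono hsub
      _ = 1 * μ (Metric.closedBall 0 (R + 1)) := (one_mul _).symm
      _ ≤ ENNReal.ofReal s * μ (Metric.closedBall 0 (R + 1)) := by
          gcongr
          rw [← ENNReal.ofReal_one]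
          exact ENNReal.ofReal_le_ofReal h1
  · set N : ℕ := ⌊1 / s⌋₊ + 1 with hN
    let T : ℕ → Set E := fun j => (fun x => x + (-((j : ℝ) * s) • ξ)) ⁻¹' S
    have hTm : ∀ j, MeasurableSet (T j) := fun j => (measurable_add_const _) hSm
    have hTμ : ∀ j, μ (T j) = μ S := fun j => measure_preimage_add_right μ _ _
    have hdisj : (↑(Finset.range N) : Set ℕ).PairwiseDisjoint T := by
      intro i _ j _ hij
      rw [Function.onFun, Set.disjoint_left]
      intro x hxi hxj
      have a1 := abs_le.1 hxi.2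
      have a2 := abs_le.1 hxj.2
      rw [map_add, map_smul, hφ, smul_eq_mul] at a1 a2
      have e1 : -((i : ℝ) * s) * κ = -(i * (3 * δ)) := by rw [← hsκ]; ring
      have e2 : -((j : ℝ) * s) * κ = -(j * (3 * δ)) := by rw [← hsκ]; ring
      rw [e1] at a1
      rw [e2] at a2
      rcases Nat.lt_or_gt_of_ne hij with h | h
      · have h' : (i : ℝ) + 1 ≤ j := by exact_mod_cast h
        nlinarith [a1.1, a1.2, a2.1, a2.2]
      · have h' : (j : ℝ) + 1 ≤ i := by exact_mod_cast h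
        nlinarith [a1.1, a1.2, a2.1, a2.2]
    have hsub : (⋃ j ∈ Finset.range N, T j) ⊆ Metric.closedBall 0 (R + 1) := by
      intro x hx
      simp only [Set.mem_iUnion] at hx
      obtain ⟨j, hj, hxj⟩ := hx
      rw [mem_closedBall_zero_iff]
      have b1 : ‖x + (-((j : ℝ) * s) • ξ)‖ ≤ R := hxj.1
      have b2 : ‖-((j : ℝ) * s) • ξ‖ ≤ 1 := by
        rw [norm_smul, norm_neg, Real.norm_of_nonneg (by positivity)]
        have hj' : j ≤ ⌊1 / s⌋₊ := by
          have := Finset.mem_range.1 hj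
          omega
        have hj2 : (j : ℝ) ≤ 1 / s := (Nat.le_floor_iff (by positivity)).1 hj'
        have hj3 : (j : ℝ) * s ≤ 1 := by
          rw [le_div_iff₀ hs0] at hj2
          exact hj2
        calc (j : ℝ) * s * ‖ξ‖ ≤ 1 * 1 :=
              mul_le_mul hj3 hξ (norm_nonneg _) zero_le_one
          _ = 1 := one_mul 1
      have b3 : x = (x + (-((j : ℝ) * s) • ξ)) - (-((j : ℝ) * s) • ξ) := by abel
      rw [b3]
      exact (norm_sub_le _ _).trans (add_le_add b1 b2)
    have hsum : (N : ENNReal) * μ S ≤ μ (Metric.closedBall 0 (R + 1)) := by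
      calc (N : ENNReal) * μ S = ∑ j ∈ Finset.range N, μ (T j) := by
            rw [Finset.sum_congr rfl fun j _ => hTμ j, Finset.sum_const, Finset.card_range,
              nsmul_eq_mul]
        _ = μ (⋃ j ∈ Finset.range N, T j) :=
            (measure_biUnion_finset hdisj fun j _ => hTm j).symm
        _ ≤ μ (Metric.closedBall 0 (R + 1)) := measure_mono hsub
    have hone : (1 : ENNReal) ≤ ENNReal.ofReal s * N := by
      rw [← ENNReal.ofReal_natCast, ← ENNReal.ofReal_mul hs0.le, ← ENNReal.ofReal_one]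
      apply ENNReal.ofReal_le_ofReal
      have h2 : 1 / s < (N : ℝ) := by
        rw [hN]
        push_cast
        exact Nat.lt_floor_add_one _
      rw [div_lt_iff₀ hs0] at h2
      linarith
    calc μ S = 1 * μ S := (one_mul _).symm
      _ ≤ (ENNReal.ofReal s * N) * μ S := by gcongr
      _ = ENNReal.ofReal s * (N * μ S) := by rw [mul_assoc]
      _ ≤ ENNReal.ofReal s * μ (Metric.closedBall 0 (R + 1)) := by gcongr

/-- slab volume estimate by disjoint translates -/
theorem slab {E : Type*} [NormedAddCommGroup E] [NormedSpace ℝ E] [FiniteDimensional ℝ E]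
    [MeasurableSpace E] [BorelSpace E] (μ : Measure E) [μ.IsAddHaarMeasure]
    (φ : E →L[ℝ] ℝ) (c0 : ℝ) (ξ : E) (hξ : ‖ξ‖ ≤ 1) (κ : ℝ) (hκ : 0 < κ) (hφ : φ ξ = κ)
    (R : ℝ) (hR : 0 ≤ R) (δ : ℝ) (hδ : 0 ≤ δ) :
    μ {x | ‖x‖ ≤ R ∧ |φ x + c0| ≤ δ} ≤
      ENNReal.ofReal (3 * δ / κ) * μ (Metric.closedBall 0 (R + 1)) := by
  have hle : ∀ δ' ∈ Set.Ioi δ, μ {x | ‖x‖ ≤ R ∧ |φ x + c0| ≤ δ} ≤
      ENNReal.ofReal (3 * δ' / κ) * μ (Metric.closedBall 0 (R + 1)) := by
    intro δ' hδ'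
    have h0 : 0 < δ' := lt_of_le_of_lt hδ hδ'
    refine le_trans (measure_mono ?_) (slab_pos μ φ c0 ξ hξ κ hκ hφ R hR δ' h0)
    intro x hx
    exact ⟨hx.1, hx.2.trans (le_of_lt hδ')⟩
  have hfin : μ (Metric.closedBall (0 : E) (R + 1)) ≠ ⊤ :=
    (isCompact_closedBall (0 : E) (R + 1)).measure_lt_top.ne
  have hlim : Filter.Tendsto (fun δ' : ℝ => ENNReal.ofReal (3 * δ' / κ) *
      μ (Metric.closedBall (0 : E) (R + 1))) (nhdsWithin δ (Set.Ioi δ))
      (nhds (ENNReal.ofReal (3 * δ / κ) * μ (Metric.closedBall (0 : E) (R + 1)))) := by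
    apply ENNReal.Tendsto.mul_const _ (Or.inr hfin)
    apply ENNReal.tendsto_ofReal
    apply tendsto_nhdsWithin_of_tendsto_nhds
    have : Continuous (fun δ' : ℝ => 3 * δ' / κ) := by fun_prop
    exact this.tendsto δ
  exact ge_of_tendsto hlim (Filter.eventually_of_mem self_mem_nhdsWithin hle)


end FanRD
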