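import Mathlib
import Pool.Agent.FanRD.Defs
import Pool.Agent.FanRD.slab
set_option autoImplicit false
set_option maxHeartbeats 4000000
noncomputable section
open MeasureTheory

namespace FanRD

variable {l : ℕ}


theorem haarX_M1 (l : ℕ) : (volume : Measure (X l)).IsAddHaarMeasure := by
  have h1 : (volume : Measure (ℂ × (Fin l → ℝ))).IsAddHaarMeasure := by
    rw [Measure.volume_eq_prod]; infer_instance
  show (volume : Measure (ℂ × ℂ × (Fin l → ℝ))).IsAddHaarMeasure
  rw [Measure.volume_eq_prod]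
  exact Measure.prod.instIsAddHaarMeasure _ _

theorem ptc (A : Fan l) (m : Fin (l + 5)) : Continuous (fun p : X l × ℝ =>
    pt (WW A p.1) (BB A p.1) (Complex.exp (p.2 * Complex.I)) m) := by
  unfold pt WW BB om bb
  fun_prop

/-- TARGET 1: joint measurability -/
theorem ind_measurable (A : Fan l) (i j : Fin (l + 5)) :
    Measurable (fun p : X l × ℝ => ind i j (pt (WW A p.1) (BB A p.1) (Complex.exp (p.2 * Complex.I)))) := by
  classical
  unfold ind
  refine Measurable.ite ?_ measurable_const measurable_const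
  simp only [Set.ofPred_and, Set.ofPred_forall]
  exact (MeasurableSet.iInter fun m => MeasurableSet.iInter fun _ =>
    measurableSet_lt (ptc A m).measurable (ptc A i).measurable).inter
    (MeasurableSet.iInter fun m => MeasurableSet.iInter fun _ =>
    measurableSet_lt (ptc A j).measurable (ptc A m).measurable)

theorem ind_cases {I : Type*} [Fintype I] [DecidableEq I] (i j : I) (y : I → ℝ) :
    ind i j y = 0 ∨ ind i j y = 1 := by
  unfold ind
  split_ifs
  · exact Or.inr rfl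
  · exact Or.inl rfl

theorem ind_abs_M1 {I : Type*} [Fintype I] [DecidableEq I] (i j : I) (y : I → ℝ) :
    ‖ind i j y‖ ≤ 1 := by
  rcases ind_cases i j y with h | h <;> rw [h] <;> simp

theorem tau_abs {I : Type*} [Fintype I] [DecidableEq I] (i j : I) (w : I → ℂ) (B : I → ℝ) :
    ‖tau i j w B‖ ≤ 2 * Real.pi := by
  unfold tau
  have := intervalIntegral.norm_integral_le_of_norm_le_const (a := 0) (b := 2 * Real.pi) (C := 1)
    (f := fun θ : ℝ => ind i j (pt w B (Complex.exp (θ * Complex.I)))) fun θ _ => ind_abs_M1 i j _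
  rwa [sub_zero, abs_of_pos Real.two_pi_pos, one_mul] at this

theorem rad_pos (k : ℕ) : 0 < rad k := by unfold rad; positivity

theorem rad_le (k : ℕ) : rad k ≤ 1 := by
  unfold rad
  rw [div_le_one (by positivity)]
  have : (0 : ℝ) ≤ (Nat.unpair k).2 := Nat.cast_nonneg _
  linarith

theorem vol_ball_le (l k : ℕ) : volume (ball' l k) ≤ volume (Metric.closedBall (0 : X l) 1) := by
  have := haarX_M1 l
  have h1 : ball' l k ⊆ Metric.closedBall (cen l k) 1 :=
    (Metric.ball_subset_ball (rad_le k)).trans Metric.ball_subset_closedBall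
  refine (measure_mono h1).trans (le_of_eq ?_)
  rw [Measure.addHaar_closedBall' _ _ zero_le_one, one_pow, ENNReal.ofReal_one, one_mul]

theorem vol_cb_lt (l : ℕ) (r : ℝ) : volume (Metric.closedBall (0 : X l) r) < ⊤ := by
  have := haarX_M1 l
  exact measure_closedBall_lt_top

theorem vol_ball_lt (l k : ℕ) : volume (ball' l k) < ⊤ :=
  (vol_ball_le l k).trans_lt (vol_cb_lt l 1)

/-- TARGET 2 -/
theorem wk_bound (k : ℕ) (A : Fan l) : ‖wk l k A‖ ≤ 1 := by
  rw [pi_norm_le_iff_of_nonneg zero_le_one]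
  intro q
  unfold wk
  set v : ℝ := (volume (ball' l k)).toReal with hv
  set V : ℝ := (volume (Metric.closedBall (0 : X l) 1)).toReal with hV
  have hv0 : 0 ≤ v := ENNReal.toReal_nonneg
  have hvV : v ≤ V := ENNReal.toReal_mono (vol_cb_lt l 1).ne (vol_ball_le l k)
  have hI : ‖∫ x in ball' l k, tau q.1.1 q.1.2 (WW A x) (BB A x)‖ ≤ 2 * Real.pi * v :=
    norm_setIntegral_le_of_norm_le_const (vol_ball_lt l k) fun x _ => tau_abs _ _ _ _
  have hpi := Real.pi_pos
  have hl : (1 : ℝ) ≤ (l + 5) * (l + 4) := by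
    have : (0 : ℝ) ≤ l := Nat.cast_nonneg l
    nlinarith
  have h2 : 0 ≤ 2 * Real.pi * v / ((l + 5 : ℝ) * (l + 4)) := by positivity
  have h3 : 2 * Real.pi * v / ((l + 5 : ℝ) * (l + 4)) ≤ 2 * Real.pi * v :=
    div_le_self (by positivity) hl
  have h4 : |(∫ x in ball' l k, tau q.1.1 q.1.2 (WW A x) (BB A x)) -
      2 * Real.pi * v / ((l + 5 : ℝ) * (l + 4))| ≤ 4 * Real.pi * V := by
    rw [Real.norm_eq_abs, abs_le] at hI
    have : Real.pi * v ≤ Real.pi * V := mul_le_mul_of_nonneg_left hvV hpi.le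
    rw [abs_le]
    constructor <;> linarith [hI.1, hI.2]
  have hP : (1 : ℝ) ≤ (2 + ‖cen l k‖) ^ (l + 6) :=
    one_le_pow₀ (by linarith [norm_nonneg (cen l k)])
  have hck : 0 < ck l k := by
    unfold ck
    have : 0 ≤ V := ENNReal.toReal_nonneg
    positivity
  rw [Real.norm_eq_abs, abs_mul, abs_of_pos hck]
  refine (mul_le_mul_of_nonneg_left h4 hck.le).trans ?_
  unfold ck
  have hV0 : 0 ≤ V := ENNReal.toReal_nonneg
  have hpV : 0 ≤ 4 * Real.pi * V := by positivity
  rw [one_div, inv_mul_le_iff₀ (by positivity), mul_one]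
  nlinarith

/-- the linear part of a coefficient vector -/
def pj (a : Co l) : X l := (a.1, a.2.1, a.2.2.1)

/-- the functional of `g` at time `e` -/
def fn (e : ℂ) (g : X l) : X l →L[ℝ] ℝ :=
  LinearMap.toContinuousLinearMap
    { toFun := fun x => ((g.1 * x.1 + g.2.1 * x.2.1) * e).re + ∑ k, g.2.2 k * x.2.2 k
      map_add' := by
        intro x y
        simp only [Prod.fst_add, Prod.snd_add, Pi.add_apply, mul_add, add_mul, Complex.add_re,
          Finset.sum_add_distrib]
        ring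
      map_smul' := by
        intro c x
        simp only [Prod.smul_fst, Prod.smul_snd, Pi.smul_apply, smul_eq_mul, RingHom.id_apply,
          Finset.mul_sum, mul_add, Complex.real_smul]
        have h1 : ((g.1 * (↑c * x.1) + g.2.1 * (↑c * x.2.1)) * e).re =
            c * ((g.1 * x.1 + g.2.1 * x.2.1) * e).re := by
          rw [← Complex.re_ofReal_mul]
          congr 1
          ring
        rw [h1]
        congr 1
        refine Finset.sum_congr rfl fun k _ => ?_
        ring }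

theorem fn_apply (e : ℂ) (g x : X l) :
    fn e g x = ((g.1 * x.1 + g.2.1 * x.2.1) * e).re + ∑ k, g.2.2 k * x.2.2 k := rfl

theorem pt_diff (A : Fan l) (x : X l) (e : ℂ) (p r : Fin (l + 5)) :
    pt (WW A x) (BB A x) e p - pt (WW A x) (BB A x) e r =
      fn e (pj (A p) - pj (A r)) x + ((A p).2.2.2 - (A r).2.2.2) := by
  rw [fn_apply]
  unfold pt WW BB om bb pj
  simp only [Prod.fst_sub, Prod.snd_sub, Pi.sub_apply, sub_mul, Finset.sum_sub_distrib]
  have h1 : (((A p).1 * x.1 - (A r).1 * x.1 + ((A p).2.1 * x.2.1 - (A r).2.1 * x.2.1)) * e).re =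
      (((A p).1 * x.1 + (A p).2.1 * x.2.1) * e).re - (((A r).1 * x.1 + (A r).2.1 * x.2.1) * e).re := by
    rw [← Complex.sub_re]
    congr 1
    ring
  rw [h1]
  ring

theorem fn_lower (e : ℂ) (he : ‖e‖ = 1) (g : X l) : ∃ ξ : X l, ‖ξ‖ ≤ 1 ∧ fn e g ξ = ‖g‖ := by
  have hz : ‖g‖ = 0 → ∃ ξ : X l, ‖ξ‖ ≤ 1 ∧ fn e g ξ = ‖g‖ := fun h =>
    ⟨0, by simp, by rw [map_zero, h]⟩
  have hmul : ∀ z : ℂ, z ≠ 0 → (z * ((starRingEnd ℂ) (z * e) / (‖z‖ : ℂ)) * e).re = ‖z‖ := by
    intro z hz
    have hz' : (‖z‖ : ℂ) ≠ 0 := by exact_mod_cast norm_ne_zero_iff.2 hz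
    have h1 : z * ((starRingEnd ℂ) (z * e) / (‖z‖ : ℂ)) * e =
        (z * e) * (starRingEnd ℂ) (z * e) / (‖z‖ : ℂ) := by ring
    rw [h1, Complex.mul_conj, Complex.normSq_eq_norm_sq, norm_mul, he, mul_one,
      ← Complex.ofReal_div, Complex.ofReal_re, sq, mul_self_div_self]
  have hnorm : ∀ z : ℂ, z ≠ 0 → ‖(starRingEnd ℂ) (z * e) / (‖z‖ : ℂ)‖ = 1 := by
    intro z hz
    rw [norm_div, RCLike.norm_conj, norm_mul, he, mul_one, Complex.norm_real, norm_norm,
      div_self (norm_ne_zero_iff.2 hz)]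
  rcases eq_or_ne ‖g‖ 0 with h0 | h0
  · exact hz h0
  have hmax : ‖g‖ = max ‖g.1‖ (max ‖g.2.1‖ ‖g.2.2‖) := rfl
  rcases max_choice ‖g.1‖ (max ‖g.2.1‖ ‖g.2.2‖) with h1 | h1
  · rw [h1] at hmax
    have hne : g.1 ≠ 0 := by
      rw [← norm_ne_zero_iff, ← hmax]; exact h0
    refine ⟨((starRingEnd ℂ) (g.1 * e) / (‖g.1‖ : ℂ), 0, 0), ?_, ?_⟩
    · rw [Prod.norm_def, Prod.norm_def]
      simp only [norm_zero, max_self]
      rw [hnorm _ hne]
      simp
    · rw [fn_apply, hmax]
      simp only [mul_zero, add_zero, Pi.zero_apply, Finset.sum_const_zero]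
      exact hmul _ hne
  · rcases max_choice ‖g.2.1‖ ‖g.2.2‖ with h2 | h2
    · rw [h1, h2] at hmax
      have hne : g.2.1 ≠ 0 := by
        rw [← norm_ne_zero_iff, ← hmax]; exact h0
      refine ⟨(0, (starRingEnd ℂ) (g.2.1 * e) / (‖g.2.1‖ : ℂ), 0), ?_, ?_⟩
      · rw [Prod.norm_def, Prod.norm_def]
        simp only [norm_zero]
        rw [hnorm _ hne]
        simp
      · rw [fn_apply, hmax]
        simp only [mul_zero, zero_add, Pi.zero_apply, Finset.sum_const_zero, add_zero]
        exact hmul _ hne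
    · rw [h1, h2] at hmax
      rcases isEmpty_or_nonempty (Fin l) with hl | hl
      · exfalso
        apply h0
        rw [hmax]
        have : g.2.2 = 0 := Subsingleton.elim _ _
        rw [this, norm_zero]
      · obtain ⟨k, hk⟩ := Finite.exists_max fun k => ‖g.2.2 k‖
        have hk' : ‖g.2.2‖ = ‖g.2.2 k‖ :=
          le_antisymm ((pi_norm_le_iff_of_nonneg (norm_nonneg _)).2 hk) (norm_le_pi_norm _ k)
        refine ⟨(0, 0, Pi.single k (if 0 ≤ g.2.2 k then 1 else -1)), ?_, ?_⟩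
        · rw [Prod.norm_def, Prod.norm_def]
          simp only [norm_zero]
          refine max_le zero_le_one (max_le zero_le_one ?_)
          rw [pi_norm_le_iff_of_nonneg zero_le_one]
          intro m
          by_cases hm : m = k
          · subst hm
            rw [Pi.single_eq_same]
            split_ifs <;> simp
          · rw [Pi.single_eq_of_ne hm]; simp
        · rw [fn_apply, hmax, hk']
          simp only [mul_zero, add_zero, zero_mul, Complex.zero_re, zero_add]
          rw [Finset.sum_eq_single k]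
          · rw [Pi.single_eq_same, Real.norm_eq_abs]
            split_ifs with h
            · rw [abs_of_nonneg h, mul_one]
            · rw [abs_of_neg (not_le.1 h)]; ring
          · intro m _ hm
            rw [Pi.single_eq_of_ne hm, mul_zero]
          · intro h; exact absurd (Finset.mem_univ _) h

theorem meas_pair (e : ℂ) (he : ‖e‖ = 1) (g : X l) (c0 γ R δ : ℝ) (hγ : 0 < γ) (hg : γ ≤ ‖g‖)
    (hR : 0 ≤ R) (hδ : 0 ≤ δ) :
    volume {x : X l | ‖x‖ ≤ R ∧ |fn e g x + c0| ≤ δ} ≤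
      ENNReal.ofReal (3 * δ / γ) * volume (Metric.closedBall (0 : X l) (R + 1)) := by
  have := haarX_M1 l
  obtain ⟨ξ, hξ, hφ⟩ := fn_lower e he g
  refine (slab volume (fn e g) c0 ξ hξ ‖g‖ (hγ.trans_le hg) hφ R hR δ hδ).trans ?_
  gcongr

theorem pt_close (A A' : Fan l) (x : X l) (e : ℂ) (he : ‖e‖ = 1) (R : ℝ) (hR : 1 ≤ R) (hx : ‖x‖ ≤ R)
    (p : Fin (l + 5)) :
    |pt (WW A x) (BB A x) e p - pt (WW A' x) (BB A' x) e p| ≤ (l + 3) * R * dist A A' := by
  set D := dist A A' with hD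
  have hD0 : 0 ≤ D := dist_nonneg
  have hp : ‖A p - A' p‖ ≤ D := by
    rw [hD, dist_eq_norm]; exact norm_le_pi_norm (A - A') p
  have d1 : ‖(A p).1 - (A' p).1‖ ≤ D := (norm_fst_le (A p - A' p)).trans hp
  have d2 : ‖(A p).2.1 - (A' p).2.1‖ ≤ D :=
    (norm_fst_le (A p - A' p).2).trans ((norm_snd_le (A p - A' p)).trans hp)
  have d3' : ‖(A p).2.2.1 - (A' p).2.2.1‖ ≤ D :=
    (norm_fst_le (A p - A' p).2.2).trans ((norm_snd_le (A p - A' p).2).trans
      ((norm_snd_le (A p - A' p)).trans hp))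
  have d3 : ∀ k, |(A p).2.2.1 k - (A' p).2.2.1 k| ≤ D := fun k =>
    (norm_le_pi_norm ((A p).2.2.1 - (A' p).2.2.1) k).trans d3'
  have d4 : |(A p).2.2.2 - (A' p).2.2.2| ≤ D :=
    (norm_snd_le (A p - A' p).2.2).trans ((norm_snd_le (A p - A' p).2).trans
      ((norm_snd_le (A p - A' p)).trans hp))
  have x1 : ‖x.1‖ ≤ R := (norm_fst_le x).trans hx
  have x2 : ‖x.2.1‖ ≤ R := (norm_fst_le x.2).trans ((norm_snd_le x).trans hx)
  have x3 : ∀ k, |x.2.2 k| ≤ R := fun k =>
    (norm_le_pi_norm x.2.2 k).trans ((norm_snd_le x.2).trans ((norm_snd_le x).trans hx))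
  have heq : pt (WW A x) (BB A x) e p - pt (WW A' x) (BB A' x) e p =
      ((((A p).1 - (A' p).1) * x.1 + ((A p).2.1 - (A' p).2.1) * x.2.1) * e).re +
      (∑ k, ((A p).2.2.1 k - (A' p).2.2.1 k) * x.2.2 k) + ((A p).2.2.2 - (A' p).2.2.2) := by
    unfold pt WW BB om bb
    simp only [sub_mul, Finset.sum_sub_distrib]
    have h1 : (((A p).1 * x.1 - (A' p).1 * x.1 + ((A p).2.1 * x.2.1 - (A' p).2.1 * x.2.1)) * e).re =
      (((A p).1 * x.1 + (A p).2.1 * x.2.1) * e).re -
        (((A' p).1 * x.1 + (A' p).2.1 * x.2.1) * e).re := by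
      rw [← Complex.sub_re]
      congr 1
      ring
    rw [h1]
    ring
  rw [heq]
  have b1 : |((((A p).1 - (A' p).1) * x.1 + ((A p).2.1 - (A' p).2.1) * x.2.1) * e).re| ≤
      D * R + D * R := by
    refine (Complex.abs_re_le_norm _).trans ?_
    rw [norm_mul, he, mul_one]
    refine (norm_add_le _ _).trans ?_
    rw [norm_mul, norm_mul]
    exact add_le_add (mul_le_mul d1 x1 (norm_nonneg _) hD0) (mul_le_mul d2 x2 (norm_nonneg _) hD0)
  have b2 : |∑ k, ((A p).2.2.1 k - (A' p).2.2.1 k) * x.2.2 k| ≤ l * (D * R) := by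
    refine (Finset.abs_sum_le_sum_abs _ _).trans ?_
    refine (Finset.sum_le_card_nsmul _ _ (D * R) fun k _ => ?_).trans (le_of_eq ?_)
    · rw [abs_mul]
      exact mul_le_mul (d3 k) (x3 k) (abs_nonneg _) hD0
    · rw [Finset.card_univ, Fintype.card_fin, nsmul_eq_mul]
  have b3 : D ≤ D * R := le_mul_of_one_le_right hD0 hR
  refine (abs_add_le _ _).trans ?_
  refine (add_le_add ((abs_add_le _ _).trans (add_le_add b1 b2)) (d4.trans b3)).trans (le_of_eq ?_)
  ring

theorem ind_ne {I : Type*} [Fintype I] [DecidableEq I] (i j : I) (y y' : I → ℝ)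
    (h : ind i j y ≠ ind i j y') : ∃ p r, p ≠ r ∧ |y p - y r| ≤ |(y p - y' p) - (y r - y' r)| := by
  by_contra hcon
  push Not at hcon
  have hiff : ∀ p r, p ≠ r → (y p < y r ↔ y' p < y' r) := by
    intro p r hpr
    have h1 := hcon p r hpr
    constructor
    · intro h2
      by_contra h3
      rw [not_lt] at h3
      have : |y p - y r| ≤ |(y p - y' p) - (y r - y' r)| := by
        rw [abs_of_neg (by linarith), abs_of_neg (by linarith)]
        linarith
      linarith
    · intro h2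
      by_contra h3
      rw [not_lt] at h3
      have : |y p - y r| ≤ |(y p - y' p) - (y r - y' r)| := by
        rw [abs_of_nonneg (by linarith), abs_of_pos (by linarith)]
        linarith
      linarith
  apply h
  unfold ind
  have e1 : ((∀ m, m ≠ i → y m < y i) ∧ (∀ m, m ≠ j → y j < y m)) ↔
      ((∀ m, m ≠ i → y' m < y' i) ∧ (∀ m, m ≠ j → y' j < y' m)) := by
    refine and_congr (forall_congr' fun m => forall_congr' fun hm => hiff m i hm)
      (forall_congr' fun m => forall_congr' fun hm => hiff j m (Ne.symm hm))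
  simp only [e1]

theorem lint_bound (k : ℕ) (A A' : Fan l) (γ : ℝ) (hγ : 0 < γ)
    (hA : ∀ p r, p ≠ r → γ ≤ ‖pj (A p) - pj (A r)‖) (i j : Fin (l + 5)) (e : ℂ) (he : ‖e‖ = 1) :
    ∫⁻ x in ball' l k, ‖ind i j (pt (WW A x) (BB A x) e) - ind i j (pt (WW A' x) (BB A' x) e)‖ₑ ≤
      ((l + 5) * (l + 5) : ℕ) * (ENNReal.ofReal (3 * (2 * ((l + 3) * (‖cen l k‖ + 1) * dist A A')) / γ) *
        volume (Metric.closedBall (0 : X l) (‖cen l k‖ + 1 + 1))) := by
  classical
  set R : ℝ := ‖cen l k‖ + 1 with hR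
  have hR1 : 1 ≤ R := by linarith [norm_nonneg (cen l k)]
  have hR0 : 0 ≤ R := by linarith
  set δ : ℝ := 2 * ((l + 3) * R * dist A A') with hδ
  have hδ0 : 0 ≤ δ := by positivity
  set S : Fin (l + 5) × Fin (l + 5) → Set (X l) := fun q =>
    if q.1 ≠ q.2 then {x : X l | ‖x‖ ≤ R ∧
      |fn e (pj (A q.1) - pj (A q.2)) x + ((A q.1).2.2.2 - (A q.2).2.2.2)| ≤ δ} else ∅ with hS
  have hSm : ∀ q, MeasurableSet (S q) := by
    intro q
    rw [hS]
    by_cases hq : q.1 ≠ q.2
    · simp only [if_pos hq]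
      refine MeasurableSet.inter ?_ ?_
      · exact (isClosed_le continuous_norm continuous_const).measurableSet
      · exact (isClosed_le (((fn e (pj (A q.1) - pj (A q.2))).continuous.add
          continuous_const).abs) continuous_const).measurableSet
    · simp only [if_neg hq]; exact MeasurableSet.empty
  have hSv : ∀ q, volume (S q) ≤ ENNReal.ofReal (3 * δ / γ) *
      volume (Metric.closedBall (0 : X l) (R + 1)) := by
    intro q
    rw [hS]
    by_cases hq : q.1 ≠ q.2
    · simp only [if_pos hq]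
      exact meas_pair e he _ _ γ R δ hγ (hA _ _ hq) hR0 hδ0
    · simp only [if_neg hq, measure_empty]; exact bot_le
  have hU : MeasurableSet (⋃ q, S q) := MeasurableSet.iUnion hSm
  have hpt : ∀ x ∈ ball' l k,
      ‖ind i j (pt (WW A x) (BB A x) e) - ind i j (pt (WW A' x) (BB A' x) e)‖ₑ ≤
        (⋃ q, S q).indicator (1 : X l → ENNReal) x := by
    intro x hx
    have hxR : ‖x‖ ≤ R := by
      unfold ball' at hx
      rw [Metric.mem_ball, dist_eq_norm] at hx
      have h1 : ‖x‖ ≤ ‖x - cen l k‖ + ‖cen l k‖ := by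
        have := norm_add_le (x - cen l k) (cen l k)
        rwa [sub_add_cancel] at this
      linarith [rad_le k]
    by_cases hne : ind i j (pt (WW A x) (BB A x) e) = ind i j (pt (WW A' x) (BB A' x) e)
    · rw [hne, sub_self, enorm_zero]; exact bot_le
    · obtain ⟨p, r, hpr, hle⟩ := ind_ne i j _ _ hne
      have hxU : x ∈ ⋃ q, S q := by
        rw [Set.mem_iUnion]
        refine ⟨(p, r), ?_⟩
        rw [hS]
        simp only [if_pos hpr]
        refine ⟨hxR, ?_⟩
        rw [← pt_diff]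
        refine hle.trans ?_
        refine (abs_sub _ _).trans ?_
        have c1 := pt_close A A' x e he R hR1 hxR p
        have c2 := pt_close A A' x e he R hR1 hxR r
        rw [hδ]
        linarith
      rw [Set.indicator_of_mem hxU, Pi.one_apply, Real.enorm_eq_ofReal_abs]
      rw [ENNReal.ofReal_le_one]
      rcases ind_cases i j (pt (WW A x) (BB A x) e) with h1 | h1 <;>
      rcases ind_cases i j (pt (WW A' x) (BB A' x) e) with h2 | h2 <;>
      rw [h1, h2] <;> norm_num
  calc ∫⁻ x in ball' l k, ‖ind i j (pt (WW A x) (BB A x) e) - ind i j (pt (WW A' x) (BB A' x) e)‖ₑ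
      ≤ ∫⁻ x in ball' l k, (⋃ q, S q).indicator (1 : X l → ENNReal) x :=
        setLIntegral_mono' Metric.isOpen_ball.measurableSet hpt
    _ ≤ ∫⁻ x, (⋃ q, S q).indicator (1 : X l → ENNReal) x := setLIntegral_le_lintegral _ _
    _ = volume (⋃ q, S q) := lintegral_indicator_one hU
    _ ≤ ∑ q, volume (S q) := measure_iUnion_fintype_le _ _
    _ ≤ ∑ _q : Fin (l + 5) × Fin (l + 5), ENNReal.ofReal (3 * δ / γ) *
      volume (Metric.closedBall (0 : X l) (R + 1)) := Finset.sum_le_sum fun q _ => hSv q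
    _ = _ := by
      rw [Finset.sum_const, Finset.card_univ, Fintype.card_prod, Fintype.card_fin, nsmul_eq_mul]

theorem tau_meas_M1 (A : Fan l) (i j : Fin (l + 5)) :
    StronglyMeasurable fun x : X l => tau i j (WW A x) (BB A x) := by
  have h := (ind_measurable A i j).stronglyMeasurable.integral_prod_right'
    (ν := (volume : Measure ℝ).restrict (Set.Ioc 0 (2 * Real.pi)))
  have heq : (fun x : X l => tau i j (WW A x) (BB A x)) = fun x : X l =>
      ∫ θ in Set.Ioc 0 (2 * Real.pi), ind i j (pt (WW A x) (BB A x) (Complex.exp (θ * Complex.I))) := by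
    funext x
    unfold tau
    rw [intervalIntegral.integral_of_le Real.two_pi_pos.le]
  rw [heq]
  exact h

theorem tau_int_M1 (k : ℕ) (A : Fan l) (i j : Fin (l + 5)) :
    IntegrableOn (fun x : X l => tau i j (WW A x) (BB A x)) (ball' l k) :=
  Measure.integrableOn_of_bounded (vol_ball_lt l k).ne (tau_meas_M1 A i j).aestronglyMeasurable
    (M := 2 * Real.pi) (Filter.Eventually.of_forall fun x => tau_abs _ _ _ _)

set_option maxHeartbeats 4000000 in
theorem th_int (A : Fan l) (x : X l) (i j : Fin (l + 5)) :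
    IntegrableOn (fun θ : ℝ => ind i j (pt (WW A x) (BB A x) (Complex.exp (θ * Complex.I))))
      (Set.Ioc 0 (2 * Real.pi)) := by
  refine Measure.integrableOn_of_bounded (M := 1) measure_Ioc_lt_top.ne ?_
    (Filter.Eventually.of_forall fun _ => ind_abs_M1 _ _ _)
  have : Measurable fun θ : ℝ => ind i j (pt (WW A x) (BB A x) (Complex.exp (θ * Complex.I))) :=
    (ind_measurable A i j).comp (measurable_const.prodMk measurable_id)
  exact this.aestronglyMeasurable

theorem int_bound (k : ℕ) (A A' : Fan l) (γ : ℝ) (hγ : 0 < γ)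
    (hA : ∀ p r, p ≠ r → γ ≤ ‖pj (A p) - pj (A r)‖) (i j : Fin (l + 5)) :
    |(∫ x in ball' l k, tau i j (WW A x) (BB A x)) - ∫ x in ball' l k, tau i j (WW A' x) (BB A' x)| ≤
      2 * Real.pi * (((l + 5) * (l + 5)) *
        ((3 * (2 * ((l + 3) * (‖cen l k‖ + 1) * dist A A')) / γ) *
        ((‖cen l k‖ + 1 + 1) ^ (l + 4) * (volume (Metric.closedBall (0 : X l) 1)).toReal))) := by
  have hH := haarX_M1 l
  rw [← integral_sub (tau_int_M1 k A i j) (tau_int_M1 k A' i j)]
  set Bd : ENNReal := ((l + 5) * (l + 5) : ℕ) *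
    (ENNReal.ofReal (3 * (2 * ((l + 3) * (‖cen l k‖ + 1) * dist A A')) / γ) *
        volume (Metric.closedBall (0 : X l) (‖cen l k‖ + 1 + 1))) with hBd
  set F : X l → ℝ → ℝ := fun x θ => ind i j (pt (WW A x) (BB A x) (Complex.exp (θ * Complex.I))) -
    ind i j (pt (WW A' x) (BB A' x) (Complex.exp (θ * Complex.I))) with hF
  have hFm : Measurable (Function.uncurry F) := (ind_measurable A i j).sub (ind_measurable A' i j)
  have h1 : ∀ x, tau i j (WW A x) (BB A x) - tau i j (WW A' x) (BB A' x) =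
      ∫ θ in Set.Ioc 0 (2 * Real.pi), F x θ := by
    intro x
    unfold tau
    rw [intervalIntegral.integral_of_le Real.two_pi_pos.le,
      intervalIntegral.integral_of_le Real.two_pi_pos.le,
      ← integral_sub (th_int A x i j) (th_int A' x i j)]
  have hlin : ∫⁻ x in ball' l k, ∫⁻ θ in Set.Ioc 0 (2 * Real.pi), ‖F x θ‖ₑ ≤
      ENNReal.ofReal (2 * Real.pi) * Bd := by
    rw [lintegral_lintegral_swap hFm.enorm.aemeasurable]
    have h2 : ∀ θ : ℝ, ∫⁻ x in ball' l k, ‖F x θ‖ₑ ≤ Bd := fun θ =>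
      lint_bound k A A' γ hγ hA i j (Complex.exp (θ * Complex.I)) (Complex.norm_exp_ofReal_mul_I θ)
    calc ∫⁻ θ in Set.Ioc 0 (2 * Real.pi), ∫⁻ x in ball' l k, ‖F x θ‖ₑ
        ≤ ∫⁻ θ in Set.Ioc 0 (2 * Real.pi), Bd := lintegral_mono h2
      _ = ENNReal.ofReal (2 * Real.pi) * Bd := by
        rw [setLIntegral_const, Real.volume_Ioc, sub_zero, mul_comm]
  have hen : ‖∫ x in ball' l k, (tau i j (WW A x) (BB A x) - tau i j (WW A' x) (BB A' x))‖ₑ ≤
      ENNReal.ofReal (2 * Real.pi) * Bd := by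
    refine (enorm_integral_le_lintegral_enorm _).trans ((lintegral_mono fun x => ?_).trans hlin)
    rw [h1]
    exact enorm_integral_le_lintegral_enorm _
  have hBdr : ENNReal.ofReal (2 * Real.pi) * Bd = ENNReal.ofReal (2 * Real.pi * (((l + 5) * (l + 5)) *
        ((3 * (2 * ((l + 3) * (‖cen l k‖ + 1) * dist A A')) / γ) *
        ((‖cen l k‖ + 1 + 1) ^ (l + 4) * (volume (Metric.closedBall (0 : X l) 1)).toReal)))) := by
    have hn : 0 ≤ ‖cen l k‖ + 1 + 1 := by positivity
    have hfr : Module.finrank ℝ (X l) = l + 4 := by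
      simp [Module.finrank_prod, Complex.finrank_real_complex]; ring
    set V : ℝ := (volume (Metric.closedBall (0 : X l) 1)).toReal with hV
    have hVe : volume (Metric.closedBall (0 : X l) 1) = ENNReal.ofReal V :=
      (ENNReal.ofReal_toReal (vol_cb_lt l 1).ne).symm
    have hV0 : 0 ≤ V := ENNReal.toReal_nonneg
    rw [hBd, Measure.addHaar_closedBall' _ _ hn, hfr, hVe, ← ENNReal.ofReal_natCast,
      ← ENNReal.ofReal_mul (by positivity), ← ENNReal.ofReal_mul (by positivity),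
      ← ENNReal.ofReal_mul (by positivity), ← ENNReal.ofReal_mul (by positivity)]
    push_cast
    rfl
  rw [hBdr, Real.enorm_eq_ofReal_abs] at hen
  exact (ENNReal.ofReal_le_ofReal_iff (by positivity)).1 hen

/-- TARGET 3: local Lipschitz bound, uniform in `k` -/
theorem wk_lip (A : Fan l) (hA : ∀ i m, i ≠ m →
      ((A i).1, (A i).2.1, (A i).2.2.1) ≠ ((A m).1, (A m).2.1, (A m).2.2.1)) :
    ∃ L : NNReal, ∃ V ∈ nhds A, ∀ k, LipschitzOnWith L (wk l k) V := by
  have hpos : ∀ q : Fin (l + 5) × Fin (l + 5), ∃ γ : ℝ, 0 < γ ∧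
      (q.1 ≠ q.2 → γ < ‖pj (A q.1) - pj (A q.2)‖) := by
    intro q
    by_cases hq : q.1 ≠ q.2
    · have h1 : 0 < ‖pj (A q.1) - pj (A q.2)‖ := norm_pos_iff.2 (sub_ne_zero.2 (hA _ _ hq))
      exact ⟨‖pj (A q.1) - pj (A q.2)‖ / 2, by linarith, fun _ => by linarith⟩
    · exact ⟨1, one_pos, fun h => absurd h hq⟩
  choose g hg hg' using hpos
  obtain ⟨q₀, hq₀⟩ := Finite.exists_min g
  set γ := g q₀ with hγdef
  have hγ : 0 < γ := hg q₀
  have hcont : ∀ q : Fin (l + 5) × Fin (l + 5),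
      Continuous fun A : Fan l => ‖pj (A q.1) - pj (A q.2)‖ := by
    intro q
    unfold pj
    fun_prop
  have hV : ∀ᶠ A' in nhds A, ∀ q : Fin (l + 5) × Fin (l + 5),
      q.1 ≠ q.2 → γ < ‖pj (A' q.1) - pj (A' q.2)‖ := by
    rw [Filter.eventually_all]
    intro q
    by_cases hq : q.1 ≠ q.2
    · have h1 : γ < ‖pj (A q.1) - pj (A q.2)‖ := (hq₀ q).trans_lt (hg' q hq)
      exact ((hcont q).continuousAt.eventually (eventually_gt_nhds h1)).mono fun A' hA' _ => hA'
    · exact Filter.Eventually.of_forall fun A' h => absurd h hq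
  set V1 : ℝ := (volume (Metric.closedBall (0 : X l) 1)).toReal with hV1
  have hV10 : 0 ≤ V1 := ENNReal.toReal_nonneg
  have hpi := Real.pi_pos
  set Lc : ℝ := 2 * Real.pi * (((l + 5) * (l + 5)) * ((3 * (2 * (l + 3)) / γ) * V1)) with hLc
  have hLc0 : 0 ≤ Lc := by positivity
  refine ⟨⟨Lc, hLc0⟩, {A' | ∀ q : Fin (l + 5) × Fin (l + 5),
      q.1 ≠ q.2 → γ < ‖pj (A' q.1) - pj (A' q.2)‖}, hV, fun k => ?_⟩
  refine LipschitzOnWith.of_dist_le_mul fun A1 hA1 A2 _ => ?_
  show dist (wk l k A1) (wk l k A2) ≤ Lc * dist A1 A2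
  rw [dist_pi_le_iff (mul_nonneg hLc0 dist_nonneg)]
  intro q
  have hb := int_bound k A1 A2 γ hγ (fun p r hpr => (hA1 (p, r) hpr).le) q.1.1 q.1.2
  rw [Real.dist_eq]
  unfold wk
  rw [← mul_sub, sub_sub_sub_cancel_right, abs_mul]
  set P : ℝ := ‖cen l k‖ + 1 + 1 with hP
  have hP1 : 1 ≤ P := by linarith [norm_nonneg (cen l k)]
  have hP2 : 2 + ‖cen l k‖ = P := by rw [hP]; ring
  have hck : 0 < ck l k := by
    unfold ck
    positivity
  have hckP : ck l k * P ^ (l + 5) ≤ 1 := by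
    unfold ck
    rw [hP2, one_div, inv_mul_le_iff₀ (by positivity), mul_one]
    have h1 : P ^ (l + 5) ≤ P ^ (l + 6) := pow_le_pow_right₀ hP1 (by omega)
    have h2 : 0 ≤ P ^ (l + 6) := by positivity
    have h3 : 0 ≤ 4 * Real.pi * V1 := by positivity
    nlinarith
  rw [abs_of_pos hck]
  refine (mul_le_mul_of_nonneg_left hb hck.le).trans ?_
  have hcP : ‖cen l k‖ + 1 ≤ P := by rw [hP]; linarith
  have hstep : 2 * Real.pi * (((l + 5) * (l + 5)) *
        ((3 * (2 * ((l + 3) * (‖cen l k‖ + 1) * dist A1 A2)) / γ) *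
        (P ^ (l + 4) * V1))) ≤ P ^ (l + 5) * (Lc * dist A1 A2) := by
    have h1 : 2 * Real.pi * (((l + 5) * (l + 5)) *
        ((3 * (2 * ((l + 3) * (‖cen l k‖ + 1) * dist A1 A2)) / γ) *
        (P ^ (l + 4) * V1))) = (‖cen l k‖ + 1) * (P ^ (l + 4) * (Lc * dist A1 A2)) := by
      rw [hLc]; ring
    rw [h1]
    have h2 : P ^ (l + 5) * (Lc * dist A1 A2) = P * (P ^ (l + 4) * (Lc * dist A1 A2)) := by ring
    rw [h2]
    refine mul_le_mul_of_nonneg_right hcP ?_
    have : 0 ≤ dist A1 A2 := dist_nonneg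
    positivity
  refine (mul_le_mul_of_nonneg_left hstep hck.le).trans ?_
  rw [← mul_assoc]
  exact mul_le_of_le_one_left (mul_nonneg hLc0 dist_nonneg) hckP

end FanRD
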