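import Mathlib
import Pool.Agent.FanRD.Defs
import Pool.Agent.FanRD.C2
import Pool.Agent.FanRD.M1
set_option autoImplicit false
set_option maxHeartbeats 4000000
noncomputable section
open MeasureTheory

namespace FanRD

variable {l : ℕ}


section abs
variable {I : Type*} [Fintype I] [DecidableEq I]
end abs

lemma tau_meas_M2 (A : Fan l) (i j : Fin (l + 5)) :
    Measurable (fun x : X l => tau i j (WW A x) (BB A x)) := by
  have h := (ind_measurable A i j).stronglyMeasurable.integral_prod_right'
    (ν := (volume : Measure ℝ).restrict (Set.Ioc 0 (2 * Real.pi)))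
  have h2 : (fun x : X l => tau i j (WW A x) (BB A x)) = fun x : X l =>
      ∫ θ : ℝ, ind i j (pt (WW A x) (BB A x) (Complex.exp (θ * Complex.I)))
        ∂((volume : Measure ℝ).restrict (Set.Ioc 0 (2 * Real.pi))) := by
    funext x
    unfold tau
    rw [intervalIntegral.integral_of_le (by positivity)]
  rw [h2]
  exact h.measurable

lemma ind_abs_M2 {I : Type*} [Fintype I] [DecidableEq I] (i j : I) (y : I → ℝ) : ‖ind i j y‖ ≤ 1 := by
  unfold ind
  split_ifs <;> simp

lemma tau_bd (A : Fan l) (i j : Fin (l + 5)) (x : X l) :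
    ‖tau i j (WW A x) (BB A x)‖ ≤ 2 * Real.pi := by
  unfold tau
  have h := intervalIntegral.norm_integral_le_of_norm_le_const (a := 0) (b := 2 * Real.pi) (C := 1)
    (f := fun θ : ℝ => ind i j (pt (WW A x) (BB A x) (Complex.exp (θ * Complex.I))))
    (fun θ _ => ind_abs_M2 i j _)
  rw [sub_zero, one_mul, abs_of_pos (by positivity)] at h
  exact h

lemma ball_fin_M2 (k : ℕ) : volume (ball' l k) < ⊤ := measure_ball_lt_top

lemma tau_int_M2 (A : Fan l) (i j : Fin (l + 5)) (k : ℕ) :
    IntegrableOn (fun x : X l => tau i j (WW A x) (BB A x)) (ball' l k) volume :=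
  Measure.integrableOn_of_bounded (M := 2 * Real.pi) (ball_fin_M2 k).ne
    (tau_meas_M2 A i j).aestronglyMeasurable (Filter.Eventually.of_forall fun x => tau_bd A i j x)

lemma TT_cell (lam : Fin (l + 5) → Fin (l + 5) → ℝ) (hd : ∀ i, lam i i = 0)
    (f : Fin (l + 5) → Fin (l + 5) → ℝ) :
    ∑ i, ∑ j, lam i j * f i j = ∑ q : Cell l, lam q.1.1 q.1.2 * f q.1.1 q.1.2 := by
  rw [← Fintype.sum_prod_type' (f := fun i j => lam i j * f i j)]
  rw [← Finset.sum_filter_of_ne (s := Finset.univ)
    (p := fun q : Fin (l + 5) × Fin (l + 5) => q.1 ≠ q.2)]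
  · exact Finset.sum_subtype _ (fun q => by simp) _
  · intro q _ hq hq2
    apply hq
    rw [hq2, hd, zero_mul]

/-- TARGET: functionals orthogonal to all `wk` give kernel elements -/
theorem inK_of_orth (A : Fan l) (lam : Fin (l + 5) → Fin (l + 5) → ℝ) (hd : ∀ i, lam i i = 0)
    (h : ∀ k, ∑ q : Cell l, lam q.1.1 q.1.2 * wk l k A q = 0) : InK A lam := by
  set C : ℝ := 2 * Real.pi * (∑ q : Cell l, lam q.1.1 q.1.2) / ((l + 5 : ℝ) * (l + 4)) with hC
  let T : X l → ℝ := fun x => TT lam (WW A x) (BB A x)
  have hT : ∀ x, T x = ∑ q : Cell l, lam q.1.1 q.1.2 * tau q.1.1 q.1.2 (WW A x) (BB A x) :=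
    fun x => TT_cell lam hd (fun i j => tau i j (WW A x) (BB A x))
  have hTi : ∀ k, IntegrableOn T (ball' l k) volume := by
    intro k
    have : T = fun x => ∑ q : Cell l, lam q.1.1 q.1.2 * tau q.1.1 q.1.2 (WW A x) (BB A x) :=
      funext hT
    rw [this]
    exact integrable_finsetSum _ fun q _ => (tau_int_M2 A q.1.1 q.1.2 k).const_mul _
  have hck : ∀ k, 0 < ck l k := by
    intro k
    unfold ck
    have h1 : 0 ≤ (volume (Metric.closedBall (0 : X l) 1)).toReal := ENNReal.toReal_nonneg
    have h2 := Real.pi_pos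
    have h3 := norm_nonneg (cen l k)
    positivity
  have hint : ∀ k, ∫ x in ball' l k, T x = C * (volume (ball' l k)).toReal := by
    intro k
    have h1 : ∫ x in ball' l k, T x = ∑ q : Cell l, lam q.1.1 q.1.2 *
        ∫ x in ball' l k, tau q.1.1 q.1.2 (WW A x) (BB A x) := by
      have : T = fun x => ∑ q : Cell l, lam q.1.1 q.1.2 * tau q.1.1 q.1.2 (WW A x) (BB A x) :=
        funext hT
      rw [this, integral_finsetSum]
      · refine Finset.sum_congr rfl fun q _ => ?_
        rw [integral_const_mul]
      · intro q _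
        exact (tau_int_M2 A q.1.1 q.1.2 k).const_mul _
    have h2 := h k
    have h3 : ∑ q : Cell l, lam q.1.1 q.1.2 * wk l k A q =
        ck l k * ((∫ x in ball' l k, T x) - C * (volume (ball' l k)).toReal) := by
      rw [h1, hC]
      have e : ∀ q : Cell l, lam q.1.1 q.1.2 * wk l k A q =
          ck l k * (lam q.1.1 q.1.2 * ∫ x in ball' l k, tau q.1.1 q.1.2 (WW A x) (BB A x)) -
          (ck l k * (2 * Real.pi * (volume (ball' l k)).toReal / ((l + 5 : ℝ) * (l + 4)))) *
            lam q.1.1 q.1.2 := by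
        intro q
        unfold wk
        ring
      simp only [e]
      rw [Finset.sum_sub_distrib, ← Finset.mul_sum, ← Finset.mul_sum]
      ring
    rw [h3] at h2
    have h4 := (mul_eq_zero.1 h2).resolve_left (hck k).ne'
    linarith
  refine ⟨C, fun x0 hx0 => ?_⟩
  have hcont : ContinuousAt T x0 := by
    have hW : Continuous (fun x : X l => (WW A x, BB A x)) := by
      refine Continuous.prodMk ?_ ?_
      · refine continuous_pi fun i => ?_
        simp only [WW, om]
        fun_prop
      · refine continuous_pi fun i => ?_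
        simp only [BB, bb]
        fun_prop
    exact (TT_cont lam (WW A x0) (BB A x0) hx0).comp
      (f := fun x : X l => (WW A x, BB A x)) hW.continuousAt
  by_contra hne
  have hε : 0 < |T x0 - C| / 2 := by
    have : 0 < |T x0 - C| := abs_pos.2 (sub_ne_zero.2 hne)
    linarith
  obtain ⟨r, hr, hr2⟩ := Metric.continuousAt_iff.1 hcont _ hε
  obtain ⟨n, hn⟩ := exists_nat_one_div_lt (half_pos hr)
  obtain ⟨a, ha⟩ := (TopologicalSpace.denseRange_denseSeq (X l)).exists_dist_lt x0 (half_pos hr)
  set k := Nat.pair a n with hk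
  have hball : ∀ x ∈ ball' l k, dist x x0 < r := by
    intro x hx
    unfold ball' cen rad at hx
    rw [Metric.mem_ball, hk, Nat.unpair_pair] at hx
    simp only at hx
    calc dist x x0 ≤ dist x (TopologicalSpace.denseSeq (X l) a) +
          dist (TopologicalSpace.denseSeq (X l) a) x0 := dist_triangle _ _ _
      _ < r / 2 + r / 2 := by
          rw [dist_comm x0] at ha
          exact add_lt_add (hx.trans hn) ha
      _ = r := by ring
  have hradpos : 0 < rad k := by
    unfold rad
    positivity
  have hvol : 0 < (volume (ball' l k)).toReal :=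
    ENNReal.toReal_pos (Metric.measure_ball_pos volume _ hradpos).ne' (ball_fin_M2 k).ne
  have h5 : ‖∫ x in ball' l k, (T x - T x0)‖ ≤ |T x0 - C| / 2 * (volume (ball' l k)).toReal := by
    refine norm_setIntegral_le_of_norm_le_const (ball_fin_M2 k) fun x hx => ?_
    have := hr2 (hball x hx)
    rw [Real.dist_eq] at this
    rw [Real.norm_eq_abs]
    exact this.le
  have h6 : ∫ x in ball' l k, (T x - T x0) = (C - T x0) * (volume (ball' l k)).toReal := by
    rw [integral_sub (hTi k) (integrableOn_const (ball_fin_M2 k).ne), hint, setIntegral_const]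
    simp only [Measure.real, smul_eq_mul]
    ring
  rw [h6, Real.norm_eq_abs, abs_mul, abs_of_pos hvol, abs_sub_comm] at h5
  have h7 := le_of_mul_le_mul_right h5 hvol
  linarith


end FanRD
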