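import Mathlib
import Pool.Agent.FanRD.Defs
import Pool.Agent.FanRD.M2
set_option autoImplicit false
set_option maxHeartbeats 4000000
noncomputable section
open MeasureTheory

namespace FanRD

variable {l : ℕ}


theorem card_cell_D3 (l : ℕ) : Fintype.card (Cell l) = (l + 5) * (l + 4) := by
  classical
  have h1 : Fintype.card (Cell l) =
      (Finset.univ.filter (fun q : Fin (l + 5) × Fin (l + 5) => q.1 ≠ q.2)).card := by
    rw [← Fintype.card_subtype]
  have h2 : (Finset.univ.filter (fun q : Fin (l + 5) × Fin (l + 5) => q.1 ≠ q.2)) =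
      (Finset.univ : Finset (Fin (l + 5))).offDiag := by
    ext q
    simp [Finset.mem_offDiag]
  rw [h1, h2, Finset.offDiag_card, Finset.card_univ, Fintype.card_fin]
  have : (l + 5) * (l + 5) = (l + 5) * (l + 4) + (l + 5) := by ring
  omega

/-- TARGET: rank of the family `wk` -/
theorem rank_ge (A : Fan l) : (l + 5) * (l + 4) ≤
    Module.finrank ℝ (Submodule.span ℝ (Set.range (fun k => wk l k A))) + Module.finrank ℝ (KK A) := by
  classical
  set S : Submodule ℝ (Cell l → ℝ) := Submodule.span ℝ (Set.range (fun k => wk l k A)) with hS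
  let Φ : S.dualAnnihilator →ₗ[ℝ] (Fin (l + 5) → Fin (l + 5) → ℝ) :=
    { toFun := fun φ i j => if h : i ≠ j then
        (φ : Module.Dual ℝ (Cell l → ℝ)) (fun r => if (⟨(i, j), h⟩ : Cell l) = r then 1 else 0) else 0
      map_add' := by
        intro a b
        funext i j
        simp only [Pi.add_apply]
        by_cases h : i ≠ j
        · simp only [dif_pos h]
          rfl
        · simp only [dif_neg h, add_zero]
      map_smul' := by
        intro c a
        funext i j
        simp only [Pi.smul_apply, RingHom.id_apply]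
        by_cases h : i ≠ j
        · simp only [dif_pos h]
          rfl
        · simp only [dif_neg h, smul_zero] }
  have hΦ : ∀ (φ : S.dualAnnihilator) (q : Cell l), Φ φ q.1.1 q.1.2 =
      (φ : Module.Dual ℝ (Cell l → ℝ)) (fun r => if q = r then 1 else 0) := by
    intro φ q
    show (if h : q.1.1 ≠ q.1.2 then
        (φ : Module.Dual ℝ (Cell l → ℝ)) (fun r => if (⟨(q.1.1, q.1.2), h⟩ : Cell l) = r then 1 else 0)
        else 0) = _
    rw [dif_pos q.2]
  have hmem : ∀ φ : S.dualAnnihilator, Φ φ ∈ KK A := by
    intro φ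
    have hd : ∀ i, Φ φ i i = 0 := by
      intro i
      show (if h : i ≠ i then
        (φ : Module.Dual ℝ (Cell l → ℝ)) (fun r => if (⟨(i, i), h⟩ : Cell l) = r then 1 else 0)
        else 0) = _
      rw [dif_neg (by simp)]
    refine ⟨hd, inK_of_orth A (Φ φ) hd ?_⟩
    intro k
    have h1 : (φ : Module.Dual ℝ (Cell l → ℝ)) (wk l k A) = 0 := by
      have := φ.2
      rw [Submodule.mem_dualAnnihilator] at this
      exact this _ (Submodule.subset_span ⟨k, rfl⟩)
    rw [LinearMap.pi_apply_eq_sum_univ] at h1
    rw [← h1]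
    apply Finset.sum_congr rfl
    intro q _
    rw [hΦ, smul_eq_mul, mul_comm]
  have hinj : Function.Injective (Φ.codRestrict (KK A) hmem) := by
    intro a b h
    have h' : Φ a = Φ b := congrArg Subtype.val h
    apply Subtype.ext
    apply LinearMap.ext
    intro x
    rw [LinearMap.pi_apply_eq_sum_univ, LinearMap.pi_apply_eq_sum_univ (b : Module.Dual ℝ (Cell l → ℝ))]
    apply Finset.sum_congr rfl
    intro q _
    rw [← hΦ, ← hΦ, h']
  have h1 := LinearMap.finrank_le_finrank_of_injective hinj
  have h2 := Subspace.finrank_add_finrank_dualAnnihilator_eq S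
  rw [Module.finrank_pi, card_cell_D3] at h2
  omega


end FanRD
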