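import Mathlib
import Pool.Agent.FanRD.Defs
set_option autoImplicit false
set_option maxHeartbeats 4000000
noncomputable section
open MeasureTheory

namespace FanRD

variable {l : ℕ}



theorem ind_affine' {I : Type*} [Fintype I] [DecidableEq I] (i j : I) (y : I → ℝ) (c d : ℝ)
    (hc : 0 < c) : ind i j (fun p => c * (y p - d)) = ind i j y := by
  have h : ∀ p q, c * (y p - d) < c * (y q - d) ↔ y p < y q := by
    intro p q
    rw [mul_lt_mul_iff_right₀ hc, sub_lt_sub_iff_right]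
  unfold ind
  simp only [h]

theorem WW_nrm' (γ : ℂ) (f : Co l) (A : Fan l) (x : X l) (i : Fin (l + 5)) :
    WW (nrm γ f A) x i = (WW A x i - om f x) / γ := by
  simp only [WW, om, nrm]
  ring

theorem BB_nrm' (γ : ℂ) (f : Co l) (A : Fan l) (x : X l) (i : Fin (l + 5)) :
    BB (nrm γ f A) x i = (BB A x i - (bb f x + f.2.2.2)) / ‖γ‖ := by
  simp only [BB, bb, nrm]
  have : ∑ k, ((A i).2.2.1 k - f.2.2.1 k) / ‖γ‖ * x.2.2 k =
      (∑ k, (A i).2.2.1 k * x.2.2 k - ∑ k, f.2.2.1 k * x.2.2 k) / ‖γ‖ := by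
    rw [← Finset.sum_sub_distrib, Finset.sum_div]
    exact Finset.sum_congr rfl fun k _ => by ring
  rw [this]
  ring

theorem ind_nrm' (γ : ℂ) (hγ : γ ≠ 0) (f : Co l) (A : Fan l) (x : X l) (i j : Fin (l + 5)) (e : ℂ) :
    ind i j (pt (WW (nrm γ f A) x) (BB (nrm γ f A) x) e) =
      ind i j (pt (WW A x) (BB A x) (e * (‖γ‖ / γ))) := by
  have hn : 0 < ‖γ‖ := norm_pos_iff.mpr hγ
  rw [← ind_affine' i j (pt (WW A x) (BB A x) (e * (‖γ‖ / γ))) (‖γ‖)⁻¹
    (bb f x + f.2.2.2 + (om f x * (e * (‖γ‖ / γ))).re) (inv_pos.mpr hn)]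
  congr 1
  funext p
  simp only [pt]
  rw [WW_nrm', BB_nrm']
  have h1 : (WW A x p - om f x) / γ * e =
      ((‖γ‖⁻¹ : ℝ) : ℂ) * ((WW A x p - om f x) * (e * (‖γ‖ / γ))) := by
    have : (‖γ‖ : ℂ) ≠ 0 := by exact_mod_cast hn.ne'
    push_cast
    field_simp
  rw [h1, Complex.re_ofReal_mul, sub_mul, Complex.sub_re]
  field_simp
  ring

/-- TARGET 1 (normalisation does not change the cell integrals) -/
theorem tau_nrm (γ : ℂ) (hγ : γ ≠ 0) (f : Co l) (A : Fan l) (x : X l) (i j : Fin (l + 5)) :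
    tau i j (WW (nrm γ f A) x) (BB (nrm γ f A) x) = tau i j (WW A x) (BB A x) := by
  have hn : (‖γ‖ : ℂ) ≠ 0 := by
    have : ‖γ‖ ≠ 0 := norm_ne_zero_iff.mpr hγ
    exact_mod_cast this
  have hu : (‖γ‖ : ℂ) / γ = Complex.exp (-(Complex.arg γ * Complex.I)) := by
    rw [Complex.exp_neg]
    have h := Complex.norm_mul_exp_arg_mul_I γ
    have he := Complex.exp_ne_zero (Complex.arg γ * Complex.I)
    rw [div_eq_iff hγ, eq_inv_mul_iff_mul_eq₀ he, mul_comm]
    exact h
  unfold tau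
  set g : ℝ → ℝ := fun θ => ind i j (pt (WW A x) (BB A x) (Complex.exp (θ * Complex.I))) with hg
  have hper : Function.Periodic g (2 * Real.pi) := by
    intro θ
    simp only [hg]
    congr 2
    push_cast
    rw [add_mul, Complex.exp_add, Complex.exp_two_pi_mul_I, mul_one]
  have h1 : ∀ θ : ℝ, ind i j (pt (WW (nrm γ f A) x) (BB (nrm γ f A) x) (Complex.exp (θ * Complex.I)))
      = g (θ - Complex.arg γ) := by
    intro θ
    rw [ind_nrm' γ hγ, hu]
    simp only [hg]
    congr 2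
    rw [← Complex.exp_add]
    congr 1
    push_cast
    ring
  simp only [h1]
  rw [intervalIntegral.integral_comp_sub_right g (Complex.arg γ)]
  have h2 := hper.intervalIntegral_add_eq (0 - Complex.arg γ) 0
  rw [zero_add] at h2
  rw [← h2]
  congr 1
  ring

/-- TARGET 2 -/
theorem wk_nrm (γ : ℂ) (hγ : γ ≠ 0) (f : Co l) (A : Fan l) (k : ℕ) : wk l k (nrm γ f A) = wk l k A := by
  funext q
  simp only [wk, tau_nrm γ hγ]

/-- TARGET 3 -/
theorem LD_nrm (γ : ℂ) (hγ : γ ≠ 0) (f : Co l) (A : Fan l) (h : LD A) : LD (nrm γ f A) := by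
  intro i m him heq
  refine h i m him ?_
  have hn : ‖γ‖ ≠ 0 := norm_ne_zero_iff.mpr hγ
  simp only [nrm, Prod.mk.injEq] at heq
  obtain ⟨h1, h2, h3⟩ := heq
  rw [div_left_inj' hγ, sub_left_inj] at h1 h2
  rw [Prod.mk.injEq, Prod.mk.injEq]
  refine ⟨h1, h2, ?_⟩
  funext k
  have := congrFun h3 k
  rw [div_left_inj' hn, sub_left_inj] at this
  exact this

/-- TARGET 4 -/
theorem subF_eq_nrm (f : Co l) (A : Fan l) : subF A f = nrm 1 f A := by
  funext i
  simp only [subF, nrm, norm_one, div_one]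
  rfl

theorem lin_sub' (a f : Co l) (x : X l) : lin (a - f) x = lin a x - lin f x := by
  simp only [lin, om, bb, Prod.fst_sub, Prod.snd_sub, Pi.sub_apply, sub_mul, Complex.add_re,
    Complex.sub_re, Finset.sum_sub_distrib]
  ring

/-- TARGET 5 -/
theorem ND_subF (f : Co l) (A : Fan l) (h : ND A) : ND (subF A f) := by
  intro x hx
  refine h x fun i => ?_
  have := hx i
  simp only [subF, lin_sub'] at this
  linarith

/-- TARGET 6 -/
theorem Typ_subF (f : Co l) (A : Fan l) (m : Fin (l + 5)) : Typ (subF A f) m ↔ Typ A m := by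
  have key : ∀ ν : Fin (l + 5) → ℝ, (∑ i, ν i = 0) → ∀ k,
      ∑ i, ν i * (subF A f i).2.2.1 k = ∑ i, ν i * (A i).2.2.1 k := by
    intro ν hν k
    have h1 : ∀ i, ν i * (subF A f i).2.2.1 k = ν i * (A i).2.2.1 k - ν i * f.2.2.1 k := by
      intro i
      simp only [subF, Prod.snd_sub, Prod.fst_sub, Pi.sub_apply, mul_sub]
    rw [Finset.sum_congr rfl fun i _ => h1 i, Finset.sum_sub_distrib, ← Finset.sum_mul, hν]
    ring
  constructor
  · intro h ν h0 h1 h2
    exact h ν h0 (fun k => by rw [key ν h0 k]; exact h1 k) h2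
  · intro h ν h0 h1 h2
    exact h ν h0 (fun k => by rw [← key ν h0 k]; exact h1 k) h2

/-- TARGET 7 -/
theorem SA_subF (f : Co l) (A : Fan l) (i m : Fin (l + 5)) : SA (subF A f) i m ↔ SA A i m := by
  simp only [SA, subF, Prod.fst_sub, Prod.snd_sub, sub_left_inj]

/-- TARGET 8 -/
theorem SB_subF (f : Co l) (A : Fan l) (i m : Fin (l + 5)) : SB (subF A f) i m ↔ SB A i m := by
  simp only [SB, subF, Prod.snd_sub, sub_left_inj]

/-- TARGET 9 -/
theorem cl_subF (f : Co l) (A : Fan l) (i m : Fin (l + 5)) : cl (subF A f) i m = cl A i m := by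
  unfold cl
  congr 1
  funext s
  rw [SB_subF]
  simp only [subF, Prod.fst_sub, Prod.snd_sub, sub_sub_sub_cancel_right]

end FanRD
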