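import Mathlib
import Pool.Agent.FanRD.Defs
import Pool.Agent.FanRD.M1
set_option autoImplicit false
set_option maxHeartbeats 4000000
noncomputable section
open MeasureTheory

namespace FanRD

variable {l : ℕ}


/-! ### auxiliary lemmas -/

theorem om_cont (a : Co l) : Continuous (fun x : X l => om a x) := by
  unfold om
  fun_prop

theorem bb_cont (a : Co l) : Continuous (fun x : X l => bb a x) := by
  unfold bb
  fun_prop

theorem ev_cont (a : Co l) : Continuous (fun x : X l => ev a x) := by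
  unfold ev
  exact ((Complex.continuous_re.comp (om_cont a)).add (bb_cont a)).add continuous_const

theorem ev_rot (A : Fan l) (e : ℂ) (x : X l) (q : Fin (l + 5)) :
    ev (A q) (rot e x) = pt (WW A x) (BB A x) e q := by
  have h : om (A q) (rot e x) = om (A q) x * e := by
    simp only [om, rot]
    ring
  simp only [ev, pt, WW, BB, h]
  simp only [bb, rot]
  ring

/-- the open cell -/
def Oc (A : Fan l) (i j : Fin (l + 5)) : Set (X l) :=
  {x | (∀ m, m ≠ i → ev (A m) x < ev (A i) x) ∧ (∀ m, m ≠ j → ev (A j) x < ev (A m) x)}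

theorem Oc_open (A : Fan l) (i j : Fin (l + 5)) : IsOpen (Oc A i j) := by
  have h : Oc A i j = (⋂ m, ⋂ (_ : m ≠ i), {x | ev (A m) x < ev (A i) x}) ∩
      (⋂ m, ⋂ (_ : m ≠ j), {x | ev (A j) x < ev (A m) x}) := by
    ext x
    simp [Oc]
  rw [h]
  apply IsOpen.inter
  · exact isOpen_iInter_of_finite fun m => isOpen_iInter_of_finite fun _ =>
      isOpen_lt (ev_cont _) (ev_cont _)
  · exact isOpen_iInter_of_finite fun m => isOpen_iInter_of_finite fun _ =>
      isOpen_lt (ev_cont _) (ev_cont _)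

/-- the rotation map -/
def Phi (l : ℕ) (p : X l × ℝ) : X l := rot (Complex.exp (p.2 * Complex.I)) p.1

theorem Phi_cont : Continuous (Phi l) := by
  unfold Phi rot
  fun_prop

abbrev nu : Measure ℝ := volume.restrict (Set.Ioc 0 (2 * Real.pi))

theorem nu_univ : nu Set.univ = ENNReal.ofReal (2 * Real.pi) := by
  simp [nu]

theorem tau_eq (A : Fan l) (i j : Fin (l + 5)) (x : X l) :
    tau i j (WW A x) (BB A x) = (nu (Prod.mk x ⁻¹' (Phi l ⁻¹' Oc A i j))).toReal := by
  have hm : MeasurableSet (Prod.mk x ⁻¹' (Phi l ⁻¹' Oc A i j)) := by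
    apply IsOpen.measurableSet
    exact ((Oc_open A i j).preimage Phi_cont).preimage (by fun_prop)
  have h : (fun θ : ℝ => ind i j (pt (WW A x) (BB A x) (Complex.exp (θ * Complex.I)))) =
      Set.indicator (Prod.mk x ⁻¹' (Phi l ⁻¹' Oc A i j)) 1 := by
    ext θ
    simp only [Set.indicator, Set.mem_preimage, Phi, Oc, Set.mem_ofPred_eq, ev_rot, ind,
      Pi.one_apply]
    congr
  unfold tau
  rw [intervalIntegral.integral_of_le (by positivity), h, integral_indicator_one hm]
  rfl

theorem null_level {E : Type*} [NormedAddCommGroup E] [NormedSpace ℝ E] [MeasurableSpace E]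
    [BorelSpace E] [FiniteDimensional ℝ E] (μ : Measure E) [μ.IsAddHaarMeasure] (L : E →ₗ[ℝ] ℝ)
    (hL : L ≠ 0) (d : ℝ) : μ {x | L x = d} = 0 := by
  rcases Set.eq_empty_or_nonempty {x | L x = d} with h | ⟨x0, h0⟩
  · rw [h]
    exact measure_empty
  · have h1 : {x | L x = d} = (AffineSubspace.mk' x0 (LinearMap.ker L) : Set E) := by
      ext x
      simp only [Set.mem_ofPred_eq, SetLike.mem_coe, AffineSubspace.mem_mk', vsub_eq_sub,
        LinearMap.mem_ker, map_sub] at h0 ⊢
      rw [h0, sub_eq_zero]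
    rw [h1]
    apply Measure.addHaar_affineSubspace
    intro htop
    apply hL
    have h2 : (AffineSubspace.mk' x0 (LinearMap.ker L)).direction = ⊤ := by
      rw [htop, AffineSubspace.direction_top]
    rw [AffineSubspace.direction_mk'] at h2
    exact LinearMap.ker_eq_top.1 h2

/-- difference of the linear parts -/
def dL (a b : Co l) : X l →ₗ[ℝ] ℝ where
  toFun x := lin a x - lin b x
  map_add' x y := by
    simp only [lin, om, bb, Prod.fst_add, Prod.snd_add, Pi.add_apply, mul_add,
      Finset.sum_add_distrib, Complex.add_re]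
    ring
  map_smul' c x := by
    simp only [lin, om, bb, Prod.smul_fst, Prod.smul_snd, Pi.smul_apply, smul_eq_mul,
      Complex.real_smul, RingHom.id_apply]
    have h1 : ∀ a : Co l, (a.1 * (c * x.1) + a.2.1 * (c * x.2.1)).re =
        c * (a.1 * x.1 + a.2.1 * x.2.1).re := by
      intro a
      have : a.1 * (c * x.1) + a.2.1 * (c * x.2.1) = (c : ℂ) * (a.1 * x.1 + a.2.1 * x.2.1) := by
        ring
      rw [this, Complex.re_ofReal_mul]
    have h2 : ∀ a : Co l, ∑ k, a.2.2.1 k * (c * x.2.2 k) = c * ∑ k, a.2.2.1 k * x.2.2 k := by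
      intro a
      rw [Finset.mul_sum]
      exact Finset.sum_congr rfl (fun k _ => by ring)
    rw [h1, h1, h2, h2]
    ring

theorem dL_ne (a b : Co l) (h : (a.1, a.2.1, a.2.2.1) ≠ (b.1, b.2.1, b.2.2.1)) : dL a b ≠ 0 := by
  intro h0
  apply h
  have key : ∀ x : X l, lin a x = lin b x := by
    intro x
    have := LinearMap.congr_fun h0 x
    simpa [dL, sub_eq_zero] using this
  have h1 : a.1 = b.1 := by
    apply Complex.ext
    · have := key (1, 0, 0)
      simpa [lin, om, bb] using this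
    · have := key (Complex.I, 0, 0)
      simpa [lin, om, bb] using this
  have h2 : a.2.1 = b.2.1 := by
    apply Complex.ext
    · have := key (0, 1, 0)
      simpa [lin, om, bb] using this
    · have := key (0, Complex.I, 0)
      simpa [lin, om, bb] using this
  have h3 : a.2.2.1 = b.2.2.1 := by
    ext k
    have := key (0, 0, Pi.single k 1)
    simpa [lin, om, bb, Pi.single_apply] using this
  rw [h1, h2, h3]

theorem haarX_M3 (l : ℕ) : (volume : Measure (X l)).IsAddHaarMeasure := by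
  have i1 : (volume : Measure (ℂ × (Fin l → ℝ))).IsAddHaarMeasure := by
    rw [Measure.volume_eq_prod]
    infer_instance
  have i3 : SigmaFinite (volume : Measure (ℂ × (Fin l → ℝ))) := by
    rw [Measure.volume_eq_prod]
    infer_instance
  have := Measure.prod.instIsAddHaarMeasure (volume : Measure ℂ) (volume : Measure (ℂ × (Fin l → ℝ)))
  exact this

theorem tie_null (a b : Co l) (h : (a.1, a.2.1, a.2.2.1) ≠ (b.1, b.2.1, b.2.2.1)) :
    volume {x : X l | ev a x = ev b x} = 0 := by
  have h1 : {x : X l | ev a x = ev b x} = {x | dL a b x = b.2.2.2 - a.2.2.2} := by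
    ext x
    simp only [Set.mem_ofPred_eq, dL, ev, lin, LinearMap.coe_mk, AddHom.coe_mk]
    constructor
    · intro h
      linarith
    · intro h
      linarith
  rw [h1]
  have i2 : (volume : Measure (X l)).IsAddHaarMeasure := haarX_M3 l
  exact null_level volume _ (dL_ne a b h) _

/-- the closed cell -/
def Cc (A : Fan l) (i j : Fin (l + 5)) : Set (X l) :=
  {x | ∀ q, ev (A q) x ≤ ev (A i) x ∧ ev (A j) x ≤ ev (A q) x}

/-- all ties -/
def Ties (A : Fan l) : Set (X l) := ⋃ p, ⋃ r, ⋃ (_ : p ≠ r), {x | ev (A p) x = ev (A r) x}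

theorem Ties_null (A : Fan l) (h : ∀ i m, i ≠ m →
    ((A i).1, (A i).2.1, (A i).2.2.1) ≠ ((A m).1, (A m).2.1, (A m).2.2.1)) :
    volume (Ties A) = 0 := by
  unfold Ties
  rw [measure_iUnion_null_iff]
  intro p
  rw [measure_iUnion_null_iff]
  intro r
  rw [measure_iUnion_null_iff]
  intro hpr
  exact tie_null _ _ (h p r hpr)

theorem not_tie {A : Fan l} {x : X l} (hx : x ∉ Ties A) {p r : Fin (l + 5)} (hpr : p ≠ r) :
    ev (A p) x ≠ ev (A r) x := by
  intro h
  apply hx
  simp only [Ties, Set.mem_iUnion]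
  exact ⟨p, r, hpr, h⟩

theorem Cc_eq (μ : Measure (X l)) (hμ : μ ≪ volume) (A : Fan l) (h : ∀ i m, i ≠ m →
    ((A i).1, (A i).2.1, (A i).2.2.1) ≠ ((A m).1, (A m).2.1, (A m).2.2.1)) (i j : Fin (l + 5)) :
    μ (Cc A i j) = μ (Oc A i j) := by
  have h0 := hμ (Ties_null A h)
  apply le_antisymm
  · have hsub : Cc A i j ⊆ Oc A i j ∪ Ties A := by
      intro x hx
      by_cases ht : x ∈ Ties A
      · exact Or.inr ht
      · left
        exact ⟨fun m hm => lt_of_le_of_ne (hx m).1 (not_tie ht hm),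
          fun m hm => lt_of_le_of_ne (hx m).2 (not_tie ht (Ne.symm hm))⟩
    calc μ (Cc A i j) ≤ μ (Oc A i j ∪ Ties A) := measure_mono hsub
      _ ≤ μ (Oc A i j) + μ (Ties A) := measure_union_le _ _
      _ = μ (Oc A i j) := by rw [h0, add_zero]
  · apply measure_mono
    intro x hx q
    constructor
    · by_cases hq : q = i
      · rw [hq]
      · exact (hx.1 q hq).le
    · by_cases hq : q = j
      · rw [hq]
      · exact (hx.2 q hq).le

theorem Oc_disj (A : Fan l) : Pairwise (Function.onFun Disjoint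
    (fun q : Cell l => Oc A q.1.1 q.1.2)) := by
  rintro ⟨⟨i, j⟩, hij⟩ ⟨⟨i', j'⟩, hij'⟩ hne
  rw [Function.onFun, Set.disjoint_left]
  rintro x hx hx'
  simp only at hx hx'
  by_cases h1 : i = i'
  · have h2 : j ≠ j' := by
      intro h2
      apply hne
      simp [h1, h2]
    have a1 := hx.2 j' (Ne.symm h2)
    have a2 := hx'.2 j h2
    exact lt_asymm a1 a2
  · have a1 := hx.1 i' (Ne.symm h1)
    have a2 := hx'.1 i h1
    exact lt_asymm a1 a2

theorem sum_Oc (μ : Measure (X l)) (hμ : μ ≪ volume) (A : Fan l) (h : ∀ i m, i ≠ m →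
    ((A i).1, (A i).2.1, (A i).2.2.1) ≠ ((A m).1, (A m).2.1, (A m).2.2.1)) :
    ∑ q : Cell l, μ (Oc A q.1.1 q.1.2) = μ Set.univ := by
  have h0 := hμ (Ties_null A h)
  have h1 : μ (⋃ q : Cell l, Oc A q.1.1 q.1.2) = ∑ q : Cell l, μ (Oc A q.1.1 q.1.2) := by
    rw [measure_iUnion (Oc_disj A) (fun q => (Oc_open A _ _).measurableSet), tsum_fintype]
  rw [← h1]
  apply le_antisymm (measure_mono (Set.subset_univ _))
  have hsub : (Set.univ : Set (X l)) ⊆ (⋃ q : Cell l, Oc A q.1.1 q.1.2) ∪ Ties A := by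
    intro x _
    by_cases ht : x ∈ Ties A
    · exact Or.inr ht
    · left
      obtain ⟨i, hi⟩ := Finite.exists_max (fun q => ev (A q) x)
      obtain ⟨j, hj⟩ := Finite.exists_min (fun q => ev (A q) x)
      have hij : i ≠ j := by
        rintro rfl
        have h01 : (⟨0, by omega⟩ : Fin (l + 5)) ≠ ⟨1, by omega⟩ := by
          simp
        apply not_tie ht h01
        have e0 := le_antisymm (hi ⟨0, by omega⟩) (hj ⟨0, by omega⟩)
        have e1 := le_antisymm (hi ⟨1, by omega⟩) (hj ⟨1, by omega⟩)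
        rw [e0, e1]
      simp only [Set.mem_iUnion]
      refine ⟨⟨(i, j), hij⟩, fun m hm => lt_of_le_of_ne (hi m) (not_tie ht hm),
        fun m hm => lt_of_le_of_ne (hj m) (not_tie ht (Ne.symm hm))⟩
  calc μ Set.univ ≤ μ ((⋃ q : Cell l, Oc A q.1.1 q.1.2) ∪ Ties A) := measure_mono hsub
    _ ≤ μ (⋃ q : Cell l, Oc A q.1.1 q.1.2) + μ (Ties A) := measure_union_le _ _
    _ = _ := by rw [h0, add_zero]

theorem card_cell_M3 (l : ℕ) : Fintype.card (Cell l) = (l + 5) * (l + 4) := by
  rw [Fintype.card_subtype]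
  have h : (Finset.univ.filter fun q : Fin (l + 5) × Fin (l + 5) => q.1 ≠ q.2) =
      (Finset.univ : Finset (Fin (l + 5))).offDiag := by
    ext q
    simp
  rw [h, Finset.offDiag_card, Finset.card_univ, Fintype.card_fin]
  have : (l + 5) * (l + 5) = (l + 5) * (l + 4) + (l + 5) := by ring
  omega

/-- rotations preserve the volume -/
theorem rot_mp (e : Circle) : MeasurePreserving (rot (l := l) (e : ℂ)) volume volume := by
  have h1 : MeasurePreserving (fun z : ℂ => (e : ℂ) * z) volume volume :=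
    (rotation e).measurePreserving
  have h2 : MeasurePreserving (id : (Fin l → ℝ) → (Fin l → ℝ)) volume volume :=
    MeasurePreserving.id _
  have h3 := h1.prod h2
  rw [← Measure.volume_eq_prod] at h3
  have h4 := h1.prod h3
  rw [← Measure.volume_eq_prod] at h4
  exact h4

/-- coefficients -/
def ak (l : ℕ) (t : ℕ → Set.Icc (1:ℝ) 2) (k : ℕ) : ℝ := (t k : ℝ) * (1/2) ^ k * ck l k

theorem ck_nonneg (l k : ℕ) : 0 ≤ ck l k := by
  unfold ck
  positivity

theorem ak_nonneg (l : ℕ) (t : ℕ → Set.Icc (1:ℝ) 2) (k : ℕ) : 0 ≤ ak l t k := by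
  unfold ak
  have := (t k).2.1
  have := ck_nonneg l k
  positivity

/-- the measure before averaging -/
def mm (l : ℕ) (t : ℕ → Set.Icc (1:ℝ) 2) : Measure (X l) :=
  Measure.sum (fun k => ENNReal.ofReal (ak l t k) • (volume : Measure (X l)).restrict (ball' l k))

theorem mm_ac (l : ℕ) (t : ℕ → Set.Icc (1:ℝ) 2) : mm l t ≪ (volume : Measure (X l)) := by
  intro s hs
  unfold mm
  rw [Measure.sum_apply_eq_zero]
  intro k
  have : (volume : Measure (X l)).restrict (ball' l k) s = 0 :=
    Measure.absolutelyContinuous_of_le Measure.restrict_le_self hs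
  simp [this]

theorem ck_le (l k : ℕ) : ck l k * (volume (ball' l k)).toReal ≤ 1 := by
  have i2 : (volume : Measure (X l)).IsAddHaarMeasure := haarX_M3 l
  set V : ℝ := (volume (Metric.closedBall (0 : X l) 1)).toReal with hV
  have hV0 : 0 ≤ V := ENNReal.toReal_nonneg
  have h1 : (volume (ball' l k)).toReal ≤ V := by
    apply ENNReal.toReal_mono
    · exact (measure_closedBall_lt_top).ne
    · have hsub : ball' l k ⊆ Metric.closedBall (cen l k) 1 := by
        refine Metric.ball_subset_closedBall.trans (Metric.closedBall_subset_closedBall ?_)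
        unfold rad
        rw [div_le_one (by positivity)]
        have := Nat.cast_nonneg (α := ℝ) (Nat.unpair k).2
        linarith
      refine (measure_mono hsub).trans ?_
      rw [Measure.addHaar_closedBall_center]
  have h2 : ck l k ≤ 1 / (1 + 4 * Real.pi * V) := by
    unfold ck
    rw [← hV]
    apply one_div_le_one_div_of_le (by positivity)
    have : (1:ℝ) ≤ (2 + ‖cen l k‖) ^ (l + 6) := by
      apply one_le_pow₀
      have := norm_nonneg (cen l k)
      linarith
    have h3 : 0 ≤ 1 + 4 * Real.pi * V := by positivity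
    nlinarith
  have h3 : ck l k * (volume (ball' l k)).toReal ≤ 1 / (1 + 4 * Real.pi * V) * V := by
    gcongr
  refine h3.trans ?_
  rw [div_mul_eq_mul_div, div_le_one (by positivity)]
  have := Real.pi_gt_three
  nlinarith

theorem ball_fin_M3 (l k : ℕ) : volume (ball' l k) ≠ ⊤ := by
  have i2 : (volume : Measure (X l)).IsAddHaarMeasure := haarX_M3 l
  exact measure_ball_lt_top.ne

instance mm_fin (l : ℕ) (t : ℕ → Set.Icc (1:ℝ) 2) : IsFiniteMeasure (mm l t) := by
  constructor
  unfold mm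
  rw [Measure.sum_apply _ MeasurableSet.univ]
  have h1 : ∀ k, (ENNReal.ofReal (ak l t k) • (volume : Measure (X l)).restrict (ball' l k))
      Set.univ ≤ ENNReal.ofReal (2 * (1/2) ^ k) := by
    intro k
    rw [Measure.smul_apply, Measure.restrict_apply_univ, smul_eq_mul,
      ← ENNReal.ofReal_toReal (ball_fin_M3 l k), ← ENNReal.ofReal_mul (ak_nonneg l t k)]
    apply ENNReal.ofReal_le_ofReal
    unfold ak
    have h2 := ck_le l k
    have h3 := (t k).2.2
    have h4 := (t k).2.1
    have h5 := ck_nonneg l k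
    calc (t k : ℝ) * (1/2) ^ k * ck l k * (volume (ball' l k)).toReal
        = ((t k : ℝ) * (1/2) ^ k) * (ck l k * (volume (ball' l k)).toReal) := by ring
      _ ≤ (2 * (1/2) ^ k) * 1 := by gcongr
      _ = _ := by ring
  refine lt_of_le_of_lt (ENNReal.tsum_le_tsum h1) ?_
  rw [← ENNReal.ofReal_tsum_of_nonneg]
  · exact ENNReal.ofReal_lt_top
  · intro k
    positivity
  · exact (summable_geometric_two).mul_left 2

/-- Tonelli -/
theorem mm_prod (l : ℕ) (t : ℕ → Set.Icc (1:ℝ) 2) (s : Set (X l × ℝ)) (hs : MeasurableSet s) :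
    ((mm l t).prod nu) s =
      ∑' k, ENNReal.ofReal (ak l t k) * ∫⁻ x in ball' l k, nu (Prod.mk x ⁻¹' s) := by
  rw [Measure.prod_apply hs]
  unfold mm
  rw [lintegral_sum_measure]
  congr 1
  ext k
  rw [lintegral_smul_measure, smul_eq_mul]

theorem hasSum_of (l : ℕ) (t : ℕ → Set.Icc (1:ℝ) 2) (s : Set (X l × ℝ)) (hs : MeasurableSet s) :
    HasSum (fun k => ak l t k * ∫ x in ball' l k, (nu (Prod.mk x ⁻¹' s)).toReal)
      (((mm l t).prod nu) s).toReal := by
  have hfin : ((mm l t).prod nu) s ≠ ⊤ := measure_ne_top _ _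
  rw [mm_prod l t s hs] at hfin
  have h1 := ENNReal.hasSum_toReal hfin
  have h2 : ∀ k, ENNReal.ofReal (ak l t k) * ∫⁻ x in ball' l k, nu (Prod.mk x ⁻¹' s) ≠ ⊤ :=
    fun k => ENNReal.ne_top_of_tsum_ne_top hfin k
  rw [← ENNReal.tsum_toReal_eq h2, ← mm_prod l t s hs] at h1
  convert h1 using 1
  ext k
  rw [ENNReal.toReal_mul, ENNReal.toReal_ofReal (ak_nonneg l t k)]
  congr 1
  apply integral_toReal
  · exact (measurable_measure_prodMk_left hs).aemeasurable
  · exact Filter.Eventually.of_forall (fun x => measure_lt_top _ _)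

/-- the mixture measure -/
def mu (l : ℕ) (t : ℕ → Set.Icc (1:ℝ) 2) : Measure (X l) := ((mm l t).prod nu).map (Phi l)

instance mu_fin (l : ℕ) (t : ℕ → Set.Icc (1:ℝ) 2) : IsFiniteMeasure (mu l t) := by
  unfold mu
  infer_instance

theorem mu_ac (l : ℕ) (t : ℕ → Set.Icc (1:ℝ) 2) : mu l t ≪ (volume : Measure (X l)) := by
  apply Measure.AbsolutelyContinuous.mk
  intro s hs h0
  unfold mu
  rw [Measure.map_apply Phi_cont.measurable hs,
    Measure.prod_apply_symm (Phi_cont.measurable hs)]
  have h1 : ∀ θ : ℝ, mm l t ((fun x => (x, θ)) ⁻¹' (Phi l ⁻¹' s)) = 0 := by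
    intro θ
    apply mm_ac l t
    have h2 : (fun x : X l => (x, θ)) ⁻¹' (Phi l ⁻¹' s) = rot (Circle.exp θ : ℂ) ⁻¹' s := by
      ext x
      simp only [Set.mem_preimage, Phi, Circle.coe_exp]
    rw [h2, (rot_mp (l := l) (Circle.exp θ)).measure_preimage hs.nullMeasurableSet, h0]
  simp only [h1, lintegral_zero]

theorem mu_apply (l : ℕ) (t : ℕ → Set.Icc (1:ℝ) 2) {s : Set (X l)} (hs : MeasurableSet s) :
    mu l t s = ((mm l t).prod nu) (Phi l ⁻¹' s) := by
  unfold mu
  rw [Measure.map_apply Phi_cont.measurable hs]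

/-- TARGET: the measure with weights `t` -/
theorem exists_measure (t : ℕ → Set.Icc (1:ℝ) 2) :
    ∃ μ : Measure (X l), IsFiniteMeasure μ ∧ μ ≪ volume ∧
      ∀ A : Fan l, (∀ i m, i ≠ m →
          ((A i).1, (A i).2.1, (A i).2.2.1) ≠ ((A m).1, (A m).2.1, (A m).2.2.1)) →
        (∀ i j k m : Fin (l + 5), i ≠ j → k ≠ m →
          μ {x | ∀ q, ev (A q) x ≤ ev (A i) x ∧ ev (A j) x ≤ ev (A q) x} =
          μ {x | ∀ q, ev (A q) x ≤ ev (A k) x ∧ ev (A m) x ≤ ev (A q) x}) →
        ∑' k, ((t k : ℝ) * (1/2) ^ k) • wk l k A = 0 := by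
  refine ⟨mu l t, mu_fin l t, mu_ac l t, ?_⟩
  intro A hA hall
  have hq : ∀ q q' : Cell l, mu l t (Oc A q.1.1 q.1.2) = mu l t (Oc A q'.1.1 q'.1.2) := by
    intro q q'
    rw [← Cc_eq _ (mu_ac l t) A hA, ← Cc_eq _ (mu_ac l t) A hA]
    exact hall _ _ _ _ q.2 q'.2
  have hsum := sum_Oc _ (mu_ac l t) A hA
  have hS : ∀ q : Cell l, HasSum (fun k => ak l t k * ∫ x in ball' l k,
      tau q.1.1 q.1.2 (WW A x) (BB A x)) (mu l t (Oc A q.1.1 q.1.2)).toReal := by
    intro q
    have h1 := hasSum_of l t (Phi l ⁻¹' Oc A q.1.1 q.1.2)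
      (Phi_cont.measurable (Oc_open A _ _).measurableSet)
    rw [← mu_apply l t (Oc_open A _ _).measurableSet] at h1
    simp only [← tau_eq] at h1
    exact h1
  have hU : HasSum (fun k => ak l t k * (2 * Real.pi * (volume (ball' l k)).toReal))
      (mu l t Set.univ).toReal := by
    have h1 := hasSum_of l t Set.univ MeasurableSet.univ
    have h2 : mu l t Set.univ = ((mm l t).prod nu) Set.univ := by
      rw [mu_apply l t MeasurableSet.univ, Set.preimage_univ]
    rw [← h2] at h1
    convert h1 using 1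
    ext k
    congr 1
    simp only [Set.preimage_univ, setIntegral_const, smul_eq_mul, nu_univ]
    rw [ENNReal.toReal_ofReal (by positivity)]
    simp only [Measure.real]
    ring
  have hcard : ∀ q : Cell l, ((l + 5 : ℝ) * (l + 4)) * (mu l t (Oc A q.1.1 q.1.2)).toReal =
      (mu l t Set.univ).toReal := by
    intro q
    have h1 : ∑ q' : Cell l, mu l t (Oc A q'.1.1 q'.1.2) =
        ∑ _q' : Cell l, mu l t (Oc A q.1.1 q.1.2) := Finset.sum_congr rfl (fun q' _ => hq q' q)
    rw [← hsum, h1, Finset.sum_const, Finset.card_univ, card_cell_M3, nsmul_eq_mul,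
      ENNReal.toReal_mul]
    congr 1
    rw [ENNReal.toReal_natCast]
    push_cast
    ring
  have hfinal : HasSum (fun k => ((t k : ℝ) * (1/2) ^ k) • wk l k A) 0 := by
    rw [Pi.hasSum]
    intro q
    have hpos : (0:ℝ) < (l + 5 : ℝ) * (l + 4) := by positivity
    have h1 := (hS q).sub (hU.div_const ((l + 5 : ℝ) * (l + 4)))
    have h2 : (mu l t (Oc A q.1.1 q.1.2)).toReal -
        (mu l t Set.univ).toReal / ((l + 5 : ℝ) * (l + 4)) = 0 := by
      rw [← hcard q]
      field_simp
      ring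
    rw [h2] at h1
    have h3 : (fun k => (((t k : ℝ) * (1/2) ^ k) • wk l k A) q) = fun k =>
        (ak l t k * ∫ x in ball' l k, tau q.1.1 q.1.2 (WW A x) (BB A x)) -
        ak l t k * (2 * Real.pi * (volume (ball' l k)).toReal) / ((l + 5 : ℝ) * (l + 4)) := by
      funext k
      simp only [Pi.smul_apply, smul_eq_mul, wk, ak]
      ring
    rw [h3]
    exact h1
  exact hfinal.tsum_eq

end FanRD
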