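import Mathlib
import Pool.Agent.FanRD.Defs
import Pool.Agent.FanRD.AT2
import Pool.Agent.FanRD.D3
import Pool.Agent.FanRD.M1
import Pool.Agent.FanRD.M3
set_option autoImplicit false
set_option maxHeartbeats 4000000
noncomputable section
open MeasureTheory

namespace FanRD

variable {l : ℕ}


/-- TARGET -/
theorem final_of_charts (ι : Type) [Countable ι] (N : ι → ℕ)
    (φ : ∀ i, (Fin (N i) → ℝ) → Fan l) (hφ : ∀ i, ContDiff ℝ 1 (φ i))
    (hcov : ∀ A : Fan l, ND A → ∃ (i : ι) (u : Fin (N i) → ℝ), (∀ k, wk l k (φ i u) = wk l k A) ∧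
      LD (φ i u) ∧ N i + 1 + Module.finrank ℝ (KK A) ≤ (l + 5) * (l + 4))
    (hLD : ∀ A : Fan l, ND A → LD A) :
    ∃ μ : Measure (X l), IsFiniteMeasure μ ∧ μ ≪ volume ∧
      ∀ A : Fan l, ND A → ¬ (∀ i j k m : Fin (l + 5), i ≠ j → k ≠ m →
          μ {x | ∀ q, ev (A q) x ≤ ev (A i) x ∧ ev (A j) x ≤ ev (A q) x} =
          μ {x | ∀ q, ev (A q) x ≤ ev (A k) x ∧ ev (A m) x ≤ ev (A q) x}) := by
  classical
  have hne : Nonempty (ℕ → Set.Icc (1:ℝ) 2) := ⟨fun _ => ⟨1, by norm_num⟩⟩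
  set R : ι → Set (ℕ → Set.Icc (1:ℝ) 2) := fun i =>
    {t | ∀ u ∈ {u : Fin (N i) → ℝ | LD (φ i u)}, Module.finrank ℝ (Fin (N i) → ℝ) + 1 ≤
        Module.finrank ℝ (Submodule.span ℝ (Set.range (fun k => wk l k (φ i u)))) →
      ∑' k, ((t k : ℝ) * (1/2) ^ k) • wk l k (φ i u) ≠ 0} with hR
  have hres : ∀ i, R i ∈ residual (ℕ → Set.Icc (1:ℝ) 2) := by
    intro i
    have hc : Continuous (φ i) := (hφ i).continuous
    refine AT {u : Fin (N i) → ℝ | LD (φ i u)} ?_ (fun k u => wk l k (φ i u))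
      (fun k u _ => wk_bound k (φ i u)) ?_
    · have : {u : Fin (N i) → ℝ | LD (φ i u)} = ⋂ a : Fin (l + 5), ⋂ b : Fin (l + 5), ⋂ _ : a ≠ b,
          {u : Fin (N i) → ℝ | ((φ i u a).1, (φ i u a).2.1, (φ i u a).2.2.1) ≠
            ((φ i u b).1, (φ i u b).2.1, (φ i u b).2.2.1)} := by
        ext u
        simp only [LD, Set.mem_iInter, Set.mem_ofPred_eq]
      rw [this]
      refine isOpen_iInter_of_finite fun a => isOpen_iInter_of_finite fun b =>
        isOpen_iInter_of_finite fun _ => ?_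
      have ha : ∀ a, Continuous (fun u => φ i u a) := fun a => (continuous_apply a).comp hc
      exact isOpen_ne_fun
        ((ha a).fst.prodMk ((ha a).snd.fst.prodMk (ha a).snd.snd.fst))
        ((ha b).fst.prodMk ((ha b).snd.fst.prodMk (ha b).snd.snd.fst))
    · intro u hu
      obtain ⟨L1, V', hV', hL1⟩ := wk_lip (φ i u) hu
      obtain ⟨K, V, hV, hK⟩ := (hφ i).contDiffAt (x := u) |>.exists_lipschitzOnWith
      refine ⟨L1 * K, V ∩ φ i ⁻¹' V', Filter.inter_mem hV (hc.continuousAt hV'), fun k => ?_⟩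
      exact (hL1 k).comp (hK.mono Set.inter_subset_left) (fun x hx => hx.2)
  have hall : (⋂ i, R i) ∈ residual (ℕ → Set.Icc (1:ℝ) 2) := countable_iInter_mem.2 hres
  obtain ⟨t, ht⟩ := (dense_of_mem_residual hall).nonempty
  obtain ⟨μ, hfin, hac, hμ⟩ := exists_measure (l := l) t
  refine ⟨μ, hfin, hac, fun A hA heq => ?_⟩
  have h0 := hμ A (hLD A hA) heq
  obtain ⟨i, u, hw, hld, hN⟩ := hcov A hA
  have h1 := Set.mem_iInter.1 ht i
  have h2 := h1 u hld
  refine h2 ?_ ?_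
  · rw [Module.finrank_fin_fun]
    have h3 := rank_ge A
    have h4 : (fun k => wk l k (φ i u)) = (fun k => wk l k A) := funext hw
    rw [h4]
    omega
  · simp only [hw]
    exact h0


end FanRD
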