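import Mathlib
import Pool.Agent.FanRD.Defs
import Pool.Agent.FanRD.ND
set_option autoImplicit false
set_option maxHeartbeats 4000000
noncomputable section
open MeasureTheory

namespace FanRD

variable {l : ℕ}


/-- TARGET 1 -/
theorem DD_finrank (A : Fan l) (hA : ND A) : Module.finrank ℝ (DD A) ≤ 4 := by
  let Λ : DD A →ₗ[ℝ] ℂ × ℂ :=
    { toFun := fun ν => (∑ i, (ν.1 i : ℂ) * (A i).1, ∑ i, (ν.1 i : ℂ) * (A i).2.1)
      map_add' := by
        intro a b
        ext1
        · simp [add_mul, Finset.sum_add_distrib]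
        · simp [add_mul, Finset.sum_add_distrib]
      map_smul' := by
        intro c a
        ext1
        · simp [mul_assoc, Finset.mul_sum]
        · simp [mul_assoc, Finset.mul_sum] }
  have hinj : Function.Injective Λ := by
    rw [injective_iff_map_eq_zero]
    intro ν hν
    have h1 : ∑ i, (ν.1 i : ℂ) * (A i).1 = 0 := congrArg Prod.fst hν
    have h2 : ∑ i, (ν.1 i : ℂ) * (A i).2.1 = 0 := congrArg Prod.snd hν
    apply Subtype.ext
    exact nd_indep A hA ν.1 ν.2.1 h1 h2 ν.2.2
  have h1 := LinearMap.finrank_le_finrank_of_injective hinj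
  rw [Module.finrank_prod, Complex.finrank_real_complex] at h1
  exact h1

/-- TARGET 2: at most 16 elements are not typical -/
theorem nontyp_card (A : Fan l) (hA : ND A) :
    ∃ S : Finset (Fin (l + 5)), (∀ m, m ∉ S ↔ Typ A m) ∧ S.card ≤ 16 := by
  classical
  set P : Set (Fin (l + 5) → ℝ) :=
    {ν | ν ∈ DD A ∧ (Finset.univ.filter (fun i => ν i ≠ 0)).card ≤ 4} with hP
  obtain ⟨b, hbP, hspan, hli⟩ := exists_linearIndependent ℝ P
  have hble : Submodule.span ℝ b ≤ DD A := Submodule.span_le.mpr (fun ν hν => (hbP hν).1)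
  have hbfin : b.Finite := hli.setFinite
  haveI : Fintype b := hbfin.fintype
  have hbcard : b.toFinset.card ≤ 4 := by
    rw [← finrank_span_set_eq_card hli]
    exact (Submodule.finrank_mono hble).trans (DD_finrank A hA)
  set S0 : Finset (Fin (l + 5)) := b.toFinset.biUnion (fun ν => Finset.univ.filter (fun i => ν i ≠ 0)) with hS0
  have hS0card : S0.card ≤ 16 := by
    have h1 : S0.card ≤ b.toFinset.card * 4 := by
      apply Finset.card_biUnion_le_card_mul
      intro ν hν
      exact (hbP (Set.mem_toFinset.mp hν)).2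
    omega
  have hvan : ∀ ν ∈ P, ∀ m, m ∉ S0 → ν m = 0 := by
    intro ν hν m hm
    have h1 : ν ∈ Submodule.span ℝ b := by
      rw [hspan]
      exact Submodule.subset_span hν
    refine Submodule.span_induction (p := fun ν _ => ν m = 0) ?_ ?_ ?_ ?_ h1
    · intro μ hμ
      by_contra h2
      apply hm
      rw [hS0, Finset.mem_biUnion]
      exact ⟨μ, Set.mem_toFinset.mpr hμ, by simpa using h2⟩
    · rfl
    · intro x y _ _ hx hy
      rw [Pi.add_apply, hx, hy, add_zero]
    · intro c x _ hx
      rw [Pi.smul_apply, hx, smul_zero]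
  refine ⟨Finset.univ.filter (fun m => ¬ Typ A m), ?_, ?_⟩
  · intro m
    simp
  · refine le_trans (Finset.card_le_card ?_) hS0card
    intro m hm
    rw [Finset.mem_filter] at hm
    by_contra h1
    apply hm.2
    intro ν h2 h3 h4
    exact hvan ν ⟨⟨h2, h3⟩, h4⟩ m h1

/-- TARGET 3 -/
theorem deg_counts (A : Fan l) (hA : ND A) (W : Finset (Fin (l + 5)))
    (ρ : Fin (l + 5) → Fin (l + 5)) (h : Deg A W ρ) :
    (Finset.univ.filter (fun p => ρ p ≠ p)).card ≤ 4 ∧
    Wᶜ.card ≤ 2 * (Finset.univ.filter (fun p => ρ p ≠ p)).card := by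
  classical
  set N : Finset (Fin (l + 5)) := Finset.univ.filter (fun p => ρ p ≠ p) with hN
  have hNW : ∀ p ∈ N, p ∉ W := by
    intro p hp hpW
    rw [hN, Finset.mem_filter] at hp
    exact hp.2 (h.fix p hpW)
  constructor
  · have hmem : ∀ p : N, (Pi.single (p : Fin (l + 5)) (1:ℝ) - Pi.single (ρ p) (1:ℝ) : Fin (l + 5) → ℝ) ∈ DD A := by
      intro p
      have hpW := hNW p p.2
      have hph : Ph A (p : Fin (l + 5)) (ρ p) :=
        (h.cls p (ρ p) hpW (h.maps p hpW)).mp (h.idem p).symm
      have hSB : (A p).2.2 = (A (ρ p)).2.2 := hph.1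
      refine ⟨?_, ?_⟩
      · simp only [Pi.sub_apply, Finset.sum_sub_distrib]
        rw [Finset.sum_pi_single', Finset.sum_pi_single']
        simp
      · intro k
        simp only [Pi.sub_apply, sub_mul, Finset.sum_sub_distrib, Pi.single_apply, ite_mul, one_mul, zero_mul,
          Finset.sum_ite_eq', Finset.mem_univ, if_true]
        rw [hSB, sub_self]
    set v : N → DD A := fun p => ⟨_, hmem p⟩ with hv
    have hli : LinearIndependent ℝ v := by
      rw [Fintype.linearIndependent_iff]
      intro g hg p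
      have h1 : (∑ q : N, g q • (v q : Fin (l + 5) → ℝ)) p = 0 := by
        have h2 := congrArg (fun x : DD A => (x : Fin (l + 5) → ℝ) p) hg
        simpa using h2
      rw [Finset.sum_apply, Finset.sum_eq_single p] at h1
      · have h2 : ρ p ≠ p := (Finset.mem_filter.mp p.2).2
        simp only [hv, Pi.smul_apply, Pi.sub_apply, Pi.single_eq_same, smul_eq_mul] at h1
        rw [Pi.single_eq_of_ne (fun h3 => h2 h3.symm), sub_zero, mul_one] at h1
        exact h1
      · intro q _ hqp
        have h2 : ρ p ≠ p := (Finset.mem_filter.mp p.2).2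
        have h3 : (p : Fin (l + 5)) ≠ q := fun h4 => hqp (Subtype.ext h4.symm)
        have h4 : (p : Fin (l + 5)) ≠ ρ q := by
          intro h5
          apply h2
          rw [h5, h.idem]
        simp only [hv, Pi.smul_apply, Pi.sub_apply, smul_eq_mul]
        rw [Pi.single_eq_of_ne h3, Pi.single_eq_of_ne h4, sub_zero, mul_zero]
      · intro h2
        exact absurd (Finset.mem_univ _) h2
    have h1 := hli.fintype_card_le_finrank
    rw [Fintype.card_coe] at h1
    exact h1.trans (DD_finrank A hA)
  · have hsub : Wᶜ ⊆ N ∪ N.image ρ := by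
      intro p hp
      rw [Finset.mem_compl] at hp
      rw [Finset.mem_union]
      by_cases hpN : ρ p = p
      · right
        obtain ⟨q, hqp, hq⟩ := h.ns p hp
        rw [Finset.mem_image]
        refine ⟨q, ?_, ?_⟩
        · rw [hN, Finset.mem_filter]
          refine ⟨Finset.mem_univ _, ?_⟩
          rw [hq, hpN]
          exact fun h1 => hqp h1.symm
        · rw [hq, hpN]
      · left
        rw [hN, Finset.mem_filter]
        exact ⟨Finset.mem_univ _, hpN⟩
    have h1 := Finset.card_le_card hsub
    have h2 := Finset.card_union_le N (N.image ρ)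
    have h3 : (N.image ρ).card ≤ N.card := Finset.card_image_le
    omega

end FanRD
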