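import Mathlib
import Pool.Agent.FanRD.Defs
import Pool.Agent.FanRD.ND
import Pool.Agent.FanRD.S16
set_option autoImplicit false
set_option maxHeartbeats 4000000
noncomputable section
open MeasureTheory

namespace FanRD

variable {l : ℕ}


theorem deg_SB (A : Fan l) (W : Finset (Fin (l + 5)))
    (ρ : Fin (l + 5) → Fin (l + 5)) (h : Deg A W ρ) (p : Fin (l + 5)) :
    (A p).2.2 = (A (ρ p)).2.2 := by
  by_cases hp : p ∈ W
  · rw [h.fix p hp]
  · have h1 := (h.cls p (ρ p) hp (h.maps p hp)).1 (h.idem p).symm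
    exact h1.1

/-- TARGET 1: all dependencies live on the classes -/
theorem DD_zero_W (A : Fan l) (hA : ND A) (W : Finset (Fin (l + 5)))
    (ρ : Fin (l + 5) → Fin (l + 5)) (h : Deg A W ρ) (h4 : cN ρ = 4) (ν : Fin (l + 5) → ℝ)
    (hν : ν ∈ DD A) : ∀ m ∈ W, ν m = 0 := by
  have hfin := DD_finrank A hA
  let U : {p : Fin (l + 5) // ρ p ≠ p} → DD A := fun p =>
    ⟨Pi.single p.1 1 - Pi.single (ρ p.1) 1, by
      constructor
      · simp [Finset.sum_sub_distrib]
      · intro k
        simp only [Pi.sub_apply, sub_mul, Finset.sum_sub_distrib]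
        have e : ∀ q : Fin (l + 5), ∑ i, (Pi.single q (1 : ℝ) : Fin (l + 5) → ℝ) i *
            (A i).2.2.1 k = (A q).2.2.1 k := by
          intro q
          rw [Finset.sum_eq_single q]
          · simp
          · intro b _ hb
            rw [Pi.single_eq_of_ne hb, zero_mul]
          · simp
        rw [e, e, deg_SB A W ρ h p.1, sub_self]⟩
  have hcard : Fintype.card {p : Fin (l + 5) // ρ p ≠ p} = 4 := by
    rw [Fintype.card_subtype]
    exact h4
  have hli : LinearIndependent ℝ U := by
    rw [Fintype.linearIndependent_iff]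
    intro g hg q
    have h1 := congrArg (fun z : DD A => (z : Fin (l + 5) → ℝ) q.1) hg
    simp only [Submodule.coe_sum, Submodule.coe_smul, Finset.sum_apply, Pi.smul_apply,
      smul_eq_mul, Submodule.coe_zero, Pi.zero_apply] at h1
    rw [Finset.sum_eq_single q] at h1
    · simp only [U, Pi.sub_apply, Pi.single_eq_same] at h1
      rw [Pi.single_eq_of_ne (fun h2 => q.2 h2.symm)] at h1
      simpa using h1
    · intro b _ hb
      simp only [U, Pi.sub_apply]
      rw [Pi.single_eq_of_ne (fun h2 => hb (Subtype.ext h2.symm)),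
        Pi.single_eq_of_ne (fun h2 => q.2 (by rw [h2, h.idem]))]
      simp
    · simp
  have hle := hli.fintype_card_le_finrank
  rw [hcard] at hle
  have hspan : Submodule.span ℝ (Set.range U) = ⊤ :=
    hli.span_eq_top_of_card_eq_finrank' (by rw [hcard]; omega)
  intro m hm
  have hmem : (⟨ν, hν⟩ : DD A) ∈ Submodule.span ℝ (Set.range U) := by
    rw [hspan]; trivial
  have key : ∀ z ∈ Submodule.span ℝ (Set.range U), (z : Fin (l + 5) → ℝ) m = 0 := by
    intro z hz
    induction hz using Submodule.span_induction with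
    | mem x hx =>
      obtain ⟨p, rfl⟩ := hx
      have hp : p.1 ∉ W := fun h2 => p.2 (h.fix _ h2)
      have e1 : m ≠ p.1 := fun h2 => hp (h2 ▸ hm)
      have e2 : m ≠ ρ p.1 := fun h2 => h.maps _ hp (h2 ▸ hm)
      simp only [U, Pi.sub_apply]
      rw [Pi.single_eq_of_ne e1, Pi.single_eq_of_ne e2, sub_self]
    | zero => rfl
    | add x y _ _ hx hy => simp [hx, hy]
    | smul a x _ hx => simp [hx]
  exact key _ hmem

/-- TARGET 2 -/
theorem typ_of_W (A : Fan l) (hA : ND A) (W : Finset (Fin (l + 5)))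
    (ρ : Fin (l + 5) → Fin (l + 5)) (h : Deg A W ρ) (h4 : cN ρ = 4) (m : Fin (l + 5)) (hm : m ∈ W) :
    Typ A m := by
  intro ν h1 h2 _
  exact DD_zero_W A hA W ρ h h4 ν ⟨h1, h2⟩ m hm

/-- TARGET 3: the levels are free -/
theorem free_levels (A : Fan l) (hA : ND A) (W : Finset (Fin (l + 5)))
    (ρ : Fin (l + 5) → Fin (l + 5)) (h : Deg A W ρ) (h4 : cN ρ = 4)
    (t : Fin (l + 5) → ℝ) (ht : ∀ p, t (ρ p) = t p) (z1 z2 : ℂ) :
    ∃ (v : Fin l → ℝ) (s : ℝ), ∀ i, BB A (z1, z2, v) i = t i + s := by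
  have hcard : Fintype.card {p : Fin (l + 5) // ρ p = p} = l + 1 := by
    rw [Fintype.card_subtype]
    have h1 := Finset.card_filter_add_card_filter_not (s := (Finset.univ : Finset (Fin (l + 5))))
      (fun p => ρ p = p)
    have h2 : (Finset.univ.filter (fun p => ¬ ρ p = p)).card = 4 := h4
    rw [h2, Finset.card_univ, Fintype.card_fin] at h1
    omega
  let Ψ : ((Fin l → ℝ) × ℝ) →ₗ[ℝ] ({p : Fin (l + 5) // ρ p = p} → ℝ) :=
    { toFun := fun x r => ∑ k, (A r.1).2.2.1 k * x.1 k - x.2
      map_add' := by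
        intro x y
        funext r
        simp only [Prod.fst_add, Prod.snd_add, Pi.add_apply, mul_add, Finset.sum_add_distrib]
        ring
      map_smul' := by
        intro a x
        funext r
        simp only [Prod.smul_fst, Prod.smul_snd, Pi.smul_apply, smul_eq_mul, RingHom.id_apply,
          mul_sub, Finset.mul_sum]
        congr 1
        apply Finset.sum_congr rfl
        intro k _
        ring }
  have hΨ : ∀ x r, Ψ x r = ∑ k, (A r.1).2.2.1 k * x.1 k - x.2 := fun _ _ => rfl
  have hinj : Function.Injective Ψ := by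
    rw [← LinearMap.ker_eq_bot, LinearMap.ker_eq_bot']
    rintro ⟨v, s⟩ hvs
    have h1 : ∀ p, ∑ k, (A p).2.2.1 k * v k = s := by
      intro p
      have h2 := congrFun hvs ⟨ρ p, h.idem p⟩
      rw [hΨ] at h2
      simp only [Pi.zero_apply] at h2
      rw [deg_SB A W ρ h p]
      linarith
    have h3 := hA (0, 0, v) (fun i => by
      simp only [lin, om, bb, mul_zero, add_zero, Complex.zero_re, zero_add]
      rw [h1, h1])
    have h4 : v = 0 := by
      have := congrArg (fun z : X l => z.2.2) h3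
      exact this
    have h5 : s = 0 := by
      rw [← h1 0, h4]
      simp
    rw [h4, h5]
    rfl
  have hsurj : Function.Surjective Ψ := by
    apply (LinearMap.injective_iff_surjective_of_finrank_eq_finrank _).1 hinj
    rw [Module.finrank_prod, Module.finrank_fintype_fun_eq_card, Module.finrank_self,
      Fintype.card_fin, Module.finrank_fintype_fun_eq_card, hcard]
  obtain ⟨⟨v, s⟩, hvs⟩ := hsurj (fun r => t r.1 - (A r.1).2.2.2)
  refine ⟨v, s, fun i => ?_⟩
  have h1 := congrFun hvs ⟨ρ i, h.idem i⟩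
  rw [hΨ] at h1
  simp only at h1
  rw [ht, ← deg_SB A W ρ h i] at h1
  simp only [BB, bb]
  linarith

/-- TARGET 4: two elements on different complex lines give free `ω`-values -/
theorem free_omega (A : Fan l) (x y : Fin (l + 5))
    (hxy : ¬ ∃ η : ℂ, (A y).1 = η * (A x).1 ∧ (A y).2.1 = η * (A x).2.1)
    (hx : ¬ ((A x).1 = 0 ∧ (A x).2.1 = 0)) (c d : ℂ) :
    ∃ z1 z2 : ℂ, (A x).1 * z1 + (A x).2.1 * z2 = c ∧ (A y).1 * z1 + (A y).2.1 * z2 = d := by
  generalize (A x).1 = a1 at *
  generalize (A x).2.1 = a2 at *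
  generalize (A y).1 = b1 at *
  generalize (A y).2.1 = b2 at *
  have hdet : a1 * b2 - a2 * b1 ≠ 0 := by
    intro h0
    apply hxy
    by_cases h1 : a1 = 0
    · have h2 : a2 ≠ 0 := fun h2 => hx ⟨h1, h2⟩
      have h3 : b1 = 0 := by
        rw [h1, zero_mul, zero_sub, neg_eq_zero] at h0
        exact (mul_eq_zero.1 h0).resolve_left h2
      exact ⟨b2 / a2, by rw [h1, h3, mul_zero], by field_simp⟩
    · refine ⟨b1 / a1, by field_simp, ?_⟩
      field_simp
      linear_combination h0
  refine ⟨(c * b2 - a2 * d) / (a1 * b2 - a2 * b1), (a1 * d - b1 * c) / (a1 * b2 - a2 * b1), ?_, ?_⟩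
  · rw [mul_div_assoc', mul_div_assoc', ← add_div, div_eq_iff hdet]
    ring
  · rw [mul_div_assoc', mul_div_assoc', ← add_div, div_eq_iff hdet]
    ring


end FanRD
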