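import Mathlib
import Pool.Agent.FanRD.Defs
set_option autoImplicit false
set_option maxHeartbeats 4000000
noncomputable section
open MeasureTheory

namespace FanRD

variable {l : ℕ}




theorem haar_X (l : ℕ) : (volume : Measure (X l)).IsAddHaarMeasure := by
  have h1 : (volume : Measure (ℂ × (Fin l → ℝ))).IsAddHaarMeasure := by
    rw [Measure.volume_eq_prod]; infer_instance
  exact Measure.prod.instIsAddHaarMeasure _ _

/-- TARGET 1: regular simplices exist -/
theorem exists_simplex (n : ℕ) (hn : 1 ≤ n) : ∃ w : Fin (n + 1) → EuclideanSpace ℝ (Fin n),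
    AffineIndependent ℝ w ∧ ∃ d : ℝ, ∀ i j : Fin (n + 1), i ≠ j → dist (w i) (w j) = d := by
  have hn0 : (0:ℝ) < n := by exact_mod_cast hn
  set c : ℝ := (1 + Real.sqrt (n + 1)) / n with hc
  have hcn : c * n = 1 + Real.sqrt (n + 1) := by rw [hc]; field_simp
  have hs : Real.sqrt (n + 1) ^ 2 = n + 1 := Real.sq_sqrt (by positivity)
  have hs0 : 0 < Real.sqrt (n + 1) := Real.sqrt_pos.mpr (by positivity)
  have hq : n * c ^ 2 - 2 * c - 1 = 0 := by
    have h1 : (n:ℝ) * (n * c ^ 2 - 2 * c - 1) = 0 := by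
      have : (n:ℝ) * (n * c ^ 2 - 2 * c - 1) = (c * n) ^ 2 - 2 * (c * n) - n := by ring
      rw [this, hcn]
      nlinarith
    rcases mul_eq_zero.mp h1 with h | h
    · linarith
    · exact h
  let w : Fin (n + 1) → EuclideanSpace ℝ (Fin n) :=
    Fin.lastCases (WithLp.toLp 2 (fun _ => c)) (fun i => EuclideanSpace.single i 1)
  have hwl : w (Fin.last n) = WithLp.toLp 2 (fun _ => c) := by simp [w]
  have hwc : ∀ i : Fin n, w i.castSucc = EuclideanSpace.single i 1 := by intro i; simp [w]
  refine ⟨w, ?_, Real.sqrt 2, ?_⟩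
  · rw [affineIndependent_iff_of_fintype]
    intro μ hμ h
    rw [Finset.weightedVSub_eq_linear_combination _ hμ] at h
    rw [Fin.sum_univ_castSucc] at h hμ
    simp only [hwl, hwc] at h
    have hk : ∀ k : Fin n, μ k.castSucc + μ (Fin.last n) * c = 0 := by
      intro k
      have := congrArg (fun v : EuclideanSpace ℝ (Fin n) => v k) h
      simpa [Pi.single_apply, Finset.sum_apply] using this
    have hlast : μ (Fin.last n) = 0 := by
      have h1 : ∑ k : Fin n, μ k.castSucc = - (n * (μ (Fin.last n) * c)) := by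
        have : ∀ k : Fin n, μ k.castSucc = - (μ (Fin.last n) * c) := fun k => by linarith [hk k]
        rw [Finset.sum_congr rfl (fun k _ => this k)]
        simp
      rw [h1] at hμ
      have h2 : μ (Fin.last n) * Real.sqrt (n + 1) = 0 := by
        have : μ (Fin.last n) * (1 - c * n) = 0 := by linarith
        rw [hcn] at this
        linarith
      rcases mul_eq_zero.mp h2 with h | h
      · exact h
      · exact absurd h hs0.ne'
    intro i
    refine Fin.lastCases hlast (fun k => ?_) i
    have := hk k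
    rw [hlast] at this
    linarith
  · have key : ∀ i : Fin n, dist (w i.castSucc) (w (Fin.last n)) = Real.sqrt 2 := by
      intro i
      rw [EuclideanSpace.dist_eq, hwl, hwc]
      congr 1
      have : ∀ k : Fin n, dist ((EuclideanSpace.single i (1:ℝ) : EuclideanSpace ℝ (Fin n)) k)
          ((WithLp.toLp 2 (fun _ => c) : EuclideanSpace ℝ (Fin n)) k) ^ 2 =
          c ^ 2 + (if k = i then 1 - 2 * c else 0) := by
        intro k
        rw [Real.dist_eq, sq_abs, PiLp.single_apply]
        split_ifs with h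
        · simp; ring
        · simp
      rw [Finset.sum_congr rfl (fun k _ => this k), Finset.sum_add_distrib]
      simp
      linarith
    have key2 : ∀ i j : Fin n, i ≠ j → dist (w i.castSucc) (w j.castSucc) = Real.sqrt 2 := by
      intro i j hij
      rw [EuclideanSpace.dist_eq, hwc, hwc]
      congr 1
      have : ∀ k : Fin n, dist ((EuclideanSpace.single i (1:ℝ) : EuclideanSpace ℝ (Fin n)) k)
          ((EuclideanSpace.single j (1:ℝ) : EuclideanSpace ℝ (Fin n)) k) ^ 2 =
          (if k = i then 1 else 0) + (if k = j then 1 else 0) := by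
        intro k
        rw [Real.dist_eq, sq_abs, PiLp.single_apply, PiLp.single_apply]
        by_cases h : k = i
        · have : k ≠ j := fun h' => hij (h.symm.trans h')
          simp [h, this, hij]
        · by_cases h' : k = j
          · simp [h', Ne.symm hij]
          · simp [h, h']
      rw [Finset.sum_congr rfl (fun k _ => this k), Finset.sum_add_distrib]
      simp
      norm_num
    intro i j
    refine Fin.lastCases ?_ (fun i' => ?_) i
    · refine Fin.lastCases (fun h => absurd rfl h) (fun j' _ => ?_) j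
      rw [dist_comm]; exact key j'
    · refine Fin.lastCases (fun _ => key i') (fun j' h => ?_) j
      exact key2 i' j' (fun h' => h (by rw [h']))


theorem linear_form (l : ℕ) (L : X l →ₗ[ℝ] ℝ) : ∃ (a b : ℂ) (g : Fin l → ℝ),
    ∀ x : X l, L x = (a * x.1 + b * x.2.1).re + ∑ k, g k * x.2.2 k := by
  refine ⟨⟨L (1, 0, 0), - L (Complex.I, 0, 0)⟩, ⟨L (0, 1, 0), - L (0, Complex.I, 0)⟩,
    fun k => L (0, 0, Pi.single k 1), fun x => ?_⟩
  have hx : x = x.1.re • ((1:ℂ), (0:ℂ), (0 : Fin l → ℝ)) + x.1.im • (Complex.I, (0:ℂ), (0 : Fin l → ℝ))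
      + (x.2.1.re • ((0:ℂ), (1:ℂ), (0 : Fin l → ℝ)) + x.2.1.im • ((0:ℂ), Complex.I, (0 : Fin l → ℝ)))
      + ∑ k, x.2.2 k • ((0:ℂ), (0:ℂ), (Pi.single k 1 : Fin l → ℝ)) := by
    refine Prod.ext ?_ (Prod.ext ?_ ?_)
    · rw [Prod.fst_add, Prod.fst_sum]
      simp [Complex.ext_iff]
    · rw [Prod.snd_add, Prod.fst_add, Prod.snd_sum, Prod.fst_sum]
      simp [Complex.ext_iff]
    · rw [Prod.snd_add, Prod.snd_add, Prod.snd_sum, Prod.snd_sum]
      ext k
      simp [Finset.sum_apply, Pi.single_apply]
  have hL := congrArg L hx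
  rw [map_add, map_add, map_add, map_add, map_smul, map_smul, map_smul, map_smul, map_sum] at hL
  simp only [map_smul, smul_eq_mul] at hL
  rw [hL]
  simp only [Complex.add_re, Complex.mul_re]
  have : ∑ k, x.2.2 k * L (0, 0, Pi.single k 1) = ∑ k, L (0, 0, Pi.single k 1) * x.2.2 k :=
    Finset.sum_congr rfl fun k _ => mul_comm _ _
  rw [this]
  ring

/-- TARGET 2: transfer to the frozen statement -/
theorem transfer (l : ℕ) (μ : Measure (X l)) (hfin : IsFiniteMeasure μ) (hac : μ ≪ volume)
    (h : ∀ A : Fan l, ND A → ¬ (∀ i j k m : Fin (l + 5), i ≠ j → k ≠ m →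
          μ {x | ∀ q, ev (A q) x ≤ ev (A i) x ∧ ev (A j) x ≤ ev (A q) x} =
          μ {x | ∀ q, ev (A q) x ≤ ev (A k) x ∧ ev (A m) x ≤ ev (A q) x})) :
    ¬ (∀ n : ℕ, 1 ≤ n →
      ∀ w : Fin (n+1) → EuclideanSpace ℝ (Fin n),
        AffineIndependent ℝ w →
        (∃ d : ℝ, ∀ i j : Fin (n+1), i ≠ j → dist (w i) (w j) = d) →
        ∀ μ : MeasureTheory.Measure (EuclideanSpace ℝ (Fin n)),
          MeasureTheory.IsFiniteMeasure μ →
          MeasureTheory.Measure.AbsolutelyContinuous μ MeasureTheory.volume →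
          ∃ A : EuclideanSpace ℝ (Fin n) ≃ᵃ[ℝ] EuclideanSpace ℝ (Fin n),
            ∀ i j k l : Fin (n+1), i ≠ j → k ≠ l →
              μ (A '' {x : EuclideanSpace ℝ (Fin n) |
                  ∀ m : Fin (n+1), inner ℝ x (w m) ≤ inner ℝ x (w i) ∧
                    inner ℝ x (w j) ≤ inner ℝ x (w m)})
              = μ (A '' {x : EuclideanSpace ℝ (Fin n) |
                  ∀ m : Fin (n+1), inner ℝ x (w m) ≤ inner ℝ x (w k) ∧
                    inner ℝ x (w l) ≤ inner ℝ x (w m)})) := by
  intro H
  haveI := hfin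
  haveI := haar_X l
  obtain ⟨w, hw, d, hd⟩ := exists_simplex (l + 4) (by omega)
  have hfr : Module.finrank ℝ (X l) = Module.finrank ℝ (EuclideanSpace ℝ (Fin (l+4))) := by
    simp
    omega
  let T : X l ≃L[ℝ] EuclideanSpace ℝ (Fin (l+4)) := ContinuousLinearEquiv.ofFinrankEq hfr
  have hTm : Measurable T := T.continuous.measurable
  have hfin' : IsFiniteMeasure (μ.map T) := Measure.isFiniteMeasure_map μ T
  have hac' : (μ.map T) ≪ (volume : Measure (EuclideanSpace ℝ (Fin (l+4)))) := by
    have h1 : μ.map T ≪ (volume : Measure (X l)).map T := hac.map hTm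
    haveI h2 : ((volume : Measure (X l)).map T).IsAddHaarMeasure := T.isAddHaarMeasure_map _
    exact h1.trans (Measure.absolutelyContinuous_isAddHaarMeasure _ _)
  obtain ⟨A', hA'⟩ := H (l+4) (by omega) w hw ⟨d, hd⟩ (μ.map T) hfin' hac'
  have hmap : ∀ S : Set (EuclideanSpace ℝ (Fin (l+4))), (μ.map T) S = μ (T ⁻¹' S) := by
    intro S
    exact MeasurableEquiv.map_apply T.toHomeomorph.toMeasurableEquiv S
  have hdec : ∀ y, A'.symm y = A'.symm.linear y + A'.symm 0 := by
    intro y
    have := A'.symm.map_vadd 0 y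
    simpa using this
  let Lq : Fin (l + 5) → (X l →ₗ[ℝ] ℝ) := fun q =>
    (innerₗ (EuclideanSpace ℝ (Fin (l+4))) (w q)) ∘ₗ
      (A'.symm.linear.toLinearMap) ∘ₗ T.toLinearEquiv.toLinearMap
  have hLq : ∀ q x, Lq q x = inner ℝ (A'.symm.linear (T x)) (w q) := by
    intro q x
    simp only [Lq, LinearMap.comp_apply]
    rw [innerₗ_apply_apply, real_inner_comm]
    rfl
  choose a b g habg using fun q => linear_form l (Lq q)
  let A : Fan l := fun q => (a q, b q, g q, inner ℝ (A'.symm 0) (w q))
  have hlin : ∀ q x, lin (A q) x = inner ℝ (A'.symm.linear (T x)) (w q) := by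
    intro q x
    rw [← hLq, habg]
    rfl
  have hev : ∀ q x, ev (A q) x = inner ℝ (A'.symm (T x)) (w q) := by
    intro q x
    have : ev (A q) x = lin (A q) x + inner ℝ (A'.symm 0) (w q) := rfl
    rw [this, hlin, hdec (T x), inner_add_left]
  have hND : ND A := by
    intro x hx
    have h1 : ∀ i, inner ℝ (A'.symm.linear (T x)) (w i - w 0) = 0 := by
      intro i
      rw [inner_sub_right, ← hlin, ← hlin, hx i, sub_self]
    have htop : vectorSpan ℝ (Set.range w) = ⊤ := by
      apply hw.vectorSpan_eq_top_of_card_eq_finrank_add_one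
      simp
    have h2 : ∀ v ∈ vectorSpan ℝ (Set.range w), inner ℝ (A'.symm.linear (T x)) v = 0 := by
      intro v hv
      rw [vectorSpan_range_eq_span_range_vsub_right ℝ w 0] at hv
      refine Submodule.span_induction ?_ ?_ ?_ ?_ hv
      · rintro _ ⟨i, rfl⟩
        simpa using h1 i
      · simp
      · intro u v _ _ hu hv
        rw [inner_add_right, hu, hv, add_zero]
      · intro c u _ hu
        rw [inner_smul_right, hu, mul_zero]
    have h3 : A'.symm.linear (T x) = 0 := by
      have := h2 (A'.symm.linear (T x)) (by rw [htop]; trivial)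
      exact inner_self_eq_zero.mp this
    have h4 : T x = 0 := by
      have := (LinearEquiv.map_eq_zero_iff A'.symm.linear).mp h3
      exact this
    exact (ContinuousLinearEquiv.map_eq_zero_iff T).mp h4
  refine h A hND fun i j k m hij hkm => ?_
  have hset : ∀ i j : Fin (l+5), T ⁻¹' (A' '' {x : EuclideanSpace ℝ (Fin (l+4)) |
      ∀ m : Fin (l+4+1), inner ℝ x (w m) ≤ inner ℝ x (w i) ∧
        inner ℝ x (w j) ≤ inner ℝ x (w m)}) =
      {x | ∀ q, ev (A q) x ≤ ev (A i) x ∧ ev (A j) x ≤ ev (A q) x} := by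
    intro i j
    ext x
    simp only [Set.mem_preimage, Set.mem_image, Set.mem_setOf_eq]
    constructor
    · rintro ⟨y, hy, hyx⟩ q
      have : y = A'.symm (T x) := by rw [← hyx, AffineEquiv.symm_apply_apply]
      rw [hev, hev, hev, ← this]
      exact hy q
    · intro hx
      refine ⟨A'.symm (T x), fun q => ?_, AffineEquiv.apply_symm_apply _ _⟩
      have := hx q
      rw [hev, hev, hev] at this
      exact this
  have := hA' i j k m hij hkm
  rw [hmap, hmap, hset, hset] at this
  exact this

end FanRD
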