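import Mathlib
import Pool.Agent.FanRD.Defs
import Pool.Agent.FanRD.ND
set_option autoImplicit false
set_option maxHeartbeats 4000000
noncomputable section
open MeasureTheory

namespace FanRD

variable {l : ℕ}


/-- existence of a nonzero real relation -/
theorem exists_rel4 (e : Fin 4 → ℂ) : ∃ ν : Fin 4 → ℝ, ν ≠ 0 ∧ ∑ i, ν i = 0 ∧ ∑ i, (ν i : ℂ) * e i = 0 := by
  let L : (Fin 4 → ℝ) →ₗ[ℝ] (ℂ × ℝ) :=
    { toFun := fun ν => (∑ i, (ν i : ℂ) * e i, ∑ i, ν i)
      map_add' := by
        intro a b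
        simp [add_mul, Finset.sum_add_distrib]
      map_smul' := by
        intro c a
        simp [mul_assoc, Finset.mul_sum, Finset.smul_sum] }
  have hk : L.ker ≠ ⊥ := by
    apply LinearMap.ker_ne_bot_of_finrank_lt
    simp [Module.finrank_prod, Complex.finrank_real_complex]
  obtain ⟨ν, hν, hν0⟩ := (Submodule.ne_bot_iff _).1 hk
  rw [LinearMap.mem_ker] at hν
  have h1 : (∑ i, (ν i : ℂ) * e i, ∑ i, ν i) = ((0 : ℂ), (0 : ℝ)) := hν
  exact ⟨ν, hν0, (Prod.ext_iff.1 h1).2, (Prod.ext_iff.1 h1).1⟩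

theorem exists_relN {l : ℕ} (c : Fin (l + 5) → ℂ) (b : Fin (l + 5) → Fin l → ℝ) :
    ∃ ν : Fin (l + 5) → ℝ, ν ≠ 0 ∧ ∑ i, ν i = 0 ∧ ∑ i, (ν i : ℂ) * c i = 0 ∧
      ∀ k, ∑ i, ν i * b i k = 0 := by
  let L : (Fin (l + 5) → ℝ) →ₗ[ℝ] (ℂ × ℝ × (Fin l → ℝ)) :=
    { toFun := fun ν => (∑ i, (ν i : ℂ) * c i, ∑ i, ν i, fun k => ∑ i, ν i * b i k)
      map_add' := by
        intro a b'
        simp only [Pi.add_apply, Complex.ofReal_add, add_mul, Finset.sum_add_distrib]
        rfl
      map_smul' := by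
        intro t a
        simp only [Pi.smul_apply, smul_eq_mul, Complex.ofReal_mul, mul_assoc, ← Finset.mul_sum,
          RingHom.id_apply]
        ext <;> simp }
  have hk : L.ker ≠ ⊥ := by
    apply LinearMap.ker_ne_bot_of_finrank_lt
    simp [Module.finrank_prod, Complex.finrank_real_complex]
    omega
  obtain ⟨ν, hν, hν0⟩ := (Submodule.ne_bot_iff _).1 hk
  rw [LinearMap.mem_ker] at hν
  have h1 : (∑ i, (ν i : ℂ) * c i, ∑ i, ν i, fun k => ∑ i, ν i * b i k) =
    ((0 : ℂ), (0 : ℝ), (0 : Fin l → ℝ)) := hν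
  refine ⟨ν, hν0, (Prod.ext_iff.1 (Prod.ext_iff.1 h1).2).1, (Prod.ext_iff.1 h1).1, fun k => ?_⟩
  exact congrFun (Prod.ext_iff.1 (Prod.ext_iff.1 h1).2).2 k

/-- two elements with the same data are equal -/
theorem eq_of_same (A : Fan l) (hA : ND A) {p q : Fin (l + 5)} (hB : (A p).2.2.1 = (A q).2.2.1)
    (h1 : (A p).1 = (A q).1) (h2 : (A p).2.1 = (A q).2.1) : p = q := by
  by_contra hpq
  have keyC : ∀ (F : Fin (l + 5) → ℂ), ∑ i, (((Pi.single p 1 - Pi.single q 1 : Fin (l + 5) → ℝ) i : ℝ) : ℂ) * F i =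
      F p - F q := by
    intro F
    have e1 : ∀ (r i : Fin (l + 5)), (((Pi.single r 1 : Fin (l + 5) → ℝ) i : ℝ) : ℂ) = if i = r then 1 else 0 := by
      intro r i
      by_cases hir : i = r
      · subst hir; simp
      · simp [Pi.single_apply, hir]
    simp only [Pi.sub_apply, Complex.ofReal_sub, sub_mul, Finset.sum_sub_distrib, e1, ite_mul,
      one_mul, zero_mul]
    simp
  have := nd_indep A hA (Pi.single p 1 - Pi.single q 1)
    (by simp [Finset.sum_sub_distrib])
    (by rw [keyC (fun i => (A i).1), h1, sub_self])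
    (by rw [keyC (fun i => (A i).2.1), h2, sub_self])
    (by
      intro k
      simp [sub_mul, Finset.sum_sub_distrib, Pi.single_apply, ite_mul, hB])
  have h3 := congrFun this p
  simp [hpq] at h3

/-- the set of ratios of a class -/
def EE (A : Fan l) (ρ : Fin (l + 5) → Fin (l + 5)) (p : Fin (l + 5)) : Set ℂ :=
  {e | ∃ q, ρ q = ρ p ∧ (A q).1 = e * (A p).1 ∧ (A q).2.1 = e * (A p).2.1}

section
variable {A : Fan l} {W : Finset (Fin (l + 5))} {ρ : Fin (l + 5) → Fin (l + 5)}

theorem notW (h : Deg A W ρ) {p q : Fin (l + 5)} (hp : p ∉ W) (hq : ρ q = ρ p) : q ∉ W := by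
  intro hqW
  have := h.maps p hp
  rw [← hq, h.fix q hqW] at this
  exact this hqW

theorem ratio_unique (h : Deg A W ρ) {p : Fin (l + 5)} (hp : p ∉ W) {e f : ℂ}
    (h1 : e * (A p).1 = f * (A p).1) (h2 : e * (A p).2.1 = f * (A p).2.1) : e = f := by
  have hz := h.nz p hp
  by_contra hef
  apply hz
  have hef' : e - f ≠ 0 := sub_ne_zero.2 hef
  constructor
  · have : (e - f) * (A p).1 = 0 := by rw [sub_mul, h1, sub_self]
    exact (mul_eq_zero.1 this).resolve_left hef'
  · have : (e - f) * (A p).2.1 = 0 := by rw [sub_mul, h2, sub_self]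
    exact (mul_eq_zero.1 this).resolve_left hef'

theorem sameB (h : Deg A W ρ) {p q : Fin (l + 5)} (hp : p ∉ W) (hq : ρ q = ρ p) : SB A q p :=
  ((h.cls q p (notW h hp hq) hp).1 hq).1

theorem norm_ratio (h : Deg A W ρ) {p q : Fin (l + 5)} (hp : p ∉ W) (hq : ρ q = ρ p) {e : ℂ}
    (h1 : (A q).1 = e * (A p).1) (h2 : (A q).2.1 = e * (A p).2.1) : ‖e‖ = 1 := by
  obtain ⟨-, f, hf, h3, h4⟩ := (h.cls q p (notW h hp hq) hp).1 hq
  have : e = f := ratio_unique h hp (by rw [← h1, ← h3]) (by rw [← h2, ← h4])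
  rw [this]; exact hf

theorem eq_of_ratio (hA : ND A) (h : Deg A W ρ) {p q q' : Fin (l + 5)} (hp : p ∉ W)
    (hq : ρ q = ρ p) (hq' : ρ q' = ρ p) {e : ℂ}
    (h1 : (A q).1 = e * (A p).1) (h2 : (A q).2.1 = e * (A p).2.1)
    (h3 : (A q').1 = e * (A p).1) (h4 : (A q').2.1 = e * (A p).2.1) : q = q' := by
  have hB : SB A q p := sameB h hp hq
  have hB' : SB A q' p := sameB h hp hq'
  unfold SB at hB hB'
  exact eq_of_same A hA (by rw [hB, hB']) (by rw [h1, h3]) (by rw [h2, h4])

theorem one_mem_EE (p : Fin (l + 5)) : (1 : ℂ) ∈ EE A ρ p := ⟨p, rfl, by simp, by simp⟩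

theorem no_four (hA : ND A) (h : Deg A W ρ) {p : Fin (l + 5)} (hp : p ∉ W) (e : Fin 4 → ℂ)
    (he : Function.Injective e) (hm : ∀ i, e i ∈ EE A ρ p) : False := by
  choose q hq h1 h2 using hm
  obtain ⟨ν, hν, hs, hs'⟩ := exists_rel4 e
  have hqi : Function.Injective q := by
    intro i j hij
    apply he
    apply ratio_unique h hp
    · rw [← h1, ← h1, hij]
    · rw [← h2, ← h2, hij]
  have key : ∀ F : Fin (l + 5) → ℝ, ∑ i, (∑ j, if q j = i then ν j else 0) * F i =
      ∑ j, ν j * F (q j) := by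
    intro F
    simp only [Finset.sum_mul, ite_mul, zero_mul]
    rw [Finset.sum_comm]
    simp
  have keyC : ∀ F : Fin (l + 5) → ℂ, ∑ i, ((∑ j, if q j = i then ν j else 0 : ℝ) : ℂ) * F i =
      ∑ j, (ν j : ℂ) * F (q j) := by
    intro F
    simp only [Complex.ofReal_sum, Finset.sum_mul]
    rw [Finset.sum_comm]
    apply Finset.sum_congr rfl
    intro j _
    rw [Finset.sum_eq_single (q j)]
    · simp
    · intro i _ hi
      rw [if_neg (fun h => hi h.symm)]
      simp
    · simp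
  have := nd_indep A hA (fun i => ∑ j, if q j = i then ν j else 0) ?_ ?_ ?_ ?_
  · apply hν
    funext j
    have h3 := congrFun this (q j)
    simp only [hqi.eq_iff] at h3
    simpa using h3
  · have := key (fun _ => 1)
    simpa [hs] using this
  · rw [keyC (fun i => (A i).1)]
    simp only [h1]
    rw [show ∑ j, (ν j : ℂ) * (e j * (A p).1) = (∑ j, (ν j : ℂ) * e j) * (A p).1 by
      rw [Finset.sum_mul]; exact Finset.sum_congr rfl (fun j _ => by ring), hs', zero_mul]
  · rw [keyC (fun i => (A i).2.1)]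
    simp only [h2]
    rw [show ∑ j, (ν j : ℂ) * (e j * (A p).2.1) = (∑ j, (ν j : ℂ) * e j) * (A p).2.1 by
      rw [Finset.sum_mul]; exact Finset.sum_congr rfl (fun j _ => by ring), hs', zero_mul]
  · intro k
    rw [key (fun i => (A i).2.2.1 k)]
    have hB : ∀ j, (A (q j)).2.2.1 k = (A p).2.2.1 k := by
      intro j
      have := sameB h hp (hq j)
      unfold SB at this
      rw [this]
    simp only [hB]
    rw [← Finset.sum_mul, hs, zero_mul]

theorem exists_other (hA : ND A) (h : Deg A W ρ) {p : Fin (l + 5)} (hp : p ∉ W) :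
    ∃ p', p' ∉ W ∧ ¬ ∃ η : ℂ, (A p').1 = η * (A p).1 ∧ (A p').2.1 = η * (A p).2.1 := by
  by_contra hcon
  push Not at hcon
  have hall : ∀ i, ∃ c : ℂ, (A i).1 = c * (A p).1 ∧ (A i).2.1 = c * (A p).2.1 := by
    intro i
    by_cases hi : i ∈ W
    · exact ⟨0, by simp [(h.zero i hi).1], by simp [(h.zero i hi).2]⟩
    · exact hcon i hi
  choose c hc1 hc2 using hall
  obtain ⟨ν, hν, hs, hsc, hb⟩ := exists_relN c (fun i k => (A i).2.2.1 k)
  apply hν
  apply nd_indep A hA ν hs _ _ hb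
  · rw [show ∑ j, (ν j : ℂ) * (A j).1 = (∑ j, (ν j : ℂ) * c j) * (A p).1 by
      rw [Finset.sum_mul]
      exact Finset.sum_congr rfl (fun j _ => by rw [hc1 j]; ring), hsc, zero_mul]
  · rw [show ∑ j, (ν j : ℂ) * (A j).2.1 = (∑ j, (ν j : ℂ) * c j) * (A p).2.1 by
      rw [Finset.sum_mul]
      exact Finset.sum_congr rfl (fun j _ => by rw [hc2 j]; ring), hsc, zero_mul]

/-- not on the same complex line -/
def NL (A : Fan l) (p p' : Fin (l + 5)) : Prop :=
  ¬ ∃ η : ℂ, (A p').1 = η * (A p).1 ∧ (A p').2.1 = η * (A p).2.1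

theorem NL.symm (h : Deg A W ρ) {p p' : Fin (l + 5)} (hp : p ∉ W) (hp' : p' ∉ W) (hn : NL A p p') :
    NL A p' p := by
  rintro ⟨η, h1, h2⟩
  apply hn
  have hη : η ≠ 0 := by
    rintro rfl
    exact h.nz p hp ⟨by rw [h1, zero_mul], by rw [h2, zero_mul]⟩
  exact ⟨η⁻¹, by rw [h1]; field_simp, by rw [h2]; field_simp⟩

theorem EE_sub (hA : ND A) (h : Deg A W ρ) (hNR : ¬ NR A W ρ) {p p' : Fin (l + 5)} (hp : p ∉ W)
    (hp' : p' ∉ W) (hn : NL A p p') : EE A ρ p ⊆ EE A ρ p' := by
  rintro e ⟨q, hq, h1, h2⟩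
  by_cases hqp : p = q
  · subst hqp
    have : e = 1 := ratio_unique h hp (by rw [← h1, one_mul]) (by rw [← h2, one_mul])
    rw [this]; exact one_mem_EE _
  · by_contra hcon
    apply hNR
    refine ⟨p, q, p', hp, hp', hqp, hq.symm, hn, e, norm_ratio h hp hq h1 h2, h1, h2, ?_⟩
    intro x'' hx'' hx
    exact hcon ⟨x'', hx'', hx.1, hx.2⟩

theorem EE_eq (hA : ND A) (h : Deg A W ρ) (hNR : ¬ NR A W ρ) {p p' : Fin (l + 5)} (hp : p ∉ W)
    (hp' : p' ∉ W) (hn : NL A p p') : EE A ρ p = EE A ρ p' :=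
  Set.Subset.antisymm (EE_sub hA h hNR hp hp' hn) (EE_sub hA h hNR hp' hp (hn.symm h hp hp'))

theorem EE_all (hA : ND A) (h : Deg A W ρ) (hNR : ¬ NR A W ρ) {p q : Fin (l + 5)} (hp : p ∉ W)
    (hq : q ∉ W) : EE A ρ p = EE A ρ q := by
  by_cases hn : NL A p q
  · exact EE_eq hA h hNR hp hq hn
  · unfold NL at hn
    push Not at hn
    obtain ⟨η, h1, h2⟩ := hn
    obtain ⟨p', hp', hnn⟩ := exists_other hA h hp
    have hnq : NL A q p' := by
      rintro ⟨ζ, h3, h4⟩
      exact hnn ⟨ζ * η, by rw [h3, h1]; ring, by rw [h4, h2]; ring⟩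
    rw [EE_eq hA h hNR hp hp' hnn, EE_eq hA h hNR hq hp' hnq]

theorem EE_ne_zero (h : Deg A W ρ) {p : Fin (l + 5)} (hp : p ∉ W) {e : ℂ} (he : e ∈ EE A ρ p) :
    e ≠ 0 := by
  obtain ⟨q, hq, h1, h2⟩ := he
  have := norm_ratio h hp hq h1 h2
  intro h0
  rw [h0, norm_zero] at this
  exact zero_ne_one this

theorem EE_div (hA : ND A) (h : Deg A W ρ) (hNR : ¬ NR A W ρ) {p : Fin (l + 5)} (hp : p ∉ W)
    {e f : ℂ} (he : e ∈ EE A ρ p) (hf : f ∈ EE A ρ p) : e⁻¹ * f ∈ EE A ρ p := by
  have he0 := EE_ne_zero h hp he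
  obtain ⟨q, hq, h1, h2⟩ := he
  obtain ⟨r, hr, h3, h4⟩ := hf
  rw [EE_all hA h hNR hp (notW h hp hq)]
  exact ⟨r, by rw [hr, hq], by rw [h3, h1]; field_simp, by rw [h4, h2]; field_simp⟩

theorem EE_nontriv (hA : ND A) (h : Deg A W ρ) {p : Fin (l + 5)} (hp : p ∉ W) :
    ∃ e ∈ EE A ρ p, e ≠ 1 := by
  obtain ⟨q, hqp, hq⟩ := h.ns p hp
  obtain ⟨-, e, he, h1, h2⟩ := (h.cls q p (notW h hp hq) hp).1 hq
  refine ⟨e, ⟨q, hq, h1, h2⟩, ?_⟩
  rintro rfl
  exact hqp (eq_of_ratio hA h hp hq rfl h1 h2 (by rw [one_mul]) (by rw [one_mul]))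

/-- the two cases for the ratio set -/
theorem EE_cases (hA : ND A) (h : Deg A W ρ) (hNR : ¬ NR A W ρ) {p : Fin (l + 5)} (hp : p ∉ W) :
    (∀ e, e ∈ EE A ρ p ↔ e = 1 ∨ e = -1) ∨
    (∀ e, e ∈ EE A ρ p ↔ e = 1 ∨ e = Complex.exp (2 * Real.pi * Complex.I / 3) ∨
      e = Complex.exp (2 * Real.pi * Complex.I / 3) ^ 2) := by
  obtain ⟨e, he, he1⟩ := EE_nontriv hA h hp
  have he0 := EE_ne_zero h hp he
  have hinv : ∀ f ∈ EE A ρ p, f⁻¹ ∈ EE A ρ p := by
    intro f hf
    have := EE_div hA h hNR hp hf (one_mem_EE p)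
    simpa using this
  have hmul : ∀ f g, f ∈ EE A ρ p → g ∈ EE A ρ p → f * g ∈ EE A ρ p := by
    intro f g hf hg
    have := EE_div hA h hNR hp (hinv f hf) hg
    simpa using this
  by_cases hc : ∀ f ∈ EE A ρ p, f = 1 ∨ f = e
  · left
    have h2 : e * e = 1 := by
      rcases hc (e * e) (hmul e e he he) with h3 | h3
      · exact h3
      · exfalso
        apply he1
        exact mul_left_cancel₀ he0 (by rw [h3, mul_one])
    have h3 : e = -1 := by
      rcases mul_self_eq_one_iff.1 h2 with h4 | h4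
      · exact absurd h4 he1
      · exact h4
    intro f
    constructor
    · intro hf
      rcases hc f hf with h4 | h4
      · exact Or.inl h4
      · exact Or.inr (h4.trans h3)
    · rintro (h4 | h4)
      · rw [h4]; exact one_mem_EE p
      · rw [h4, ← h3]; exact he
  · right
    push Not at hc
    obtain ⟨f, hf, hf1, hfe⟩ := hc
    have hf0 := EE_ne_zero h hp hf
    have hthree : ∀ x ∈ EE A ρ p, x = 1 ∨ x = e ∨ x = f := by
      intro x hx
      by_contra hcon
      push Not at hcon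
      obtain ⟨hx1, hxe, hxf⟩ := hcon
      refine no_four hA h hp ![1, e, f, x] ?_ ?_
      · intro i j hij
        fin_cases i <;> fin_cases j <;> simp at hij ⊢ <;>
          first
            | exact (he1 hij.symm).elim
            | exact (he1 hij).elim
            | exact (hf1 hij.symm).elim
            | exact (hf1 hij).elim
            | exact (hx1 hij.symm).elim
            | exact (hx1 hij).elim
            | exact (hfe hij.symm).elim
            | exact (hfe hij).elim
            | exact (hxe hij.symm).elim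
            | exact (hxe hij).elim
            | exact (hxf hij.symm).elim
            | exact (hxf hij).elim
      · intro i
        fin_cases i
        · exact one_mem_EE p
        · exact he
        · exact hf
        · exact hx
    -- e * e = f
    have hee : e * e = f := by
      rcases hthree (e * e) (hmul e e he he) with h3 | h3 | h3
      · -- e = -1
        have h4 : e = -1 := by
          rcases mul_self_eq_one_iff.1 h3 with h4 | h4
          · exact absurd h4 he1
          · exact h4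
        exfalso
        rcases hthree (e * f) (hmul e f he hf) with h5 | h5 | h5
        · rw [h4] at h5
          apply hfe
          rw [h4]
          linear_combination -h5
        · exact hf1 (mul_left_cancel₀ he0 (by rw [h5, mul_one]))
        · exact he1 (mul_right_cancel₀ hf0 (by rw [h5, one_mul]))
      · exact absurd (mul_left_cancel₀ he0 (by rw [h3, mul_one])) he1
      · exact h3
    have hef : e * f = 1 := by
      rcases hthree (e * f) (hmul e f he hf) with h5 | h5 | h5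
      · exact h5
      · exact absurd (mul_left_cancel₀ he0 (by rw [h5, mul_one])) hf1
      · exact absurd (mul_right_cancel₀ hf0 (by rw [h5, one_mul])) he1
    have he3 : e ^ 3 = 1 := by
      rw [← hef, ← hee]; ring
    set ω := Complex.exp (2 * Real.pi * Complex.I / 3) with hω
    have hprim : IsPrimitiveRoot ω 3 := by
      have := Complex.isPrimitiveRoot_exp 3 (by norm_num)
      simpa [hω] using this
    have hω3 : ω ^ 3 = 1 := hprim.pow_eq_one
    have hsum : e ^ 2 + e + 1 = 0 := by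
      have : (e - 1) * (e ^ 2 + e + 1) = 0 := by linear_combination he3
      exact (mul_eq_zero.1 this).resolve_left (sub_ne_zero.2 he1)
    have hω1 : ω ≠ 1 := hprim.ne_one (by norm_num)
    have hsumω : ω ^ 2 + ω + 1 = 0 := by
      have : (ω - 1) * (ω ^ 2 + ω + 1) = 0 := by linear_combination hω3
      exact (mul_eq_zero.1 this).resolve_left (sub_ne_zero.2 hω1)
    have hcase : e = ω ∨ e = ω ^ 2 := by
      have : (e - ω) * (e - ω ^ 2) = 0 := by
        linear_combination hsum - e * hsumω + (ω - 1) * hsumω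
      rcases mul_eq_zero.1 this with h5 | h5
      · exact Or.inl (sub_eq_zero.1 h5)
      · exact Or.inr (sub_eq_zero.1 h5)
    have hfω : (e = ω ∧ f = ω ^ 2) ∨ (e = ω ^ 2 ∧ f = ω) := by
      rcases hcase with h5 | h5
      · left; exact ⟨h5, by rw [← hee, h5]; ring⟩
      · right; refine ⟨h5, by rw [← hee, h5]; linear_combination ω * hω3⟩
    intro x
    constructor
    · intro hx
      rcases hthree x hx with h5 | h5 | h5
      · exact Or.inl h5
      · rcases hfω with ⟨h6, h7⟩ | ⟨h6, h7⟩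
        · exact Or.inr (Or.inl (h5.trans h6))
        · exact Or.inr (Or.inr (h5.trans h6))
      · rcases hfω with ⟨h6, h7⟩ | ⟨h6, h7⟩
        · exact Or.inr (Or.inr (h5.trans h7))
        · exact Or.inr (Or.inl (h5.trans h7))
    · rintro (h5 | h5 | h5)
      · rw [h5]; exact one_mem_EE p
      · rcases hfω with ⟨h6, h7⟩ | ⟨h6, h7⟩
        · rw [h5, ← h6]; exact he
        · rw [h5, ← h7]; exact hf
      · rcases hfω with ⟨h6, h7⟩ | ⟨h6, h7⟩
        · rw [h5, ← h7]; exact hf
        · rw [h5, ← h6]; exact he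

/-- construction of the rotation -/
theorem rot_aux (hA : ND A) (h : Deg A W ρ) (k : ℕ) (hk : 2 ≤ k) (g : ℂ) (hg : IsPrimitiveRoot g k)
    (hE : ∀ p, p ∉ W → ∀ e, e ∈ EE A ρ p ↔ ∃ i, i < k ∧ e = g ^ i) :
    ∃ σ : Equiv.Perm (Fin (l + 5)), Rot A W ρ k g σ := by
  classical
  have hex : ∀ p, p ∉ W → ∃ q, ρ q = ρ p ∧ (A q).1 = g * (A p).1 ∧ (A q).2.1 = g * (A p).2.1 := by
    intro p hp
    exact (hE p hp g).2 ⟨1, by omega, by simp⟩
  let s : Fin (l + 5) → Fin (l + 5) := fun p => if hp : p ∉ W then (hex p hp).choose else p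
  have hsW : ∀ p, p ∈ W → s p = p := by
    intro p hp
    simp [s, hp]
  have hs : ∀ p, p ∉ W → ρ (s p) = ρ p ∧ (A (s p)).1 = g * (A p).1 ∧
      (A (s p)).2.1 = g * (A p).2.1 := by
    intro p hp
    have : s p = (hex p hp).choose := by simp [s, hp]
    rw [this]
    exact (hex p hp).choose_spec
  have hg0 : g ≠ 0 := hg.ne_zero (by omega)
  have hsn : ∀ p, p ∉ W → s p ∉ W := fun p hp => notW h hp (hs p hp).1
  have hinj : Function.Injective s := by
    intro p q hpq
    by_cases hp : p ∈ W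
    · by_cases hq : q ∈ W
      · rwa [hsW p hp, hsW q hq] at hpq
      · exfalso
        apply hsn q hq
        rw [← hpq, hsW p hp]; exact hp
    · by_cases hq : q ∈ W
      · exfalso
        apply hsn p hp
        rw [hpq, hsW q hq]; exact hq
      · have h1 : ρ p = ρ q := by rw [← (hs p hp).1, hpq, (hs q hq).1]
        have h2 : (A p).1 = (A q).1 := by
          have := (hs p hp).2.1
          rw [hpq, (hs q hq).2.1] at this
          exact (mul_left_cancel₀ hg0 this).symm
        have h3 : (A p).2.1 = (A q).2.1 := by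
          have := (hs p hp).2.2
          rw [hpq, (hs q hq).2.2] at this
          exact (mul_left_cancel₀ hg0 this).symm
        exact eq_of_ratio hA h hq h1 rfl (e := 1) (by rw [h2, one_mul]) (by rw [h3, one_mul])
          (by rw [one_mul]) (by rw [one_mul])
  let σ : Equiv.Perm (Fin (l + 5)) := Equiv.ofBijective s (Finite.injective_iff_bijective.1 hinj)
  have hσ : ∀ p, σ p = s p := fun p => rfl
  have hit : ∀ i : ℕ, ∀ p, p ∉ W → ρ ((σ ^ i) p) = ρ p ∧ (A ((σ ^ i) p)).1 = g ^ i * (A p).1 ∧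
      (A ((σ ^ i) p)).2.1 = g ^ i * (A p).2.1 := by
    intro i
    induction i with
    | zero => intro p hp; simp
    | succ i ih =>
      intro p hp
      obtain ⟨h1, h2, h3⟩ := ih p hp
      have hn : (σ ^ i) p ∉ W := notW h hp h1
      obtain ⟨h4, h5, h6⟩ := hs _ hn
      rw [pow_succ', Equiv.Perm.mul_apply, hσ]
      exact ⟨h4.trans h1, by rw [h5, h2, pow_succ']; ring, by rw [h6, h3, pow_succ']; ring⟩
  have hitW : ∀ i : ℕ, ∀ p, p ∈ W → (σ ^ i) p = p := by
    intro i
    induction i with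
    | zero => intro p hp; simp
    | succ i ih =>
      intro p hp
      rw [pow_succ', Equiv.Perm.mul_apply, ih p hp, hσ, hsW p hp]
  refine ⟨σ, ?_⟩
  refine ⟨hk, hg.pow_eq_one, fun m hm => hsW m hm, fun p hp => (hs p hp).2, ?_, ?_, ?_, ?_, ?_⟩
  · intro p
    by_cases hp : p ∈ W
    · rw [hσ, hsW p hp]; rfl
    · exact sameB h hp (hs p hp).1
  · intro p
    by_cases hp : p ∈ W
    · rw [hσ, hsW p hp]
    · exact (hs p hp).1
  · ext p
    by_cases hp : p ∈ W
    · rw [hitW k p hp]; simp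
    · obtain ⟨h1, h2, h3⟩ := hit k p hp
      rw [hg.pow_eq_one] at h2 h3
      have := eq_of_ratio hA h hp h1 rfl h2 h3 (by rw [one_mul]) (by rw [one_mul])
      rw [this]; simp
  · intro p hp i hi0 hik heq
    obtain ⟨h1, h2, h3⟩ := hit i p hp
    rw [heq] at h2 h3
    have : g ^ i = 1 := ratio_unique h hp (by rw [← h2, one_mul]) (by rw [← h3, one_mul])
    exact hg.pow_ne_one_of_pos_of_lt (by omega) hik this
  · intro p q hp hpq
    have hq : ρ q = ρ p := hpq.symm
    obtain ⟨-, e, he, h1, h2⟩ := (h.cls q p (notW h hp hq) hp).1 hq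
    obtain ⟨i, hi, hei⟩ := (hE p hp e).1 ⟨q, hq, h1, h2⟩
    refine ⟨i, hi, ?_⟩
    obtain ⟨h3, h4, h5⟩ := hit i p hp
    rw [hei] at h1 h2
    exact eq_of_ratio hA h hp hq h3 h1 h2 h4 h5

end

/-- TARGET: a degenerate fan with `cN ρ = 4` which is not `NR` is rotational -/
theorem rot_of_not (A : Fan l) (hA : ND A) (W : Finset (Fin (l + 5)))
    (ρ : Fin (l + 5) → Fin (l + 5)) (h : Deg A W ρ) (h4 : cN ρ = 4) (hNR : ¬ NR A W ρ) :
    ∃ (k : ℕ) (g : ℂ) (σ : Equiv.Perm (Fin (l + 5))),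
      ((k = 2 ∧ g = -1) ∨ (k = 3 ∧ g = Complex.exp (2 * Real.pi * Complex.I / 3))) ∧
      Rot A W ρ k g σ := by
  classical
  have hex : ∃ p, p ∉ W := by
    have : (Finset.univ.filter (fun p => ρ p ≠ p)).Nonempty := by
      rw [← Finset.card_pos]
      unfold cN at h4
      omega
    obtain ⟨p, hp⟩ := this
    rw [Finset.mem_filter] at hp
    exact ⟨p, fun hpW => hp.2 (h.fix p hpW)⟩
  obtain ⟨p0, hp0⟩ := hex
  rcases EE_cases hA h hNR hp0 with hc | hc
  · have hE : ∀ p, p ∉ W → ∀ e, e ∈ EE A ρ p ↔ ∃ i, i < 2 ∧ e = (-1 : ℂ) ^ i := by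
      intro p hp e
      rw [EE_all hA h hNR hp hp0, hc e]
      constructor
      · rintro (h1 | h1)
        · exact ⟨0, by norm_num, by simpa using h1⟩
        · exact ⟨1, by norm_num, by simpa using h1⟩
      · rintro ⟨i, hi, h1⟩
        interval_cases i
        · left; simpa using h1
        · right; simpa using h1
    have hprim : IsPrimitiveRoot (-1 : ℂ) 2 := IsPrimitiveRoot.neg_one 0 (by norm_num)
    obtain ⟨σ, hσ⟩ := rot_aux hA h 2 (by norm_num) (-1) hprim hE
    exact ⟨2, -1, σ, Or.inl ⟨rfl, rfl⟩, hσ⟩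
  · set ω := Complex.exp (2 * Real.pi * Complex.I / 3) with hω
    have hE : ∀ p, p ∉ W → ∀ e, e ∈ EE A ρ p ↔ ∃ i, i < 3 ∧ e = ω ^ i := by
      intro p hp e
      rw [EE_all hA h hNR hp hp0, hc e]
      constructor
      · rintro (h1 | h1 | h1)
        · exact ⟨0, by norm_num, by simpa using h1⟩
        · exact ⟨1, by norm_num, by simpa using h1⟩
        · exact ⟨2, by norm_num, h1⟩
      · rintro ⟨i, hi, h1⟩
        interval_cases i
        · left; simpa using h1
        · right; left; simpa using h1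
        · right; right; exact h1
    have hprim : IsPrimitiveRoot ω 3 := by
      have := Complex.isPrimitiveRoot_exp 3 (by norm_num)
      simpa [hω] using this
    obtain ⟨σ, hσ⟩ := rot_aux hA h 3 (by norm_num) ω hprim hE
    exact ⟨3, ω, σ, Or.inr ⟨rfl, rfl⟩, hσ⟩

end FanRD
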