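import Mathlib
import Pool.Agent.FanRD.Defs
import Pool.Agent.FanRD.EDGE
set_option autoImplicit false
set_option maxHeartbeats 4000000
noncomputable section
open MeasureTheory

namespace FanRD

variable {l : ℕ}


/-- edge relation -/
def Edg {n : ℕ} (lam : Fin n → Fin n → ℝ) (i m : Fin n) : Prop :=
  ∀ j, j ≠ i → j ≠ m → lam i j = lam m j ∧ lam j i = lam j m

theorem three_edges {n : ℕ} {lam : Fin n → Fin n → ℝ} {h a b c : Fin n} (hab : a ≠ b) (hac : a ≠ c)
    (hbc : b ≠ c) (ha : h ≠ a) (hb : h ≠ b) (hc : h ≠ c) (ea : Edg lam h a) (eb : Edg lam h b)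
    (ec : Edg lam h c) : lam h a = lam h b ∧ lam a h = lam b h := by
  have a1 := ea b hb.symm hab.symm
  have a2 := ea c hc.symm hac.symm
  have b1 := eb a ha.symm hab
  have b2 := eb c hc.symm hbc.symm
  have c1 := ec a ha.symm hac
  have c2 := ec b hb.symm hbc
  constructor
  · calc lam h a = lam b a := b1.1
      _ = lam b h := a1.2.symm
      _ = lam b c := c2.2
      _ = lam h c := b2.1.symm
      _ = lam a c := a2.1
      _ = lam a h := c1.2.symm
      _ = lam a b := b1.2
      _ = lam h b := a1.1.symm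
  · calc lam a h = lam a c := c1.2
      _ = lam h c := a2.1.symm
      _ = lam b c := b2.1
      _ = lam b h := c2.2.symm

theorem SA_symm' {A : Fan l} {i m : Fin (l + 5)} (h : SA A i m) : SA A m i := ⟨h.1.symm, h.2.symm⟩
theorem SA_trans' {A : Fan l} {i m p : Fin (l + 5)} (h : SA A i m) (h' : SA A m p) : SA A i p :=
  ⟨h.1.trans h'.1, h.2.trans h'.2⟩

theorem cl_congr' {A : Fan l} {h m m' : Fin (l + 5)} (e : SA A m' m) : cl A h m' = cl A h m := by
  unfold cl
  rw [e.1, e.2]

/-- TARGET: kernel bound in the non-degenerate situations -/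
theorem T01 (A : Fan l) (hA : ND A) (S : Finset (Fin (l + 5))) (hS : ∀ m, m ∉ S ↔ Typ A m)
    (hcard : S.card + 4 ≤ l + 5)
    (hC : (∃ m1 m2, Typ A m1 ∧ Typ A m2 ∧ ¬ SA A m1 m2) ∨
      (∃ h m, Typ A m ∧ ¬ SA A h m ∧ cl A h m = {h} ∧ ∀ m', Typ A m' → SA A m' m)) :
    Module.finrank ℝ (KK A) ≤ S.card * (S.card - 1) + 2 * S.card + 1 := by
  have pick : ∀ F : Finset (Fin (l + 5)), F.card ≤ 3 → ∃ m, Typ A m ∧ m ∉ F := by
    intro F hF
    have h1 : F.card < (Sᶜ).card := by
      rw [Finset.card_compl, Fintype.card_fin]; omega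
    obtain ⟨m, hm, hmF⟩ := Finset.exists_mem_notMem_of_card_lt_card h1
    exact ⟨m, (hS m).1 (Finset.mem_compl.1 hm), hmF⟩
  have SAr : ∀ i, SA A i i := fun i => ⟨rfl, rfl⟩
  -- the main claim
  have claim : ∀ lam : Fin (l + 5) → Fin (l + 5) → ℝ, InK A lam → ∀ k m m', Typ A m → Typ A m' →
      m ≠ k → m' ≠ k → lam k m = lam k m' ∧ lam m k = lam m' k := by
    intro lam hK k m m' hm hm' hmk hmk'
    by_cases hmm : m = m'
    · subst hmm; exact ⟨rfl, rfl⟩
    have ed : ∀ i p, Typ A i → Typ A p → ¬ SA A i p → Edg lam i p := fun i p hi hp hn j h1 h2 =>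
      edge A hA lam hK i p hp hn (cl_typ A i p hi) j h1 h2
    by_cases hSA : SA A m m'
    · rcases hC with ⟨m1, m2, h1, h2, h12⟩ | ⟨h, m0, h0, hn, hcl, hall⟩
      · -- case 1
        have hub : ∃ h, Typ A h ∧ ¬ SA A h m := by
          by_cases h1m : SA A m1 m
          · refine ⟨m2, h2, fun h2m => h12 (SA_trans' h1m (SA_symm' h2m))⟩
          · exact ⟨m1, h1, h1m⟩
        obtain ⟨h, hh, hhm⟩ := hub
        have hhm' : ¬ SA A h m' := fun e => hhm (SA_trans' e (SA_symm' hSA))
        have hne : h ≠ m := fun e => hhm (by rw [e]; exact SAr m)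
        have hne' : h ≠ m' := fun e => hhm' (by rw [e]; exact SAr m')
        have e1 := ed h m hh hm hhm
        have e2 := ed h m' hh hm' hhm'
        by_cases hk : k = h
        · obtain ⟨m3, h3, h3F⟩ := pick {h, m, m'} (by
            refine (Finset.card_insert_le _ _).trans ?_
            have := Finset.card_insert_le m {m'}
            simp at this ⊢
            omega)
          simp only [Finset.mem_insert, Finset.mem_singleton, not_or] at h3F
          obtain ⟨n1, n2, n3⟩ := h3F
          by_cases h3m : SA A m3 m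
          · have h3n : ¬ SA A h m3 := fun e => hhm (SA_trans' e h3m)
            have e3 := ed h m3 hh h3 h3n
            rw [hk]
            exact three_edges hmm (Ne.symm n2) (Ne.symm n3) hne hne' (Ne.symm n1) e1 e2 e3
          · have h3m' : ¬ SA A m3 m' := fun e => h3m (SA_trans' e (SA_symm' hSA))
            have e3 := ed m3 m h3 hm h3m
            have e4 := ed m3 m' h3 hm' h3m'
            have hk3 : k ≠ m3 := by rw [hk]; exact Ne.symm n1
            have f1 := e3 k hk3 (Ne.symm hmk)
            have f2 := e4 k hk3 (Ne.symm hmk')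
            exact ⟨f1.2.symm.trans f2.2, f1.1.symm.trans f2.1⟩
        · have f1 := e1 k hk (Ne.symm hmk)
          have f2 := e2 k hk (Ne.symm hmk')
          exact ⟨f1.2.symm.trans f2.2, f1.1.symm.trans f2.1⟩
      · -- case 2
        have hedge : ∀ p, Typ A p → Edg lam h p ∧ h ≠ p := by
          intro p hp
          have hp0 := hall p hp
          have hnp : ¬ SA A h p := fun e => hn (SA_trans' e hp0)
          refine ⟨fun j h1 h2 => edge A hA lam hK h p hp hnp ?_ j h1 h2, fun e => hnp (by rw [e]; exact SAr p)⟩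
          rw [cl_congr' hp0, hcl]
        obtain ⟨e1, hne⟩ := hedge m hm
        obtain ⟨e2, hne'⟩ := hedge m' hm'
        by_cases hk : k = h
        · obtain ⟨m3, h3, h3F⟩ := pick {h, m, m'} (by
            refine (Finset.card_insert_le _ _).trans ?_
            have := Finset.card_insert_le m {m'}
            simp at this ⊢
            omega)
          simp only [Finset.mem_insert, Finset.mem_singleton, not_or] at h3F
          obtain ⟨n1, n2, n3⟩ := h3F
          obtain ⟨e3, _⟩ := hedge m3 h3
          rw [hk]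
          exact three_edges hmm (Ne.symm n2) (Ne.symm n3) hne hne' (Ne.symm n1) e1 e2 e3
        · have f1 := e1 k hk (Ne.symm hmk)
          have f2 := e2 k hk (Ne.symm hmk')
          exact ⟨f1.2.symm.trans f2.2, f1.1.symm.trans f2.1⟩
    · have e1 := ed m m' hm hm' hSA
      have f1 := e1 k (Ne.symm hmk) (Ne.symm hmk')
      exact ⟨f1.2, f1.1⟩
  obtain ⟨m0, ht0, _⟩ := pick ∅ (by simp)
  obtain ⟨m1, ht1, hm1⟩ := pick {m0} (by simp)
  have hm10 : m1 ≠ m0 := by simpa using hm1
  have m0S : m0 ∉ S := (hS m0).2 ht0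
  have m1S : m1 ∉ S := (hS m1).2 ht1
  -- all typical entries agree
  have claim2 : ∀ lam : Fin (l + 5) → Fin (l + 5) → ℝ, InK A lam → ∀ a b, Typ A a → Typ A b →
      a ≠ b → lam a b = lam m0 m1 := by
    intro lam hK a b ha hb hab
    by_cases h : m1 = a
    · obtain ⟨e, he, heF⟩ := pick {a, b, m0} (by
        refine (Finset.card_insert_le _ _).trans ?_
        have := Finset.card_insert_le b {m0}
        simp at this ⊢
        omega)
      simp only [Finset.mem_insert, Finset.mem_singleton, not_or] at heF
      obtain ⟨n1, n2, n3⟩ := heF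
      have f1 := (claim lam hK a b e hb he (Ne.symm hab) n1).1
      have f2 := (claim lam hK e a m0 ha ht0 (Ne.symm n1) (Ne.symm n3)).2
      have f3 := (claim lam hK m0 e m1 he ht1 n3 hm10).1
      rw [f1, f2, f3]
    · have f1 := (claim lam hK a b m1 hb ht1 (Ne.symm hab) h).1
      have f2 := (claim lam hK m1 a m0 ha ht0 (fun e => h e.symm) (Ne.symm hm10)).2
      rw [f1, f2]
  -- the determining set
  set E0 : Finset (Fin (l + 5) × Fin (l + 5)) :=
    S.offDiag ∪ (S.image (fun s => (s, m0)) ∪ (S.image (fun s => (m0, s)) ∪ {(m0, m1)})) with hE0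
  have hE0card : E0.card ≤ S.card * (S.card - 1) + 2 * S.card + 1 := by
    have h1 := Finset.card_union_le S.offDiag
      (S.image (fun s => (s, m0)) ∪ (S.image (fun s => (m0, s)) ∪ {(m0, m1)}))
    have h2 := Finset.card_union_le (S.image (fun s => (s, m0)))
      (S.image (fun s => (m0, s)) ∪ {(m0, m1)})
    have h3 := Finset.card_union_le (S.image (fun s => (m0, s))) {(m0, m1)}
    have h4 := Finset.card_image_le (s := S) (f := fun s => (s, m0))
    have h5 := Finset.card_image_le (s := S) (f := fun s => (m0, s))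
    have h6 : ({(m0, m1)} : Finset (Fin (l + 5) × Fin (l + 5))).card = 1 := Finset.card_singleton _
    have h7 : S.offDiag.card = S.card * (S.card - 1) := by
      rw [Finset.offDiag_card, Nat.mul_sub_one]
    rw [hE0]
    omega
  let φ : KK A →ₗ[ℝ] (E0 → ℝ) :=
    { toFun := fun lam q => lam.1 q.1.1 q.1.2
      map_add' := fun a b => rfl
      map_smul' := fun c a => rfl }
  have hφ : Function.Injective φ := by
    rw [← LinearMap.ker_eq_bot, LinearMap.ker_eq_bot']
    rintro ⟨lam, hdiag, hK⟩ hlam
    have hz : ∀ q ∈ E0, lam q.1 q.2 = 0 := by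
      intro q hq
      have := congrFun hlam ⟨q, hq⟩
      exact this
    have h01 : lam m0 m1 = 0 := hz (m0, m1) (by simp [hE0])
    apply Subtype.ext
    funext i j
    show lam i j = 0
    by_cases hij : i = j
    · rw [hij]; exact hdiag j
    by_cases hi : i ∈ S
    · by_cases hj : j ∈ S
      · exact hz (i, j) (by
          rw [hE0, Finset.mem_union]
          left
          rw [Finset.mem_offDiag]
          exact ⟨hi, hj, hij⟩)
      · have hne : m0 ≠ i := fun e => m0S (by rw [e]; exact hi)
        have f1 := (claim lam hK i j m0 ((hS j).1 hj) ht0 (Ne.symm hij) hne).1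
        rw [f1]
        exact hz (i, m0) (by
          rw [hE0, Finset.mem_union, Finset.mem_union]
          right; left
          exact Finset.mem_image.2 ⟨i, hi, rfl⟩)
    · by_cases hj : j ∈ S
      · have hne : m0 ≠ j := fun e => m0S (by rw [e]; exact hj)
        have f1 := (claim lam hK j i m0 ((hS i).1 hi) ht0 hij hne).2
        rw [f1]
        exact hz (m0, j) (by
          rw [hE0, Finset.mem_union, Finset.mem_union, Finset.mem_union]
          right; right; left
          exact Finset.mem_image.2 ⟨j, hj, rfl⟩)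
      · rw [claim2 lam hK i j ((hS i).1 hi) ((hS j).1 hj) hij]
        exact h01
  have h := LinearMap.finrank_le_finrank_of_injective hφ
  rw [Module.finrank_fintype_fun_eq_card, Fintype.card_coe] at h
  exact h.trans hE0card

end FanRD
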