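import Mathlib
import Pool.Agent.FanRD.Defs
import Pool.Agent.FanRD.JJ
import Pool.Agent.FanRD.ND
import Pool.Agent.FanRD.dense
set_option autoImplicit false
set_option maxHeartbeats 4000000
noncomputable section
open MeasureTheory

namespace FanRD

variable {l : ℕ}



section abs
variable {I : Type*} [Fintype I] [DecidableEq I]
end abs

theorem aux_WW_eq (A : Fan l) (x : X l) (i m : Fin (l + 5)) (hS : SA A i m) :
    WW A x i = WW A x m := by
  simp [WW, om, hS.1, hS.2]

theorem aux_order_ev {I : Type*} [Fintype I] (y : I → ℝ) (P : I → I → Prop)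
    (h : ∀ p r, P p r → y p ≠ y r) :
    ∀ᶠ y' in nhds y, ∀ p r, P p r → ((y' p < y' r ↔ y p < y r) ∧ y' p ≠ y' r) := by
  rw [Filter.eventually_all]; intro p
  rw [Filter.eventually_all]; intro r
  by_cases hP : P p r
  · rcases lt_or_gt_of_ne (h p r hP) with hl | hg
    · have : ∀ᶠ y' : I → ℝ in nhds y, y' p < y' r :=
        (continuous_apply p).continuousAt.eventually_lt (continuous_apply r).continuousAt hl
      filter_upwards [this] with y' hy' _
      exact ⟨⟨fun _ => hl, fun _ => hy'⟩, hy'.ne⟩
    · have : ∀ᶠ y' : I → ℝ in nhds y, y' r < y' p :=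
        (continuous_apply r).continuousAt.eventually_lt (continuous_apply p).continuousAt hg
      filter_upwards [this] with y' hy' _
      exact ⟨⟨fun h1 => absurd hy' (lt_asymm h1), fun h1 => absurd hg (lt_asymm h1)⟩, hy'.ne'⟩
  · exact Filter.Eventually.of_forall fun y' hy' => absurd hy' hP

theorem aux_countable (w : ℂ) (b : ℝ) (hw : w ≠ 0) :
    {θ : ℝ | b + (w * Complex.exp (θ * Complex.I)).re = 0}.Countable := by
  have key : ∀ θ : ℝ, (w * Complex.exp (θ * Complex.I)).re = ‖w‖ * Real.cos (w.arg + θ) := by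
    intro θ
    conv_lhs => rw [← Complex.norm_mul_exp_arg_mul_I w]
    rw [mul_assoc, ← Complex.exp_add, ← add_mul]
    have : ((w.arg : ℂ) + (θ : ℂ)) * Complex.I = ((w.arg + θ : ℝ) : ℂ) * Complex.I := by
      push_cast; ring
    rw [this, Complex.re_ofReal_mul, Complex.exp_ofReal_mul_I_re]
  have hn : ‖w‖ ≠ 0 := by simpa using hw
  rcases Set.eq_empty_or_nonempty {θ : ℝ | b + (w * Complex.exp (θ * Complex.I)).re = 0} with h | ⟨t, ht⟩
  · rw [h]; exact Set.countable_empty
  · have hsub : {θ : ℝ | b + (w * Complex.exp (θ * Complex.I)).re = 0} ⊆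
        (Set.range fun k : ℤ => 2 * (k:ℝ) * Real.pi + (w.arg + t) - w.arg) ∪
        (Set.range fun k : ℤ => 2 * (k:ℝ) * Real.pi - (w.arg + t) - w.arg) := by
      intro θ hθ
      simp only [Set.mem_ofPred_eq, key] at hθ ht
      have hc : Real.cos (w.arg + t) = Real.cos (w.arg + θ) := by
        have : ‖w‖ * Real.cos (w.arg + t) = ‖w‖ * Real.cos (w.arg + θ) := by linarith
        exact mul_left_cancel₀ hn this
      rw [Real.cos_eq_cos_iff] at hc
      obtain ⟨k, hk | hk⟩ := hc
      · left; exact ⟨k, by show 2 * (k:ℝ) * Real.pi + (w.arg + t) - w.arg = θ; linarith⟩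
      · right; exact ⟨k, by show 2 * (k:ℝ) * Real.pi - (w.arg + t) - w.arg = θ; linarith⟩
    exact ((Set.countable_range _).union (Set.countable_range _)).mono hsub

theorem aux_BB_cont (A : Fan l) (p : Fin (l + 5)) : Continuous fun x : X l => BB A x p := by
  unfold BB bb; fun_prop

theorem aux_WW_cont (A : Fan l) (p : Fin (l + 5)) : Continuous fun x : X l => WW A x p := by
  unfold WW om; fun_prop

theorem aux_pt_cont (A : Fan l) (e : ℂ) : Continuous fun x : X l => pt (WW A x) (BB A x) e := by
  refine continuous_pi fun p => ?_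
  have h1 := aux_BB_cont A p
  have h2 := aux_WW_cont A p
  unfold pt
  fun_prop

theorem aux_meas {I : Type*} [Fintype I] [DecidableEq I] (lam : I → I → ℝ) (w : I → ℂ) (B : I → ℝ) :
    Measurable fun θ : ℝ => LL lam (pt w B (Complex.exp (θ * Complex.I))) := by
  refine (LL_measurable lam).comp ?_
  have : Continuous fun θ : ℝ => pt w B (Complex.exp (θ * Complex.I)) := by
    refine continuous_pi fun p => ?_
    unfold pt
    fun_prop
  exact this.measurable

theorem aux_int {I : Type*} [Fintype I] [DecidableEq I] (lam : I → I → ℝ) (w : I → ℂ) (B : I → ℝ) :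
    IntervalIntegrable (fun θ : ℝ => LL lam (pt w B (Complex.exp (θ * Complex.I))))
      volume 0 (2 * Real.pi) := by
  refine (intervalIntegrable_const (c := ∑ i, ∑ j, |lam i j|)).mono_fun
    (aux_meas lam w B).aestronglyMeasurable ?_
  refine Filter.Eventually.of_forall fun θ => ?_
  have h0 : 0 ≤ ∑ i, ∑ j, |lam i j| :=
    Finset.sum_nonneg fun i _ => Finset.sum_nonneg fun j _ => abs_nonneg _
  simp only [Real.norm_eq_abs, abs_of_nonneg h0]
  exact LL_abs_le lam _

theorem aux_near (A : Fan l) (hA : ND A) (i m : Fin (l + 5)) (him : i ≠ m) (hS : SA A i m)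
    (x : X l) (htie : BB A x i = BB A x m) (ε : ℝ) (hε : 0 < ε) (σ : ℝ) (hσ : σ ≠ 0) :
    ∃ x' : X l, dist x' x < ε ∧ 0 < σ * (BB A x' i - BB A x' m) ∧ FReg A x' := by
  have hne := nd_ne A hA i m him hS
  obtain ⟨k, hk⟩ := Function.ne_iff.1 hne
  set c := (A i).2.2.1 k - (A m).2.2.1 k with hc
  have hc0 : c ≠ 0 := sub_ne_zero.2 hk
  let U : Set (X l) := {x' | dist x' x < ε ∧ 0 < σ * (BB A x' i - BB A x' m)}
  have hU : IsOpen U := by
    have h1 := aux_BB_cont A i
    have h2 := aux_BB_cont A m
    have e1 : IsOpen {x' : X l | dist x' x < ε} :=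
      isOpen_lt (continuous_id.dist continuous_const) continuous_const
    have e2 : IsOpen {x' : X l | 0 < σ * (BB A x' i - BB A x' m)} :=
      isOpen_lt continuous_const (continuous_const.mul (h1.sub h2))
    exact e1.inter e2
  have hUn : U.Nonempty := by
    let g : ℝ → X l := fun t => (x.1, x.2.1, x.2.2 + t • Pi.single k 1)
    have hg : Continuous g := by fun_prop
    have hg0 : g 0 = x := by simp [g]
    have hb : ∀ t (a : Co l), bb a (g t) = bb a x + t * a.2.2.1 k := by
      intro t a
      simp only [bb, g, Pi.add_apply, Pi.smul_apply, smul_eq_mul, mul_add, Finset.sum_add_distrib]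
      congr 1
      rw [Finset.sum_eq_single k]
      · simp; ring
      · intro j _ hj; simp [hj]
      · simp
    have hdiff : ∀ t, BB A (g t) i - BB A (g t) m = t * c := by
      intro t
      have h1 : BB A x i - BB A x m = 0 := sub_eq_zero.2 htie
      simp only [BB] at h1 ⊢
      rw [hb, hb, hc]
      linarith
    have hev : ∀ᶠ t in nhds (0:ℝ), dist (g t) x < ε := by
      have h1 : Filter.Tendsto (fun t => dist (g t) x) (nhds 0) (nhds 0) := by
        have : Continuous fun t => dist (g t) x := by fun_prop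
        simpa [hg0] using this.tendsto 0
      exact h1.eventually_lt_const hε
    obtain ⟨δ, hδ, hball⟩ := Metric.eventually_nhds_iff.1 hev
    refine ⟨g ((δ / 2) * (SignType.sign (σ * c) : ℝ)), ?_, ?_⟩
    · apply hball
      rw [Real.dist_eq, sub_zero, abs_mul, abs_of_pos (half_pos hδ)]
      have : |((SignType.sign (σ * c) : SignType) : ℝ)| ≤ 1 := by
        rcases lt_trichotomy (σ * c) 0 with h | h | h
        · simp [sign_neg h]
        · simp [h]
        · simp [sign_pos h]
      nlinarith
    · rw [hdiff]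
      have : 0 < σ * c * (SignType.sign (σ * c) : ℝ) := by
        rw [self_mul_sign]
        exact abs_pos.2 (mul_ne_zero hσ hc0)
      have h2 : σ * (δ / 2 * ((SignType.sign (σ * c) : SignType) : ℝ) * c) =
        (δ / 2) * (σ * c * (SignType.sign (σ * c) : ℝ)) := by ring
      rw [h2]
      positivity
  obtain ⟨x', hx', hr⟩ := reg_dense A hA U hU hUn
  exact ⟨x', hx'.1, hx'.2, hr⟩

/-- TARGET: crossing the rotation invariant wall between two parallel functionals -/
theorem jump_parallel (A : Fan l) (hA : ND A) (lam : Fin (l + 5) → Fin (l + 5) → ℝ)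
    (hK : InK A lam) (i m : Fin (l + 5)) (him : i ≠ m) (hS : SA A i m) (x : X l)
    (htie : BB A x i = BB A x m)
    (hgen : ∀ p r, p ≠ r → ¬ (p = i ∧ r = m) → ¬ (p = m ∧ r = i) →
      (WW A x p ≠ WW A x r ∨ BB A x p ≠ BB A x r)) :
    ∫ θ in (0:ℝ)..(2 * Real.pi), JJ lam i m (pt (WW A x) (BB A x) (Complex.exp (θ * Complex.I))) = 0 := by
  obtain ⟨C, hC⟩ := hK
  have hp := fun n : ℕ => aux_near A hA i m him hS x htie (1 / ((n:ℝ) + 1)) (by positivity) 1 one_ne_zero
  have hm := fun n : ℕ => aux_near A hA i m him hS x htie (1 / ((n:ℝ) + 1)) (by positivity) (-1) (by norm_num)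
  choose xp hp1 hp2 hp3 using hp
  choose xm hm1 hm2 hm3 using hm
  have htp : Filter.Tendsto xp Filter.atTop (nhds x) := by
    rw [tendsto_iff_dist_tendsto_zero]
    exact squeeze_zero (fun _ => dist_nonneg) (fun n => (hp1 n).le) tendsto_one_div_add_atTop_nhds_zero_nat
  have htm : Filter.Tendsto xm Filter.atTop (nhds x) := by
    rw [tendsto_iff_dist_tendsto_zero]
    exact squeeze_zero (fun _ => dist_nonneg) (fun n => (hm1 n).le) tendsto_one_div_add_atTop_nhds_zero_nat
  let F : ℕ → ℝ → ℝ := fun n θ =>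
    LL lam (pt (WW A (xp n)) (BB A (xp n)) (Complex.exp (θ * Complex.I))) -
    LL lam (pt (WW A (xm n)) (BB A (xm n)) (Complex.exp (θ * Complex.I)))
  have hF0 : ∀ n, ∫ θ in (0:ℝ)..(2 * Real.pi), F n θ = 0 := by
    intro n
    simp only [F]
    rw [intervalIntegral.integral_sub (aux_int _ _ _) (aux_int _ _ _), ← TT_eq, ← TT_eq,
      hC _ (hp3 n), hC _ (hm3 n), sub_self]
  have h0 : 0 ≤ ∑ i, ∑ j, |lam i j| :=
    Finset.sum_nonneg fun i _ => Finset.sum_nonneg fun j _ => abs_nonneg _
  have hlim : Filter.Tendsto (fun n => ∫ θ in (0:ℝ)..(2 * Real.pi), F n θ) Filter.atTop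
      (nhds (∫ θ in (0:ℝ)..(2 * Real.pi),
        JJ lam i m (pt (WW A x) (BB A x) (Complex.exp (θ * Complex.I))))) := by
    refine intervalIntegral.tendsto_integral_filter_of_dominated_convergence
      (fun _ => 2 * ∑ i, ∑ j, |lam i j|) ?_ ?_ intervalIntegrable_const ?_
    · exact Filter.Eventually.of_forall fun n =>
        ((aux_meas _ _ _).sub (aux_meas _ _ _)).aestronglyMeasurable
    · refine Filter.Eventually.of_forall fun n => Filter.Eventually.of_forall fun θ _ => ?_
      have h1 := LL_abs_le lam (pt (WW A (xp n)) (BB A (xp n)) (Complex.exp (θ * Complex.I)))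
      have h2 := LL_abs_le lam (pt (WW A (xm n)) (BB A (xm n)) (Complex.exp (θ * Complex.I)))
      rw [Real.norm_eq_abs]
      calc |F n θ| ≤ _ := abs_sub _ _
        _ ≤ _ := by linarith
    · -- a.e. convergence
      have hae : ∀ᵐ θ : ℝ, ∀ p r : Fin (l + 5), (p ≠ r ∧ ¬ (p = i ∧ r = m) ∧ ¬ (p = m ∧ r = i)) →
          pt (WW A x) (BB A x) (Complex.exp (θ * Complex.I)) p ≠
          pt (WW A x) (BB A x) (Complex.exp (θ * Complex.I)) r := by
        rw [ae_all_iff]; intro p
        rw [ae_all_iff]; intro r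
        by_cases hP : (p ≠ r ∧ ¬ (p = i ∧ r = m) ∧ ¬ (p = m ∧ r = i))
        · by_cases hw : WW A x p = WW A x r
          · refine Filter.Eventually.of_forall fun θ _ => ?_
            have hB := (hgen p r hP.1 hP.2.1 hP.2.2).resolve_left (fun h => h hw)
            simp only [pt, hw]
            intro h
            exact hB (by linarith)
          · have hcount := aux_countable (WW A x p - WW A x r) (BB A x p - BB A x r) (sub_ne_zero.2 hw)
            filter_upwards [hcount.ae_notMem volume] with θ hθ _ h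
            apply hθ
            simp only [pt] at h
            simp only [Set.mem_ofPred_eq, sub_mul, Complex.sub_re]
            linarith
        · exact Filter.Eventually.of_forall fun θ h => absurd h hP
      filter_upwards [hae] with θ hθ _
      set e := Complex.exp (θ * Complex.I) with he
      have hev := aux_order_ev (pt (WW A x) (BB A x) e)
        (fun p r => (p ≠ r ∧ ¬ (p = i ∧ r = m) ∧ ¬ (p = m ∧ r = i))) hθ
      have hJ := JJ_locconst lam i m him (pt (WW A x) (BB A x) e)
        (fun p r h1 h2 h3 => hθ p r ⟨h1, h2, h3⟩)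
      have htp' : Filter.Tendsto (fun n => pt (WW A (xp n)) (BB A (xp n)) e) Filter.atTop
          (nhds (pt (WW A x) (BB A x) e)) := ((aux_pt_cont A e).tendsto x).comp htp
      have htm' : Filter.Tendsto (fun n => pt (WW A (xm n)) (BB A (xm n)) e) Filter.atTop
          (nhds (pt (WW A x) (BB A x) e)) := ((aux_pt_cont A e).tendsto x).comp htm
      refine tendsto_const_nhds.congr' ?_
      filter_upwards [htp'.eventually hev, htm'.eventually hev, htp'.eventually hJ] with n h1 h2 h3
      have hpi : pt (WW A (xp n)) (BB A (xp n)) e m < pt (WW A (xp n)) (BB A (xp n)) e i := by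
        have := hp2 n
        simp only [pt, aux_WW_eq A (xp n) i m hS]
        linarith
      have hmi : pt (WW A (xm n)) (BB A (xm n)) e i < pt (WW A (xm n)) (BB A (xm n)) e m := by
        have := hm2 n
        simp only [pt, aux_WW_eq A (xm n) i m hS]
        linarith
      rw [← h3]
      symm
      refine LL_swap (by simp) lam i m him _ _ ?_ ?_ ?_ hpi hmi
      · intro p r hpr
        by_cases c1 : p = i ∧ r = m
        · rw [c1.1, c1.2]; exact hpi.ne'
        · by_cases c2 : p = m ∧ r = i
          · rw [c2.1, c2.2]; exact hpi.ne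
          · exact (h1 p r ⟨hpr, c1, c2⟩).2
      · intro p r hpr
        by_cases c1 : p = i ∧ r = m
        · rw [c1.1, c1.2]; exact hmi.ne
        · by_cases c2 : p = m ∧ r = i
          · rw [c2.1, c2.2]; exact hmi.ne'
          · exact (h2 p r ⟨hpr, c1, c2⟩).2
      · intro p r c1 c2
        by_cases hpr : p = r
        · subst hpr; simp
        · rw [(h1 p r ⟨hpr, c1, c2⟩).1, (h2 p r ⟨hpr, c1, c2⟩).1]
  have hlim0 : Filter.Tendsto (fun n => ∫ θ in (0:ℝ)..(2 * Real.pi), F n θ) Filter.atTop (nhds 0) := by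
    simp only [hF0]
    exact tendsto_const_nhds
  exact tendsto_nhds_unique hlim hlim0


end FanRD
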