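import Mathlib
import Pool.Agent.FanRD.Defs
import Pool.Agent.FanRD.D2
import Pool.Agent.FanRD.GN
import Pool.Agent.FanRD.Jp
import Pool.Agent.FanRD.ND
set_option autoImplicit false
set_option maxHeartbeats 4000000
noncomputable section
open MeasureTheory

namespace FanRD

variable {l : ℕ}


section abs
variable {I : Type*} [Fintype I] [DecidableEq I]

end abs



section JBaux

theorem aux_pt_one (A : Fan l) (x : X l) (i : Fin (l + 5)) :
    pt (WW A x) (BB A x) 1 i = ev (A i) x := by
  simp only [pt, WW, BB, ev, mul_one]; ring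

theorem aux_om_zero (a : Co l) (h : a.1 = 0 ∧ a.2.1 = 0) (x : X l) : om a x = 0 := by
  simp [om, h.1, h.2]

theorem aux_BB_add (A : Fan l) (x : X l) (u : Fin l → ℝ) (i : Fin (l + 5)) :
    BB A (x.1, x.2.1, x.2.2 + u) i = BB A x i + ∑ k, (A i).2.2.1 k * u k := by
  simp only [BB, bb, Pi.add_apply, mul_add, Finset.sum_add_distrib]; ring

theorem aux_sum_c {n : ℕ} (a : Fin n → ℂ) (p r j j0 : Fin n) (t : ℝ) :
    ∑ i, (((((if i = p then 1 else 0) - (if i = r then 1 else 0)) -
      t * ((if i = j then 1 else 0) - (if i = j0 then 1 else 0)) : ℝ)) : ℂ) * a i =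
    (a p - a r) - t * (a j - a j0) := by
  have : ∀ i, (((((if i = p then 1 else 0) - (if i = r then 1 else 0)) -
      t * ((if i = j then 1 else 0) - (if i = j0 then 1 else 0)) : ℝ)) : ℂ) * a i =
      ((if i = p then a i else 0) - (if i = r then a i else 0)) -
        t * ((if i = j then a i else 0) - (if i = j0 then a i else 0)) := by
    intro i
    split_ifs <;> push_cast <;> ring
  simp only [this, Finset.sum_sub_distrib, ← Finset.mul_sum]
  simp

theorem aux_sum_r {n : ℕ} (a : Fin n → ℝ) (p r j j0 : Fin n) (t : ℝ) :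
    ∑ i, (((if i = p then 1 else 0) - (if i = r then 1 else 0)) -
      t * ((if i = j then 1 else 0) - (if i = j0 then 1 else 0))) * a i =
    (a p - a r) - t * (a j - a j0) := by
  have : ∀ i, (((if i = p then 1 else 0) - (if i = r then 1 else 0)) -
      t * ((if i = j then 1 else 0) - (if i = j0 then 1 else 0))) * a i =
      ((if i = p then a i else 0) - (if i = r then a i else 0)) -
        t * ((if i = j then a i else 0) - (if i = j0 then a i else 0)) := by
    intro i
    split_ifs <;> ring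
  simp only [this, Finset.sum_sub_distrib, ← Finset.mul_sum]
  simp

theorem aux_gen (A : Fan l) (hA : ND A) (j j0 : Fin (l + 5)) (h1 : j ≠ j0)
    (hj : (A j).1 = 0 ∧ (A j).2.1 = 0) (hj0 : (A j0).1 = 0 ∧ (A j0).2.1 = 0)
    (p r : Fin (l + 5)) (hpr : p ≠ r) (n1 : ¬ (p = j ∧ r = j0)) (n2 : ¬ (p = j0 ∧ r = j))
    (x1 : X l) (hx1 : BB A x1 j = BB A x1 j0) :
    ∃ x : X l, BB A x j = BB A x j0 ∧ (WW A x p ≠ WW A x r ∨ BB A x p ≠ BB A x r) := by
  by_cases hS : (A p).1 = (A r).1 ∧ (A p).2.1 = (A r).2.1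
  · by_contra hcon
    push Not at hcon
    set β : Fin l → ℝ := fun k => (A p).2.2.1 k - (A r).2.2.1 k with hβ
    set γ : Fin l → ℝ := fun k => (A j).2.2.1 k - (A j0).2.2.1 k with hγ
    have hker : ∀ u : Fin l → ℝ, ∑ k, γ k * u k = 0 → ∑ k, β k * u k = 0 := by
      intro u hu
      have e1 := aux_BB_add A x1 u
      have hu' : ∑ k, (A j).2.2.1 k * u k - ∑ k, (A j0).2.2.1 k * u k = 0 := by
        rw [← Finset.sum_sub_distrib, ← hu]
        exact Finset.sum_congr rfl fun k _ => by simp only [hγ]; ring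
      have h2 := (hcon (x1.1, x1.2.1, x1.2.2 + u) (by rw [e1, e1]; linarith)).2
      have h3 := (hcon x1 hx1).2
      rw [e1, e1] at h2
      have : ∑ k, β k * u k = ∑ k, (A p).2.2.1 k * u k - ∑ k, (A r).2.2.1 k * u k := by
        rw [← Finset.sum_sub_distrib]
        exact Finset.sum_congr rfl fun k _ => by simp only [hβ]; ring
      rw [this]; linarith
    -- γ is not zero
    have hγ0 : ∑ k, γ k * γ k ≠ 0 := by
      intro h0
      have hz : ∀ k, γ k = 0 := by
        intro k
        have := (Finset.sum_eq_zero_iff_of_nonneg (fun k _ => mul_self_nonneg (γ k))).1 h0 k (Finset.mem_univ k)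
        exact mul_self_eq_zero.1 this
      have hν := nd_indep A hA (fun i => ((if i = j then 1 else 0) - (if i = j0 then 1 else 0)) -
          0 * ((if i = j then 1 else 0) - (if i = j0 then 1 else 0)))
        (by simp [Finset.sum_sub_distrib])
        ((aux_sum_c (fun i => (A i).1) j j0 j j0 0).trans (by simp [hj.1, hj0.1]))
        ((aux_sum_c (fun i => (A i).2.1) j j0 j j0 0).trans (by simp [hj.2, hj0.2]))
        (fun k => (aux_sum_r (fun i => (A i).2.2.1 k) j j0 j j0 0).trans (by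
          have := hz k
          simp only [hγ] at this
          simp only [this]; ring))
      have := congrFun hν j
      simp [h1] at this
    set t : ℝ := (∑ k, γ k * β k) / (∑ k, γ k * γ k) with ht
    have hu1 : ∑ k, γ k * (β k - t * γ k) = 0 := by
      have : ∑ k, γ k * (β k - t * γ k) = ∑ k, γ k * β k - t * ∑ k, γ k * γ k := by
        rw [Finset.mul_sum, ← Finset.sum_sub_distrib]
        exact Finset.sum_congr rfl fun k _ => by ring
      rw [this, ht, div_mul_cancel₀ _ hγ0, sub_self]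
    have hu2 := hker (fun k => β k - t * γ k) hu1
    have hu3 : ∑ k, (β k - t * γ k) * (β k - t * γ k) = 0 := by
      have : ∑ k, (β k - t * γ k) * (β k - t * γ k) =
          ∑ k, β k * (β k - t * γ k) - t * ∑ k, γ k * (β k - t * γ k) := by
        rw [Finset.mul_sum, ← Finset.sum_sub_distrib]
        exact Finset.sum_congr rfl fun k _ => by ring
      rw [this, hu1, hu2]; ring
    have hu4 : ∀ k, β k = t * γ k := by
      intro k
      have := (Finset.sum_eq_zero_iff_of_nonneg
        (fun k _ => mul_self_nonneg (β k - t * γ k))).1 hu3 k (Finset.mem_univ k)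
      exact sub_eq_zero.1 (mul_self_eq_zero.1 this)
    have hν := nd_indep A hA (fun i => ((if i = p then 1 else 0) - (if i = r then 1 else 0)) -
        t * ((if i = j then 1 else 0) - (if i = j0 then 1 else 0)))
      (by simp [Finset.sum_sub_distrib, ← Finset.mul_sum])
      ((aux_sum_c (fun i => (A i).1) p r j j0 t).trans (by simp [hj.1, hj0.1, hS.1]))
      ((aux_sum_c (fun i => (A i).2.1) p r j j0 t).trans (by simp [hj.2, hj0.2, hS.2]))
      (fun k => (aux_sum_r (fun i => (A i).2.2.1 k) p r j j0 t).trans (by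
        have := hu4 k
        simp only [hγ, hβ] at this
        linarith))
    have hp : p = j ∨ p = j0 := by
      by_contra hh
      push Not at hh
      have := congrFun hν p
      simp [hh.1, hh.2, hpr] at this
    have hr : r = j ∨ r = j0 := by
      by_contra hh
      push Not at hh
      have := congrFun hν r
      simp [hh.1, hh.2, hpr.symm] at this
    rcases hp with hp | hp <;> rcases hr with hr | hr
    · exact hpr (hp.trans hr.symm)
    · exact n1 ⟨hp, hr⟩
    · exact n2 ⟨hp, hr⟩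
    · exact hpr (hp.trans hr.symm)
  · refine ⟨((starRingEnd ℂ) ((A p).1 - (A r).1), (starRingEnd ℂ) ((A p).2.1 - (A r).2.1), x1.2.2), ?_, Or.inl ?_⟩
    · exact hx1
    · intro h
      apply hS
      have h2 : ((A p).1 - (A r).1) * (starRingEnd ℂ) ((A p).1 - (A r).1) +
          ((A p).2.1 - (A r).2.1) * (starRingEnd ℂ) ((A p).2.1 - (A r).2.1) = 0 := by
        simp only [WW, om] at h
        linear_combination h
      rw [Complex.mul_conj, Complex.mul_conj] at h2
      have h3 : Complex.normSq ((A p).1 - (A r).1) + Complex.normSq ((A p).2.1 - (A r).2.1) = 0 := by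
        exact_mod_cast h2
      have h4 := Complex.normSq_nonneg ((A p).1 - (A r).1)
      have h5 := Complex.normSq_nonneg ((A p).2.1 - (A r).2.1)
      constructor
      · exact sub_eq_zero.1 (Complex.normSq_eq_zero.1 (by linarith))
      · exact sub_eq_zero.1 (Complex.normSq_eq_zero.1 (by linarith))

/-- set the `j0`-coordinate equal to the `j`-coordinate -/
def TU (j j0 : Fin (l + 5)) : (Fin (l + 5) → ℝ) →ₗ[ℝ] (Fin (l + 5) → ℝ) where
  toFun y := fun p => if p = j0 then y j else y p
  map_add' y z := by funext p; by_cases h : p = j0 <;> simp [h]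
  map_smul' c y := by funext p; by_cases h : p = j0 <;> simp [h]

theorem aux_point (A : Fan l) (hA : ND A) (j j0 m : Fin (l + 5)) (h1 : j ≠ j0) (h2 : m ≠ j) (h3 : m ≠ j0)
    (hj : (A j).1 = 0 ∧ (A j).2.1 = 0) (hj0 : (A j0).1 = 0 ∧ (A j0).2.1 = 0) :
    ∃ x : X l, BB A x j = BB A x j0 ∧ (∀ p, p ≠ m → ev (A p) x < ev (A m) x) ∧
      (∀ p, p ≠ j → p ≠ j0 → ev (A j) x < ev (A p) x) ∧
      (∀ p r, p ≠ r → ¬ (p = j ∧ r = j0) → ¬ (p = j0 ∧ r = j) →
      (WW A x p ≠ WW A x r ∨ BB A x p ≠ BB A x r)) := by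
  obtain ⟨x0, L, hL⟩ := nd_param A hA
  set xx : (Fin (l + 5) → ℝ) → X l := fun y => x0 + L (TU j j0 y) with hxx
  have hev : ∀ y i k, ev (A i) (xx y) - ev (A k) (xx y) = TU j j0 y i - TU j j0 y k := by
    intro y i k
    have e1 := hL (TU j j0 y) i
    have e2 := hL (TU j j0 y) k
    simp only [hxx]
    linarith
  have hTj : ∀ y : Fin (l + 5) → ℝ, TU j j0 y j = y j := by
    intro y; simp [TU, h1]
  have hTj0 : ∀ y : Fin (l + 5) → ℝ, TU j j0 y j0 = y j := by
    intro y; simp [TU]
  have hevj : ∀ x : X l, ev (A j) x - ev (A j0) x = BB A x j - BB A x j0 := by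
    intro x
    simp only [ev, BB, aux_om_zero _ hj, aux_om_zero _ hj0]
    simp
  have hBBj : ∀ y, BB A (xx y) j = BB A (xx y) j0 := by
    intro y
    have e1 := hev y j j0
    rw [hevj, hTj, hTj0] at e1
    linarith
  have hsurj : ∀ x, BB A x j = BB A x j0 → ∃ y, xx y = x := by
    intro x hx
    refine ⟨fun i => ev (A i) x, ?_⟩
    apply nd_inj A hA
    intro i
    have e1 := hev (fun i => ev (A i) x) i 0
    rw [e1]
    have e2 : TU j j0 (fun i => ev (A i) x) = fun i => ev (A i) x := by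
      funext p
      simp only [TU, LinearMap.coe_mk, AddHom.coe_mk]
      split_ifs with hp
      · rw [hp]
        have := hevj x
        linarith
      · rfl
    rw [e2]
  set K := {q : Fin (l + 5) × Fin (l + 5) // q.1 ≠ q.2 ∧ ¬ (q.1 = j ∧ q.2 = j0) ∧ ¬ (q.1 = j0 ∧ q.2 = j)} with hK
  set f : K → (Fin (l + 5) → ℝ) → ℝ := fun q y =>
    ((WW A (xx y) q.1.1 - WW A (xx y) q.1.2).re) ^ 2 + ((WW A (xx y) q.1.1 - WW A (xx y) q.1.2).im) ^ 2
      + (BB A (xx y) q.1.1 - BB A (xx y) q.1.2) ^ 2 with hf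
  have hfne : ∀ q y, f q y ≠ 0 ↔ (WW A (xx y) q.1.1 ≠ WW A (xx y) q.1.2 ∨ BB A (xx y) q.1.1 ≠ BB A (xx y) q.1.2) := by
    intro q y
    rw [← not_iff_not]
    push Not
    simp only [hf]
    constructor
    · intro h
      have a1 := sq_nonneg ((WW A (xx y) q.1.1 - WW A (xx y) q.1.2).re)
      have a2 := sq_nonneg ((WW A (xx y) q.1.1 - WW A (xx y) q.1.2).im)
      have a3 := sq_nonneg (BB A (xx y) q.1.1 - BB A (xx y) q.1.2)
      have b1 : ((WW A (xx y) q.1.1 - WW A (xx y) q.1.2).re) = 0 := pow_eq_zero_iff (two_ne_zero) |>.1 (by linarith)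
      have b2 : ((WW A (xx y) q.1.1 - WW A (xx y) q.1.2).im) = 0 := pow_eq_zero_iff (two_ne_zero) |>.1 (by linarith)
      have b3 : (BB A (xx y) q.1.1 - BB A (xx y) q.1.2) = 0 := pow_eq_zero_iff (two_ne_zero) |>.1 (by linarith)
      exact ⟨sub_eq_zero.1 (Complex.ext b1 b2), sub_eq_zero.1 b3⟩
    · rintro ⟨c1, c2⟩
      rw [c1, c2]; simp
  have hxa : AnalyticOnNhd ℝ xx Set.univ := by
    intro y _
    have : xx = fun y => x0 + (LinearMap.toContinuousLinearMap (L ∘ₗ TU j j0)) y := rfl
    rw [this]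
    exact analyticAt_const.add (ContinuousLinearMap.analyticAt _ _)
  have homa : ∀ (a : Co l) (y : Fin (l + 5) → ℝ), AnalyticAt ℝ (fun y => om a (xx y)) y := by
    intro a y
    have e1 : AnalyticAt ℝ (fun y => (xx y).1) y := analyticAt_fst.comp (hxa y (Set.mem_univ _))
    have e2 : AnalyticAt ℝ (fun y => (xx y).2) y := analyticAt_snd.comp (hxa y (Set.mem_univ _))
    have e3 : AnalyticAt ℝ (fun y => (xx y).2.1) y := analyticAt_fst.comp e2
    exact (analyticAt_const.mul e1).add (analyticAt_const.mul e3)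
  have hbba : ∀ (a : Co l) (y : Fin (l + 5) → ℝ), AnalyticAt ℝ (fun y => bb a (xx y)) y := by
    intro a y
    have e2 : AnalyticAt ℝ (fun y => (xx y).2) y := analyticAt_snd.comp (hxa y (Set.mem_univ _))
    have e3 : AnalyticAt ℝ (fun y => (xx y).2.2) y := analyticAt_snd.comp e2
    simp only [bb]
    apply Finset.analyticAt_fun_sum
    intro k _
    have e4 : AnalyticAt ℝ (fun y => (xx y).2.2 k) y :=
      ((ContinuousLinearMap.proj (R := ℝ) (φ := fun _ : Fin l => ℝ) k).analyticAt _).comp e3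
    exact analyticAt_const.mul e4
  have hfa : ∀ q, AnalyticOnNhd ℝ (f q) Set.univ := by
    intro q y _
    have e1 : AnalyticAt ℝ (fun y => WW A (xx y) q.1.1 - WW A (xx y) q.1.2) y := (homa _ y).sub (homa _ y)
    have e2 : AnalyticAt ℝ (fun y => (WW A (xx y) q.1.1 - WW A (xx y) q.1.2).re) y :=
      (Complex.reCLM.analyticAt _).comp e1
    have e3 : AnalyticAt ℝ (fun y => (WW A (xx y) q.1.1 - WW A (xx y) q.1.2).im) y :=
      (Complex.imCLM.analyticAt _).comp e1
    have e4 : AnalyticAt ℝ (fun y => BB A (xx y) q.1.1 - BB A (xx y) q.1.2) y :=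
      ((hbba _ y).add analyticAt_const).sub ((hbba _ y).add analyticAt_const)
    exact ((e2.pow 2).add (e3.pow 2)).add (e4.pow 2)
  have hne : ∀ q, ∃ y, f q y ≠ 0 := by
    intro q
    obtain ⟨x, hx, hx'⟩ := aux_gen A hA j j0 h1 hj hj0 q.1.1 q.1.2 q.2.1 q.2.2.1 q.2.2.2 (xx 0) (hBBj 0)
    obtain ⟨y, hy⟩ := hsurj x hx
    refine ⟨y, (hfne q y).2 ?_⟩
    rw [hy]; exact hx'
  set U : Set (Fin (l + 5) → ℝ) := {y | (∀ p, p ≠ m → TU j j0 y p < TU j j0 y m) ∧
    (∀ p, p ≠ j → p ≠ j0 → TU j j0 y j < TU j j0 y p)} with hU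
  have hTc : ∀ p, Continuous fun y : Fin (l + 5) → ℝ => TU j j0 y p := by
    intro p
    exact (continuous_apply p).comp (LinearMap.continuous_of_finiteDimensional (TU j j0))
  have hUo : IsOpen U := by
    have : U = (⋂ p, {y | p ≠ m → TU j j0 y p < TU j j0 y m}) ∩
        (⋂ p, {y | p ≠ j → p ≠ j0 → TU j j0 y j < TU j j0 y p}) := by
      ext y; simp [hU]
    rw [this]
    apply IsOpen.inter
    · apply isOpen_iInter_of_finite
      intro p
      by_cases hp : p = m
      · simp [hp]
      · simp only [ne_eq, hp, not_false_eq_true, true_imp_iff]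
        exact isOpen_lt (hTc p) (hTc m)
    · apply isOpen_iInter_of_finite
      intro p
      by_cases hp : p = j
      · simp [hp]
      · by_cases hp' : p = j0
        · simp [hp']
        · simp only [ne_eq, hp, hp', not_false_eq_true, true_imp_iff]
          exact isOpen_lt (hTc j) (hTc p)
  have hUn : U.Nonempty := by
    refine ⟨fun p => if p = m then 1 else if p = j ∨ p = j0 then -1 else 0, ?_, ?_⟩
    · intro p hp
      simp only [TU, LinearMap.coe_mk, AddHom.coe_mk, h3, if_false, hp, h2.symm]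
      split_ifs <;> norm_num
    · intro p hp hp'
      simp only [TU, LinearMap.coe_mk, AddHom.coe_mk, h1, if_false, hp, hp', h2.symm]
      split_ifs <;> norm_num at *
  obtain ⟨y, hyU, hy⟩ := exists_ne_zero f hfa hne U hUo hUn
  refine ⟨xx y, hBBj y, ?_, ?_, ?_⟩
  · intro p hp
    have e1 := hyU.1 p hp
    have e2 := hev y p m
    linarith
  · intro p hp hp'
    have e1 := hyU.2 p hp hp'
    have e2 := hev y j p
    linarith
  · intro p r hpr n1 n2
    exact (hfne ⟨(p, r), hpr, n1, n2⟩ y).1 (hy ⟨(p, r), hpr, n1, n2⟩)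

/-- the condition under which `lam k j - lam k j0` contributes to the bottom jump -/
def CC (j j0 k : Fin (l + 5)) (y : Fin (l + 5) → ℝ) : Prop :=
  (∀ p, p ≠ j → p ≠ j0 → y j < y p) ∧ (k ≠ j ∧ k ≠ j0 ∧ (∀ p, p ≠ k → y p < y k))

theorem aux_CC_open (j j0 k : Fin (l + 5)) (P : ℝ → Fin (l + 5) → ℝ) (hP : ∀ i, Continuous fun θ => P θ i) :
    IsOpen {θ | CC j j0 k (P θ)} := by
  have : {θ | CC j j0 k (P θ)} = (⋂ p, {θ | p ≠ j → p ≠ j0 → P θ j < P θ p}) ∩
      ({θ | k ≠ j} ∩ ({θ | k ≠ j0} ∩ (⋂ p, {θ | p ≠ k → P θ p < P θ k}))) := by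
    ext θ; simp [CC]
  rw [this]
  apply IsOpen.inter
  · apply isOpen_iInter_of_finite
    intro p
    by_cases hp : p = j
    · simp [hp]
    · by_cases hp' : p = j0
      · simp [hp']
      · simp only [ne_eq, hp, hp', not_false_eq_true, true_imp_iff]
        exact isOpen_lt (hP j) (hP p)
  · apply IsOpen.inter
    · exact isOpen_const
    · apply IsOpen.inter
      · exact isOpen_const
      · apply isOpen_iInter_of_finite
        intro p
        by_cases hp : p = k
        · simp [hp]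
        · simp only [ne_eq, hp, not_false_eq_true, true_imp_iff]
          exact isOpen_lt (hP p) (hP k)

open Classical in
theorem aux_JB (lam : Fin (l + 5) → Fin (l + 5) → ℝ) (j j0 : Fin (l + 5)) (y : Fin (l + 5) → ℝ) :
    JB lam j j0 y = ∑ k, (if CC j j0 k y then (1 : ℝ) else 0) * (lam k j - lam k j0) := by
  unfold JB CC
  split_ifs with h
  · apply Finset.sum_congr rfl
    intro k _
    by_cases hk : k ≠ j ∧ k ≠ j0 ∧ (∀ p, p ≠ k → y p < y k)
    · rw [if_pos hk, if_pos ⟨h, hk⟩, one_mul]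
    · rw [if_neg hk, if_neg (fun hh => hk hh.2), zero_mul]
  · symm
    apply Finset.sum_eq_zero
    intro k _
    rw [if_neg (fun hh => h hh.1), zero_mul]

end JBaux

/-- TARGET -/
theorem jbot (A : Fan l) (hA : ND A) (W : Finset (Fin (l + 5)))
    (hW : ∀ m ∈ W, (A m).1 = 0 ∧ (A m).2.1 = 0)
    (lam : Fin (l + 5) → Fin (l + 5) → ℝ) (hK : InK A lam)
    (m j j0 : Fin (l + 5)) (hm : m ∈ W) (hj : j ∈ W) (hj0 : j0 ∈ W)
    (h1 : j ≠ j0) (h2 : m ≠ j) (h3 : m ≠ j0) :
    ∃ α : Fin (l + 5) → ℝ, (∀ k, 0 ≤ α k) ∧ 0 < α m ∧ (∀ k ∈ W, k ≠ m → α k = 0) ∧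
      ∑ k, α k * (lam k j - lam k j0) = 0 := by
  classical
  obtain ⟨x, hxj, hxm, hxl, hgen⟩ := aux_point A hA j j0 m h1 h2 h3 (hW j hj) (hW j0 hj0)
  set P : ℝ → Fin (l + 5) → ℝ := fun θ => pt (WW A x) (BB A x) (Complex.exp (θ * Complex.I)) with hP
  have hSA : SA A j j0 := by
    refine ⟨?_, ?_⟩
    · rw [(hW j hj).1, (hW j0 hj0).1]
    · rw [(hW j hj).2, (hW j0 hj0).2]
  have hjump := jump_parallel A hA lam hK j j0 h1 hSA x hxj hgen
  have hPW : ∀ i ∈ W, ∀ θ, P θ i = BB A x i := by
    intro i hi θ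
    simp only [hP, pt, WW, aux_om_zero _ (hW i hi)]
    simp
  have hevW : ∀ i ∈ W, ev (A i) x = BB A x i := by
    intro i hi
    simp only [ev, BB, aux_om_zero _ (hW i hi)]
    simp
  have hP0 : ∀ i, P 0 i = ev (A i) x := by
    intro i
    rw [← aux_pt_one]
    simp [hP]
  have hPc : ∀ i, Continuous fun θ => P θ i := by
    intro i
    simp only [hP, pt]
    fun_prop
  have hjm : BB A x j < BB A x m := by
    rw [← hevW j hj, ← hevW m hm]; exact hxm j h2.symm
  -- the jump is minus the bottom jump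
  have hJJ : ∀ θ, JJ lam j j0 (P θ) = -∑ k, (if CC j j0 k (P θ) then (1 : ℝ) else 0) * (lam k j - lam k j0) := by
    intro θ
    unfold JJ
    rw [aux_JB]
    have : JT lam j j0 (P θ) = 0 := by
      unfold JT
      rw [if_neg]
      intro h
      have := h m h2 h3
      rw [hPW m hm, hPW j hj] at this
      linarith
    rw [this, zero_sub]
  have hmeas : ∀ k, Measurable fun θ => (if CC j j0 k (P θ) then (1 : ℝ) else 0) := by
    intro k
    exact Measurable.ite (aux_CC_open j j0 k P hPc).measurableSet measurable_const measurable_const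
  have hint : ∀ k, IntervalIntegrable (fun θ => (if CC j j0 k (P θ) then (1 : ℝ) else 0)) volume 0 (2 * Real.pi) := by
    intro k
    rw [intervalIntegrable_iff]
    apply Measure.integrableOn_of_bounded (M := 1)
    · rw [Set.uIoc_of_le (by positivity)]; exact measure_Ioc_lt_top.ne
    · exact (hmeas k).aestronglyMeasurable
    · apply Filter.Eventually.of_forall
      intro θ
      split_ifs <;> simp
  have hpi : (0 : ℝ) < 2 * Real.pi := by positivity
  refine ⟨fun k => ∫ θ in (0:ℝ)..(2 * Real.pi), (if CC j j0 k (P θ) then (1 : ℝ) else 0), ?_, ?_, ?_, ?_⟩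
  · intro k
    apply intervalIntegral.integral_nonneg hpi.le
    intro θ _
    split_ifs <;> norm_num
  · have hnn : (0 : ℝ → ℝ) ≤ᵐ[volume] (fun θ => (if CC j j0 m (P θ) then (1 : ℝ) else 0)) := by
      apply Filter.Eventually.of_forall
      intro θ
      show (0 : ℝ) ≤ (if CC j j0 m (P θ) then (1 : ℝ) else 0)
      split_ifs <;> norm_num
    show 0 < ∫ θ in (0:ℝ)..(2 * Real.pi), (if CC j j0 m (P θ) then (1 : ℝ) else 0)
    rw [intervalIntegral.integral_pos_iff_support_of_nonneg_ae hnn (hint m)]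
    refine ⟨hpi, ?_⟩
    have hopen := aux_CC_open j j0 m P hPc
    have h0mem : (0 : ℝ) ∈ {θ | CC j j0 m (P θ)} := by
      refine ⟨?_, h2, h3, ?_⟩
      · intro p hp hp'
        rw [hP0, hP0]; exact hxl p hp hp'
      · intro p hp
        rw [hP0, hP0]; exact hxm p hp
    obtain ⟨ε, hε, hball⟩ := Metric.isOpen_iff.1 hopen 0 h0mem
    have hsub : Set.Ioo (0 : ℝ) (min ε (2 * Real.pi)) ⊆
        Function.support (fun θ => (if CC j j0 m (P θ) then (1 : ℝ) else 0)) ∩ Set.Ioc 0 (2 * Real.pi) := by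
      intro θ hθ
      have hθ1 : θ < ε := lt_of_lt_of_le hθ.2 (min_le_left _ _)
      have hθ2 : θ < 2 * Real.pi := lt_of_lt_of_le hθ.2 (min_le_right _ _)
      refine ⟨?_, hθ.1, hθ2.le⟩
      have hmem : θ ∈ Metric.ball (0 : ℝ) ε := by
        rw [Metric.mem_ball, Real.dist_eq, sub_zero, abs_of_pos hθ.1]; exact hθ1
      have : CC j j0 m (P θ) := hball hmem
      simp [Function.mem_support, this]
    refine lt_of_lt_of_le ?_ (measure_mono hsub)
    rw [Real.volume_Ioo, ENNReal.ofReal_pos, sub_zero]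
    exact lt_min hε hpi
  · intro k hk hkm
    have : (fun θ => (if CC j j0 k (P θ) then (1 : ℝ) else 0)) = fun _ => 0 := by
      funext θ
      rw [if_neg]
      intro hc
      have := hc.2.2.2 m (Ne.symm hkm)
      rw [hPW m hm, hPW k hk] at this
      have h5 := hxm k hkm
      rw [hevW k hk, hevW m hm] at h5
      linarith
    show ∫ θ in (0:ℝ)..(2 * Real.pi), (if CC j j0 k (P θ) then (1 : ℝ) else 0) = 0
    rw [this]; simp
  · have e1 : ∫ θ in (0:ℝ)..(2 * Real.pi), JJ lam j j0 (P θ) =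
        -∑ k, (∫ θ in (0:ℝ)..(2 * Real.pi), (if CC j j0 k (P θ) then (1 : ℝ) else 0)) * (lam k j - lam k j0) := by
      simp only [hJJ]
      rw [intervalIntegral.integral_neg, intervalIntegral.integral_finsetSum]
      · congr 1
        apply Finset.sum_congr rfl
        intro k _
        rw [intervalIntegral.integral_mul_const]
      · intro k _
        exact (hint k).mul_const _
    have e2 : ∫ θ in (0:ℝ)..(2 * Real.pi), JJ lam j j0 (P θ) = 0 := hjump
    rw [e2] at e1
    linarith


end FanRD
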