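import Mathlib
import Pool.Agent.FanRD.Defs
import Pool.Agent.FanRD.CLR
import Pool.Agent.FanRD.JBOT
import Pool.Agent.FanRD.NEG
set_option autoImplicit false
set_option maxHeartbeats 4000000
noncomputable section
open MeasureTheory

namespace FanRD

variable {l : ℕ}


theorem T2_rows (A : Fan l) (hA : ND A) (W : Finset (Fin (l + 5)))
    (ρ : Fin (l + 5) → Fin (l + 5)) (h : Deg A W ρ) (m0 j0 : Fin (l + 5))
    (hm0 : m0 ∈ W) (hT : Typ A m0) (hj0 : j0 ∈ W) (hne : j0 ≠ m0)
    (lam : Fin (l + 5) → Fin (l + 5) → ℝ) (hK : InK A lam)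
    (hS : ∀ s q, (s ∉ W ∨ s = m0 ∨ s = j0) → (q ∉ W ∨ q = m0 ∨ q = j0) → lam s q = 0)
    (hN : ∀ p j, ρ p ≠ p → j ∈ W → lam p j = 0)
    (j : Fin (l + 5)) (hj : j ∈ W) (hjm : j ≠ m0) (hjj : j ≠ j0) :
    lam m0 j = 0 ∧ ∀ p, p ∉ W → lam p j = 0 := by
  have hb : ∀ p, p ∉ W → ∃ β : ℝ, 0 ≤ β ∧ lam p j = β * lam m0 j := by
    intro p hp
    by_cases hpp : ρ p = p
    · obtain ⟨β, hβ, hβ2⟩ := class_rel A hA W ρ h lam hK m0 j p hm0 hT hj hjm hp
        (fun s q hs hq => hS s q (Or.inl hs) (Or.inl hq))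
        (fun q hq => hS m0 q (Or.inr (Or.inl rfl)) (Or.inl hq))
        (fun s hs hsp => hN s j (by rw [hs, hpp]; exact fun h => hsp h.symm) hj)
      exact ⟨β, hβ.le, hβ2⟩
    · exact ⟨0, le_rfl, by rw [hN p j hpp hj, zero_mul]⟩
  have hb' : ∀ p, ∃ β : ℝ, 0 ≤ β ∧ (p ∉ W → lam p j = β * lam m0 j) := by
    intro p
    by_cases hp : p ∈ W
    · exact ⟨0, le_rfl, fun h => absurd hp h⟩
    · obtain ⟨β, h1, h2⟩ := hb p hp
      exact ⟨β, h1, fun _ => h2⟩
  choose β hβ0 hβ using hb'
  obtain ⟨α, hα0, hαm, hαW, hsum⟩ := jbot A hA W h.zero lam hK m0 j j0 hm0 hj hj0 hjj hjm.symm hne.symm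
  have hy : lam m0 j = 0 := by
    have h1 : ∑ k, α k * (lam k j - lam k j0) =
        (∑ k, (if k = m0 then α m0 else if k ∈ W then 0 else α k * β k)) * lam m0 j := by
      rw [Finset.sum_mul]
      apply Finset.sum_congr rfl
      intro k _
      by_cases hk : k = m0
      · rw [if_pos hk, hk, hS m0 j0 (Or.inr (Or.inl rfl)) (Or.inr (Or.inr rfl)), sub_zero]
      · rw [if_neg hk]
        by_cases hkW : k ∈ W
        · rw [if_pos hkW, hαW k hkW hk, zero_mul, zero_mul]
        · rw [if_neg hkW, hS k j0 (Or.inl hkW) (Or.inr (Or.inr rfl)), sub_zero, hβ k hkW, mul_assoc]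
    rw [h1] at hsum
    rcases mul_eq_zero.1 hsum with h2 | h2
    · exfalso
      have h3 : α m0 ≤ ∑ k, (if k = m0 then α m0 else if k ∈ W then 0 else α k * β k) := by
        have h4 : (if m0 = m0 then α m0 else if m0 ∈ W then 0 else α m0 * β m0) ≤
            ∑ k, (if k = m0 then α m0 else if k ∈ W then 0 else α k * β k) := by
          apply Finset.single_le_sum (f := fun k => (if k = m0 then α m0 else if k ∈ W then 0 else α k * β k))
          · intro k _
            split_ifs
            · exact hαm.le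
            · exact le_rfl
            · exact mul_nonneg (hα0 k) (hβ0 k)
          · exact Finset.mem_univ _
        rw [if_pos rfl] at h4
        exact h4
      linarith
    · exact h2
  refine ⟨hy, fun p hp => ?_⟩
  rw [hβ p hp, hy, mul_zero]

theorem T2_vanish (A : Fan l) (hA : ND A) (W : Finset (Fin (l + 5)))
    (ρ : Fin (l + 5) → Fin (l + 5)) (h : Deg A W ρ) (m0 j0 : Fin (l + 5))
    (hm0 : m0 ∈ W) (hT : Typ A m0) (hj0 : j0 ∈ W) (hne : j0 ≠ m0)
    (lam : Fin (l + 5) → Fin (l + 5) → ℝ) (hD : ∀ i, lam i i = 0) (hK : InK A lam)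
    (hS : ∀ s q, (s ∉ W ∨ s = m0 ∨ s = j0) → (q ∉ W ∨ q = m0 ∨ q = j0) → lam s q = 0)
    (hN : ∀ p j, ρ p ≠ p → j ∈ W → lam p j = 0)
    (hN' : ∀ p j, ρ p ≠ p → j ∈ W → lam j p = 0) : ∀ p q, lam p q = 0 := by
  have hrow := T2_rows A hA W ρ h m0 j0 hm0 hT hj0 hne lam hK hS hN
  have hcol := T2_rows (negF A) (ND_negF A hA) W ρ (Deg_negF A W ρ h) m0 j0 hm0 ((Typ_negF A m0).2 hT) hj0 hne
    (fun a b => lam b a) (InK_negF A lam hK) (fun s q hs hq => hS q s hq hs) hN'
  intro p q
  by_cases hp : p ∈ W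
  · by_cases hq : q ∈ W
    · by_cases hpq : p = q
      · rw [hpq]; exact hD q
      by_cases hpm : p = m0
      · by_cases hqj : q = j0
        · exact hS p q (Or.inr (Or.inl hpm)) (Or.inr (Or.inr hqj))
        · rw [hpm]
          exact (hrow q hq (fun h => hpq (by rw [hpm, h])) hqj).1
      by_cases hqm : q = m0
      · by_cases hpj : p = j0
        · exact hS p q (Or.inr (Or.inr hpj)) (Or.inr (Or.inl hqm))
        · rw [hqm]
          exact (hcol p hp hpm hpj).1
      -- general
      obtain ⟨α, hα0, hαm, hαW, hsum⟩ := jbot (negF A) (ND_negF A hA) W (Deg_negF A W ρ h).zero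
        (fun a b => lam b a) (InK_negF A lam hK) q p m0 hq hp hm0 hpm (fun h => hpq h.symm) hqm
      have hmq : lam m0 q = 0 := by
        by_cases hqj : q = j0
        · exact hS m0 q (Or.inr (Or.inl rfl)) (Or.inr (Or.inr hqj))
        · exact (hrow q hq hqm hqj).1
      have h1 : ∑ k, α k * (lam p k - lam m0 k) = α q * lam p q := by
        rw [Finset.sum_eq_single q]
        · rw [hmq, sub_zero]
        · intro k _ hk
          by_cases hkW : k ∈ W
          · rw [hαW k hkW hk, zero_mul]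
          · rw [hS m0 k (Or.inr (Or.inl rfl)) (Or.inl hkW)]
            have : lam p k = 0 := by
              by_cases hpj : p = j0
              · exact hS p k (Or.inr (Or.inr hpj)) (Or.inl hkW)
              · exact (hcol p hp hpm hpj).2 k hkW
            rw [this]; simp
        · intro hh
          exact absurd (Finset.mem_univ _) hh
      rw [h1] at hsum
      rcases mul_eq_zero.1 hsum with h2 | h2
      · linarith
      · exact h2
    · by_cases hpm : p = m0
      · exact hS p q (Or.inr (Or.inl hpm)) (Or.inl hq)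
      by_cases hpj : p = j0
      · exact hS p q (Or.inr (Or.inr hpj)) (Or.inl hq)
      exact (hcol p hp hpm hpj).2 q hq
  · by_cases hq : q ∈ W
    · by_cases hqm : q = m0
      · exact hS p q (Or.inl hp) (Or.inr (Or.inl hqm))
      by_cases hqj : q = j0
      · exact hS p q (Or.inl hp) (Or.inr (Or.inr hqj))
      exact (hrow q hq hqm hqj).2 p hp
    · exact hS p q (Or.inl hp) (Or.inl hq)

/-- TARGET: kernel bound for degenerate fans -/
theorem T2 (A : Fan l) (hA : ND A) (W : Finset (Fin (l + 5)))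
    (ρ : Fin (l + 5) → Fin (l + 5)) (h : Deg A W ρ) (m0 j0 : Fin (l + 5))
    (hm0 : m0 ∈ W) (hT : Typ A m0) (hj0 : j0 ∈ W) (hne : j0 ≠ m0) :
    Module.finrank ℝ (KK A) ≤
      (Wᶜ.card + 2) ^ 2 + 2 * ((Finset.univ.filter (fun p => ρ p ≠ p)).card * W.card) := by
  set S0 : Finset (Fin (l + 5)) := Wᶜ ∪ {m0, j0} with hS0
  set N : Finset (Fin (l + 5)) := Finset.univ.filter (fun p => ρ p ≠ p) with hN
  set E0 : Finset (Fin (l + 5) × Fin (l + 5)) := (S0 ×ˢ S0) ∪ ((N ×ˢ W) ∪ (W ×ˢ N)) with hE0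
  have hmemS : ∀ s, (s ∉ W ∨ s = m0 ∨ s = j0) → s ∈ S0 := by
    intro s hs
    rw [hS0]
    simp only [Finset.mem_union, Finset.mem_compl, Finset.mem_insert, Finset.mem_singleton]
    exact hs
  have hcard : E0.card ≤ (Wᶜ.card + 2) ^ 2 + 2 * (N.card * W.card) := by
    have h1 : S0.card ≤ Wᶜ.card + 2 := by
      refine (Finset.card_union_le _ _).trans ?_
      have := Finset.card_le_two (a := m0) (b := j0)
      omega
    have h2 : E0.card ≤ (S0 ×ˢ S0).card + ((N ×ˢ W).card + (W ×ˢ N).card) :=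
      (Finset.card_union_le _ _).trans (Nat.add_le_add_left (Finset.card_union_le _ _) _)
    rw [Finset.card_product, Finset.card_product, Finset.card_product] at h2
    have h3 : S0.card * S0.card ≤ (Wᶜ.card + 2) ^ 2 := by
      rw [sq]
      exact Nat.mul_le_mul h1 h1
    have h4 : W.card * N.card = N.card * W.card := Nat.mul_comm _ _
    omega
  let R : KK A →ₗ[ℝ] (E0 → ℝ) :=
    { toFun := fun lam e => lam.1 e.1.1 e.1.2
      map_add' := fun a b => by
        funext e
        simp
      map_smul' := fun c a => by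
        funext e
        simp }
  have hR : Function.Injective R := by
    rw [← LinearMap.ker_eq_bot, LinearMap.ker_eq_bot']
    intro lam hlam
    have hv : ∀ q ∈ E0, lam.1 q.1 q.2 = 0 := by
      intro q hq
      have := congrFun hlam ⟨q, hq⟩
      exact this
    have hz := T2_vanish A hA W ρ h m0 j0 hm0 hT hj0 hne lam.1 lam.2.1 lam.2.2
      (fun s q hs hq => hv (s, q) (by
        rw [hE0]
        exact Finset.mem_union_left _ (Finset.mem_product.2 ⟨hmemS s hs, hmemS q hq⟩)))
      (fun p j hp hj => hv (p, j) (by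
        rw [hE0]
        refine Finset.mem_union_right _ (Finset.mem_union_left _ (Finset.mem_product.2 ⟨?_, hj⟩))
        rw [hN]
        exact Finset.mem_filter.2 ⟨Finset.mem_univ _, hp⟩))
      (fun p j hp hj => hv (j, p) (by
        rw [hE0]
        refine Finset.mem_union_right _ (Finset.mem_union_right _ (Finset.mem_product.2 ⟨hj, ?_⟩))
        rw [hN]
        exact Finset.mem_filter.2 ⟨Finset.mem_univ _, hp⟩))
    apply Subtype.ext
    funext p q
    exact hz p q
  have h1 := LinearMap.finrank_le_finrank_of_injective hR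
  rw [Module.finrank_fintype_fun_eq_card, Fintype.card_coe] at h1
  exact h1.trans hcard


end FanRD
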