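import Mathlib
import Pool.Agent.FanRD.Defs
import Pool.Agent.FanRD.FL
import Pool.Agent.FanRD.JJ
import Pool.Agent.FanRD.dense
set_option autoImplicit false
set_option maxHeartbeats 4000000
noncomputable section
open MeasureTheory

namespace FanRD

variable {l : ℕ}


section abs
variable {I : Type*} [Fintype I] [DecidableEq I]

end abs

/-! auxiliary lemmas -/

theorem lrs_cont_pt (A : Fan l) (i : Fin (l + 5)) :
    Continuous fun q : X l × ℂ => pt (WW A q.1) (BB A q.1) q.2 i := by
  simp only [pt, WW, BB, om, bb]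
  fun_prop

theorem lrs_open (A : Fan l) (P : Fin (l + 5) → Fin (l + 5) → Prop)
    (S : Set (X l)) (hS : S = {x | ∀ e : ℂ, ‖e‖ = 1 → ∀ i m, P i m →
      pt (WW A x) (BB A x) e i < pt (WW A x) (BB A x) e m}) : IsOpen S := by
  subst hS
  rw [isOpen_iff_eventually]
  intro x hx
  have hc : IsCompact (Metric.sphere (0 : ℂ) 1) := isCompact_sphere 0 1
  have h := hc.eventually_forall_of_forall_eventually (x₀ := x)
    (P := fun (x : X l) (e : ℂ) => ∀ i m, P i m →
      pt (WW A x) (BB A x) e i < pt (WW A x) (BB A x) e m) (by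
      intro e he
      rw [Filter.eventually_all]
      intro i
      rw [Filter.eventually_all]
      intro m
      by_cases hP : P i m
      · have h1 := hx e (by simpa using he) i m hP
        have h2 := (lrs_cont_pt A i).continuousAt (x := (x, e))
        have h3 := (lrs_cont_pt A m).continuousAt (x := (x, e))
        filter_upwards [h2.eventually_lt h3 h1] with z hz _
        exact hz
      · exact Filter.Eventually.of_forall fun z h => absurd h hP)
  filter_upwards [h] with y hy e he
  exact hy e (by simpa using he)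

theorem lrs_countable (b : ℝ) (w : ℂ) (h : |b| ≠ ‖w‖) :
    {θ : ℝ | b + (w * Complex.exp (θ * Complex.I)).re = 0}.Countable := by
  have hform : ∀ θ : ℝ, (w * Complex.exp (θ * Complex.I)).re = ‖w‖ * Real.cos (Complex.arg w + θ) := by
    intro θ
    conv_lhs => rw [← Complex.norm_mul_exp_arg_mul_I w]
    rw [mul_assoc, ← Complex.exp_add, ← add_mul, ← Complex.ofReal_add, Complex.re_ofReal_mul,
      Complex.exp_ofReal_mul_I_re]
  rcases Set.eq_empty_or_nonempty {θ : ℝ | b + (w * Complex.exp (θ * Complex.I)).re = 0} with he | ⟨θ0, h0⟩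
  · rw [he]
    exact Set.countable_empty
  · have h0' : b + (w * Complex.exp (θ0 * Complex.I)).re = 0 := h0
    have hw : ‖w‖ ≠ 0 := by
      intro hw
      rw [hform, hw, zero_mul, add_zero] at h0'
      rw [h0', hw] at h
      simp at h
    apply Set.Countable.mono (s₂ := Set.range (fun k : ℤ => θ0 - 2 * k * Real.pi) ∪
      Set.range (fun k : ℤ => 2 * k * Real.pi - θ0 - 2 * Complex.arg w))
    · intro θ hθ
      have hθ' : b + (w * Complex.exp (θ * Complex.I)).re = 0 := hθ
      rw [hform] at hθ' h0'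
      have hcos : Real.cos (Complex.arg w + θ) = Real.cos (Complex.arg w + θ0) := by
        have : ‖w‖ * Real.cos (Complex.arg w + θ) = ‖w‖ * Real.cos (Complex.arg w + θ0) := by
          linarith
        exact mul_left_cancel₀ hw this
      rw [Real.cos_eq_cos_iff] at hcos
      obtain ⟨k, hk | hk⟩ := hcos
      · left
        exact ⟨k, by simp only; linarith⟩
      · right
        exact ⟨k, by simp only; linarith⟩
    · exact (Set.countable_range _).union (Set.countable_range _)

section abs2
variable {I : Type*} [Fintype I] [DecidableEq I]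

theorem lrs_cont_pt2 (w : I → ℂ) (B : I → ℝ) (i : I) :
    Continuous fun θ : ℝ => pt w B (Complex.exp (θ * Complex.I)) i := by
  unfold pt
  fun_prop

theorem lrs_isOpen (w : I → ℂ) (B : I → ℝ) (i j : I) :
    IsOpen {θ : ℝ | (∀ m, m ≠ i → pt w B (Complex.exp (θ * Complex.I)) m <
      pt w B (Complex.exp (θ * Complex.I)) i) ∧ (∀ m, m ≠ j →
      pt w B (Complex.exp (θ * Complex.I)) j < pt w B (Complex.exp (θ * Complex.I)) m)} := by
  have h1 : IsOpen {θ : ℝ | ∀ m, m ≠ i → pt w B (Complex.exp (θ * Complex.I)) m <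
      pt w B (Complex.exp (θ * Complex.I)) i} := by
    have : {θ : ℝ | ∀ m, m ≠ i → pt w B (Complex.exp (θ * Complex.I)) m <
      pt w B (Complex.exp (θ * Complex.I)) i} = ⋂ m : I, {θ : ℝ | m ≠ i →
        pt w B (Complex.exp (θ * Complex.I)) m < pt w B (Complex.exp (θ * Complex.I)) i} := by
      ext θ
      simp
    rw [this]
    apply isOpen_iInter_of_finite
    intro m
    by_cases hm : m = i
    · have : {θ : ℝ | m ≠ i → pt w B (Complex.exp (θ * Complex.I)) m <
          pt w B (Complex.exp (θ * Complex.I)) i} = Set.univ := by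
        ext θ
        simp [hm]
      rw [this]
      exact isOpen_univ
    · have : {θ : ℝ | m ≠ i → pt w B (Complex.exp (θ * Complex.I)) m <
          pt w B (Complex.exp (θ * Complex.I)) i} = {θ : ℝ |
          pt w B (Complex.exp (θ * Complex.I)) m < pt w B (Complex.exp (θ * Complex.I)) i} := by
        ext θ
        simp [hm]
      rw [this]
      exact isOpen_lt (lrs_cont_pt2 w B m) (lrs_cont_pt2 w B i)
  have h2 : IsOpen {θ : ℝ | ∀ m, m ≠ j → pt w B (Complex.exp (θ * Complex.I)) j <
      pt w B (Complex.exp (θ * Complex.I)) m} := by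
    have : {θ : ℝ | ∀ m, m ≠ j → pt w B (Complex.exp (θ * Complex.I)) j <
      pt w B (Complex.exp (θ * Complex.I)) m} = ⋂ m : I, {θ : ℝ | m ≠ j →
        pt w B (Complex.exp (θ * Complex.I)) j < pt w B (Complex.exp (θ * Complex.I)) m} := by
      ext θ
      simp
    rw [this]
    apply isOpen_iInter_of_finite
    intro m
    by_cases hm : m = j
    · have : {θ : ℝ | m ≠ j → pt w B (Complex.exp (θ * Complex.I)) j <
          pt w B (Complex.exp (θ * Complex.I)) m} = Set.univ := by
        ext θ
        simp [hm]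
      rw [this]
      exact isOpen_univ
    · have : {θ : ℝ | m ≠ j → pt w B (Complex.exp (θ * Complex.I)) j <
          pt w B (Complex.exp (θ * Complex.I)) m} = {θ : ℝ |
          pt w B (Complex.exp (θ * Complex.I)) j < pt w B (Complex.exp (θ * Complex.I)) m} := by
        ext θ
        simp [hm]
      rw [this]
      exact isOpen_lt (lrs_cont_pt2 w B j) (lrs_cont_pt2 w B m)
  exact h1.inter h2

theorem lrs_integrable (w : I → ℂ) (B : I → ℝ) (i j : I) (a b : ℝ) :
    IntervalIntegrable (fun θ : ℝ => ind i j (pt w B (Complex.exp (θ * Complex.I)))) volume a b := by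
  classical
  have h : (fun θ : ℝ => ind i j (pt w B (Complex.exp (θ * Complex.I)))) =
      Set.indicator {θ : ℝ | (∀ m, m ≠ i → pt w B (Complex.exp (θ * Complex.I)) m <
      pt w B (Complex.exp (θ * Complex.I)) i) ∧ (∀ m, m ≠ j →
      pt w B (Complex.exp (θ * Complex.I)) j < pt w B (Complex.exp (θ * Complex.I)) m)}
      (fun _ => (1 : ℝ)) := by
    funext θ
    unfold ind Set.indicator
    congr
  rw [h, intervalIntegrable_iff]
  have hm := (lrs_isOpen w B i j).measurableSet
  apply IntegrableOn.indicator _ hm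
  exact integrableOn_const (by simp)

end abs2

theorem ind_ne_zero {I : Type*} [Fintype I] [DecidableEq I] {i j : I} {y : I → ℝ}
    (h : ind i j y ≠ 0) : (∀ m, m ≠ i → y m < y i) ∧ (∀ m, m ≠ j → y j < y m) := by
  unfold ind at h
  by_contra hc
  rw [if_neg hc] at h
  exact h rfl

theorem norm_exp_aux (θ : ℝ) : ‖Complex.exp (θ * Complex.I)‖ = 1 := Complex.norm_exp_ofReal_mul_I θ

theorem tau_zero_LRS {I : Type*} [Fintype I] [DecidableEq I] {i j : I} {w : I → ℂ} {B : I → ℝ}
    (h : ∀ e : ℂ, ‖e‖ = 1 → ind i j (pt w B e) = 0) : tau i j w B = 0 := by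
  unfold tau
  have : ∀ θ : ℝ, ind i j (pt w B (Complex.exp (θ * Complex.I))) = 0 := fun θ =>
    h _ (norm_exp_aux θ)
  simp [this]

/-- TARGET 1 -/
theorem Bot_open (A : Fan l) (j : Fin (l + 5)) : IsOpen (Bot A j) := by
  apply lrs_open A (fun i m => i = j ∧ m ≠ j)
  ext x
  constructor
  · rintro h e he i m ⟨rfl, hm⟩
    exact h e he m hm
  · intro h e he i hi
    exact h e he j i ⟨rfl, hi⟩

/-- TARGET 2: on `Bot A j` the shares of the tops add up to the full circle -/
theorem tau_sum (A : Fan l) (j : Fin (l + 5)) (x : X l) (hx : x ∈ Bot A j) (hr : FReg A x) :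
    ∑ i, tau i j (WW A x) (BB A x) = 2 * Real.pi := by
  classical
  unfold tau
  rw [← intervalIntegral.integral_finsetSum (fun i _ => lrs_integrable _ _ i j _ _)]
  have hcount : (⋃ i : Fin (l + 5), ⋃ m : Fin (l + 5), {θ : ℝ | i ≠ m ∧
      pt (WW A x) (BB A x) (Complex.exp (θ * Complex.I)) i =
      pt (WW A x) (BB A x) (Complex.exp (θ * Complex.I)) m}).Countable := by
    apply Set.countable_iUnion
    intro i
    apply Set.countable_iUnion
    intro m
    by_cases him : i = m
    · have : {θ : ℝ | i ≠ m ∧ pt (WW A x) (BB A x) (Complex.exp (θ * Complex.I)) i =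
          pt (WW A x) (BB A x) (Complex.exp (θ * Complex.I)) m} = ∅ := by
        ext θ
        simp [him]
      rw [this]
      exact Set.countable_empty
    · refine (lrs_countable (BB A x i - BB A x m) (WW A x i - WW A x m) (hr.1 i m him)).mono ?_
      rintro θ ⟨-, hθ⟩
      simp only [pt] at hθ
      show BB A x i - BB A x m + ((WW A x i - WW A x m) * Complex.exp (θ * Complex.I)).re = 0
      rw [sub_mul, Complex.sub_re]
      linarith
  have hae : ∀ᵐ θ : ℝ, θ ∉ (⋃ i : Fin (l + 5), ⋃ m : Fin (l + 5), {θ : ℝ | i ≠ m ∧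
      pt (WW A x) (BB A x) (Complex.exp (θ * Complex.I)) i =
      pt (WW A x) (BB A x) (Complex.exp (θ * Complex.I)) m}) :=
    measure_eq_zero_iff_ae_notMem.1 (hcount.measure_zero volume)
  have h1 : ∫ θ in (0:ℝ)..(2 * Real.pi), ∑ i, ind i j (pt (WW A x) (BB A x)
      (Complex.exp (θ * Complex.I))) = ∫ θ in (0:ℝ)..(2 * Real.pi), (1 : ℝ) := by
    apply intervalIntegral.integral_congr_ae
    filter_upwards [hae] with θ hθ _
    have hinj : ∀ i m, i ≠ m → pt (WW A x) (BB A x) (Complex.exp (θ * Complex.I)) i ≠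
        pt (WW A x) (BB A x) (Complex.exp (θ * Complex.I)) m := by
      intro i m him heq
      apply hθ
      simp only [Set.mem_iUnion]
      exact ⟨i, m, him, heq⟩
    set y := pt (WW A x) (BB A x) (Complex.exp (θ * Complex.I)) with hy
    obtain ⟨i0, -, hi0⟩ := Finset.exists_max_image (Finset.univ : Finset (Fin (l + 5))) y
      ⟨0, Finset.mem_univ _⟩
    have hmin := hx (Complex.exp (θ * Complex.I)) (norm_exp_aux θ)
    have htop : ∀ m, m ≠ i0 → y m < y i0 := fun m hm =>
      lt_of_le_of_ne (hi0 m (Finset.mem_univ _)) (hinj m i0 hm)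
    rw [Finset.sum_eq_single i0]
    · unfold ind
      rw [if_pos ⟨htop, fun m hm => hmin m hm⟩]
    · intro i _ hi
      by_contra hne
      have h2 := (ind_ne_zero hne).1 i0 (Ne.symm hi)
      have h3 := htop i hi
      linarith
    · intro h
      exact absurd (Finset.mem_univ _) h
  rw [h1]
  simp

/-- TARGET 3 -/
theorem TT_bot (A : Fan l) (lam : Fin (l + 5) → Fin (l + 5) → ℝ) (j : Fin (l + 5)) (x : X l)
    (hx : x ∈ Bot A j) : TT lam (WW A x) (BB A x) = ∑ i, lam i j * tau i j (WW A x) (BB A x) := by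
  unfold TT
  refine Finset.sum_congr rfl fun i _ => ?_
  rw [Finset.sum_eq_single j]
  · intro j' _ hj'
    have : tau i j' (WW A x) (BB A x) = 0 := by
      apply tau_zero_LRS
      intro e he
      by_contra hne
      have h1 := (ind_ne_zero hne).2 j (Ne.symm hj')
      have h2 := hx e he j' hj'
      linarith
    rw [this, mul_zero]
  · intro h
    exact absurd (Finset.mem_univ _) h

/-- TARGET 4: a regular point where `m` is always at the top and `j` always at the bottom -/
theorem exists_top_bot (A : Fan l) (hA : ND A) (W : Finset (Fin (l + 5)))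
    (ρ : Fin (l + 5) → Fin (l + 5)) (h : Deg A W ρ) (h4 : cN ρ = 4) (m j : Fin (l + 5))
    (hm : m ∈ W) (hj : j ∈ W) (hmj : m ≠ j) :
    ∃ x, x ∈ Bot A j ∧ FReg A x ∧ ∀ i, i ≠ m → tau i j (WW A x) (BB A x) = 0 := by
  classical
  set t : Fin (l + 5) → ℝ := fun i => if i = m then 1 else if i = j then -1 else 0 with ht
  have htm : t m = 1 := by simp [ht]
  have htj : t j = -1 := by simp [ht, Ne.symm hmj]
  have ht0 : ∀ i, i ≠ m → i ≠ j → t i = 0 := fun i h1 h2 => by simp [ht, h1, h2]
  have htρ : ∀ p, t (ρ p) = t p := by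
    intro p
    by_cases hp : p ∈ W
    · rw [h.fix p hp]
    · have hρ := h.maps p hp
      rw [ht0 p (fun hc => hp (hc ▸ hm)) (fun hc => hp (hc ▸ hj)),
        ht0 (ρ p) (fun hc => hρ (hc ▸ hm)) (fun hc => hρ (hc ▸ hj))]
  obtain ⟨v, s, hv⟩ := free_levels A hA W ρ h h4 t htρ 0 0
  have hpt : ∀ (e : ℂ) i, pt (WW A (0, 0, v)) (BB A (0, 0, v)) e i = t i + s := by
    intro e i
    unfold pt
    rw [hv i]
    simp [WW, om]
  have hTopOpen : IsOpen {x : X l | ∀ e : ℂ, ‖e‖ = 1 → ∀ i k, k = m ∧ i ≠ m →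
      pt (WW A x) (BB A x) e i < pt (WW A x) (BB A x) e k} :=
    lrs_open A (fun i k => k = m ∧ i ≠ m) _ rfl
  obtain ⟨x, ⟨hx1, hx2⟩, hx3⟩ := reg_dense A hA (Bot A j ∩ {x : X l | ∀ e : ℂ, ‖e‖ = 1 →
      ∀ i k, k = m ∧ i ≠ m → pt (WW A x) (BB A x) e i < pt (WW A x) (BB A x) e k})
      ((Bot_open A j).inter hTopOpen) (by
      refine ⟨(0, 0, v), ?_, ?_⟩
      · intro e _ i hi
        rw [hpt, hpt, htj]
        by_cases him : i = m
        · rw [him, htm]
          linarith
        · rw [ht0 i him hi]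
          linarith
      · rintro e _ i k ⟨rfl, hi⟩
        rw [hpt, hpt, htm]
        by_cases hij : i = j
        · rw [hij, htj]
          linarith
        · rw [ht0 i hi hij]
          linarith)
  refine ⟨x, hx1, hx3, fun i hi => ?_⟩
  apply tau_zero_LRS
  intro e he
  by_contra hne
  have h1 := (ind_ne_zero hne).1 m (Ne.symm hi)
  have h2 := hx2 e he i m ⟨rfl, hi⟩
  linarith

/-- TARGET 5 -/
theorem rows (A : Fan l) (hA : ND A) (W : Finset (Fin (l + 5)))
    (ρ : Fin (l + 5) → Fin (l + 5)) (h : Deg A W ρ) (h4 : cN ρ = 4)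
    (lam : Fin (l + 5) → Fin (l + 5) → ℝ) (hd : ∀ i, lam i i = 0) (hK : InK A lam) :
    ∃ κ : ℝ, (∀ m ∈ W, ∀ j ∈ W, m ≠ j → lam m j = κ) ∧
      ∀ j ∈ W, (fun p => if p ∈ W then 0 else lam p j - κ) ∈ Vt A W j := by
  classical
  obtain ⟨C, hC⟩ := hK
  have hpi : (2 * Real.pi) ≠ 0 := by positivity
  have h1 : ∀ m ∈ W, ∀ j ∈ W, m ≠ j → lam m j = C / (2 * Real.pi) := by
    intro m hm j hj hmj
    obtain ⟨x, hx1, hx2, hx3⟩ := exists_top_bot A hA W ρ h h4 m j hm hj hmj
    have e1 := hC x hx2
    rw [TT_bot A lam j x hx1, Finset.sum_eq_single m] at e1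
    · have e2 := tau_sum A j x hx1 hx2
      rw [Finset.sum_eq_single m] at e2
      · rw [e2] at e1
        rw [eq_div_iff hpi]
        exact e1
      · intro i _ hi
        exact hx3 i hi
      · intro hc
        exact absurd (Finset.mem_univ _) hc
    · intro i _ hi
      rw [hx3 i hi, mul_zero]
    · intro hc
      exact absurd (Finset.mem_univ _) hc
  refine ⟨C / (2 * Real.pi), h1, ?_⟩
  intro j hj
  refine ⟨fun m hm => by simp [hm], ?_⟩
  intro x hx hr
  have e1 := hC x hr
  rw [TT_bot A lam j x hx] at e1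
  have e2 := tau_sum A j x hx hr
  have hjj : tau j j (WW A x) (BB A x) = 0 := by
    apply tau_zero_LRS
    intro e he
    by_contra hne
    have h2 := ind_ne_zero hne
    obtain ⟨m, hm⟩ : ∃ m : Fin (l + 5), m ≠ j := by
      by_cases h0 : j = 0
      · refine ⟨1, ?_⟩
        rw [h0]
        intro h10
        have := congrArg Fin.val h10
        simp at this
      · exact ⟨0, fun h => h0 h.symm⟩
    have h3 := h2.1 m hm
    have h4 := h2.2 m hm
    linarith
  have e3 : ∑ p, (lam p j - C / (2 * Real.pi)) * tau p j (WW A x) (BB A x) = 0 := by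
    simp_rw [sub_mul]
    rw [Finset.sum_sub_distrib, ← Finset.mul_sum, e1, e2]
    field_simp
    ring
  refine Eq.trans ?_ e3
  refine Finset.sum_congr rfl fun p _ => ?_
  show (if p ∈ W then (0 : ℝ) else lam p j - C / (2 * Real.pi)) * _ = _
  by_cases hp : p ∈ W
  · rw [if_pos hp, zero_mul]
    by_cases hpj : p = j
    · rw [hpj, hjj, mul_zero]
    · rw [h1 p hp j hj hpj, sub_self, zero_mul]
  · rw [if_neg hp]


end FanRD
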