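import Mathlib
import Pool.Agent.FanRD.Defs
import Pool.Agent.FanRD.FL
import Pool.Agent.FanRD.LRS
import Pool.Agent.FanRD.dense
set_option autoImplicit false
set_option maxHeartbeats 4000000
noncomputable section
open MeasureTheory

namespace FanRD

variable {l : ℕ}


theorem om_eq (a : Co l) (x : X l) : om a x = a.1 * x.1 + a.2.1 * x.2.1 := rfl

theorem cont_BB_TP (A : Fan l) (i : Fin (l+5)) : Continuous (fun x : X l => BB A x i) := by
  unfold BB bb
  fun_prop

theorem cont_om (A : Fan l) (i : Fin (l+5)) : Continuous (fun x : X l => om (A i) x) := by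
  unfold om
  fun_prop

theorem cont_pt (A : Fan l) (i : Fin (l+5)) :
    Continuous (fun p : X l × ℂ => pt (WW A p.1) (BB A p.1) p.2 i) := by
  unfold pt WW
  have h1 : Continuous (fun p : X l × ℂ => BB A p.1 i) := (cont_BB_TP A i).comp continuous_fst
  have h2 : Continuous (fun p : X l × ℂ => om (A i) p.1) := (cont_om A i).comp continuous_fst
  exact h1.add (Complex.continuous_re.comp (h2.mul continuous_snd))

theorem ev_circle (A : Fan l) (x0 : X l) (a b : Fin (l+5))
    (h : ∀ e : ℂ, ‖e‖ = 1 → pt (WW A x0) (BB A x0) e a < pt (WW A x0) (BB A x0) e b) :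
    ∀ᶠ x in nhds x0, ∀ e : ℂ, ‖e‖ = 1 → pt (WW A x) (BB A x) e a < pt (WW A x) (BB A x) e b := by
  have hK : IsCompact (Metric.sphere (0:ℂ) 1) := isCompact_sphere 0 1
  have := hK.eventually_forall_of_forall_eventually (x₀ := x0)
    (P := fun x e => pt (WW A x) (BB A x) e a < pt (WW A x) (BB A x) e b) (by
      intro e he
      have he' : ‖e‖ = 1 := by simpa using he
      have hop : IsOpen {p : X l × ℂ | pt (WW A p.1) (BB A p.1) p.2 a < pt (WW A p.1) (BB A p.1) p.2 b} :=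
        isOpen_lt (cont_pt A a) (cont_pt A b)
      exact hop.mem_nhds (h e he'))
  filter_upwards [this] with x hx e he
  exact hx e (by simpa using he)

theorem ev_point (A : Fan l) (x0 : X l) (e : ℂ) (a b : Fin (l+5))
    (h : pt (WW A x0) (BB A x0) e a < pt (WW A x0) (BB A x0) e b) :
    ∀ᶠ x in nhds x0, pt (WW A x) (BB A x) e a < pt (WW A x) (BB A x) e b := by
  have hop : IsOpen {x : X l | pt (WW A x) (BB A x) e a < pt (WW A x) (BB A x) e b} := by
    apply isOpen_lt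
    · exact (cont_pt A a).comp (continuous_id.prodMk continuous_const)
    · exact (cont_pt A b).comp (continuous_id.prodMk continuous_const)
  exact hop.mem_nhds h

theorem tau_zero_TP (A : Fan l) (x : X l) (a b j : Fin (l+5))
    (h : ∀ e : ℂ, ‖e‖ = 1 → pt (WW A x) (BB A x) e a < pt (WW A x) (BB A x) e b) :
    tau a j (WW A x) (BB A x) = 0 := by
  unfold tau
  have hab : b ≠ a := by
    rintro rfl
    exact absurd (h 1 (by simp)) (lt_irrefl _)
  have : ∀ θ : ℝ, ind a j (pt (WW A x) (BB A x) (Complex.exp (θ * Complex.I))) = 0 := by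
    intro θ
    unfold ind
    rw [if_neg]
    rintro ⟨h1, -⟩
    have := h1 b hab
    have h2 := h (Complex.exp (θ * Complex.I)) (Complex.norm_exp_ofReal_mul_I θ)
    linarith
  simp [this]

theorem tau_pos (A : Fan l) (x : X l) (q j : Fin (l+5)) (hx : x ∈ Bot A j) (e0 : ℂ) (he : ‖e0‖ = 1)
    (h : ∀ m, m ≠ q → pt (WW A x) (BB A x) e0 m < pt (WW A x) (BB A x) e0 q) :
    0 < tau q j (WW A x) (BB A x) := by
  unfold tau
  set U : Set ℝ := {θ : ℝ | ∀ m, m ≠ q → pt (WW A x) (BB A x) (Complex.exp (θ * Complex.I)) m <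
    pt (WW A x) (BB A x) (Complex.exp (θ * Complex.I)) q} with hU
  have hcp : ∀ i, Continuous (fun θ : ℝ => pt (WW A x) (BB A x) (Complex.exp (θ * Complex.I)) i) := by
    intro i
    have hc : Continuous (fun θ : ℝ => (x, Complex.exp (θ * Complex.I))) := by fun_prop
    exact (cont_pt A i).comp hc
  have hUo : IsOpen U := by
    have : U = ⋂ m : Fin (l+5), {θ : ℝ | m ≠ q → pt (WW A x) (BB A x) (Complex.exp (θ * Complex.I)) m <
      pt (WW A x) (BB A x) (Complex.exp (θ * Complex.I)) q} := by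
      ext θ
      simp [hU]
    rw [this]
    apply isOpen_iInter_of_finite
    intro m
    by_cases hm : m = q
    · subst hm
      simp
    · have : {θ : ℝ | m ≠ q → pt (WW A x) (BB A x) (Complex.exp (θ * Complex.I)) m <
        pt (WW A x) (BB A x) (Complex.exp (θ * Complex.I)) q} = {θ : ℝ | pt (WW A x) (BB A x) (Complex.exp (θ * Complex.I)) m <
        pt (WW A x) (BB A x) (Complex.exp (θ * Complex.I)) q} := by
        ext θ
        simp [hm]
      rw [this]
      exact isOpen_lt (hcp m) (hcp q)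
  have hf : ∀ θ : ℝ, ind q j (pt (WW A x) (BB A x) (Complex.exp (θ * Complex.I))) =
      U.indicator (fun _ => (1:ℝ)) θ := by
    intro θ
    by_cases hθ : θ ∈ U
    · rw [Set.indicator_of_mem hθ]
      unfold ind
      rw [if_pos]
      exact ⟨hθ, fun m hm => hx _ (Complex.norm_exp_ofReal_mul_I θ) m hm⟩
    · rw [Set.indicator_of_notMem hθ]
      unfold ind
      rw [if_neg]
      rintro ⟨h1, -⟩
      exact hθ h1
  have hpi := Real.pi_pos
  simp only [hf]
  rw [intervalIntegral.integral_of_le (by positivity)]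
  have hint : (∫ (x : ℝ) in Set.Ioc 0 (2 * Real.pi), U.indicator (fun _ => (1:ℝ)) x) =
      (volume.restrict (Set.Ioc 0 (2*Real.pi))).real U := MeasureTheory.integral_indicator_one hUo.measurableSet
  rw [hint]
  -- a point of U in [0,2π]
  obtain ⟨θ0, hθ0, hθe⟩ : ∃ θ0 : ℝ, θ0 ∈ Set.Icc 0 (2*Real.pi) ∧ Complex.exp (θ0 * Complex.I) = e0 := by
    have hexp : Complex.exp (Complex.arg e0 * Complex.I) = e0 := by
      have := Complex.norm_mul_exp_arg_mul_I e0
      rw [he] at this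
      simpa using this
    have h1 := Complex.neg_pi_lt_arg e0
    have h2 := Complex.arg_le_pi e0
    by_cases hneg : 0 ≤ Complex.arg e0
    · exact ⟨Complex.arg e0, ⟨hneg, by linarith⟩, hexp⟩
    · push Not at hneg
      refine ⟨Complex.arg e0 + 2 * Real.pi, ⟨by linarith, by linarith⟩, ?_⟩
      push_cast
      rw [add_mul, Complex.exp_add, hexp]
      rw [Complex.exp_two_pi_mul_I, mul_one]
  have hθU : θ0 ∈ U := by
    rw [hU]
    intro m hm
    rw [hθe]
    exact h m hm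
  have hcl : θ0 ∈ closure (Set.Ioo 0 (2*Real.pi)) := by
    rw [closure_Ioo (by positivity)]
    exact hθ0
  obtain ⟨θ1, h1, h2⟩ := mem_closure_iff.mp hcl U hUo hθU
  have hpos : 0 < volume (U ∩ Set.Ioo 0 (2*Real.pi)) :=
    (hUo.inter isOpen_Ioo).measure_pos volume ⟨θ1, h1, h2⟩
  have hle : volume (U ∩ Set.Ioo 0 (2*Real.pi)) ≤ (volume.restrict (Set.Ioc 0 (2*Real.pi))) U := by
    rw [Measure.restrict_apply hUo.measurableSet]
    exact measure_mono (Set.inter_subset_inter_right U Set.Ioo_subset_Ioc_self)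
  have hfin : (volume.restrict (Set.Ioc 0 (2*Real.pi))) U ≠ ⊤ := by
    exact measure_ne_top _ _
  exact ENNReal.toReal_pos (lt_of_lt_of_le hpos hle).ne' hfin

theorem key_perturb (A : Fan l) (hA : ND A) (x0 : X l) (j : Fin (l+5)) (hx0 : x0 ∈ Bot A j)
    (R : Fin (l+5) → Fin (l+5) → Prop) (T : Fin (l+5) → Prop) (E : Fin (l+5) → ℂ)
    (hR : ∀ a b, R a b → ∀ e : ℂ, ‖e‖ = 1 → pt (WW A x0) (BB A x0) e a < pt (WW A x0) (BB A x0) e b)
    (hE : ∀ q, T q → ‖E q‖ = 1)
    (hT : ∀ q, T q → ∀ m, m ≠ q → pt (WW A x0) (BB A x0) (E q) m < pt (WW A x0) (BB A x0) (E q) q) :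
    ∃ x, x ∈ Bot A j ∧ FReg A x ∧ (∀ q, T q → 0 < tau q j (WW A x) (BB A x)) ∧
      (∀ a b, R a b → tau a j (WW A x) (BB A x) = 0) := by
  have e1 : ∀ᶠ x in nhds x0, x ∈ Bot A j := (Bot_open A j).mem_nhds hx0
  have e2 : ∀ᶠ x in nhds x0, ∀ a b, R a b → ∀ e : ℂ, ‖e‖ = 1 →
      pt (WW A x) (BB A x) e a < pt (WW A x) (BB A x) e b := by
    rw [Filter.eventually_all]
    intro a
    rw [Filter.eventually_all]
    intro b
    by_cases h : R a b
    · filter_upwards [ev_circle A x0 a b (hR a b h)] with x hx _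
      exact hx
    · exact Filter.Eventually.of_forall (fun x hh => absurd hh h)
  have e3 : ∀ᶠ x in nhds x0, ∀ q, T q → ∀ m, m ≠ q → pt (WW A x) (BB A x) (E q) m <
      pt (WW A x) (BB A x) (E q) q := by
    rw [Filter.eventually_all]
    intro q
    by_cases h : T q
    · have : ∀ᶠ x in nhds x0, ∀ m, m ≠ q → pt (WW A x) (BB A x) (E q) m <
          pt (WW A x) (BB A x) (E q) q := by
        rw [Filter.eventually_all]
        intro m
        by_cases hm : m = q
        · exact Filter.Eventually.of_forall (fun x hh => absurd hm hh)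
        · filter_upwards [ev_point A x0 (E q) m q (hT q h m hm)] with x hx _
          exact hx
      filter_upwards [this] with x hx _
      exact hx
    · exact Filter.Eventually.of_forall (fun x hh => absurd hh h)
  obtain ⟨U, hU, hUo, hxU⟩ := eventually_nhds_iff.mp (e1.and (e2.and e3))
  obtain ⟨x, hx, hreg⟩ := reg_dense A hA U hUo ⟨x0, hxU⟩
  obtain ⟨h1, h2, h3⟩ := hU x hx
  refine ⟨x, h1, hreg, ?_, ?_⟩
  · intro q hq
    exact tau_pos A x q j h1 (E q) (hE q hq) (h3 q hq)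
  · intro a b hab
    exact tau_zero_TP A x a b j (h2 a b hab)

theorem A_inj (A : Fan l) (hA : ND A) (p q : Fin (l+5)) (hpq : p ≠ q) (hB : SB A p q)
    (h1 : (A p).1 = (A q).1) (h2 : (A p).2.1 = (A q).2.1) : False := by
  obtain ⟨x, -, hx⟩ := reg_dense A hA Set.univ isOpen_univ ⟨0, trivial⟩
  have := hx.1 p q hpq
  apply this
  have hB' : (A p).2.2 = (A q).2.2 := hB
  have e1 : BB A x p = BB A x q := by
    unfold BB bb
    rw [hB']
  have e2 : WW A x p = WW A x q := by
    unfold WW om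
    rw [h1, h2]
  rw [e1, e2]
  simp

theorem re_lt_one (a b : ℂ) (ha : ‖a‖ = 1) (hb : ‖b‖ = 1) (hab : a ≠ b) :
    (a * (starRingEnd ℂ) b).re < 1 := by
  have h1 : a.re ^ 2 + a.im ^ 2 = 1 := by
    have := Complex.sq_norm a
    rw [ha, Complex.normSq_apply] at this
    nlinarith
  have h2 : b.re ^ 2 + b.im ^ 2 = 1 := by
    have := Complex.sq_norm b
    rw [hb, Complex.normSq_apply] at this
    nlinarith
  have h3 : 0 < (a.re - b.re) ^ 2 + (a.im - b.im) ^ 2 := by
    by_contra hc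
    push Not at hc
    have e1 : (a.re - b.re) ^ 2 = 0 := by nlinarith [sq_nonneg (a.re - b.re), sq_nonneg (a.im - b.im)]
    have e2 : (a.im - b.im) ^ 2 = 0 := by nlinarith [sq_nonneg (a.re - b.re), sq_nonneg (a.im - b.im)]
    apply hab
    apply Complex.ext
    · have := pow_eq_zero_iff (two_ne_zero) |>.mp e1
      linarith
    · have := pow_eq_zero_iff (two_ne_zero) |>.mp e2
      linarith
  simp only [Complex.mul_re, Complex.conj_re, Complex.conj_im]
  nlinarith

theorem re_self (a : ℂ) (ha : ‖a‖ = 1) : (a * (starRingEnd ℂ) a).re = 1 := by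
  rw [Complex.mul_conj, Complex.normSq_eq_norm_sq, ha]
  simp

theorem re_bd (a e : ℂ) (he : ‖e‖ = 1) : |(a * e).re| ≤ ‖a‖ := by
  have := Complex.abs_re_le_norm (a * e)
  rwa [norm_mul, he, mul_one] at this

/-- TARGET 1: a regular point where the class of `p0` is always at the top -/
theorem test_class (A : Fan l) (hA : ND A) (W : Finset (Fin (l + 5)))
    (ρ : Fin (l + 5) → Fin (l + 5)) (h : Deg A W ρ) (h4 : cN ρ = 4) (p0 j : Fin (l + 5))
    (hp : p0 ∉ W) (hj : j ∈ W) :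
    ∃ x, x ∈ Bot A j ∧ FReg A x ∧ (∀ q, ρ q = ρ p0 → 0 < tau q j (WW A x) (BB A x)) ∧
      ∀ q, ρ q ≠ ρ p0 → tau q j (WW A x) (BB A x) = 0 := by
  classical
  -- z with omega = 1
  obtain ⟨z1, z2, hz⟩ : ∃ z1 z2 : ℂ, (A p0).1 * z1 + (A p0).2.1 * z2 = 1 := by
    by_cases h1 : (A p0).1 = 0
    · have h2 : (A p0).2.1 ≠ 0 := fun h2 => h.nz p0 hp ⟨h1, h2⟩
      exact ⟨0, ((A p0).2.1)⁻¹, by rw [mul_inv_cancel₀ h2]; simp⟩
    · exact ⟨((A p0).1)⁻¹, 0, by rw [mul_inv_cancel₀ h1]; simp⟩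
  set Om : Fin (l+5) → ℂ := fun i => (A i).1 * z1 + (A i).2.1 * z2 with hOm
  set M : ℝ := ∑ i, ‖Om i‖ with hM
  have hMi : ∀ i, ‖Om i‖ ≤ M := fun i =>
    Finset.single_le_sum (f := fun i => ‖Om i‖) (fun i _ => norm_nonneg _) (Finset.mem_univ i)
  have hM0 : 0 ≤ M := Finset.sum_nonneg (fun i _ => norm_nonneg _)
  set K : ℝ := 2 * M + 1 with hK
  have hρj : ρ j = j := h.fix j hj
  have hρp0 : ρ p0 ∉ W := h.maps p0 hp
  have hcn : ∀ q, ρ q = ρ p0 → q ∉ W := by
    intro q hq hqW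
    apply hρp0
    rw [← hq, h.fix q hqW]
    exact hqW
  have hjc : ρ j ≠ ρ p0 := fun hh => hcn j hh hj
  have hρjj : ∀ p, ρ p = j ↔ p = j := by
    intro p
    constructor
    · intro hh
      by_cases hpW : p ∈ W
      · rw [h.fix p hpW] at hh
        exact hh
      · exact absurd (hh ▸ hj) (h.maps p hpW)
    · rintro rfl
      exact hρj
  set t : Fin (l+5) → ℝ := fun q => if ρ q = ρ p0 then 0 else if q = j then -(3*K) else -K with ht
  have htρ : ∀ p, t (ρ p) = t p := by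
    intro p
    simp only [ht, h.idem, hρjj]
  obtain ⟨v, s, hv⟩ := free_levels A hA W ρ h h4 t htρ z1 z2
  have hpt : ∀ e i, pt (WW A (z1,z2,v)) (BB A (z1,z2,v)) e i = t i + s + (Om i * e).re := by
    intro e i
    show BB A (z1,z2,v) i + _ = _
    rw [hv]
    rfl
  have htc : ∀ q, ρ q = ρ p0 → t q = 0 := fun q hq => by simp [ht, hq]
  have htj : t j = -(3*K) := by simp [ht, hjc]
  have htn : ∀ q, ρ q ≠ ρ p0 → q ≠ j → t q = -K := fun q hq hq' => by simp [ht, hq, hq']
  -- phases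
  have hph : ∀ q, ρ q = ρ p0 → SB A q p0 ∧ ∃ e : ℂ, ‖e‖ = 1 ∧ (A q).1 = e * (A p0).1 ∧
      (A q).2.1 = e * (A p0).2.1 := by
    intro q hq
    exact (h.cls q p0 (hcn q hq) hp).mp hq
  have hOmq : ∀ q, ρ q = ρ p0 → ‖Om q‖ = 1 ∧ (A q).1 = Om q * (A p0).1 ∧ (A q).2.1 = Om q * (A p0).2.1 := by
    intro q hq
    obtain ⟨-, e, he, e1, e2⟩ := hph q hq
    have : Om q = e := by
      simp only [hOm]
      rw [e1, e2]
      calc e * (A p0).1 * z1 + e * (A p0).2.1 * z2 = e * ((A p0).1 * z1 + (A p0).2.1 * z2) := by ring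
        _ = e := by rw [hz, mul_one]
    rw [this]
    exact ⟨he, e1, e2⟩
  have hdist : ∀ q q', ρ q = ρ p0 → ρ q' = ρ p0 → q' ≠ q → Om q' ≠ Om q := by
    intro q q' hq hq' hne heq
    obtain ⟨-, a1, a2⟩ := hOmq q hq
    obtain ⟨-, b1, b2⟩ := hOmq q' hq'
    have s1 : SB A q p0 := (hph q hq).1
    have s2 : SB A q' p0 := (hph q' hq').1
    refine A_inj A hA q' q hne ?_ ?_ ?_
    · show (A q').2.2 = (A q).2.2
      have t1 : (A q).2.2 = (A p0).2.2 := s1
      have t2 : (A q').2.2 = (A p0).2.2 := s2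
      rw [t1, t2]
    · rw [a1, b1, heq]
    · rw [a2, b2, heq]
  have hbd : ∀ i e, ‖e‖ = 1 → |(Om i * e).re| ≤ M := fun i e he => (re_bd _ e he).trans (hMi i)
  have hx0 : ((z1, z2, v) : X l) ∈ Bot A j := by
    intro e he i hi
    rw [hpt, hpt, htj]
    have b1 := abs_le.mp (hbd i e he)
    have b2 := abs_le.mp (hbd j e he)
    by_cases hi' : ρ i = ρ p0
    · rw [htc i hi']
      linarith [b1.1, b2.2]
    · rw [htn i hi' hi]
      linarith [b1.1, b2.2]
  obtain ⟨x, x1, x2, x3, x4⟩ := key_perturb A hA (z1,z2,v) j hx0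
    (fun a b => ρ a ≠ ρ p0 ∧ b = p0) (fun q => ρ q = ρ p0) (fun q => (starRingEnd ℂ) (Om q))
    (by
      rintro a b ⟨ha, rfl⟩ e he
      rw [hpt, hpt, htc b rfl]
      have b1 := abs_le.mp (hbd a e he)
      have b2 := abs_le.mp (hbd b e he)
      by_cases hi : a = j
      · rw [hi, htj]
        rw [hi] at b1
        linarith [b1.2, b2.1]
      · rw [htn a ha hi]
        linarith [b1.2, b2.1])
    (by
      intro q hq
      rw [RCLike.norm_conj]
      exact (hOmq q hq).1)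
    (by
      intro q hq m hm
      have hn : ‖(starRingEnd ℂ) (Om q)‖ = 1 := by
        rw [RCLike.norm_conj]
        exact (hOmq q hq).1
      rw [hpt, hpt, htc q hq, re_self _ (hOmq q hq).1]
      by_cases hmc : ρ m = ρ p0
      · rw [htc m hmc]
        have := re_lt_one (Om m) (Om q) (hOmq m hmc).1 (hOmq q hq).1 (hdist q m hq hmc hm)
        linarith
      · have b1 := abs_le.mp (hbd m _ hn)
        by_cases hi : m = j
        · rw [hi, htj]
          rw [hi] at b1
          linarith [b1.2]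
        · rw [htn m hmc hi]
          linarith [b1.2])
  exact ⟨x, x1, x2, x3, fun q hq => x4 q p0 ⟨hq, rfl⟩⟩

/-- TARGET 2: the tip test -/
theorem test_tip (A : Fan l) (hA : ND A) (W : Finset (Fin (l + 5)))
    (ρ : Fin (l + 5) → Fin (l + 5)) (h : Deg A W ρ) (h4 : cN ρ = 4) (hNR : NR A W ρ) :
    ∃ x y, x ∉ W ∧ ρ x = ρ y ∧ x ≠ y ∧ ∀ j ∈ W, ∃ u, u ∈ Bot A j ∧ FReg A u ∧
      tau x j (WW A u) (BB A u) = 0 ∧ 0 < tau y j (WW A u) (BB A u) := by
  classical
  obtain ⟨x, y, x', hx, hx', hxy, hρ, hmul, e, he, ey1, ey2, hno⟩ := hNR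
  refine ⟨x, y, hx, hρ, hxy, ?_⟩
  intro j hj
  obtain ⟨z1, z2, hzx, hzx'⟩ := free_omega A x x' hmul (h.nz x hx) 1 (1/2)
  set Om : Fin (l+5) → ℂ := fun i => (A i).1 * z1 + (A i).2.1 * z2 with hOm
  set M : ℝ := ∑ i, ‖Om i‖ with hM
  have hMi : ∀ i, ‖Om i‖ ≤ M := fun i =>
    Finset.single_le_sum (f := fun i => ‖Om i‖) (fun i _ => norm_nonneg _) (Finset.mem_univ i)
  have hM0 : 0 ≤ M := Finset.sum_nonneg (fun i _ => norm_nonneg _)
  set K : ℝ := 2 * M + 1 with hK
  have hρj : ρ j = j := h.fix j hj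
  have hcn : ∀ p, p ∉ W → ∀ q, ρ q = ρ p → q ∉ W := by
    intro p hp q hq hqW
    apply h.maps p hp
    rw [← hq, h.fix q hqW]
    exact hqW
  have hjx : ρ j ≠ ρ x := fun hh => hcn x hx j hh hj
  have hjx' : ρ j ≠ ρ x' := fun hh => hcn x' hx' j hh hj
  have hρjj : ∀ p, ρ p = j ↔ p = j := by
    intro p
    constructor
    · intro hh
      by_cases hpW : p ∈ W
      · rw [h.fix p hpW] at hh
        exact hh
      · exact absurd (hh ▸ hj) (h.maps p hpW)
    · rintro rfl
      exact hρj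
  have hxx' : ρ x' ≠ ρ x := by
    intro hh
    obtain ⟨-, η, -, h1, h2⟩ := (h.cls x' x hx' hx).mp hh
    exact hmul ⟨η, h1, h2⟩
  -- phases
  have hOmx : Om x = 1 := hzx
  have hOmx' : Om x' = 1/2 := hzx'
  have hph : ∀ q, ρ q = ρ x → SB A q x ∧ ‖Om q‖ = 1 ∧ (A q).1 = Om q * (A x).1 ∧
      (A q).2.1 = Om q * (A x).2.1 := by
    intro q hq
    obtain ⟨hs, f, hf, f1, f2⟩ := (h.cls q x (hcn x hx q hq) hx).mp hq
    have : Om q = f := by
      simp only [hOm]
      rw [f1, f2]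
      calc f * (A x).1 * z1 + f * (A x).2.1 * z2 = f * ((A x).1 * z1 + (A x).2.1 * z2) := by ring
        _ = f := by rw [hzx, mul_one]
    rw [this]
    exact ⟨hs, hf, f1, f2⟩
  have hph' : ∀ q, ρ q = ρ x' → ∃ f : ℂ, ‖f‖ = 1 ∧ Om q = f * (1/2) ∧ f ≠ e := by
    intro q hq
    obtain ⟨hs, f, hf, f1, f2⟩ := (h.cls q x' (hcn x' hx' q hq) hx').mp hq
    refine ⟨f, hf, ?_, ?_⟩
    · simp only [hOm]
      rw [f1, f2, ← hzx']
      ring
    · rintro rfl
      exact hno q hq ⟨f1, f2⟩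
  have hOmy : Om y = e := by
    simp only [hOm]
    rw [ey1, ey2]
    calc e * (A x).1 * z1 + e * (A x).2.1 * z2 = e * ((A x).1 * z1 + (A x).2.1 * z2) := by ring
      _ = e := by rw [hzx, mul_one]
  have hdist : ∀ q, ρ q = ρ x → q ≠ y → Om q ≠ e := by
    intro q hq hne heq
    obtain ⟨s1, -, a1, a2⟩ := hph q hq
    have s2 : SB A y x := (hph y hρ.symm).1
    refine A_inj A hA q y hne ?_ ?_ ?_
    · show (A q).2.2 = (A y).2.2
      have t1 : (A q).2.2 = (A x).2.2 := s1
      have t2 : (A y).2.2 = (A x).2.2 := s2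
      rw [t1, t2]
    · rw [a1, ey1, heq]
    · rw [a2, ey2, heq]
  -- the bound b
  obtain ⟨b, hb1, hb⟩ : ∃ b : ℝ, b < 1/2 ∧ ∀ q, ρ q = ρ x' → (Om q * (starRingEnd ℂ) e).re ≤ b := by
    have hne : (Finset.univ.filter (fun q => ρ q = ρ x')).Nonempty := ⟨x', by simp⟩
    obtain ⟨q0, hq0, hmax⟩ := Finset.exists_max_image _ (fun q => (Om q * (starRingEnd ℂ) e).re) hne
    refine ⟨(Om q0 * (starRingEnd ℂ) e).re, ?_, ?_⟩
    · obtain ⟨f, hf, hf2, hf3⟩ := hph' q0 (by simpa using hq0)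
      rw [hf2]
      have := re_lt_one f e hf he hf3
      have e1 : f * (1/2) * (starRingEnd ℂ) e = ((1/2 : ℝ) : ℂ) * (f * (starRingEnd ℂ) e) := by
        push_cast
        ring
      rw [e1, Complex.re_ofReal_mul]
      linarith
    · intro q hq
      exact hmax q (by simpa using hq)
  -- levels : s' = 1 - (1/2 + b)/2
  set s' : ℝ := 1 - (1/2 + b)/2 with hs'
  have hs0 : 1/2 < s' := by rw [hs']; linarith
  set t : Fin (l+5) → ℝ := fun q => if ρ q = ρ x then 0 else if ρ q = ρ x' then s' else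
    if q = j then -(3*K) else -K with ht
  have htρ : ∀ p, t (ρ p) = t p := by
    intro p
    simp only [ht, h.idem, hρjj]
  obtain ⟨v, s, hv⟩ := free_levels A hA W ρ h h4 t htρ z1 z2
  have hpt : ∀ e i, pt (WW A (z1,z2,v)) (BB A (z1,z2,v)) e i = t i + s + (Om i * e).re := by
    intro e i
    show BB A (z1,z2,v) i + _ = _
    rw [hv]
    rfl
  have htx : ∀ q, ρ q = ρ x → t q = 0 := fun q hq => by simp [ht, hq]
  have htx' : ∀ q, ρ q = ρ x' → t q = s' := fun q hq => by simp [ht, hq, hxx']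
  have htj : t j = -(3*K) := by simp [ht, hjx, hjx']
  have htn : ∀ q, ρ q ≠ ρ x → ρ q ≠ ρ x' → q ≠ j → t q = -K := fun q hq hq' hq'' => by
    simp [ht, hq, hq', hq'']
  have hbd : ∀ i e, ‖e‖ = 1 → |(Om i * e).re| ≤ M := fun i e he => (re_bd _ e he).trans (hMi i)
  have hx0 : ((z1, z2, v) : X l) ∈ Bot A j := by
    intro u hu i hi
    rw [hpt, hpt, htj]
    have b1 := abs_le.mp (hbd i u hu)
    have b2 := abs_le.mp (hbd j u hu)
    by_cases hi1 : ρ i = ρ x
    · rw [htx i hi1]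
      linarith [b1.1, b2.2]
    · by_cases hi2 : ρ i = ρ x'
      · rw [htx' i hi2]
        linarith [b1.1, b2.2]
      · rw [htn i hi1 hi2 hi]
        linarith [b1.1, b2.2]
  obtain ⟨w, w1, w2, w3, w4⟩ := key_perturb A hA (z1,z2,v) j hx0
    (fun a b => a = x ∧ b = x') (fun q => q = y) (fun _ => (starRingEnd ℂ) e)
    (by
      rintro a b ⟨rfl, rfl⟩ u hu
      rw [hpt, hpt, htx a rfl, htx' b rfl, hOmx, hOmx']
      have e1 : (1/2 : ℂ) * u = ((1/2 : ℝ) : ℂ) * u := by push_cast; ring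
      rw [e1, Complex.re_ofReal_mul, one_mul]
      have hu1 : u.re ≤ 1 := by
        have := Complex.re_le_norm u
        rwa [hu] at this
      linarith)
    (by
      intro q hq
      rw [RCLike.norm_conj]
      exact he)
    (by
      rintro q rfl m hm
      have hn : ‖(starRingEnd ℂ) e‖ = 1 := by
        rw [RCLike.norm_conj]
        exact he
      rw [hpt, hpt, htx q hρ.symm, hOmy, re_self _ he]
      by_cases hm1 : ρ m = ρ x
      · rw [htx m hm1]
        have := re_lt_one (Om m) e (hph m hm1).2.1 he (hdist m hm1 hm)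
        linarith
      · by_cases hm2 : ρ m = ρ x'
        · rw [htx' m hm2]
          have := hb m hm2
          rw [hs']
          linarith
        · have b1 := abs_le.mp (hbd m _ hn)
          by_cases hi : m = j
          · rw [hi, htj]
            rw [hi] at b1
            linarith [b1.2]
          · rw [htn m hm1 hm2 hi]
            linarith [b1.2])
  exact ⟨w, w1, w2, w4 x x' ⟨rfl, rfl⟩, w3 y rfl⟩

end FanRD
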