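import Mathlib
import Pool.Agent.FanRD.Defs
import Pool.Agent.FanRD.TP
set_option autoImplicit false
set_option maxHeartbeats 4000000
noncomputable section
open MeasureTheory

namespace FanRD

variable {l : ℕ}


theorem vt_finrank_le {n : ℕ} (V : Submodule ℝ (Fin n → ℝ)) (D : Finset (Fin n))
    (h : ∀ r ∈ V, (∀ q ∈ D, r q = 0) → r = 0) : Module.finrank ℝ V ≤ D.card := by
  let f : V →ₗ[ℝ] (D → ℝ) :=
    { toFun := fun r q => r.1 q.1
      map_add' := fun a b => by ext q; simp
      map_smul' := fun c a => by ext q; simp }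
  have hf : Function.Injective f := by
    rw [injective_iff_map_eq_zero]
    intro r hr
    apply Subtype.ext
    apply h r.1 r.2
    intro q hq
    exact congrFun hr ⟨q, hq⟩
  have h1 := LinearMap.finrank_le_finrank_of_injective hf
  simpa using h1

/-- one remaining coordinate -/
theorem vt_single (A : Fan l) (W : Finset (Fin (l + 5))) (j : Fin (l + 5))
    {r : Fin (l + 5) → ℝ} (hr : r ∈ Vt A W j) {x : X l} (hx : x ∈ Bot A j) (hx' : FReg A x)
    (p : Fin (l + 5)) (hp : 0 < tau p j (WW A x) (BB A x))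
    (h : ∀ q, q ≠ p → r q = 0 ∨ tau q j (WW A x) (BB A x) = 0) : r p = 0 := by
  have h1 := hr.2 x hx hx'
  rw [Finset.sum_eq_single p] at h1
  · exact (mul_eq_zero.1 h1).resolve_right hp.ne'
  · intro q _ hq
    rcases h q hq with h2 | h2
    · rw [h2, zero_mul]
    · rw [h2, mul_zero]
  · intro h2
    exact absurd (Finset.mem_univ p) h2

/-- TARGET 1 -/
theorem Vt_le4 (A : Fan l) (hA : ND A) (W : Finset (Fin (l + 5)))
    (ρ : Fin (l + 5) → Fin (l + 5)) (h : Deg A W ρ) (h4 : cN ρ = 4) (j : Fin (l + 5))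
    (hj : j ∈ W) : Module.finrank ℝ (Vt A W j) ≤ 4 := by
  rw [← h4]
  apply vt_finrank_le
  intro r hr hD
  funext p
  show r p = 0
  by_cases hpW : p ∈ W
  · exact hr.1 p hpW
  by_cases hρ : ρ p = p
  · obtain ⟨x, hx, hx', h1, h2⟩ := test_class A hA W ρ h h4 p j hpW hj
    apply vt_single A W j hr hx hx' p (h1 p rfl)
    intro q hq
    by_cases hqp : ρ q = ρ p
    · left
      apply hD
      rw [Finset.mem_filter]
      refine ⟨Finset.mem_univ _, ?_⟩
      rw [hqp, hρ]
      exact hq.symm
    · right
      exact h2 q hqp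
  · apply hD
    rw [Finset.mem_filter]
    exact ⟨Finset.mem_univ _, hρ⟩

/-- TARGET 2 -/
theorem Vt_le3 (A : Fan l) (hA : ND A) (W : Finset (Fin (l + 5)))
    (ρ : Fin (l + 5) → Fin (l + 5)) (h : Deg A W ρ) (h4 : cN ρ = 4) (hNR : NR A W ρ)
    (j : Fin (l + 5)) (hj : j ∈ W) : Module.finrank ℝ (Vt A W j) ≤ 3 := by
  obtain ⟨x, y, hxW, hxy, hne, htip⟩ := test_tip A hA W ρ h h4 hNR
  obtain ⟨S, hS⟩ : ∃ S, S = Finset.univ.filter (fun p => ρ p ≠ p) := ⟨_, rfl⟩
  have hSmem : ∀ q, q ∈ S ↔ ρ q ≠ q := by
    intro q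
    rw [hS, Finset.mem_filter]
    simp
  have hScard : S.card = 4 := by
    rw [hS]
    exact h4
  have hRS : ρ x ∉ S := by
    rw [hSmem, not_not]
    exact h.idem x
  have hins : ∀ q, ρ q = ρ x → q ∈ insert (ρ x) S := by
    intro q hq
    rw [Finset.mem_insert, hSmem]
    by_cases hqq : ρ q = q
    · left
      rw [← hqq, hq]
    · right
      exact hqq
  have hcard : (insert (ρ x) S \ {x, y}).card = 3 := by
    rw [Finset.card_sdiff_of_subset]
    · rw [Finset.card_insert_of_notMem hRS, hScard, Finset.card_pair hne]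
    · intro q hq
      rw [Finset.mem_insert, Finset.mem_singleton] at hq
      rcases hq with rfl | rfl
      · exact hins q rfl
      · exact hins q hxy.symm
  rw [← hcard]
  apply vt_finrank_le
  intro r hr hD
  have hD' : ∀ q, q ∈ insert (ρ x) S → q ≠ x → q ≠ y → r q = 0 := by
    intro q hq h1 h2
    apply hD
    rw [Finset.mem_sdiff]
    refine ⟨hq, ?_⟩
    rw [Finset.mem_insert, Finset.mem_singleton, not_or]
    exact ⟨h1, h2⟩
  -- off the class of x
  have hoff : ∀ q, ρ q ≠ ρ x → r q = 0 := by
    intro p hp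
    by_cases hpW : p ∈ W
    · exact hr.1 p hpW
    by_cases hρ : ρ p = p
    · obtain ⟨u, hu, hu', h1, h2⟩ := test_class A hA W ρ h h4 p j hpW hj
      apply vt_single A W j hr hu hu' p (h1 p rfl)
      intro q hq
      by_cases hqp : ρ q = ρ p
      · left
        apply hD' q
        · rw [Finset.mem_insert, hSmem]
          right
          rw [hqp, hρ]
          exact hq.symm
        · rintro rfl
          exact hp hqp.symm
        · rintro rfl
          exact hp (hqp.symm.trans hxy.symm)
      · right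
        exact h2 q hqp
    · apply hD' p
      · rw [Finset.mem_insert, hSmem]
        exact Or.inr hρ
      · rintro rfl
        exact hp rfl
      · rintro rfl
        exact hp hxy.symm
  have hother : ∀ q, q ≠ x → q ≠ y → r q = 0 := by
    intro q h1 h2
    by_cases hq : ρ q = ρ x
    · exact hD' q (hins q hq) h1 h2
    · exact hoff q hq
  have hy : r y = 0 := by
    obtain ⟨u, hu, hu', h1, h2⟩ := htip j hj
    apply vt_single A W j hr hu hu' y h2
    intro q hq
    by_cases hqx : q = x
    · right
      rw [hqx]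
      exact h1
    · left
      exact hother q hqx hq
  have hx : r x = 0 := by
    obtain ⟨u, hu, hu', h1, h2⟩ := test_class A hA W ρ h h4 x j hxW hj
    apply vt_single A W j hr hu hu' x (h1 x rfl)
    intro q hq
    left
    by_cases hqy : q = y
    · rw [hqy]
      exact hy
    · exact hother q hq hqy
  funext q
  show r q = 0
  by_cases h1 : q = x
  · rw [h1]
    exact hx
  · by_cases h2 : q = y
    · rw [h2]
      exact hy
    · exact hother q h1 h2


end FanRD
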