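import Mathlib
import Pool.Agent.FanRD.Defs
import Pool.Agent.FanRD.LRS
import Pool.Agent.FanRD.NEG
import Pool.Agent.FanRD.VT
set_option autoImplicit false
set_option maxHeartbeats 4000000
noncomputable section
open MeasureTheory

namespace FanRD

variable {l : ℕ}


/-- TARGET -/
theorem T3 (A : Fan l) (hA : ND A) (W : Finset (Fin (l + 5)))
    (ρ : Fin (l + 5) → Fin (l + 5)) (h : Deg A W ρ) (h4 : cN ρ = 4) (hNR : NR A W ρ)
    (hW : 2 ≤ W.card) :
    Module.finrank ℝ (KK A) ≤ Wᶜ.card ^ 2 + 7 * W.card + 1 := by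
  classical
  obtain ⟨m0, hm0, j0, hj0, hmj⟩ := Finset.one_lt_card.1 (by omega : 1 < W.card)
  have hrow : ∀ lam ∈ KK A, (∀ m ∈ W, ∀ j ∈ W, m ≠ j → lam m j = lam m0 j0) ∧
      ∀ j ∈ W, (fun p => if p ∈ W then 0 else lam p j - lam m0 j0) ∈ Vt A W j := by
    rintro lam ⟨hd, hK⟩
    obtain ⟨κ, h1, h2⟩ := rows A hA W ρ h h4 lam hd hK
    have h3 : lam m0 j0 = κ := h1 m0 hm0 j0 hj0 hmj
    rw [h3]
    exact ⟨h1, h2⟩
  have hcol : ∀ lam ∈ KK A,
      ∀ j ∈ W, (fun p => if p ∈ W then 0 else lam j p - lam m0 j0) ∈ Vt (negF A) W j := by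
    rintro lam ⟨hd, hK⟩
    obtain ⟨κ, h1, h2⟩ := rows (negF A) (ND_negF A hA) W ρ (Deg_negF A W ρ h) h4
      (fun i j => lam j i) hd (InK_negF A lam hK)
    have h3 : lam m0 j0 = κ := h1 j0 hj0 m0 hm0 hmj.symm
    rw [h3]
    exact h2
  let Φ : KK A →ₗ[ℝ] (ℝ × (({p // p ∈ Wᶜ} × {p // p ∈ Wᶜ}) → ℝ) ×
      ((j : {p // p ∈ W}) → Vt A W j.1) × ((j : {p // p ∈ W}) → Vt (negF A) W j.1)) :=
    { toFun := fun lam => (lam.1 m0 j0, fun q => lam.1 q.1.1 q.2.1,
        fun j => ⟨_, (hrow lam.1 lam.2).2 j.1 j.2⟩, fun j => ⟨_, hcol lam.1 lam.2 j.1 j.2⟩)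
      map_add' := by
        intro a b
        refine Prod.ext rfl (Prod.ext rfl (Prod.ext ?_ ?_))
        · funext j
          apply Subtype.ext
          funext p
          by_cases hp : p ∈ W
          · simp [hp]
          · simp [hp]
            ring
        · funext j
          apply Subtype.ext
          funext p
          by_cases hp : p ∈ W
          · simp [hp]
          · simp [hp]
            ring
      map_smul' := by
        intro c a
        refine Prod.ext rfl (Prod.ext rfl (Prod.ext ?_ ?_))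
        · funext j
          apply Subtype.ext
          funext p
          by_cases hp : p ∈ W
          · simp [hp]
          · simp [hp]
            ring
        · funext j
          apply Subtype.ext
          funext p
          by_cases hp : p ∈ W
          · simp [hp]
          · simp [hp]
            ring }
  have hinj : Function.Injective Φ := by
    rw [← LinearMap.ker_eq_bot, LinearMap.ker_eq_bot']
    rintro ⟨lam, hlam⟩ h0
    have e1 : lam m0 j0 = 0 := congrArg Prod.fst h0
    have e2 : ∀ q : {p // p ∈ Wᶜ} × {p // p ∈ Wᶜ}, lam q.1.1 q.2.1 = 0 := fun q =>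
      congrFun (congrArg (fun z => z.2.1) h0) q
    have e3 : ∀ (j : {p // p ∈ W}) (p : Fin (l + 5)),
        (if p ∈ W then 0 else lam p j.1 - lam m0 j0) = 0 := fun j p =>
      congrFun (congrArg Subtype.val (congrFun (congrArg (fun z => z.2.2.1) h0) j)) p
    have e4 : ∀ (j : {p // p ∈ W}) (p : Fin (l + 5)),
        (if p ∈ W then 0 else lam j.1 p - lam m0 j0) = 0 := fun j p =>
      congrFun (congrArg Subtype.val (congrFun (congrArg (fun z => z.2.2.2) h0) j)) p
    apply Subtype.ext
    funext p q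
    show lam p q = 0
    by_cases hpq : p = q
    · rw [hpq]
      exact hlam.1 q
    · by_cases hp : p ∈ W
      · by_cases hq : q ∈ W
        · rw [(hrow lam hlam).1 p hp q hq hpq, e1]
        · have := e4 ⟨p, hp⟩ q
          rw [if_neg hq, e1, sub_zero] at this
          exact this
      · by_cases hq : q ∈ W
        · have := e3 ⟨q, hq⟩ p
          rw [if_neg hp, e1, sub_zero] at this
          exact this
        · exact e2 (⟨p, Finset.mem_compl.2 hp⟩, ⟨q, Finset.mem_compl.2 hq⟩)
  have hle := LinearMap.finrank_le_finrank_of_injective hinj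
  refine hle.trans ?_
  rw [Module.finrank_prod, Module.finrank_prod, Module.finrank_prod, Module.finrank_self,
    Module.finrank_pi, Module.finrank_pi_fintype, Module.finrank_pi_fintype, Fintype.card_prod,
    Fintype.card_coe]
  have s1 : ∑ j : {p // p ∈ W}, Module.finrank ℝ (Vt A W j.1) ≤ W.card * 3 := by
    have := Finset.sum_le_card_nsmul (Finset.univ : Finset {p // p ∈ W})
      (fun j => Module.finrank ℝ (Vt A W j.1)) 3 (fun j _ => Vt_le3 A hA W ρ h h4 hNR j.1 j.2)
    rwa [Finset.card_univ, Fintype.card_coe, smul_eq_mul] at this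
  have s2 : ∑ j : {p // p ∈ W}, Module.finrank ℝ (Vt (negF A) W j.1) ≤ W.card * 4 := by
    have := Finset.sum_le_card_nsmul (Finset.univ : Finset {p // p ∈ W})
      (fun j => Module.finrank ℝ (Vt (negF A) W j.1)) 4 (fun j _ =>
        Vt_le4 (negF A) (ND_negF A hA) W ρ (Deg_negF A W ρ h) h4 j.1 j.2)
    rwa [Finset.card_univ, Fintype.card_coe, smul_eq_mul] at this
  rw [sq]
  omega


end FanRD
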