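import Mathlib
import Pool.Agent.FanRD.Defs
import Pool.Agent.FanRD.CR
import Pool.Agent.FanRD.DEGX
import Pool.Agent.FanRD.EDGE
import Pool.Agent.FanRD.FL
import Pool.Agent.FanRD.PB
import Pool.Agent.FanRD.dense
set_option autoImplicit false
set_option maxHeartbeats 4000000
noncomputable section
open MeasureTheory

namespace FanRD

variable {l : ℕ}


section T4aux

variable {I : Type*} [Fintype I] [DecidableEq I]

theorem t4_all (σ : Equiv.Perm I) (i : I) (P : I → Prop) :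
    (∀ m, m ≠ σ i → P m) ↔ (∀ m, m ≠ i → P (σ m)) := by
  constructor
  · intro h m hm
    exact h (σ m) (σ.injective.ne hm)
  · intro h m hm
    obtain ⟨m', rfl⟩ := σ.surjective m
    exact h m' (fun e => hm (by rw [e]))

theorem t4_all2 (σ : Equiv.Perm I) (i j : I) (P : I → Prop) :
    (∀ m, m ≠ σ i → m ≠ σ j → P m) ↔ (∀ m, m ≠ i → m ≠ j → P (σ m)) := by
  constructor
  · intro h m hm hm'
    exact h (σ m) (σ.injective.ne hm) (σ.injective.ne hm')
  · intro h m hm hm'
    obtain ⟨m', rfl⟩ := σ.surjective m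
    exact h m' (fun e => hm (by rw [e])) (fun e => hm' (by rw [e]))

theorem t4_ind (σ : Equiv.Perm I) (i j : I) (y : I → ℝ) :
    ind (σ i) (σ j) y = ind i j (fun p => y (σ p)) := by
  unfold ind
  exact if_congr (and_congr (t4_all σ i (fun m => y m < y (σ i)))
    (t4_all σ j (fun m => y (σ j) < y m))) rfl rfl

theorem t4_JT (σ : Equiv.Perm I) (lam : I → I → ℝ) (i m : I) (y : I → ℝ) :
    JT lam (σ i) (σ m) y = JT (fun a b => lam (σ a) (σ b)) i m (fun p => y (σ p)) := by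
  unfold JT
  refine if_congr (t4_all2 σ i m (fun p => y p < y (σ i))) ?_ rfl
  rw [← Equiv.sum_comp σ]
  apply Finset.sum_congr rfl
  intro j _
  exact if_congr (and_congr σ.injective.ne_iff (and_congr σ.injective.ne_iff
    (t4_all σ j (fun p => y (σ j) < y p)))) rfl rfl

theorem t4_JB (σ : Equiv.Perm I) (lam : I → I → ℝ) (i m : I) (y : I → ℝ) :
    JB lam (σ i) (σ m) y = JB (fun a b => lam (σ a) (σ b)) i m (fun p => y (σ p)) := by
  unfold JB
  refine if_congr (t4_all2 σ i m (fun p => y (σ i) < y p)) ?_ rfl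
  rw [← Equiv.sum_comp σ]
  apply Finset.sum_congr rfl
  intro j _
  exact if_congr (and_congr σ.injective.ne_iff (and_congr σ.injective.ne_iff
    (t4_all σ j (fun p => y p < y (σ j))))) rfl rfl

theorem t4_JJ (σ : Equiv.Perm I) (lam : I → I → ℝ) (i m : I) (y : I → ℝ) :
    JJ lam (σ i) (σ m) y = JJ (fun a b => lam (σ a) (σ b)) i m (fun p => y (σ p)) := by
  unfold JJ
  rw [t4_JT, t4_JB]

end T4aux

section T4fan

variable {A : Fan l} {W : Finset (Fin (l + 5))} {ρ : Fin (l + 5) → Fin (l + 5)} {k : ℕ} {g : ℂ}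
  {σ : Equiv.Perm (Fin (l + 5))}

theorem t4_norm (hR : Rot A W ρ k g σ) : ‖g‖ = 1 :=
  Complex.norm_eq_one_of_pow_eq_one hR.g1 (by have := hR.k2; omega)

theorem t4_W0 (h : Deg A W ρ) (x : X l) {m : Fin (l + 5)} (hm : m ∈ W) : WW A x m = 0 := by
  unfold WW om
  rw [(h.zero m hm).1, (h.zero m hm).2]
  ring

theorem t4_WW (h : Deg A W ρ) (hR : Rot A W ρ k g σ) (x : X l) (p : Fin (l + 5)) :
    WW A x (σ p) = g * WW A x p := by
  by_cases hp : p ∈ W
  · rw [hR.fixW p hp, t4_W0 h x hp, mul_zero]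
  · unfold WW om
    rw [(hR.sA p hp).1, (hR.sA p hp).2]
    ring

theorem t4_BB (hR : Rot A W ρ k g σ) (x : X l) (p : Fin (l + 5)) :
    BB A x (σ p) = BB A x p := by
  have h1 : (A (σ p)).2.2 = (A p).2.2 := hR.sB p
  unfold BB bb
  rw [h1]

theorem t4_pt (h : Deg A W ρ) (hR : Rot A W ρ k g σ) (x : X l) (e : ℂ) :
    (fun p => pt (WW A x) (BB A x) e (σ p)) = pt (WW A x) (BB A x) (g * e) := by
  funext p
  unfold pt
  rw [t4_WW h hR, t4_BB hR]
  congr 2
  ring

theorem t4_tau (h : Deg A W ρ) (hR : Rot A W ρ k g σ) (x : X l) (i j : Fin (l + 5)) :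
    tau (σ i) (σ j) (WW A x) (BB A x) = tau i j (WW A x) (BB A x) := by
  obtain ⟨c, hc⟩ := (Complex.norm_eq_one_iff g).1 (t4_norm hR)
  unfold tau
  have e1 : ∀ θ : ℝ, ind (σ i) (σ j) (pt (WW A x) (BB A x) (Complex.exp (θ * Complex.I))) =
      (fun t : ℝ => ind i j (pt (WW A x) (BB A x) (Complex.exp (t * Complex.I)))) (θ + c) := by
    intro θ
    rw [t4_ind, t4_pt h hR, ← hc, ← Complex.exp_add]
    show _ = ind i j (pt (WW A x) (BB A x) (Complex.exp (((θ + c : ℝ) : ℂ) * Complex.I)))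
    congr 3
    push_cast
    ring
  simp only [e1]
  rw [intervalIntegral.integral_comp_add_right
    (fun t : ℝ => ind i j (pt (WW A x) (BB A x) (Complex.exp (t * Complex.I)))) c]
  have hper : Function.Periodic
      (fun t : ℝ => ind i j (pt (WW A x) (BB A x) (Complex.exp (t * Complex.I))))
      (2 * Real.pi) := by
    intro t
    show ind i j (pt (WW A x) (BB A x) (Complex.exp (((t + 2 * Real.pi : ℝ) : ℂ) * Complex.I))) = _
    congr 2
    push_cast
    rw [add_mul, Complex.exp_add, Complex.exp_two_pi_mul_I, mul_one]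
  have := hper.intervalIntegral_add_eq (0 + c) 0
  rw [zero_add] at this ⊢
  rw [add_comm (2 * Real.pi) c, this, zero_add]

theorem t4_TT (h : Deg A W ρ) (hR : Rot A W ρ k g σ) (lam : Fin (l + 5) → Fin (l + 5) → ℝ)
    (x : X l) : TT (fun a b => lam (σ a) (σ b)) (WW A x) (BB A x) = TT lam (WW A x) (BB A x) := by
  unfold TT
  rw [← Equiv.sum_comp σ (fun i => ∑ j, lam i j * tau i j (WW A x) (BB A x))]
  apply Finset.sum_congr rfl
  intro i _
  rw [← Equiv.sum_comp σ (fun j => lam (σ i) j * tau (σ i) j (WW A x) (BB A x))]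
  apply Finset.sum_congr rfl
  intro j _
  rw [t4_tau h hR]

theorem t4_mem (h : Deg A W ρ) (hR : Rot A W ρ k g σ) {lam : Fin (l + 5) → Fin (l + 5) → ℝ}
    (hl : lam ∈ KK A) : (fun a b => lam (σ a) (σ b)) ∈ KK A := by
  obtain ⟨h1, C, hC⟩ := hl
  refine ⟨fun i => h1 (σ i), C, fun x hx => ?_⟩
  rw [t4_TT h hR]
  exact hC x hx

theorem t4_mem_pow (h : Deg A W ρ) (hR : Rot A W ρ k g σ) {lam : Fin (l + 5) → Fin (l + 5) → ℝ}
    (hl : lam ∈ KK A) (i : ℕ) : (fun a b => lam ((σ ^ i) a) ((σ ^ i) b)) ∈ KK A := by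
  induction i with
  | zero => exact hl
  | succ i ih =>
    have := t4_mem h hR ih
    have e : (fun a b => lam ((σ ^ (i + 1)) a) ((σ ^ (i + 1)) b)) =
        (fun a b => lam ((σ ^ i) (σ a)) ((σ ^ i) (σ b))) := by
      funext a b
      rw [pow_succ, Equiv.Perm.mul_apply, Equiv.Perm.mul_apply]
    rw [e]
    exact this

/-- the symmetrised matrix -/
def t4L (lam : Fin (l + 5) → Fin (l + 5) → ℝ) (σ : Equiv.Perm (Fin (l + 5))) (k : ℕ) :
    Fin (l + 5) → Fin (l + 5) → ℝ :=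
  fun a b => ∑ i ∈ Finset.range k, lam ((σ ^ i) a) ((σ ^ i) b)

theorem t4L_mem (h : Deg A W ρ) (hR : Rot A W ρ k g σ) {lam : Fin (l + 5) → Fin (l + 5) → ℝ}
    (hl : lam ∈ KK A) : t4L lam σ k ∈ KK A := by
  have e : t4L lam σ k = ∑ i ∈ Finset.range k, (fun a b => lam ((σ ^ i) a) ((σ ^ i) b)) := by
    funext a b
    rw [Finset.sum_apply, Finset.sum_apply]
    rfl
  rw [e]
  exact Submodule.sum_mem _ (fun i _ => t4_mem_pow h hR hl i)

theorem t4L_inv (hR : Rot A W ρ k g σ) (lam : Fin (l + 5) → Fin (l + 5) → ℝ) (a b : Fin (l + 5)) :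
    t4L lam σ k (σ a) (σ b) = t4L lam σ k a b := by
  unfold t4L
  have e : ∀ i, lam ((σ ^ i) (σ a)) ((σ ^ i) (σ b)) = lam ((σ ^ (i + 1)) a) ((σ ^ (i + 1)) b) := by
    intro i
    rw [pow_succ, Equiv.Perm.mul_apply, Equiv.Perm.mul_apply]
  simp only [e]
  have h1 := Finset.sum_range_succ (fun i => lam ((σ ^ i) a) ((σ ^ i) b)) k
  have h2 := Finset.sum_range_succ' (fun i => lam ((σ ^ i) a) ((σ ^ i) b)) k
  rw [h1] at h2
  rw [hR.ord, pow_zero] at h2
  linarith

theorem t4_kap (h : Deg A W ρ) (hR : Rot A W ρ k g σ) (lam : Fin (l + 5) → Fin (l + 5) → ℝ)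
    (hinv : ∀ a b, lam (σ a) (σ b) = lam a b) (x : X l) (p m : Fin (l + 5)) (hm : m ∈ W) :
    kap lam (σ p) m (WW A x) (BB A x) = kap lam p m (WW A x) (BB A x) := by
  have hcr : ∀ s : ℝ, JJ lam (σ p) m (pt (WW A x) (BB A x)
      (cr (WW A x (σ p) - WW A x m) (BB A x (σ p) - BB A x m) s)) =
      JJ lam p m (pt (WW A x) (BB A x) (cr (WW A x p - WW A x m) (BB A x p - BB A x m) s)) := by
    intro s
    have e1 : WW A x (σ p) - WW A x m = g * (WW A x p - WW A x m) := by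
      rw [t4_WW h hR, t4_W0 h x hm]
      ring
    rw [e1, t4_BB hR, cr_swap _ _ _ g (t4_norm hR)]
    obtain ⟨e, he⟩ : ∃ e, e = cr (WW A x p - WW A x m) (BB A x p - BB A x m) s := ⟨_, rfl⟩
    rw [← he]
    have e2 : JJ lam (σ p) m (pt (WW A x) (BB A x) ((starRingEnd ℂ) g * e)) =
        JJ lam (σ p) (σ m) (pt (WW A x) (BB A x) ((starRingEnd ℂ) g * e)) := by
      rw [hR.fixW m hm]
    rw [e2, t4_JJ, t4_pt h hR]
    have e3 : g * ((starRingEnd ℂ) g * e) = e := by
      rw [← mul_assoc, Complex.mul_conj, Complex.normSq_eq_norm_sq, t4_norm hR]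
      simp
    rw [e3]
    have e4 : (fun a b => lam (σ a) (σ b)) = lam := by
      funext a b
      exact hinv a b
    rw [e4]
  unfold kap
  rw [hcr, hcr]

theorem t4_notW (hR : Rot A W ρ k g σ) {p : Fin (l + 5)} (hp : p ∉ W) : σ p ∉ W := by
  intro h1
  have h2 := hR.fixW _ h1
  have h3 := σ.injective h2
  rw [h3] at h1
  exact hp h1

theorem t4_notW_pow (hR : Rot A W ρ k g σ) {p : Fin (l + 5)} (hp : p ∉ W) (i : ℕ) :
    (σ ^ i) p ∉ W := by
  induction i with
  | zero => exact hp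
  | succ i ih =>
    rw [pow_succ', Equiv.Perm.mul_apply]
    exact t4_notW hR ih

theorem t4_fix_pow (hR : Rot A W ρ k g σ) {m : Fin (l + 5)} (hm : m ∈ W) (i : ℕ) :
    (σ ^ i) m = m := by
  induction i with
  | zero => rfl
  | succ i ih =>
    rw [pow_succ', Equiv.Perm.mul_apply, ih, hR.fixW m hm]

theorem t4_rho_pow (hR : Rot A W ρ k g σ) (p : Fin (l + 5)) (i : ℕ) :
    ρ ((σ ^ i) p) = ρ p := by
  induction i with
  | zero => rfl
  | succ i ih =>
    rw [pow_succ', Equiv.Perm.mul_apply, hR.rho, ih]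

theorem t4_kap_pow (h : Deg A W ρ) (hR : Rot A W ρ k g σ) (lam : Fin (l + 5) → Fin (l + 5) → ℝ)
    (hinv : ∀ a b, lam (σ a) (σ b) = lam a b) (x : X l) (p m : Fin (l + 5)) (hm : m ∈ W) (i : ℕ) :
    kap lam ((σ ^ i) p) m (WW A x) (BB A x) = kap lam p m (WW A x) (BB A x) := by
  induction i with
  | zero => rfl
  | succ i ih =>
    rw [pow_succ', Equiv.Perm.mul_apply, t4_kap h hR lam hinv x _ m hm, ih]

theorem t4_edge (hA : ND A) (h : Deg A W ρ) (h4 : cN ρ = 4) (hR : Rot A W ρ k g σ)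
    (lam : Fin (l + 5) → Fin (l + 5) → ℝ) (hK : lam ∈ KK A)
    (hinv : ∀ a b, lam (σ a) (σ b) = lam a b) (p m j : Fin (l + 5)) (hp : p ∉ W) (hm : m ∈ W)
    (hjp : j ≠ p) (hjm : j ≠ m) : lam p j = lam m j ∧ lam j p = lam j m := by
  have hpm : p ≠ m := fun e => hp (e ▸ hm)
  have htyp := typ_of_W A hA W ρ h h4 m hm
  have hS : ¬ SA A p m := by
    intro h1
    apply h.nz p hp
    rw [h1.1, h1.2]
    exact h.zero m hm
  apply edge_both A hA lam p m hS (typ_notSB A p m htyp hpm) _ j hjp hjm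
  intro x hx hlt
  have h1 := pair_balance A lam hK.2 p m hpm htyp hS x hx hlt
  rw [cl_deg A W ρ h p m hp hm] at h1
  have h2 : ∑ s ∈ Finset.univ.filter (fun s => ρ s = ρ p), kap lam s m (WW A x) (BB A x) =
      ∑ s ∈ Finset.univ.filter (fun s => ρ s = ρ p), kap lam p m (WW A x) (BB A x) := by
    apply Finset.sum_congr rfl
    intro s hs
    rw [Finset.mem_filter] at hs
    obtain ⟨i, -, hi⟩ := hR.cyc p s hp hs.2.symm
    rw [hi]
    exact t4_kap_pow h hR lam hinv x p m hm i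
  rw [h2, Finset.sum_const, nsmul_eq_mul] at h1
  rcases mul_eq_zero.1 h1 with h3 | h3
  · exfalso
    have h4 : (Finset.univ.filter (fun s => ρ s = ρ p)).card = 0 := by exact_mod_cast h3
    rw [Finset.card_eq_zero] at h4
    have h5 : p ∈ Finset.univ.filter (fun s => ρ s = ρ p) := by simp
    rw [h4] at h5
    simp at h5
  · exact h3

/-- an edge-invariant matrix is constant off the diagonal -/
theorem t4_const (lam : Fin (l + 5) → Fin (l + 5) → ℝ) (hW : 3 ≤ W.card) (p0 : Fin (l + 5))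
    (hp0 : p0 ∉ W)
    (he : ∀ p m j : Fin (l + 5), p ∉ W → m ∈ W → j ≠ p → j ≠ m →
      lam p j = lam m j ∧ lam j p = lam j m) (m0 m1 : Fin (l + 5)) (hm0 : m0 ∈ W) (hm1 : m1 ∈ W)
    (hm : m0 ≠ m1) (h0 : lam m0 m1 = 0) (a b : Fin (l + 5)) (hab : a ≠ b) : lam a b = 0 := by
  have hcol : ∀ m m' j, m ∈ W → m' ∈ W → j ∈ W → j ≠ m → j ≠ m' → lam m j = lam m' j := by
    intro m m' j hm hm' hj h1 h2
    have hjp : j ≠ p0 := fun e => hp0 (e ▸ hj)
    rw [← (he p0 m j hp0 hm hjp h1).1, (he p0 m' j hp0 hm' hjp h2).1]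
  have hrow : ∀ m m' j, m ∈ W → m' ∈ W → j ∈ W → j ≠ m → j ≠ m' → lam j m = lam j m' := by
    intro m m' j hm hm' hj h1 h2
    have hjp : j ≠ p0 := fun e => hp0 (e ▸ hj)
    rw [← (he p0 m j hp0 hm hjp h1).2, (he p0 m' j hp0 hm' hjp h2).2]
  have hother : ∀ u v, ∃ z ∈ W, z ≠ u ∧ z ≠ v := by
    intro u v
    by_contra hcon
    push Not at hcon
    have h1 : W ⊆ {u, v} := by
      intro z hz
      rw [Finset.mem_insert, Finset.mem_singleton]
      by_cases h2 : z = u
      · exact Or.inl h2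
      · exact Or.inr (hcon z hz h2)
    have h2 := Finset.card_le_card h1
    have h3 := Finset.card_le_two (a := u) (b := v)
    omega
  have hWW : ∀ m j, m ∈ W → j ∈ W → m ≠ j → lam m j = 0 := by
    intro m j hmW hjW hmj
    rw [← h0]
    by_cases hc : m = m1
    · -- use a third element
      obtain ⟨u, huW, hu1, hu2⟩ := hother m j
      -- (m,j) → (u,j) → (u,m1) → (m0,m1)
      rw [hcol m u j hmW huW hjW hmj.symm hu2.symm]
      rw [hrow j m1 u hjW hm1 huW hu2 (by rw [← hc]; exact hu1)]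
      exact hcol u m0 m1 huW hm0 hm1 (by rw [← hc]; exact hu1.symm) hm.symm
    · rw [hrow j m1 m hjW hm1 hmW hmj hc]
      exact hcol m m0 m1 hmW hm0 hm1 (Ne.symm hc) hm.symm
  by_cases haW : a ∈ W
  · by_cases hbW : b ∈ W
    · exact hWW a b haW hbW hab
    · obtain ⟨z, hz, hza, -⟩ := hother a a
      rw [(he b z a hbW hz hab hza.symm).2]
      exact hWW a z haW hz hza.symm
  · by_cases hbW : b ∈ W
    · obtain ⟨z, hz, hzb, -⟩ := hother b b
      rw [(he a z b haW hz hab.symm hzb.symm).1]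
      exact hWW z b hz hbW hzb
    · have hb0 : b ≠ m0 := fun e => hbW (e ▸ hm0)
      rw [(he a m0 b haW hm0 hab.symm hb0).1]
      obtain ⟨z, hz, hza, -⟩ := hother m0 m0
      rw [(he b z m0 hbW hz hb0.symm hza.symm).2]
      exact hWW m0 z hm0 hz hza.symm

end T4fan

theorem t4_finrank {n : ℕ} (V : Submodule ℝ (Fin n → Fin n → ℝ)) (Q : Finset (Fin n × Fin n))
    (h : ∀ r ∈ V, (∀ q ∈ Q, r q.1 q.2 = 0) → r = 0) : Module.finrank ℝ V ≤ Q.card := by
  let f : V →ₗ[ℝ] (Q → ℝ) :=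
    { toFun := fun r q => r.1 q.1.1 q.1.2
      map_add' := fun a b => by ext q; simp
      map_smul' := fun c a => by ext q; simp }
  have hf : Function.Injective f := by
    rw [injective_iff_map_eq_zero]
    intro r hr
    apply Subtype.ext
    apply h r.1 r.2
    intro q hq
    exact congrFun hr ⟨q, hq⟩
  have h1 := LinearMap.finrank_le_finrank_of_injective hf
  simpa using h1

/-- TARGET: kernel bound, rotational case -/
theorem T4 (A : Fan l) (hA : ND A) (W : Finset (Fin (l + 5)))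
    (ρ : Fin (l + 5) → Fin (l + 5)) (h : Deg A W ρ) (h4 : cN ρ = 4)
    (k : ℕ) (g : ℂ) (σ : Equiv.Perm (Fin (l + 5))) (hR : Rot A W ρ k g σ)
    (hW : 3 ≤ W.card) :
    Module.finrank ℝ (KK A) ≤ 4 * (Wᶜ.card - 1) + 8 * W.card + 1 := by
  obtain ⟨D, hD⟩ : ∃ D, D = Finset.univ.filter (fun p => ρ p ≠ p) := ⟨_, rfl⟩
  have hDmem : ∀ q, q ∈ D ↔ ρ q ≠ q := by
    intro q
    rw [hD, Finset.mem_filter]
    simp
  have hDcard : D.card = 4 := by
    rw [hD]
    exact h4
  have hDW : ∀ p ∈ D, p ∉ W := by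
    intro p hp hpW
    rw [hDmem] at hp
    exact hp (h.fix p hpW)
  obtain ⟨p0, hp0D⟩ : D.Nonempty := by
    rw [← Finset.card_pos]
    omega
  have hp0 := hDW p0 hp0D
  obtain ⟨m0, hm0, m1, hm1, hm01⟩ : ∃ m0 ∈ W, ∃ m1 ∈ W, m0 ≠ m1 := by
    have : 1 < W.card := by omega
    exact Finset.one_lt_card.1 this
  have hk0 : 0 < k := by
    have := hR.k2
    omega
  obtain ⟨Q1, hQ1⟩ : ∃ Q1, Q1 = (D ×ˢ Wᶜ).filter (fun q => q.2 ≠ q.1) := ⟨_, rfl⟩
  have hQ1card : Q1.card ≤ 4 * (Wᶜ.card - 1) := by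
    have h1 : Q1.card + D.card ≤ (D ×ˢ Wᶜ).card := by
      have h2 := Finset.card_filter_add_card_filter_not (s := D ×ˢ Wᶜ) (fun q => q.2 ≠ q.1)
      rw [← h2, ← hQ1]
      apply Nat.add_le_add_left
      have h3 : D.image (fun p => (p, p)) ⊆ (D ×ˢ Wᶜ).filter (fun q => ¬ (q.2 ≠ q.1)) := by
        intro q hq
        obtain ⟨p, hp, rfl⟩ := Finset.mem_image.1 hq
        rw [Finset.mem_filter, Finset.mem_product, Finset.mem_compl]
        exact ⟨⟨hp, hDW p hp⟩, by simp⟩
      have h4 := Finset.card_le_card h3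
      rwa [Finset.card_image_of_injective _ (fun a b hab => (Prod.mk.inj hab).1)] at h4
    rw [Finset.card_product, hDcard] at h1
    omega
  have hcard : (Q1 ∪ (D ×ˢ W) ∪ (W ×ˢ D) ∪ {(m0, m1)}).card ≤
      4 * (Wᶜ.card - 1) + 8 * W.card + 1 := by
    have h1 := Finset.card_union_le (Q1 ∪ (D ×ˢ W) ∪ (W ×ˢ D)) {(m0, m1)}
    have h2 := Finset.card_union_le (Q1 ∪ (D ×ˢ W)) (W ×ˢ D)
    have h3 := Finset.card_union_le Q1 (D ×ˢ W)
    rw [Finset.card_singleton] at h1
    rw [Finset.card_product, hDcard] at h2 h3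
    omega
  refine le_trans (t4_finrank _ _ ?_) hcard
  intro lam hlam hQ
  have hQ1' : ∀ p q, p ∈ D → q ∉ W → q ≠ p → lam p q = 0 := by
    intro p q hp hq hqp
    apply hQ (p, q)
    rw [Finset.mem_union, Finset.mem_union, Finset.mem_union]
    left; left; left
    rw [hQ1, Finset.mem_filter, Finset.mem_product, Finset.mem_compl]
    exact ⟨⟨hp, hq⟩, hqp⟩
  have hQ2' : ∀ p q, p ∈ D → q ∈ W → lam p q = 0 := by
    intro p q hp hq
    apply hQ (p, q)
    rw [Finset.mem_union, Finset.mem_union, Finset.mem_union]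
    left; left; right
    rw [Finset.mem_product]
    exact ⟨hp, hq⟩
  have hQ3' : ∀ p q, p ∈ W → q ∈ D → lam p q = 0 := by
    intro p q hp hq
    apply hQ (p, q)
    rw [Finset.mem_union, Finset.mem_union, Finset.mem_union]
    left; right
    rw [Finset.mem_product]
    exact ⟨hp, hq⟩
  have hQ4' : lam m0 m1 = 0 := by
    apply hQ (m0, m1)
    rw [Finset.mem_union]
    right
    simp
  have hL : ∀ a b, a ≠ b → t4L lam σ k a b = 0 := by
    intro a b hab
    apply t4_const (W := W) (t4L lam σ k) hW p0 hp0 _ m0 m1 hm0 hm1 hm01 _ a b hab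
    · intro p m j hp hm hjp hjm
      exact t4_edge hA h h4 hR _ (t4L_mem h hR hlam) (t4L_inv hR lam) p m j hp hm hjp hjm
    · unfold t4L
      apply Finset.sum_eq_zero
      intro i _
      rw [t4_fix_pow hR hm0, t4_fix_pow hR hm1, hQ4']
  have hpowD : ∀ p, p ∉ W → ρ p = p → ∀ i, i ∈ Finset.range k → i ≠ 0 → (σ ^ i) p ∈ D := by
    intro p hp hρ i hi hi0
    rw [hDmem, t4_rho_pow hR, hρ]
    exact (hR.free p hp i (Nat.pos_of_ne_zero hi0) (Finset.mem_range.1 hi)).symm
  funext a b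
  show lam a b = 0
  by_cases hab : a = b
  · rw [hab]
    exact hlam.1 b
  by_cases haW : a ∈ W
  · by_cases hbW : b ∈ W
    · have h1 := hL a b hab
      unfold t4L at h1
      have h2 : ∑ i ∈ Finset.range k, lam ((σ ^ i) a) ((σ ^ i) b) =
          ∑ i ∈ Finset.range k, lam a b := by
        apply Finset.sum_congr rfl
        intro i _
        rw [t4_fix_pow hR haW, t4_fix_pow hR hbW]
      rw [h2, Finset.sum_const, Finset.card_range, nsmul_eq_mul] at h1
      exact (mul_eq_zero.1 h1).resolve_left (by positivity)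
    · by_cases hρ : ρ b = b
      · have h1 := hL a b hab
        unfold t4L at h1
        rw [Finset.sum_eq_single 0] at h1
        · exact h1
        · intro i hi hi0
          rw [t4_fix_pow hR haW]
          exact hQ3' _ _ haW (hpowD b hbW hρ i hi hi0)
        · intro h2
          exact absurd (Finset.mem_range.2 hk0) h2
      · exact hQ3' _ _ haW ((hDmem b).2 hρ)
  · by_cases hρ : ρ a = a
    · have h1 := hL a b hab
      unfold t4L at h1
      rw [Finset.sum_eq_single 0] at h1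
      · exact h1
      · intro i hi hi0
        by_cases hbW : b ∈ W
        · rw [t4_fix_pow hR hbW]
          exact hQ2' _ _ (hpowD a haW hρ i hi hi0) hbW
        · apply hQ1' _ _ (hpowD a haW hρ i hi hi0) (t4_notW_pow hR hbW i)
          intro e
          exact hab ((σ ^ i).injective e).symm
      · intro h2
        exact absurd (Finset.mem_range.2 hk0) h2
    · by_cases hbW : b ∈ W
      · exact hQ2' _ _ ((hDmem a).2 hρ) hbW
      · exact hQ1' _ _ ((hDmem a).2 hρ) hbW (Ne.symm hab)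

end FanRD
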