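import Mathlib
import Pool.Agent.FanRD.Defs
import Pool.Agent.FanRD.EQ
import Pool.Agent.FanRD.ND
import Pool.Agent.FanRD.S16
import Pool.Agent.FanRD.T01
import Pool.Agent.FanRD.T3
import Pool.Agent.FanRD.FL
import Pool.Agent.FanRD.DEGX
import Pool.Agent.FanRD.M4
import Pool.Agent.FanRD.T2
import Pool.Agent.FanRD.T4
import Pool.Agent.FanRD.ROT
import Pool.Agent.FanRD.CH
import Pool.Agent.FanRD.FC
import Pool.Agent.FanRD.CH1
set_option autoImplicit false
noncomputable section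
open MeasureTheory

namespace FanRD

variable {l : ℕ}

/-- the kernel does not change under translation -/
theorem KK_subF (f : Co l) (A : Fan l) : KK (subF A f) = KK A := by
  have hW : ∀ x, WW (subF A f) x = fun i => WW A x i - om f x := by
    intro x; funext i; simp [WW, subF, om]; ring
  have hB : ∀ x, BB (subF A f) x = fun i => BB A x i - (bb f x + f.2.2.2) := by
    intro x; funext i
    simp only [BB, subF, bb, Prod.snd_sub, Pi.sub_apply]
    have : ∑ k, ((A i).2.2.1 k - f.2.2.1 k) * x.2.2 k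
        = ∑ k, (A i).2.2.1 k * x.2.2 k - ∑ k, f.2.2.1 k * x.2.2 k := by
      rw [← Finset.sum_sub_distrib]; refine Finset.sum_congr rfl fun k _ => by ring
    simp only [Prod.fst_sub, Pi.sub_apply]
    rw [this]; ring
  have hR : ∀ x, FReg (subF A f) x ↔ FReg A x := by
    intro x
    have hpt : ∀ e i m, (pt (WW (subF A f) x) (BB (subF A f) x) e i
        = pt (WW (subF A f) x) (BB (subF A f) x) e m ↔
        pt (WW A x) (BB A x) e i = pt (WW A x) (BB A x) e m) := by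
      intro e i m
      rw [hW, hB]; simp only [pt, sub_mul, Complex.sub_re]
      constructor <;> intro h <;> linarith
    unfold FReg Reg
    refine and_congr ?_ ?_
    · rw [hW, hB]
      refine forall_congr' fun i => forall_congr' fun m => forall_congr' fun _ => ?_
      simp
    · refine forall_congr' fun i => forall_congr' fun m => forall_congr' fun p =>
        forall_congr' fun r => forall_congr' fun _ => forall_congr' fun _ =>
        forall_congr' fun _ => forall_congr' fun _ => forall_congr' fun e => forall_congr' fun _ => ?_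
      rw [hpt, hpt]
  have hT : ∀ lam x, TT lam (WW (subF A f) x) (BB (subF A f) x) = TT lam (WW A x) (BB A x) := by
    intro lam x
    unfold TT
    refine Finset.sum_congr rfl fun i _ => Finset.sum_congr rfl fun j _ => ?_
    rw [subF_eq_nrm, tau_nrm 1 one_ne_zero]
  ext lam
  show ((∀ i, lam i i = 0) ∧ InK (subF A f) lam) ↔ ((∀ i, lam i i = 0) ∧ InK A lam)
  refine and_congr Iff.rfl ?_
  unfold InK
  refine exists_congr fun C => forall_congr' fun x => ?_
  rw [hR, hT]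

theorem LD_of_ND (A : Fan l) (hA : ND A) : LD A := by
  intro i m him heq
  simp only [Prod.mk.injEq] at heq
  obtain ⟨h1, h2, h3⟩ := heq
  have := nd_indep A hA (Pi.single i 1 - Pi.single m 1) (by simp) ?_ ?_ ?_
  · have h := congrFun this i
    simp [Pi.single_apply, him] at h
  · have : ∀ j, (((Pi.single i 1 - Pi.single m 1 : Fin (l + 5) → ℝ) j : ℝ) : ℂ) * (A j).1
      = (if j = i then (A i).1 else 0) - (if j = m then (A m).1 else 0) := by
      intro j
      by_cases h : j = i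
      · subst h; simp [Pi.single_apply, him]
      · by_cases h' : j = m
        · subst h'; simp [Pi.single_apply, h]
        · simp [Pi.single_apply, h, h']
    simp only [this, Finset.sum_sub_distrib, Finset.sum_ite_eq', Finset.mem_univ, if_true, h1, sub_self]
  · have : ∀ j, (((Pi.single i 1 - Pi.single m 1 : Fin (l + 5) → ℝ) j : ℝ) : ℂ) * (A j).2.1
      = (if j = i then (A i).2.1 else 0) - (if j = m then (A m).2.1 else 0) := by
      intro j
      by_cases h : j = i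
      · subst h; simp [Pi.single_apply, him]
      · by_cases h' : j = m
        · subst h'; simp [Pi.single_apply, h]
        · simp [Pi.single_apply, h, h']
    simp only [this, Finset.sum_sub_distrib, Finset.sum_ite_eq', Finset.mem_univ, if_true, h2, sub_self]
  · intro k
    have : ∀ j, (Pi.single i 1 - Pi.single m 1 : Fin (l + 5) → ℝ) j * (A j).2.2.1 k
      = (if j = i then (A i).2.2.1 k else 0) - (if j = m then (A m).2.2.1 k else 0) := by
      intro j
      by_cases h : j = i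
      · subst h; simp [Pi.single_apply, him]
      · by_cases h' : j = m
        · subst h'; simp [Pi.single_apply, h]
        · simp [Pi.single_apply, h, h']
    simp only [this, Finset.sum_sub_distrib, Finset.sum_ite_eq', Finset.mem_univ, if_true, h3, sub_self]

/-- a set of fans covered by a smooth chart of dimension `N` -/
def Cov (S : Set (Fan l)) (N : ℕ) : Prop :=
  ∃ φ : (Fin N → ℝ) → Fan l, ContDiff ℝ 1 φ ∧ ∀ A' ∈ S, ∃ u, φ u = A'

theorem Cov_empty (S : Set (Fan l)) (N : ℕ) (h : S = ∅) : Cov S N :=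
  ⟨fun _ => 0, contDiff_const, by subst h; simp⟩

/-- version of `final_of_charts` with a countable set of covered sets -/
theorem final2 (ι : Type) [Countable ι] (S : ι → Set (Fan l)) (N : ι → ℕ)
    (hS : ∀ i, Cov (S i) (N i))
    (hcov : ∀ A : Fan l, ND A → ∃ (i : ι) (A' : Fan l), A' ∈ S i ∧ (∀ k, wk l k A' = wk l k A) ∧
      LD A' ∧ N i + 1 + Module.finrank ℝ (KK A) ≤ (l + 5) * (l + 4)) :
    ∃ μ : Measure (X l), IsFiniteMeasure μ ∧ μ ≪ volume ∧
      ∀ A : Fan l, ND A → ¬ (∀ i j k m : Fin (l + 5), i ≠ j → k ≠ m →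
          μ {x | ∀ q, ev (A q) x ≤ ev (A i) x ∧ ev (A j) x ≤ ev (A q) x} =
          μ {x | ∀ q, ev (A q) x ≤ ev (A k) x ∧ ev (A m) x ≤ ev (A q) x}) := by
  choose φ hφ hφ' using hS
  refine final_of_charts ι N φ hφ ?_ LD_of_ND
  intro A hA
  obtain ⟨i, A', h1, h2, h3, h4⟩ := hcov A hA
  obtain ⟨u, hu⟩ := hφ' i A' h1
  exact ⟨i, u, by rw [hu]; exact h2, by rw [hu]; exact h3, h4⟩

def S0 (p0 : Fin (l + 5)) (a0 : Bool) : Set (Fan l) :=
  {A' | p0 ≠ 0 ∧ A' 0 = 0 ∧ cmp a0 (A' p0) = 1}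
def S1 (s i0 : Fin (l + 5)) (q : Fin 3 → Fin (l + 5)) : Set (Fan l) :=
  {A' | s ≠ i0 ∧ (∀ k, q k ≠ s) ∧ A' i0 = 0 ∧
    ∃ x : Fin 3 → ℝ, ∀ k, (A' s).2.2.1 k = ∑ a, x a * (A' (q a)).2.2.1 k}
def S2 (W : Finset (Fin (l + 5))) (ρ : Fin (l + 5) → Fin (l + 5)) (i0 : Fin (l + 5)) :
    Set (Fan l) :=
  {A' | ρ i0 = i0 ∧ (∀ p, ρ (ρ p) = ρ p) ∧ A' i0 = 0 ∧
    (∀ m ∈ W, (A' m).1 = 0 ∧ (A' m).2.1 = 0) ∧ (∀ p, SB A' p (ρ p))}
def gk (k : Bool) : ℂ := if k then -1 else Complex.exp (2 * Real.pi * Complex.I / 3)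
def S4 (W : Finset (Fin (l + 5))) (ρ : Fin (l + 5) → Fin (l + 5)) (i0 p0 : Fin (l + 5))
    (a0 k : Bool) (n : Fin (l + 5) → ℕ) : Set (Fan l) :=
  {A' | ρ i0 = i0 ∧ i0 ∈ W ∧ (∀ p, ρ (ρ p) = ρ p) ∧ (∀ p, p ∉ W → ρ p ∉ W) ∧ ρ p0 = p0 ∧ p0 ∉ W ∧
    A' i0 = 0 ∧ (∀ m ∈ W, (A' m).1 = 0 ∧ (A' m).2.1 = 0) ∧ (∀ p, SB A' p (ρ p)) ∧
    (∀ p, p ∉ W → (A' p).1 = gk k ^ n p * (A' (ρ p)).1 ∧ (A' p).2.1 = gk k ^ n p * (A' (ρ p)).2.1) ∧
    cmp a0 (A' p0) = 1}

theorem Cov_S0 (p0 : Fin (l + 5)) (a0 : Bool) : Cov (S0 p0 a0) ((l + 5) * (l + 4) - 2) := by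
  by_cases h : p0 ≠ 0
  · obtain ⟨φ, h1, h2⟩ := chart0 p0 h a0
    exact ⟨φ, h1, fun A' hA => h2 A' hA.2.1 hA.2.2⟩
  · exact Cov_empty _ _ (by ext A'; simp only [S0, Set.mem_setOf_eq, Set.mem_empty_iff_false]; tauto)

theorem Cov_S1 (s i0 : Fin (l + 5)) (q : Fin 3 → Fin (l + 5)) :
    Cov (S1 s i0 q) ((l + 5) * (l + 4) - l + 3) := by
  by_cases h : s ≠ i0 ∧ ∀ k, q k ≠ s
  · obtain ⟨φ, h1, h2⟩ := chart1 s i0 h.1 q h.2
    exact ⟨φ, h1, fun A' hA => h2 A' hA.2.2.1 hA.2.2.2⟩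
  · exact Cov_empty _ _ (by ext A'; simp only [S1, Set.mem_setOf_eq, Set.mem_empty_iff_false]; tauto)

theorem Cov_S2 (W : Finset (Fin (l + 5))) (ρ : Fin (l + 5) → Fin (l + 5)) (i0 : Fin (l + 5)) :
    Cov (S2 W ρ i0) ((l + 4 - cN ρ) * (l + 1) + 4 * Wᶜ.card) := by
  by_cases h : ρ i0 = i0 ∧ (∀ p, ρ (ρ p) = ρ p)
  · obtain ⟨φ, h1, h2⟩ := chart2 W ρ i0 h.1 h.2
    exact ⟨φ, h1, fun A' hA => h2 A' hA.2.2.1 hA.2.2.2.1 hA.2.2.2.2⟩
  · exact Cov_empty _ _ (by ext A'; simp only [S2, Set.mem_setOf_eq, Set.mem_empty_iff_false]; tauto)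

theorem Cov_S4 (W : Finset (Fin (l + 5))) (ρ : Fin (l + 5) → Fin (l + 5)) (i0 p0 : Fin (l + 5))
    (a0 k : Bool) (n : Fin (l + 5) → ℕ) :
    Cov (S4 W ρ i0 p0 a0 k n) ((l + 4 - cN ρ) * (l + 1) +
        (4 * (Finset.univ.filter (fun p => p ∉ W ∧ ρ p = p)).card - 2)) := by
  by_cases h : ρ i0 = i0 ∧ i0 ∈ W ∧ (∀ p, ρ (ρ p) = ρ p) ∧ (∀ p, p ∉ W → ρ p ∉ W) ∧ ρ p0 = p0 ∧ p0 ∉ W
  · obtain ⟨h1, h2, h3, h4, h5, h6⟩ := h
    obtain ⟨φ, g1, g2⟩ := chart4 W ρ i0 p0 h1 h2 h3 h4 h5 h6 a0 (gk k) n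
    refine ⟨φ, g1, fun A' hA => ?_⟩
    obtain ⟨-, -, -, -, -, -, k1, k2, k3, k4, k5⟩ := hA
    exact g2 A' k1 k2 k3 k4 k5
  · exact Cov_empty _ _ (by
      ext A'; simp only [S4, Set.mem_setOf_eq, Set.mem_empty_iff_false, iff_false]
      rintro ⟨h1, h2, h3, h4, h5, h6, -⟩
      exact h ⟨h1, h2, h3, h4, h5, h6⟩)

abbrev Ix (l : ℕ) := (Fin (l + 5) × Bool) ⊕ (Fin (l + 5) × Fin (l + 5) × (Fin 3 → Fin (l + 5))) ⊕
  (Finset (Fin (l + 5)) × (Fin (l + 5) → Fin (l + 5)) × Fin (l + 5)) ⊕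
  (Finset (Fin (l + 5)) × (Fin (l + 5) → Fin (l + 5)) × Fin (l + 5) × Fin (l + 5) × Bool × Bool ×
    (Fin (l + 5) → ℕ))

def SI : Ix l → Set (Fan l)
  | Sum.inl (p0, a0) => S0 p0 a0
  | Sum.inr (Sum.inl (s, i0, q)) => S1 s i0 q
  | Sum.inr (Sum.inr (Sum.inl (W, ρ, i0))) => S2 W ρ i0
  | Sum.inr (Sum.inr (Sum.inr (W, ρ, i0, p0, a0, k, n))) => S4 W ρ i0 p0 a0 k n

def NI : Ix l → ℕ
  | Sum.inl (_, _) => (l + 5) * (l + 4) - 2
  | Sum.inr (Sum.inl (_, _, _)) => (l + 5) * (l + 4) - l + 3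
  | Sum.inr (Sum.inr (Sum.inl (W, ρ, _))) => (l + 4 - cN ρ) * (l + 1) + 4 * Wᶜ.card
  | Sum.inr (Sum.inr (Sum.inr (W, ρ, _, _, _, _, _))) => (l + 4 - cN ρ) * (l + 1) +
        (4 * (Finset.univ.filter (fun p => p ∉ W ∧ ρ p = p)).card - 2)

theorem Cov_SI (i : Ix l) : Cov (SI i) (NI i) := by
  rcases i with ⟨p0, a0⟩ | ⟨s, i0, q⟩ | ⟨W, ρ, i0⟩ | ⟨W, ρ, i0, p0, a0, k, n⟩
  · exact Cov_S0 p0 a0
  · exact Cov_S1 s i0 q
  · exact Cov_S2 W ρ i0
  · exact Cov_S4 W ρ i0 p0 a0 k n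

theorem SA_refl (A : Fan l) (i : Fin (l + 5)) : SA A i i := ⟨rfl, rfl⟩
theorem SA_symm (A : Fan l) (i m : Fin (l + 5)) (h : SA A i m) : SA A m i := ⟨h.1.symm, h.2.symm⟩
theorem SA_trans (A : Fan l) (i m p : Fin (l + 5)) (h : SA A i m) (h' : SA A m p) : SA A i p :=
  ⟨h.1.trans h'.1, h.2.trans h'.2⟩

theorem nrm_self (γ : ℂ) (A : Fan l) (i : Fin (l + 5)) : nrm γ (A i) A i = 0 := by
  ext <;> simp [nrm]

theorem wk_subF (f : Co l) (A : Fan l) (k : ℕ) : wk l k (subF A f) = wk l k A := by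
  rw [subF_eq_nrm, wk_nrm 1 one_ne_zero]

theorem LD_subF (f : Co l) (A : Fan l) (h : LD A) : LD (subF A f) := by
  rw [subF_eq_nrm]; exact LD_nrm 1 one_ne_zero f A h

/-- generic case -/
theorem cover_gen (hl : 300 ≤ l) (A : Fan l) (hA : ND A) (S : Finset (Fin (l + 5)))
    (hS : ∀ m, m ∉ S ↔ Typ A m) (hS16 : S.card ≤ 16)
    (hC : (∃ m1 m2, Typ A m1 ∧ Typ A m2 ∧ ¬ SA A m1 m2) ∨
      (∃ h m, Typ A m ∧ ¬ SA A h m ∧ cl A h m = {h} ∧ ∀ m', Typ A m' → SA A m' m)) :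
    ∃ (i : Ix l) (A' : Fan l), A' ∈ SI i ∧ (∀ k, wk l k A' = wk l k A) ∧
      LD A' ∧ NI i + 1 + Module.finrank ℝ (KK A) ≤ (l + 5) * (l + 4) := by
  have hK := T01 A hA S hS (by omega) hC
  by_cases hSe : S = ∅
  · -- no atypical elements
    subst hSe
    have hK1 : Module.finrank ℝ (KK A) ≤ 1 := by simpa using hK
    have hp : ∃ p, ¬ SA A p 0 := by
      by_contra hcon
      push Not at hcon
      have hall : ∀ a b, SA A a b := fun a b => SA_trans A a 0 b (hcon a) (SA_symm A b 0 (hcon b))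
      rcases hC with ⟨m1, m2, -, -, h⟩ | ⟨h, m, -, h', -⟩
      · exact h (hall _ _)
      · exact h' (hall _ _)
    obtain ⟨p0, hp0⟩ := hp
    have hp00 : p0 ≠ 0 := by rintro rfl; exact hp0 (SA_refl A 0)
    have ha : ∃ a0, cmp a0 (A p0) - cmp a0 (A 0) ≠ 0 := by
      by_contra hcon
      push Not at hcon
      refine hp0 ⟨?_, ?_⟩
      · have := hcon true; simpa [cmp, sub_eq_zero] using this
      · have := hcon false; simpa [cmp, sub_eq_zero] using this
    obtain ⟨a0, ha0⟩ := ha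
    set γ := cmp a0 (A p0) - cmp a0 (A 0) with hγ
    refine ⟨Sum.inl (p0, a0), nrm γ (A 0) A, ⟨hp00, nrm_self γ A 0, ?_⟩, fun k => wk_nrm γ ha0 _ A k,
      LD_nrm γ ha0 _ A (LD_of_ND A hA), ?_⟩
    · have : cmp a0 (nrm γ (A 0) A p0) = (cmp a0 (A p0) - cmp a0 (A 0)) / γ := by
        cases a0 <;> simp [cmp, nrm]
      rw [this, ← hγ, div_self ha0]
    · show (l + 5) * (l + 4) - 2 + 1 + _ ≤ _
      have : 2 ≤ (l + 5) * (l + 4) := by nlinarith
      omega
  · obtain ⟨s, hs⟩ := Finset.nonempty_iff_ne_empty.2 hSe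
    have hsT : ¬ Typ A s := by
      intro h; exact ((hS s).2 h) hs
    obtain ⟨q, hq, hx⟩ := dep_rel A s hsT
    have hi0 : ∃ i0 : Fin (l + 5), s ≠ i0 := by
      by_cases h : s = 0
      · exact ⟨1, by
          subst h
          intro h
          have := congrArg Fin.val h
          simp at this⟩
      · exact ⟨0, h⟩
    obtain ⟨i0, hi0⟩ := hi0
    refine ⟨Sum.inr (Sum.inl (s, i0, q)), subF A (A i0), ⟨hi0, hq, ?_, hx i0⟩,
      fun k => wk_subF _ A k, LD_subF _ A (LD_of_ND A hA), ?_⟩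
    · simp [subF]
    · show (l + 5) * (l + 4) - l + 3 + 1 + _ ≤ _
      have h1 : l ≤ (l + 5) * (l + 4) := by nlinarith
      have h2 : S.card * (S.card - 1) ≤ 16 * 15 := Nat.mul_le_mul hS16 (by omega)
      omega

theorem card_class (A : Fan l) (W : Finset (Fin (l + 5)))
    (ρ : Fin (l + 5) → Fin (l + 5)) (h : Deg A W ρ)
    (k : ℕ) (g : ℂ) (σ : Equiv.Perm (Fin (l + 5))) (hR : Rot A W ρ k g σ) :
    Wᶜ.card = (Finset.univ.filter (fun p => p ∉ W ∧ ρ p = p)).card * k := by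
  classical
  set R := Finset.univ.filter (fun p => p ∉ W ∧ ρ p = p) with hRdef
  have hrho : ∀ i p, ρ ((σ ^ i) p) = ρ p := by
    intro i; induction i with
    | zero => intro p; simp
    | succ n ih => intro p; rw [pow_succ', Equiv.Perm.mul_apply, hR.rho, ih]
  have hWσ : ∀ p, p ∉ W → ∀ i, (σ ^ i) p ∉ W := by
    intro p hp i hW
    have h1 := h.fix _ hW
    rw [hrho] at h1
    have h2 := h.maps p hp
    rw [h1] at h2
    exact h2 hW
  have : Wᶜ = (R ×ˢ Finset.range k).image (fun q => (σ ^ q.2) q.1) := by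
    ext p
    simp only [Finset.mem_compl, Finset.mem_image, Finset.mem_product, Finset.mem_range, Prod.exists]
    constructor
    · intro hp
      obtain ⟨i, hi, hpi⟩ := hR.cyc (ρ p) p (h.maps p hp) (h.idem p)
      exact ⟨ρ p, i, ⟨by simp [hRdef, h.maps p hp, h.idem p], hi⟩, hpi.symm⟩
    · rintro ⟨a, i, ⟨ha, hi⟩, rfl⟩
      simp only [hRdef, Finset.mem_filter, Finset.mem_univ, true_and] at ha
      exact hWσ a ha.1 i
  rw [this, Finset.card_image_of_injOn, Finset.card_product, Finset.card_range]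
  rintro ⟨a, i⟩ ha ⟨b, j⟩ hb hab
  simp only [Finset.coe_product, Set.mem_prod, Finset.mem_coe, Finset.mem_range] at ha hb
  simp only at hab
  have haR := ha.1; have hbR := hb.1
  simp only [hRdef, Finset.mem_filter, Finset.mem_univ, true_and] at haR hbR
  have h1 : a = b := by
    have := congrArg ρ hab
    rw [hrho, hrho, haR.2, hbR.2] at this
    exact this
  subst h1
  have key : ∀ i j : ℕ, i < k → j < k → i ≤ j → (σ ^ i) a = (σ ^ j) a → i = j := by
    intro i j hi hj hij he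
    by_contra hne
    have hlt : i < j := lt_of_le_of_ne hij hne
    have : (σ ^ (j - i)) a = a := by
      have h2 : (σ ^ j) a = (σ ^ i) ((σ ^ (j - i)) a) := by
        rw [← Equiv.Perm.mul_apply, ← pow_add]; congr 2; omega
      rw [h2] at he
      exact ((σ ^ i).injective he).symm
    exact hR.free a haR.1 (j - i) (by omega) (by omega) this
  rcases le_total i j with hij | hij
  · rw [key i j ha.2 hb.2 hij hab]
  · rw [key j i hb.2 ha.2 hij hab.symm]

theorem card_compl_eq (A : Fan l) (W : Finset (Fin (l + 5)))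
    (ρ : Fin (l + 5) → Fin (l + 5)) (h : Deg A W ρ) :
    Wᶜ.card = (Finset.univ.filter (fun p => p ∉ W ∧ ρ p = p)).card + cN ρ := by
  classical
  unfold cN
  rw [← Finset.card_union_of_disjoint]
  · congr 1
    ext p
    simp only [Finset.mem_compl, Finset.mem_union, Finset.mem_filter, Finset.mem_univ, true_and]
    constructor
    · intro hp; by_cases hh : ρ p = p
      · exact Or.inl ⟨hp, hh⟩
      · exact Or.inr hh
    · rintro (hp | hp)
      · exact hp.1
      · intro hW; exact hp (h.fix p hW)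
  · rw [Finset.disjoint_left]
    intro p hp hp'
    simp only [Finset.mem_filter, Finset.mem_univ, true_and] at hp hp'
    exact hp' hp.2

theorem Rot_pow (A : Fan l) (W : Finset (Fin (l + 5)))
    (ρ : Fin (l + 5) → Fin (l + 5)) (h : Deg A W ρ)
    (k : ℕ) (g : ℂ) (σ : Equiv.Perm (Fin (l + 5))) (hR : Rot A W ρ k g σ) (i : ℕ) (p : Fin (l + 5))
    (hp : p ∉ W) : (σ ^ i) p ∉ W ∧ (A ((σ ^ i) p)).1 = g ^ i * (A p).1 ∧
      (A ((σ ^ i) p)).2.1 = g ^ i * (A p).2.1 := by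
  induction i with
  | zero => simpa using hp
  | succ n ih =>
    obtain ⟨h1, h2, h3⟩ := ih
    have hs := hR.sA _ h1
    rw [pow_succ', Equiv.Perm.mul_apply]
    refine ⟨?_, ?_, ?_⟩
    · intro hW
      have h4 := h.fix _ hW
      rw [hR.rho] at h4
      have h5 := h.maps _ h1
      rw [h4] at h5
      exact h5 hW
    · rw [hs.1, h2, pow_succ]; ring
    · rw [hs.2, h3, pow_succ]; ring

/-- degenerate case -/
theorem cover_deg (hl : 300 ≤ l) (A : Fan l) (hA : ND A) (W : Finset (Fin (l + 5)))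
    (ρ : Fin (l + 5) → Fin (l + 5)) (h : Deg A W ρ) (m0 : Fin (l + 5)) (hm0 : m0 ∈ W)
    (hT : Typ A m0) (hA0 : A m0 = 0) :
    ∃ (i : Ix l) (A' : Fan l), A' ∈ SI i ∧ (∀ k, wk l k A' = wk l k A) ∧
      LD A' ∧ NI i + 1 + Module.finrank ℝ (KK A) ≤ (l + 5) * (l + 4) := by
  classical
  obtain ⟨hc, hd⟩ := deg_counts A hA W ρ h
  have hcN : (Finset.univ.filter (fun p => ρ p ≠ p)).card = cN ρ := rfl
  rw [hcN] at hc hd
  have hWc : W.card + Wᶜ.card = l + 5 := by
    rw [Finset.card_add_card_compl]; simp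
  have hWcard : 2 < W.card := by omega
  have hSB : ∀ p, SB A p (ρ p) := by
    intro p
    by_cases hp : p ∈ W
    · rw [h.fix p hp]; rfl
    · exact ((h.cls p (ρ p) hp (h.maps p hp)).1 (h.idem p).symm).1
  have hS2 : A ∈ S2 W ρ m0 := ⟨h.fix m0 hm0, h.idem, hA0, h.zero, hSB⟩
  by_cases h3 : cN ρ ≤ 3
  · obtain ⟨j0, hj0, hne⟩ := Finset.exists_mem_ne (s := W) (by omega) m0
    have hK := T2 A hA W ρ h m0 j0 hm0 hT hj0 hne
    rw [hcN] at hK
    refine ⟨Sum.inr (Sum.inr (Sum.inl (W, ρ, m0))), A, hS2, fun k => rfl, LD_of_ND A hA, ?_⟩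
    show (l + 4 - cN ρ) * (l + 1) + 4 * Wᶜ.card + 1 + _ ≤ _
    have hd6 : Wᶜ.card ≤ 6 := by omega
    have h8 : (Wᶜ.card + 2) ^ 2 ≤ 64 := by
      calc (Wᶜ.card + 2) ^ 2 ≤ 8 ^ 2 := Nat.pow_le_pow_left (by omega) 2
        _ = 64 := by norm_num
    have h9 : cN ρ * W.card ≤ cN ρ * (l + 5) := Nat.mul_le_mul_left _ (by omega)
    generalize cN ρ = c at *
    generalize Module.finrank ℝ (KK A) = K at *
    generalize (Wᶜ.card + 2) ^ 2 = Q at *
    generalize c * W.card = P at *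
    interval_cases c <;> simp only [Nat.add_sub_cancel, Nat.reduceSubDiff, Nat.sub_zero] <;> nlinarith
  · have h4 : cN ρ = 4 := by omega
    by_cases hNR : NR A W ρ
    · have hK := T3 A hA W ρ h h4 hNR (by omega)
      refine ⟨Sum.inr (Sum.inr (Sum.inl (W, ρ, m0))), A, hS2, fun k => rfl, LD_of_ND A hA, ?_⟩
      show (l + 4 - cN ρ) * (l + 1) + 4 * Wᶜ.card + 1 + _ ≤ _
      have hd6 : Wᶜ.card ≤ 8 := by omega
      have h8 : (Wᶜ.card) ^ 2 ≤ 64 := by
        calc (Wᶜ.card) ^ 2 ≤ 8 ^ 2 := Nat.pow_le_pow_left (by omega) 2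
          _ = 64 := by norm_num
      rw [h4]
      have : l + 4 - 4 = l := by omega
      rw [this]
      nlinarith
    · obtain ⟨k, g, σ, hkg, hR⟩ := rot_of_not A hA W ρ h h4 hNR
      have hK := T4 A hA W ρ h h4 k g σ hR (by omega)
      have hcc := card_class A W ρ h k g σ hR
      have hce := card_compl_eq A W ρ h
      have hnr : ∃ p, ρ p ≠ p := by
        have : 0 < cN ρ := by omega
        unfold cN at this
        obtain ⟨p, hp⟩ := Finset.card_pos.1 this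
        exact ⟨p, by simpa using hp⟩
      obtain ⟨p, hp⟩ := hnr
      have hpW : p ∉ W := fun hW => hp (h.fix p hW)
      set p0 := ρ p with hp0
      have hp0W : p0 ∉ W := h.maps p hpW
      have ha : ∃ a0, cmp a0 (A p0) ≠ 0 := by
        by_contra hcon
        push Not at hcon
        refine h.nz p0 hp0W ⟨?_, ?_⟩
        · have := hcon true; simpa [cmp] using this
        · have := hcon false; simpa [cmp] using this
      obtain ⟨a0, ha0⟩ := ha
      have hcyc : ∀ q, ∃ i, q ∉ W → q = (σ ^ i) (ρ q) := by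
        intro q
        by_cases hq : q ∈ W
        · exact ⟨0, fun hh => absurd hq hh⟩
        · obtain ⟨i, -, hi⟩ := hR.cyc (ρ q) q (h.maps q hq) (h.idem q)
          exact ⟨i, fun _ => hi⟩
      choose n hn using hcyc
      have hk : ∃ kb : Bool, gk kb = g := by
        rcases hkg with ⟨-, hg⟩ | ⟨-, hg⟩
        · exact ⟨true, by simp [gk, hg]⟩
        · exact ⟨false, by simp [gk, hg]⟩
      obtain ⟨kb, hkb⟩ := hk
      set γ := cmp a0 (A p0) with hγ
      refine ⟨Sum.inr (Sum.inr (Sum.inr (W, ρ, m0, p0, a0, kb, n))), nrm γ (A m0) A,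
        ⟨h.fix m0 hm0, hm0, h.idem, h.maps, h.idem p, hp0W, nrm_self γ A m0, ?_, ?_, ?_, ?_⟩,
        fun k => wk_nrm γ ha0 _ A k, LD_nrm γ ha0 _ A (LD_of_ND A hA), ?_⟩
      · intro m hm
        simp [nrm, hA0, h.zero m hm]
      · intro q
        have := hSB q
        unfold SB at this ⊢
        simp [nrm, this]
      · intro q hq
        have h1 := Rot_pow A W ρ h k g σ hR (n q) (ρ q) (h.maps q hq)
        rw [← hn q hq] at h1
        obtain ⟨-, h2, h3'⟩ := h1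
        rw [hkb]
        constructor
        · simp only [nrm, hA0, Prod.fst_zero, sub_zero]
          rw [h2]; ring
        · simp only [nrm, hA0, Prod.snd_zero, Prod.fst_zero, sub_zero]
          rw [h3']; ring
      · have : cmp a0 (nrm γ (A m0) A p0) = cmp a0 (A p0) / γ := by
          cases a0 <;> simp [cmp, nrm, hA0]
        rw [this, ← hγ, div_self ha0]
      · show (l + 4 - cN ρ) * (l + 1) +
          (4 * (Finset.univ.filter (fun p => p ∉ W ∧ ρ p = p)).card - 2) + 1 + _ ≤ _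
        rw [h4]
        have e1 : l + 4 - 4 = l := by omega
        rw [e1]
        rw [h4] at hce
        set r := (Finset.univ.filter (fun p => p ∉ W ∧ ρ p = p)).card with hr
        rcases hkg with ⟨hk2, -⟩ | ⟨hk3, -⟩
        · subst hk2
          have hr4 : r = 4 := by omega
          have hd8 : Wᶜ.card = 8 := by omega
          have hWl : W.card = l - 3 := by omega
          rw [hd8, hWl] at hK
          rw [hr4]
          have : 8 * (l - 3) = 8 * l - 24 := by omega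
          have h5 : l * (l + 1) + (4 * 4 - 2) + 1 + Module.finrank ℝ (KK A) ≤ l * (l + 1) + 8 * l + 20 := by
            omega
          nlinarith
        · subst hk3
          have hr4 : r = 2 := by omega
          have hd8 : Wᶜ.card = 6 := by omega
          have hWl : W.card = l - 1 := by omega
          rw [hd8, hWl] at hK
          rw [hr4]
          have h5 : l * (l + 1) + (4 * 2 - 2) + 1 + Module.finrank ℝ (KK A) ≤ l * (l + 1) + 8 * l + 20 := by
            omega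
          nlinarith

theorem cover (hl : 300 ≤ l) (A : Fan l) (hA : ND A) :
    ∃ (i : Ix l) (A' : Fan l), A' ∈ SI i ∧ (∀ k, wk l k A' = wk l k A) ∧
      LD A' ∧ NI i + 1 + Module.finrank ℝ (KK A) ≤ (l + 5) * (l + 4) := by
  classical
  obtain ⟨S, hS, hS16⟩ := nontyp_card A hA
  by_cases hC : (∃ m1 m2, Typ A m1 ∧ Typ A m2 ∧ ¬ SA A m1 m2) ∨
      (∃ h m, Typ A m ∧ ¬ SA A h m ∧ cl A h m = {h} ∧ ∀ m', Typ A m' → SA A m' m)
  · exact cover_gen hl A hA S hS hS16 hC
  · push Not at hC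
    obtain ⟨hC1, hC2⟩ := hC
    have hm0 : ∃ m0, m0 ∉ S := by
      by_contra hcon
      push Not at hcon
      have : S = Finset.univ := Finset.eq_univ_iff_forall.2 hcon
      rw [this] at hS16
      simp at hS16
      omega
    obtain ⟨m0, hm0⟩ := hm0
    have hT0 := (hS m0).1 hm0
    have hSA : ∀ m, Typ A m → SA A m m0 := fun m hm => hC1 m m0 hm hT0
    obtain ⟨W, ρ, hmW, -, hDeg⟩ := deg_exists A m0 hT0 hSA (by
      intro h hns hcl
      obtain ⟨m', hm', hns'⟩ := hC2 h m0 hT0 hns hcl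
      exact hns' (hSA m' hm'))
    obtain ⟨i, A', h1, h2, h3, h4⟩ := cover_deg hl (subF A (A m0)) (ND_subF _ A hA) W ρ hDeg m0 hmW
      ((Typ_subF _ A m0).2 hT0) (by simp [subF])
    refine ⟨i, A', h1, fun k => (h2 k).trans (wk_subF _ A k), h3, ?_⟩
    rw [KK_subF] at h4
    exact h4

theorem main_measure (l : ℕ) (hl : 300 ≤ l) :
    ∃ μ : Measure (X l), IsFiniteMeasure μ ∧ μ ≪ volume ∧
      ∀ A : Fan l, ND A → ¬ (∀ i j k m : Fin (l + 5), i ≠ j → k ≠ m →
          μ {x | ∀ q, ev (A q) x ≤ ev (A i) x ∧ ev (A j) x ≤ ev (A q) x} =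
          μ {x | ∀ q, ev (A q) x ≤ ev (A k) x ∧ ev (A m) x ≤ ev (A q) x}) :=
  final2 (Ix l) SI NI Cov_SI (fun A hA => cover hl A hA)

theorem disproof :
    ¬ (∀ n : ℕ, 1 ≤ n →
      ∀ w : Fin (n+1) → EuclideanSpace ℝ (Fin n),
        AffineIndependent ℝ w →
        (∃ d : ℝ, ∀ i j : Fin (n+1), i ≠ j → dist (w i) (w j) = d) →
        ∀ μ : MeasureTheory.Measure (EuclideanSpace ℝ (Fin n)),
          MeasureTheory.IsFiniteMeasure μ →
          MeasureTheory.Measure.AbsolutelyContinuous μ MeasureTheory.volume →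
          ∃ A : EuclideanSpace ℝ (Fin n) ≃ᵃ[ℝ] EuclideanSpace ℝ (Fin n),
            ∀ i j k l : Fin (n+1), i ≠ j → k ≠ l →
              μ (A '' {x : EuclideanSpace ℝ (Fin n) |
                  ∀ m : Fin (n+1), inner ℝ x (w m) ≤ inner ℝ x (w i) ∧
                    inner ℝ x (w j) ≤ inner ℝ x (w m)})
              = μ (A '' {x : EuclideanSpace ℝ (Fin n) |
                  ∀ m : Fin (n+1), inner ℝ x (w m) ≤ inner ℝ x (w k) ∧
                    inner ℝ x (w l) ≤ inner ℝ x (w m)})) := by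
  obtain ⟨μ, h1, h2, h3⟩ := main_measure 300 le_rfl
  exact transfer 300 μ h1 h2 h3

end FanRD
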